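import Mathlib

/-!
MP_009fd8_ag, leaf file: density of the integers in the completion.
-/

namespace Pool.Agent.MP009fd8

open IsDedekindDomain NumberField

/-- Every element of valuation at most 1 of the completion is close to an element of the
ring of integers.

Proof. denseRange_algebraMap (Mathlib/RingTheory/DedekindDomain/AdicValuation.lean, line 883)
gives k in K with v(x - k) < min(gamma, 1) or so, hence v(k) <= 1
(valuedAdicCompletion_eq_valuation'); then exists_valuation_sub_lt_of_integer (line 561) gives
m in the ring of integers with v(m - k) < gamma. -/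
theorem exists_int_sub_lt {K : Type*} [Field K] [NumberField K] (v : HeightOneSpectrum (𝓞 K))
    (x : v.adicCompletion K) (hx : Valued.v x ≤ 1) (γ : WithZero (Multiplicative ℤ))
    (hγ : 0 < γ) :
    ∃ m : 𝓞 K, Valued.v (x - algebraMap K (v.adicCompletion K) (algebraMap (𝓞 K) K m)) < γ := by
  have hγ0 : (0 : WithZero (Multiplicative ℤ)) < min γ 1 := lt_min hγ one_pos
  obtain ⟨π, hπ⟩ := v.valuation_exists_uniformizer K
  have hπ1 : v.valuation K π < 1 := by
    rw [hπ, ← WithZero.exp_zero, WithZero.exp_lt_exp]
    norm_num
  have hπ0 : v.valuation K π ≠ 0 := by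
    rw [hπ]
    exact WithZero.exp_ne_zero
  obtain ⟨n, hn⟩ := exists_pow_lt₀ hπ1 (Units.mk0 _ hγ0.ne')
  rw [Units.val_mk0] at hn
  have hy : Valued.v (algebraMap K (v.adicCompletion K) (π ^ n)) = v.valuation K π ^ n := by
    rw [← map_pow (v.valuation K)]
    exact HeightOneSpectrum.valuedAdicCompletion_eq_valuation' v (π ^ n)
  have hy0 : 0 < Valued.v (algebraMap K (v.adicCompletion K) (π ^ n)) := by
    rw [hy]
    exact pow_pos (zero_lt_iff.mpr hπ0) n
  have hopen : IsOpen {y : v.adicCompletion K | Valued.v (y - x)
      < Valued.v (algebraMap K (v.adicCompletion K) (π ^ n))} := by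
    have h := (Valued.isOpen_ball (v.adicCompletion K)
      (Valued.v.restrict (algebraMap K (v.adicCompletion K) (π ^ n)))).preimage
      (continuous_id.sub (continuous_const (y := x)))
    convert h using 1
    ext y
    exact (Valuation.restrict_lt_iff
      (Valued.v (R := v.adicCompletion K) (Γ₀ := WithZero (Multiplicative ℤ)))).symm
  obtain ⟨k, hk⟩ := (HeightOneSpectrum.denseRange_algebraMap K v).exists_mem_open hopen
    ⟨x, by simpa using hy0⟩
  have hk' : Valued.v (algebraMap K (v.adicCompletion K) k - x) < min γ 1 :=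
    lt_trans hk (by rw [hy]; exact hn)
  have hk1 : Valued.v (algebraMap K (v.adicCompletion K) k) ≤ 1 := by
    have h1 : algebraMap K (v.adicCompletion K) k
        = (algebraMap K (v.adicCompletion K) k - x) + x := by ring
    rw [h1]
    exact Valued.v.map_add_le (hk'.le.trans (min_le_right _ _)) hx
  have hk2 : v.valuation K k ≤ 1 := by
    rw [← HeightOneSpectrum.valuedAdicCompletion_eq_valuation' v k]
    exact hk1
  obtain ⟨a, ha⟩ := v.exists_valuation_sub_lt_of_integer hk2 (Units.mk0 γ hγ.ne')
  refine ⟨a, ?_⟩
  have ha' : Valued.v (algebraMap K (v.adicCompletion K) (algebraMap (𝓞 K) K a - k)) < γ := by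
    have := HeightOneSpectrum.valuedAdicCompletion_eq_valuation' v (algebraMap (𝓞 K) K a - k)
    rw [show Valued.v (algebraMap K (v.adicCompletion K) (algebraMap (𝓞 K) K a - k))
      = v.valuation K (algebraMap (𝓞 K) K a - k) from this]
    simpa using ha
  have h2 : x - algebraMap K (v.adicCompletion K) (algebraMap (𝓞 K) K a)
      = -(algebraMap K (v.adicCompletion K) k - x)
        - algebraMap K (v.adicCompletion K) (algebraMap (𝓞 K) K a - k) := by
    rw [map_sub]; ring
  rw [h2]
  refine Valued.v.map_sub_lt ?_ ha'
  rw [Valuation.map_neg]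
  exact hk'.trans_le (min_le_left _ _)

end Pool.Agent.MP009fd8
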