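import Pool.Agent.Lib.MP_009fd8_ag.Def

/-!
MP_009fd8_ag, leaf file: the place 2, odd valuation.
-/

namespace Pool.Agent.MP009fd8

/-- In a value group, if d * x^2 = y^2 with x nonzero then d is a square. -/
theorem isSquare_of_mul_sq_eq_sq {Γ : Type*} [LinearOrderedCommGroupWithZero Γ] {d x y : Γ}
    (hx : x ≠ 0) (h : d * x ^ 2 = y ^ 2) : IsSquare d :=
  ⟨y / x, by field_simp; rw [← h]⟩

/-- At the place 2: C_(d,d) with d of odd valuation (not a square in the value group) has no
point, when q is a unit. -/
theorem no_point_odd {F : Type*} [Field F] {Γ : Type*} [LinearOrderedCommGroupWithZero Γ]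
    (v : Valuation F Γ) (q d : F) (hd0 : d ≠ 0) (hd : ¬ IsSquare (v d)) (hq : v q = 1)
    (h : HasPoint q d d) : False := by
  obtain ⟨X, Y, Z, W, hne, h1, h2⟩ := h
  have hvd0 : v d ≠ 0 := by simpa using hd0
  -- values of the terms
  have vX : v (d * X ^ 2) = v d * v X ^ 2 := by simp
  have vY : v (d * Y ^ 2) = v d * v Y ^ 2 := by simp
  have vW : v (q * W ^ 2) = v W ^ 2 := by simp [hq]
  have vZ : v (d * d * Z ^ 2) = (v (d * Z)) ^ 2 := by
    rw [← map_pow]; congr 1; ring
  by_cases hW : W = 0
  · subst hW
    have h2' : d * d * Z ^ 2 = d * X ^ 2 := by rw [h2]; ring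
    by_cases hX : X = 0
    · subst hX
      have hZ : Z = 0 := by
        have : d * d * Z ^ 2 = 0 := by rw [h2']; ring
        have := (mul_eq_zero.mp this).resolve_left (mul_ne_zero hd0 hd0)
        exact pow_eq_zero_iff two_ne_zero |>.mp this
      have hY : Y = 0 := by
        have : d * Y ^ 2 = 0 := by rw [h1]; ring
        have := (mul_eq_zero.mp this).resolve_left hd0
        exact pow_eq_zero_iff two_ne_zero |>.mp this
      simp [hZ, hY] at hne
    · apply hd
      have hvX : v X ≠ 0 := by simpa using hX
      refine isSquare_of_mul_sq_eq_sq hvX (y := v (d * Z)) ?_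
      rw [← vX, ← vZ, h2']
  · have hvW : v W ≠ 0 := by simpa using hW
    rcases lt_trichotomy (v (d * X ^ 2)) (v (q * W ^ 2)) with hlt | heq | hgt
    · have : v (d * Y ^ 2) = v (q * W ^ 2) := by
        rw [h1]; exact Valuation.map_sub_eq_of_lt_right v hlt
      rw [vY, vW] at this
      by_cases hY : v Y = 0
      · rw [hY] at this
        simp at this
        exact hvW (by simpa using this.symm)
      · exact hd (isSquare_of_mul_sq_eq_sq hY this)
    · rw [vX, vW] at heq
      by_cases hX : v X = 0
      · rw [hX] at heq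
        simp at heq
        exact hvW (by simpa using heq.symm)
      · exact hd (isSquare_of_mul_sq_eq_sq hX heq)
    · have : v (d * d * Z ^ 2) = v (d * X ^ 2) := by
        rw [h2]; exact Valuation.map_add_eq_of_lt_left v hgt
      rw [vZ, vX] at this
      by_cases hX : v X = 0
      · rw [vX, hX] at hgt
        simp at hgt
      · exact hd (isSquare_of_mul_sq_eq_sq hX this.symm)

end Pool.Agent.MP009fd8
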