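import Pool.Agent.Lib.MP_009fd8_ag.Def

/-!
MP_009fd8_ag, leaf file: the place 2, unit case.
-/

namespace Pool.Agent.MP009fd8

namespace At2bA

section

variable {O : Type*} [CommRing O] [IsDomain O]

omit [IsDomain O] in
/-- A multiple of two is not a unit. -/
theorem not_unit_two_mul (h2u : ¬ IsUnit (2 : O)) {x y : O} (h : x = 2 * y) : ¬ IsUnit x := by
  intro hx
  rw [h] at hx
  exact h2u (isUnit_of_mul_isUnit_left hx)

theorem core (h20 : (2 : O) ≠ 0) (h2u : ¬ IsUnit (2 : O)) (hmax : ∀ x : O, IsUnit x ∨ 2 ∣ x)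
    {q u c e : O} (hq : IsUnit q) (hu : IsUnit u) (hc : IsUnit c)
    (hqe : 4 ∣ q - c ^ 2 * (1 + 2 * e)) (hroot : ∀ y : O, IsUnit (y ^ 3 + e * y + 1))
    {X Y Z W : O} (hone : IsUnit X ∨ IsUnit Y ∨ IsUnit Z ∨ IsUnit W)
    (e1 : u * Y ^ 2 = u * X ^ 2 - q * W ^ 2) (e2 : Z ^ 2 = u * X ^ 2 + q * W ^ 2) :
    ∃ g : O, 4 ∣ u - g ^ 2 := by
  obtain ⟨k, hk⟩ := hqe
  obtain ⟨c', hc'⟩ := isUnit_iff_exists_inv.1 hc
  have hsq : ∀ {x y : O}, x ^ 2 = 2 * y → 2 ∣ x := by
    intro x y h
    rcases hmax x with h1 | h1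
    · exact absurd (h1.pow 2) (not_unit_two_mul h2u h)
    · exact h1
  have h2ne : ∀ {x y : O}, 2 * x = 2 * y → x = y := fun h => mul_left_cancel₀ h20 h
  rcases hmax W with hW | ⟨w, hw⟩
  · obtain ⟨W', hW'⟩ := isUnit_iff_exists_inv.1 hW
    rcases hmax X with hX | ⟨x, hx⟩
    · rcases hmax Y with hY | ⟨y, hy⟩
      · -- all units
        have hZ : IsUnit Z := by
          rcases hmax Z with hZ | ⟨z, hz⟩
          · exact hZ
          · exfalso
            refine not_unit_two_mul h2u (y := 2 * z ^ 2 - q * W ^ 2) ?_ (hu.mul (hY.pow 2))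
            rw [hz] at e2
            linear_combination e1 - e2
        obtain ⟨Z', hZ'⟩ := isUnit_iff_exists_inv.1 hZ
        obtain ⟨k', hk'⟩ : ∃ k', q = c ^ 2 * (1 + 2 * e + 4 * k') := by
          refine ⟨c' ^ 2 * k, ?_⟩
          linear_combination hk - 4 * k * (c * c' + 1) * hc'
        obtain ⟨T, hT⟩ : ∃ T, T = Z * (c' * W') := ⟨_, rfl⟩
        obtain ⟨S, hS⟩ : ∃ S, S = u * X * Y * (c' * W') ^ 2 := ⟨_, rfl⟩
        obtain ⟨d, hd⟩ : ∃ d, d = c' * W' := ⟨_, rfl⟩
        have hd1 : d * (c * W) = 1 := by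
          rw [hd]
          linear_combination W * W' * hc' + hW'
        have hqW : q * W ^ 2 * d ^ 2 = 1 + 2 * e + 4 * k' := by
          rw [hk']
          linear_combination ((1 + 2 * e + 4 * k') * (d * (c * W) + 1)) * hd1
        rw [← hd] at hT hS
        have h1 : S ^ 2 = (T ^ 2 - (1 + 2 * e + 4 * k')) * (T ^ 2 - 2 * (1 + 2 * e + 4 * k')) := by
          rw [← hqW, hS, hT]
          have h3 : u * X ^ 2 = Z ^ 2 - q * W ^ 2 := by linear_combination -e2
          have h4 : u * Y ^ 2 = Z ^ 2 - 2 * (q * W ^ 2) := by linear_combination e1 - e2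
          calc (u * X * Y * d ^ 2) ^ 2 = (u * X ^ 2) * (u * Y ^ 2) * d ^ 4 := by ring
            _ = _ := by rw [h3, h4]; ring
        obtain ⟨m, hm⟩ : 2 ∣ S - (T ^ 2 + T) := by
          apply hsq (y := -2 * T ^ 2 - 3 * e * T ^ 2 - 6 * k' * T ^ 2 +
            (1 + 2 * e + 4 * k') ^ 2 - T ^ 3 - (T ^ 2 + T) * (S - (T ^ 2 + T)))
          linear_combination h1
        have hS2 : S = T ^ 2 + T + 2 * m := by linear_combination hm
        rw [hS2] at h1
        have h5 : -2 * T ^ 2 - 3 * e * T ^ 2 - 6 * k' * T ^ 2 + (1 + 2 * e + 4 * k') ^ 2 - T ^ 3 =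
            2 * (m * (T ^ 2 + T) + m ^ 2) := by
          apply h2ne
          linear_combination -h1
        have hTu : IsUnit T := by
          rw [hT]
          exact hZ.mul (isUnit_iff_exists_inv.2 ⟨c * W, hd1⟩)
        obtain ⟨y, hy⟩ := isUnit_iff_exists_inv.1 hTu
        exfalso
        have hy2 : y ^ 3 * T ^ 3 = 1 := by
          have h6 : (T * y) ^ 3 = 1 := by rw [hy, one_pow]
          linear_combination h6
        have hy3 : y ^ 3 * T ^ 2 = y := by
          have h6 : (T * y) ^ 2 = 1 := by rw [hy, one_pow]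
          linear_combination y * h6
        refine not_unit_two_mul h2u (y := y ^ 3 * (-(m * (T ^ 2 + T) + m ^ 2)) +
          (-T ^ 2 * y ^ 3) + (-e * y) + (-3 * k' * T ^ 2 * y ^ 3) +
          (2 * e + 4 * k' + 2 * (e + 2 * k') ^ 2) * y ^ 3 + y ^ 3 + 0) ?_ (hroot y)
        linear_combination (-y ^ 3) * h5 - hy2 - 3 * e * hy3
      · -- `Y` not a unit
        exfalso
        have h1 : Z ^ 2 = 2 * (q * W ^ 2 + 2 * (u * y ^ 2)) := by
          rw [hy] at e1
          linear_combination e2 - e1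
        obtain ⟨z, hz⟩ := hsq h1
        rw [hz] at h1
        have h2 : 2 * z ^ 2 = q * W ^ 2 + 2 * (u * y ^ 2) := by
          apply h2ne
          linear_combination h1
        refine not_unit_two_mul h2u (y := z ^ 2 - u * y ^ 2) ?_ (hq.mul (hW.pow 2))
        linear_combination -h2
    · -- `X` not a unit
      exfalso
      obtain ⟨g, hg⟩ : ∃ g, g = Z * W' := ⟨_, rfl⟩
      obtain ⟨h, hh⟩ : ∃ h, h = g * c' := ⟨_, rfl⟩
      have hW2 : W ^ 2 * W' ^ 2 = 1 := by
        have h6 : (W * W') ^ 2 = 1 := by rw [hW', one_pow]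
        linear_combination h6
      have hc2 : c ^ 2 * c' ^ 2 = 1 := by
        have h6 : (c * c') ^ 2 = 1 := by rw [hc', one_pow]
        linear_combination h6
      have h1 : h ^ 2 = 1 + 2 * e + 4 * (k * c' ^ 2 + u * x ^ 2 * W' ^ 2 * c' ^ 2) := by
        rw [hh, hg]
        rw [hx] at e2
        linear_combination W' ^ 2 * c' ^ 2 * e2 + (q * c' ^ 2) * hW2 + c' ^ 2 * hk +
          (1 + 2 * e) * hc2
      obtain ⟨n, hn⟩ : ∃ n, n = k * c' ^ 2 + u * x ^ 2 * W' ^ 2 * c' ^ 2 := ⟨_, rfl⟩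
      rw [← hn] at h1
      obtain ⟨m, hm⟩ : 2 ∣ h - 1 := by
        apply hsq (y := e + 2 * n - (h - 1))
        linear_combination h1
      have hh1 : h = 1 + 2 * m := by linear_combination hm
      rw [hh1] at h1
      have h2 : e = 2 * (m + m ^ 2 - n) := by
        apply h2ne
        linear_combination -h1
      refine not_unit_two_mul h2u (y := 1 + (m + m ^ 2 - n)) ?_ (hroot 1)
      linear_combination h2
  · rcases hmax X with hX | ⟨x, hx⟩
    · obtain ⟨X', hX'⟩ := isUnit_iff_exists_inv.1 hX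
      refine ⟨Z * X', -(q * w ^ 2 * X' ^ 2), ?_⟩
      rw [hw] at e2
      linear_combination -X' ^ 2 * e2 - u * (X * X' + 1) * hX'
    · exfalso
      rcases hone with h | h | h | h
      · exact not_unit_two_mul h2u hx h
      · refine not_unit_two_mul h2u (y := 2 * u * x ^ 2 - 2 * q * w ^ 2) ?_ (hu.mul (h.pow 2))
        rw [hx, hw] at e1
        linear_combination e1
      · refine not_unit_two_mul h2u (y := 2 * u * x ^ 2 + 2 * q * w ^ 2) ?_ (h.pow 2)
        rw [hx, hw] at e2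
        linear_combination e2
      · exact not_unit_two_mul h2u hw h

end

end At2bA

open At2bA in
/-- At the place 2, unramified (hmax: v(2) is the largest value below 1), u and q units,
q = c^2 (1 + 2 e) modulo 4 with c a unit, and y^3 + e y + 1 without root in the residue field: if
C_(u,u) has a point then u is a square modulo 4.

Proof. The equations are u Y^2 = u X^2 - q W^2, (u Z)^2 = u X^2 + q W^2. Put Z' = u Z.
If W = 0: X is nonzero and u = (Z'/X)^2; v(Z'/X)^2 = v(u) = 1.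
If W is nonzero, divide by one of X, Y, Z', W of maximal value: all four have v at most 1 and one
of them has value 1. (Use v(2) v(x) <= v(4) iff v(x) <= v(2), and v(x) < 1 implies v(x) <= v(2).)
(1) v(W) < 1: then v(W) <= v(2), so Z'^2 = u X^2 modulo 4. If v(X) = 1 take g = Z'/X. If v(X) < 1:
v(u Y^2) <= v(4), so v(Y) < 1, likewise v(Z') < 1, contradiction with maximal value 1.
(2) v(W) = 1, v(X) < 1: (u Z)^2 = Z'^2 = q W^2 modulo 4, so q = g^2 modulo 4 with g = Z'/W, v(g) = 1;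
then (g/c)^2 = 1 + 2 e modulo 4; (g/c)^2 = 1 modulo 2 gives (g/c - 1)^2 of value < 1, so
g/c = 1 + 2 h with v(h) <= 1, so (g/c)^2 = 1 modulo 4, so v(2 e) <= v(4), v(e) <= v(2) < 1,
and y = 1 is a root: v(1 + e + 1) < 1, contradiction with hroot.
(3) v(W) = v(X) = 1, v(Y) < 1: u X^2 = q W^2 modulo 4, so Z'^2 = 2 q W^2 modulo 4, so
v(Z')^2 = v(2), so v(Z') < 1, v(Z') <= v(2), v(Z')^2 <= v(4) < v(2), contradiction.
(4) v(W) = v(X) = v(Y) = 1: Z'^2 = u Y^2 + 2 q W^2 has value 1, so v(Z') = 1, and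
(u X Y)^2 = (Z'^2 - q W^2)(Z'^2 - 2 q W^2). Put T = Z'/(c W), S = u X Y/(c^2 W^2), both of value 1
and q = c^2 (1 + 2 e + 4 k): S^2 = (T^2 - (1+2e+4k)) (T^2 - 2 (1+2e+4k))
= T^4 + T^2 + 2 e T^2 + 2 modulo 4 (as -3 = 1 modulo 4). Modulo 2: S^2 = (T^2 + T)^2, so
S = T^2 + T + 2 m with v(m) <= 1, so S^2 = T^4 + 2 T^3 + T^2 modulo 4; so 2 (e T^2 + 1 - T^3) = 0
modulo 4, so v(T^3 - e T^2 - 1) < 1; with y = 1/T (value 1): y^3 + e y + 1 has value < 1 (signs do not
matter modulo 2), contradiction with hroot. -/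
theorem sq_mod_four {F : Type*} [Field F] {Γ : Type*} [LinearOrderedCommGroupWithZero Γ]
    (v : Valuation F Γ) (q u c e : F) (h2 : v 2 < 1) (h20 : (2 : F) ≠ 0)
    (hmax : ∀ x : F, v x < 1 → v x ≤ v 2)
    (hq : v q = 1) (hu : v u = 1) (hc : v c = 1) (he : v e ≤ 1)
    (hqe : v (q - c ^ 2 * (1 + 2 * e)) ≤ v 4)
    (hroot : ∀ y : F, v y ≤ 1 → v (y ^ 3 + e * y + 1) = 1)
    (h : HasPoint q u u) : ∃ g : F, v g ≤ 1 ∧ v (u - g ^ 2) ≤ v 4 := by
  classical
  obtain ⟨X, Y, Z, W, h0, e1, e2⟩ := h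
  have hu0 : u ≠ 0 := by
    intro hcon
    rw [hcon, map_zero] at hu
    exact zero_ne_one hu
  have h40 : (4 : F) ≠ 0 := by
    have : (4 : F) = 2 * 2 := by norm_num
    rw [this]
    exact mul_ne_zero h20 h20
  -- the element of largest value
  obtain ⟨M, hM0, hMX, hMY, hMZ, hMW, hM⟩ : ∃ M : F, M ≠ 0 ∧ v X ≤ v M ∧ v Y ≤ v M ∧
      v (u * Z) ≤ v M ∧ v W ≤ v M ∧ (M = X ∨ M = Y ∨ M = u * Z ∨ M = W) := by
    obtain ⟨M, hM, hmx⟩ := Finset.exists_max_image ({X, Y, u * Z, W} : Finset F) v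
      ⟨X, Finset.mem_insert_self _ _⟩
    have hX := hmx X (by simp)
    have hY := hmx Y (by simp)
    have hZ := hmx (u * Z) (by simp)
    have hW := hmx W (by simp)
    refine ⟨M, ?_, hX, hY, hZ, hW, by simpa using hM⟩
    intro hcon
    rw [hcon, map_zero] at hX hY hZ hW
    have hX0 := (map_eq_zero v).1 (le_zero_iff.1 hX)
    have hY0 := (map_eq_zero v).1 (le_zero_iff.1 hY)
    have hZ0 := (mul_eq_zero.1 ((map_eq_zero v).1 (le_zero_iff.1 hZ))).resolve_left hu0
    have hW0 := (map_eq_zero v).1 (le_zero_iff.1 hW)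
    rcases h0 with h | h | h | h
    · exact h hX0
    · exact h hY0
    · exact h hZ0
    · exact h hW0
  have hvM : v M ≠ 0 := (v.ne_zero_iff).2 hM0
  have hdiv : ∀ x : F, v x ≤ v M → v (x / M) ≤ 1 := by
    intro x hx
    rw [map_div₀]
    exact div_le_one_of_le₀ hx zero_le
  -- units and multiples of two in the valuation ring
  have hunit : ∀ x : v.integer, IsUnit x ↔ v (x : F) = 1 := by
    intro x
    constructor
    · intro hx
      obtain ⟨y, hy⟩ := isUnit_iff_exists_inv.1 hx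
      have h1 : v (x : F) * v (y : F) = 1 := by
        rw [← map_mul, ← Subring.coe_mul, hy, Subring.coe_one, map_one]
      have h2 : v (x : F) ≤ 1 := x.2
      have h3 : v (y : F) ≤ 1 := y.2
      refine le_antisymm h2 ?_
      calc (1 : Γ) = v (x : F) * v (y : F) := h1.symm
        _ ≤ v (x : F) * 1 := by gcongr
        _ = v (x : F) := mul_one _
    · intro hx
      have hx0 : (x : F) ≠ 0 := by
        intro hcon
        rw [hcon, map_zero] at hx
        exact zero_ne_one hx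
      refine isUnit_iff_exists_inv.2 ⟨⟨(x : F)⁻¹, ?_⟩, ?_⟩
      · show v ((x : F)⁻¹) ≤ 1
        rw [map_inv₀, hx, inv_one]
      · apply Subtype.ext
        show (x : F) * (x : F)⁻¹ = 1
        exact mul_inv_cancel₀ hx0
  have hdvd : ∀ (n : ℕ) (hn : (n : F) ≠ 0) (x : v.integer), v (x : F) ≤ v (n : F) →
      (n : v.integer) ∣ x := by
    intro n hn x hx
    refine ⟨⟨(x : F) / n, ?_⟩, ?_⟩
    · show v ((x : F) / n) ≤ 1
      rw [map_div₀]
      exact div_le_one_of_le₀ hx zero_le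
    · apply Subtype.ext
      show (x : F) = ((n : v.integer) : F) * ((x : F) / n)
      have : ((n : v.integer) : F) = n := by simp
      rw [this, mul_div_cancel₀ _ hn]
  have h20' : ((2 : v.integer)) ≠ 0 := by
    intro hcon
    apply h20
    exact congrArg (fun x : v.integer => (x : F)) hcon
  have h2u : ¬ IsUnit (2 : v.integer) := by
    rw [hunit]
    have : ((2 : v.integer) : F) = 2 := rfl
    rw [this]
    exact h2.ne
  have hmx : ∀ x : v.integer, IsUnit x ∨ 2 ∣ x := by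
    intro x
    rcases lt_or_eq_of_le (show v (x : F) ≤ 1 from x.2) with hx | hx
    · right
      have := hdvd 2 (by exact_mod_cast h20) x (by simpa using hmax _ hx)
      simpa using this
    · left
      exact (hunit x).2 hx
  obtain ⟨g, k, hg⟩ := core (O := v.integer) h20' h2u hmx (q := ⟨q, hq.le⟩) (u := ⟨u, hu.le⟩)
    (c := ⟨c, hc.le⟩) (e := ⟨e, he⟩) ((hunit _).2 hq) ((hunit _).2 hu) ((hunit _).2 hc)
    (by
      have := hdvd 4 (by exact_mod_cast h40) ((⟨q, hq.le⟩ : v.integer) -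
        (⟨c, hc.le⟩ : v.integer) ^ 2 * (1 + 2 * (⟨e, he⟩ : v.integer))) (by exact_mod_cast hqe)
      simpa using this)
    (fun y => (hunit _).2 (hroot y y.2))
    (X := ⟨X / M, hdiv _ hMX⟩) (Y := ⟨Y / M, hdiv _ hMY⟩) (Z := ⟨u * Z / M, hdiv _ hMZ⟩)
    (W := ⟨W / M, hdiv _ hMW⟩)
    (by
      have h1 : v (M / M) = 1 := by rw [div_self hM0, map_one]
      rcases hM with hM | hM | hM | hM
      · left
        exact (hunit _).2 (by show v (X / M) = 1; rw [← hM]; exact h1)
      · right; left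
        exact (hunit _).2 (by show v (Y / M) = 1; rw [← hM]; exact h1)
      · right; right; left
        exact (hunit _).2 (by show v (u * Z / M) = 1; rw [← hM]; exact h1)
      · right; right; right
        exact (hunit _).2 (by show v (W / M) = 1; rw [← hM]; exact h1))
    (by
      apply Subtype.ext
      show u * (Y / M) ^ 2 = u * (X / M) ^ 2 - q * (W / M) ^ 2
      field_simp
      linear_combination e1)
    (by
      apply Subtype.ext
      show (u * Z / M) ^ 2 = u * (X / M) ^ 2 + q * (W / M) ^ 2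
      field_simp
      linear_combination e2)
  refine ⟨g, g.2, ?_⟩
  have h1 : u - (g : F) ^ 2 = 4 * (k : F) := congrArg (fun x : v.integer => (x : F)) hg
  rw [h1, map_mul]
  have hk1 : v (k : F) ≤ 1 := k.2
  calc v 4 * v (k : F) ≤ v 4 * 1 := by gcongr
    _ = v 4 := mul_one _

end Pool.Agent.MP009fd8
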