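import Pool.Agent.Lib.MP_009fd8_ag.Def

/-!
MP_009fd8_ag: the place 2, unit case, general form (no condition on roots).
-/

namespace Pool.Agent.MP009fd8

section ring

variable {O : Type*} [CommRing O] [IsDomain O]

/-- The computation at the place 2 in a local domain whose nonunits are the multiples of 2. -/
theorem ring_unit_class (h20 : (2 : O) ≠ 0) (h2u : ¬ IsUnit (2 : O))
    (hloc : ∀ x : O, IsUnit x ∨ 2 ∣ x) (q u c e k X Y Z W : O) (hu : IsUnit u) (hq : IsUnit q)
    (hc : IsUnit c) (hqe : q = c ^ 2 * (1 + 2 * e) + 4 * k)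
    (hne : ¬ (2 ∣ X ∧ 2 ∣ Y ∧ 2 ∣ Z ∧ 2 ∣ W))
    (h1 : u * Y ^ 2 = u * X ^ 2 - q * W ^ 2) (h3 : Z ^ 2 = u * X ^ 2 + q * W ^ 2) :
    ∃ y g : O, IsUnit g ∧ 2 ∣ y ^ 4 + e * y ^ 2 + y ∧ 4 ∣ u - g ^ 2 * (1 + 2 * y ^ 2) := by
  have nd : ∀ x : O, IsUnit x → ¬ 2 ∣ x := fun x hx h => h2u (isUnit_of_dvd_unit h hx)
  have un : ∀ x : O, ¬ 2 ∣ x → IsUnit x := fun x hx => (hloc x).resolve_right hx
  have sq : ∀ x : O, 2 ∣ x ^ 2 → 2 ∣ x := by
    intro x hx
    rcases hloc x with h | h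
    · exact absurd hx (nd _ (h.pow 2))
    · exact h
  have dvd_of_unit_mul : ∀ a x : O, IsUnit a → 2 ∣ a * x → 2 ∣ x := fun a x ha h =>
    (ha.dvd_mul_left).1 h
  rcases hloc W with hW | ⟨w, hw⟩
  · obtain ⟨W', hW'⟩ := hW.exists_right_inv
    obtain ⟨c', hc'⟩ := hc.exists_right_inv
    rcases hloc X with hX | ⟨x, hx⟩
    · obtain ⟨X', hX'⟩ := hX.exists_right_inv
      rcases hloc Y with hY | ⟨y1, hy1⟩
      · -- all units
        have hZ : IsUnit Z := by
          apply un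
          intro h
          have : 2 ∣ u * Y ^ 2 := by
            have e1 : u * Y ^ 2 = Z * Z - 2 * (q * W ^ 2) := by linear_combination h1 - h3
            rw [e1]
            exact dvd_sub (Dvd.dvd.mul_right h Z) (Dvd.intro _ rfl)
          exact nd _ (hu.mul (hY.pow 2)) this
        obtain ⟨T, hT⟩ : ∃ T, T = Z * c' * W' := ⟨_, rfl⟩
        obtain ⟨S, hS⟩ : ∃ S, S = u * X * Y * c' ^ 2 * W' ^ 2 := ⟨_, rfl⟩
        obtain ⟨k1, hk1⟩ : ∃ k1, k1 = k * c' ^ 2 := ⟨_, rfl⟩
        have hc'u : IsUnit c' := IsUnit.of_mul_eq_one c (by rw [mul_comm]; exact hc')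
        have hW'u : IsUnit W' := IsUnit.of_mul_eq_one W (by rw [mul_comm]; exact hW')
        have hTu : IsUnit T := by rw [hT]; exact (hZ.mul hc'u).mul hW'u
        obtain ⟨T', hT'⟩ := hTu.exists_right_inv
        have hκ : q * c' ^ 2 = 1 + 2 * e + 4 * k1 := by
          rw [hk1, hqe]
          have : c ^ 2 * c' ^ 2 = 1 := by rw [← mul_pow, hc', one_pow]
          linear_combination (1 + 2 * e) * this
        have hWW : W ^ 2 * W' ^ 2 = 1 := by rw [← mul_pow, hW', one_pow]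
        have hA : u * X ^ 2 * c' ^ 2 * W' ^ 2 = T ^ 2 - (1 + 2 * e + 4 * k1) := by
          rw [← hκ, hT]
          linear_combination (- c' ^ 2 * W' ^ 2) * h3 - q * c' ^ 2 * hWW
        have hB : u * Y ^ 2 * c' ^ 2 * W' ^ 2 = T ^ 2 - 2 * (1 + 2 * e + 4 * k1) := by
          rw [← hκ, hT]
          linear_combination (c' ^ 2 * W' ^ 2) * h1 + (- c' ^ 2 * W' ^ 2) * h3
            - 2 * q * c' ^ 2 * hWW
        have hSS : S ^ 2 = (T ^ 2 - (1 + 2 * e + 4 * k1)) * (T ^ 2 - 2 * (1 + 2 * e + 4 * k1)) := by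
          rw [← hA, ← hB, hS]; ring
        obtain ⟨R, hR⟩ : ∃ R, R = (1 + 2 * e + 4 * k1) ^ 2 - T ^ 3 - 3 * e * T ^ 2 - 2 * T ^ 2
          - 6 * k1 * T ^ 2 := ⟨_, rfl⟩
        obtain ⟨D, hD⟩ : ∃ D, D = S - (T ^ 2 + T) := ⟨_, rfl⟩
        have hDR : D ^ 2 + 2 * ((T ^ 2 + T) * D) = 2 * R := by
          have : D ^ 2 + 2 * ((T ^ 2 + T) * D) = S ^ 2 - (T ^ 2 + T) ^ 2 := by rw [hD]; ring
          rw [this, hSS, hR]; ring
        have hD2 : 2 ∣ D := by
          apply sq
          exact ⟨R - (T ^ 2 + T) * D, by linear_combination hDR⟩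
        obtain ⟨m, hm⟩ := hD2
        have hR2 : R = 2 * (m ^ 2 + (T ^ 2 + T) * m) := by
          apply mul_left_cancel₀ h20
          rw [← hDR, hm]; ring
        obtain ⟨ν, hν⟩ : ∃ ν, T ^ 3 + e * T ^ 2 + 1 = 2 * ν := by
          refine ⟨-(m ^ 2 + (T ^ 2 + T) * m) + (1 + 2 * e + 2 * e ^ 2 + 4 * k1 + 8 * e * k1
            + 8 * k1 ^ 2) - e * T ^ 2 - T ^ 2 - 3 * k1 * T ^ 2, ?_⟩
          have h5 : R = 2 * (m ^ 2 + (T ^ 2 + T) * m) := hR2
          rw [hR] at h5
          linear_combination -h5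
        have hT2 : T ^ 2 * T' ^ 2 = 1 := by rw [← mul_pow, hT', one_pow]
        refine ⟨T', c * W * X' * (T + 1), ?_, ?_, ?_⟩
        · have hX'u : IsUnit X' := IsUnit.of_mul_eq_one X (by rw [mul_comm]; exact hX')
          refine (((hc.mul (un _ ?_)).mul hX'u)).mul ?_
          · exact nd _ (IsUnit.of_mul_eq_one W' hW')
          · apply un
            rintro ⟨τ, hτ⟩
            have hT1 : T = -1 + 2 * τ := by linear_combination hτ
            have : 2 ∣ u * X ^ 2 * c' ^ 2 * W' ^ 2 := by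
              rw [hA, hT1]
              exact ⟨-2 * τ + 2 * τ ^ 2 - e - 2 * k1, by ring⟩
            exact nd _ (((hu.mul (hX.pow 2)).mul (hc'u.pow 2)).mul (hW'u.pow 2)) this
        · refine ⟨T' ^ 4 * ν, ?_⟩
          have h5 : T' ^ 4 + e * T' ^ 2 + T' = T' ^ 4 * (T ^ 3 + e * T ^ 2 + 1) := by
            linear_combination (-(T' * ((T * T') ^ 2 + T * T' + 1)) - e * T' ^ 2 * (T * T' + 1)) * hT'
          rw [h5, hν]; ring
        · obtain ⟨P, hP⟩ : ∃ P, P = c * W * X' := ⟨_, rfl⟩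
          have hXX : X ^ 2 * X' ^ 2 = 1 := by rw [← mul_pow, hX', one_pow]
          have hcc : c ^ 2 * c' ^ 2 = 1 := by rw [← mul_pow, hc', one_pow]
          have hu2 : u = P ^ 2 * (T ^ 2 - (1 + 2 * e + 4 * k1)) := by
            rw [← hA, hP]
            linear_combination (-u * (c ^ 2 * c' ^ 2) * (W ^ 2 * W' ^ 2)) * hXX
              - u * hcc * (W ^ 2 * W' ^ 2) - u * hWW
          refine ⟨-(P ^ 2 * (T' ^ 2 * ν + 1 + k1 + T')), ?_⟩
          have hb : (T ^ 2 - (1 + 2 * e + 4 * k1)) - (T + 1) ^ 2 * (1 + 2 * T' ^ 2)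
              = - (4 * (T' ^ 2 * ν + 1 + k1 + T')) := by
            linear_combination (-2 * T' ^ 2) * hν + (-2 + 2 * e + 2 * T) * hT2 - 4 * T' * hT'
          have hc : u - (c * W * X' * (T + 1)) ^ 2 * (1 + 2 * T' ^ 2) = P ^ 2 *
              ((T ^ 2 - (1 + 2 * e + 4 * k1)) - (T + 1) ^ 2 * (1 + 2 * T' ^ 2)) := by
            rw [← hP]
            linear_combination hu2
          rw [hc, hb]
          ring
      · -- Y divisible by 2
        exfalso
        have hZ : 2 ∣ Z := by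
          apply sq
          exact ⟨2 * u * y1 ^ 2 + q * W ^ 2, by rw [hy1] at h1; linear_combination h3 - h1⟩
        obtain ⟨z, hz⟩ := hZ
        have h5 : q * W ^ 2 = 2 * (z ^ 2 - u * y1 ^ 2) := by
          apply mul_left_cancel₀ h20
          rw [hz] at h3
          rw [hy1] at h1
          linear_combination h1 - h3
        exact nd _ (hq.mul (hW.pow 2)) ⟨_, h5⟩
    · -- X divisible by 2
      have hZ : IsUnit Z := by
        apply un
        intro h
        have : 2 ∣ q * W ^ 2 := by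
          have e1 : q * W ^ 2 = Z * Z - 2 * (2 * u * x ^ 2) := by rw [hx] at h3; linear_combination -h3
          rw [e1]
          exact dvd_sub (Dvd.dvd.mul_right h Z) (Dvd.intro _ rfl)
        exact nd _ (hq.mul (hW.pow 2)) this
      have hY : IsUnit Y := by
        apply un
        intro h
        have : 2 ∣ q * W ^ 2 := by
          have e1 : q * W ^ 2 = 2 * (2 * u * x ^ 2) - u * Y * Y := by
            rw [hx] at h1; linear_combination h1
          rw [e1]
          exact dvd_sub (Dvd.intro _ rfl) (Dvd.dvd.mul_left h (u * Y))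
        exact nd _ (hq.mul (hW.pow 2)) this
      obtain ⟨Y', hY'⟩ := hY.exists_right_inv
      have hY2 : Y ^ 2 * Y' ^ 2 = 1 := by rw [← mul_pow, hY', one_pow]
      have hY'u : IsUnit Y' := IsUnit.of_mul_eq_one Y (by rw [mul_comm]; exact hY')
      refine ⟨1, Z * Y', hZ.mul hY'u, ?_, ?_⟩
      · -- 2 divides e
        have hWW : W ^ 2 * W' ^ 2 = 1 := by rw [← mul_pow, hW', one_pow]
        have hcc : c ^ 2 * c' ^ 2 = 1 := by rw [← mul_pow, hc', one_pow]
        obtain ⟨H, hH⟩ : ∃ H, H = Z * W' * c' := ⟨_, rfl⟩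
        have hHH : H ^ 2 = 1 + 2 * e + 4 * ((k + u * x ^ 2 * W' ^ 2) * c' ^ 2) := by
          rw [hx] at h3
          rw [hH]
          linear_combination (W' ^ 2 * c' ^ 2) * h3 + q * c' ^ 2 * hWW + c' ^ 2 * hqe
            + (1 + 2 * e) * hcc
        obtain ⟨h, hh⟩ : 2 ∣ H - 1 := by
          apply sq
          exact ⟨e + 2 * ((k + u * x ^ 2 * W' ^ 2) * c' ^ 2) - (H - 1), by
            linear_combination hHH⟩
        have he2 : e = 2 * (h + h ^ 2 - (k + u * x ^ 2 * W' ^ 2) * c' ^ 2) := by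
          apply mul_left_cancel₀ h20
          have hH1 : H = 1 + 2 * h := by linear_combination hh
          rw [hH1] at hHH
          linear_combination -hHH
        refine ⟨1 + (h + h ^ 2 - (k + u * x ^ 2 * W' ^ 2) * c' ^ 2), ?_⟩
        linear_combination he2
      · refine ⟨(2 * u * x ^ 2 - Z ^ 2) * Y' ^ 2, ?_⟩
        rw [hx] at h1 h3
        linear_combination (-u) * hY2 + Y' ^ 2 * h1 + Y' ^ 2 * h3
  · -- W divisible by 2
    rcases hloc X with hX | ⟨x, hx⟩
    · obtain ⟨X', hX'⟩ := hX.exists_right_inv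
      have hXX : X ^ 2 * X' ^ 2 = 1 := by rw [← mul_pow, hX', one_pow]
      have hX'u : IsUnit X' := IsUnit.of_mul_eq_one X (by rw [mul_comm]; exact hX')
      have hZ : IsUnit Z := by
        apply un
        intro h
        have : 2 ∣ u * X ^ 2 := by
          have e1 : u * X ^ 2 = Z * Z - 2 * (2 * q * w ^ 2) := by
            rw [hw] at h3; linear_combination -h3
          rw [e1]
          exact dvd_sub (Dvd.dvd.mul_right h Z) (Dvd.intro _ rfl)
        exact nd _ (hu.mul (hX.pow 2)) this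
      refine ⟨0, Z * X', hZ.mul hX'u, by simp, ⟨-(q * w ^ 2 * X' ^ 2), ?_⟩⟩
      rw [hw] at h3
      linear_combination (-u) * hXX - X' ^ 2 * h3
    · exfalso
      apply hne
      refine ⟨⟨x, hx⟩, ?_, ?_, ⟨w, hw⟩⟩
      · apply sq
        apply dvd_of_unit_mul u _ hu
        exact ⟨2 * u * x ^ 2 - 2 * q * w ^ 2, by rw [h1, hx, hw]; ring⟩
      · apply sq
        exact ⟨2 * u * x ^ 2 + 2 * q * w ^ 2, by rw [h3, hx, hw]; ring⟩

end ring

section valued

variable {F : Type*} [Field F] {Γ : Type*} [LinearOrderedCommGroupWithZero Γ]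

private theorem exists_max_val (v : Valuation F Γ) (X Y Z W : F)
    (h : X ≠ 0 ∨ Y ≠ 0 ∨ Z ≠ 0 ∨ W ≠ 0) :
    ∃ M : F, M ≠ 0 ∧ (M = X ∨ M = Y ∨ M = Z ∨ M = W) ∧ v X ≤ v M ∧ v Y ≤ v M ∧ v Z ≤ v M ∧
      v W ≤ v M := by
  classical
  obtain ⟨M, hM, hmax⟩ := Finset.exists_max_image ({X, Y, Z, W} : Finset F) v ⟨X, by simp⟩
  have hX : v X ≤ v M := hmax X (by simp)
  have hY : v Y ≤ v M := hmax Y (by simp)
  have hZ : v Z ≤ v M := hmax Z (by simp)
  have hW : v W ≤ v M := hmax W (by simp)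
  refine ⟨M, ?_, by simpa using hM, hX, hY, hZ, hW⟩
  rintro rfl
  rw [map_zero, le_zero_iff, Valuation.zero_iff] at hX hY hZ hW
  rcases h with h | h | h | h
  · exact h hX
  · exact h hY
  · exact h hZ
  · exact h hW

/-- At the place 2, unramified (hmax: v(2) is the largest value below 1), u and q units,
q = c^2 (1 + 2 e) modulo 4 with c a unit: if C_(u,u) has a point then u = g^2 (1 + 2 y^2)
modulo 4 with y^4 + e y^2 + y = 0 modulo 2. -/
theorem unit_class_at_two (v : Valuation F Γ) (q u c e : F) (h2 : v 2 < 1) (h20 : (2 : F) ≠ 0)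
    (hmax : ∀ x : F, v x < 1 → v x ≤ v 2)
    (hq : v q = 1) (hu : v u = 1) (hc : v c = 1) (he : v e ≤ 1)
    (hqe : v (q - c ^ 2 * (1 + 2 * e)) ≤ v 4) (h : HasPoint q u u) :
    ∃ y g : F, v y ≤ 1 ∧ v g = 1 ∧ v (y ^ 4 + e * y ^ 2 + y) < 1 ∧
      v (u - g ^ 2 * (1 + 2 * y ^ 2)) ≤ v 4 := by
  have h40 : (4 : F) ≠ 0 := by
    have : (4 : F) = 2 * 2 := by norm_num
    rw [this]; exact mul_ne_zero h20 h20
  have hv2 : v 2 ≠ 0 := (Valuation.ne_zero_iff v).2 h20
  have hv4 : v 4 ≠ 0 := (Valuation.ne_zero_iff v).2 h40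
  have hu0 : u ≠ 0 := by rintro rfl; simp at hu
  obtain ⟨X, Y, Z, W, hne, h1, h3⟩ := h
  obtain ⟨M, hM0, hM, hX, hY, hZ, hW⟩ := exists_max_val v X Y (u * Z) W (by
    rcases hne with h | h | h | h
    · exact Or.inl h
    · exact Or.inr (Or.inl h)
    · exact Or.inr (Or.inr (Or.inl (mul_ne_zero hu0 h)))
    · exact Or.inr (Or.inr (Or.inr h)))
  have hvM : 0 < v M := zero_lt_iff.2 ((Valuation.ne_zero_iff v).2 hM0)
  have hdiv : ∀ x : F, v x ≤ v M → v (x / M) ≤ 1 := by
    intro x hx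
    rw [map_div₀]
    exact (div_le_one₀ hvM).2 hx
  have hk : v ((q - c ^ 2 * (1 + 2 * e)) / 4) ≤ 1 := by
    rw [map_div₀]
    exact (div_le_one₀ (zero_lt_iff.2 hv4)).2 hqe
  have unit_of : ∀ x : v.integer, v (x : F) = 1 → IsUnit x := by
    intro x hx
    have hx0 : (x : F) ≠ 0 := by
      intro h0
      rw [h0, map_zero] at hx
      exact zero_ne_one hx
    refine IsUnit.of_mul_eq_one (⟨(x : F)⁻¹, ?_⟩ : v.integer) ?_
    · rw [Valuation.mem_integer_iff, map_inv₀, hx, inv_one]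
    · apply Subtype.ext
      simp [hx0]
  have val_of_unit : ∀ x : v.integer, IsUnit x → v (x : F) = 1 := by
    intro x hx
    obtain ⟨y, hy⟩ := hx.exists_right_inv
    have e1 : v (x : F) * v (y : F) = 1 := by
      rw [← map_mul]
      have := congrArg (fun t : v.integer => v (t : F)) hy
      simpa using this
    apply le_antisymm x.2
    by_contra hlt
    rw [not_le] at hlt
    have : v (x : F) * v (y : F) < 1 := by
      calc v (x : F) * v (y : F) ≤ v (x : F) * 1 := by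
            exact mul_le_mul_right y.2 _
        _ < 1 := by rw [mul_one]; exact hlt
    exact (ne_of_lt this) e1
  have two_dvd : ∀ x : v.integer, v (x : F) < 1 → 2 ∣ x := by
    intro x hx
    refine ⟨⟨(x : F) / 2, ?_⟩, ?_⟩
    · rw [Valuation.mem_integer_iff, map_div₀]
      exact (div_le_one₀ (zero_lt_iff.2 hv2)).2 (hmax _ hx)
    · apply Subtype.ext
      simp only [Subring.coe_mul]
      rw [show ((2 : v.integer) : F) = 2 from rfl]
      field_simp
  have lt_of_dvd : ∀ x : v.integer, 2 ∣ x → v (x : F) < 1 := by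
    rintro x ⟨t, rfl⟩
    simp only [Subring.coe_mul, map_mul]
    rw [show ((2 : v.integer) : F) = 2 from rfl]
    calc v 2 * v (t : F) ≤ v 2 * 1 := mul_le_mul_right t.2 _
      _ < 1 := by rw [mul_one]; exact h2
  have le4_of_dvd : ∀ x : v.integer, 4 ∣ x → v (x : F) ≤ v 4 := by
    rintro x ⟨t, rfl⟩
    simp only [Subring.coe_mul, map_mul]
    rw [show ((4 : v.integer) : F) = 4 from rfl]
    calc v 4 * v (t : F) ≤ v 4 * 1 := mul_le_mul_right t.2 _
      _ = v 4 := mul_one _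
  have key := ring_unit_class (O := v.integer)
    (fun h => h20 (congrArg (fun t : v.integer => (t : F)) h))
    (fun h => by
      have := val_of_unit _ h
      rw [show ((2 : v.integer) : F) = 2 from rfl] at this
      exact (ne_of_lt h2) this)
    (fun x => by
      rcases lt_or_eq_of_le x.2 with hx | hx
      · exact Or.inr (two_dvd x hx)
      · exact Or.inl (unit_of x hx))
    ⟨q, hq.le⟩ ⟨u, hu.le⟩ ⟨c, hc.le⟩ ⟨e, he⟩ ⟨_, hk⟩
    ⟨X / M, hdiv X hX⟩ ⟨Y / M, hdiv Y hY⟩ ⟨u * Z / M, hdiv (u * Z) hZ⟩ ⟨W / M, hdiv W hW⟩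
    (unit_of _ hu) (unit_of _ hq) (unit_of _ hc)
    (by
      apply Subtype.ext
      simp only [Subring.coe_mul, Subring.coe_add, Subring.coe_pow, Subring.coe_one]
      rw [show ((2 : v.integer) : F) = 2 from rfl, show ((4 : v.integer) : F) = 4 from rfl]
      field_simp
      ring)
    (by
      rintro ⟨d1, d2, d3, d4⟩
      have l1 : v (X / M) < 1 := lt_of_dvd _ d1
      have l2 : v (Y / M) < 1 := lt_of_dvd _ d2
      have l3 : v (u * Z / M) < 1 := lt_of_dvd _ d3
      have l4 : v (W / M) < 1 := lt_of_dvd _ d4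
      have hMM : v (M / M) = 1 := by rw [div_self hM0, map_one]
      rcases hM with hM | hM | hM | hM
      · rw [← hM] at l1; exact (ne_of_lt l1) hMM
      · rw [← hM] at l2; exact (ne_of_lt l2) hMM
      · rw [← hM] at l3; exact (ne_of_lt l3) hMM
      · rw [← hM] at l4; exact (ne_of_lt l4) hMM)
    (by
      apply Subtype.ext
      simp only [Subring.coe_mul, AddSubgroupClass.coe_sub, Subring.coe_pow]
      field_simp
      linear_combination h1)
    (by
      apply Subtype.ext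
      simp only [Subring.coe_mul, Subring.coe_add, Subring.coe_pow]
      field_simp
      linear_combination h3)
  obtain ⟨y, g, hg, hy, hug⟩ := key
  refine ⟨(y : F), (g : F), y.2, val_of_unit g hg, ?_, ?_⟩
  · have := lt_of_dvd _ hy
    simpa using this
  · have := le4_of_dvd _ hug
    simp only [Subring.coe_mul, AddSubgroupClass.coe_sub, Subring.coe_add, Subring.coe_pow,
      Subring.coe_one] at this
    rw [show ((2 : v.integer) : F) = 2 from rfl] at this
    exact this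

end valued

end Pool.Agent.MP009fd8
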