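import Pool.Agent.Lib.MP_009fd8_ag.Def

/-!
MP_009fd8_ag, leaf file: the place q.
-/

namespace Pool.Agent.MP009fd8

/-- At the place q: if C_(a,b) has a point over a valued field in which 2 is a unit and q has odd
valuation less than 1, a and b have even valuation and a b = 2 r^2, then 2 is a square modulo the
maximal ideal.

Proof. Take a point. If W = 0, then X, Y are nonzero, b Y^2 = a X^2, so 2 (r Y)^2 = a b Y^2 =
(a X)^2 and g = a X / (r Y) has g^2 = 2. If W is nonzero: v(q W^2) is not a square (v q is not a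
square), v(a X^2) is a square, so they differ. If v(a X^2) < v(q W^2) then v(b Y^2) = v(q W^2),
impossible as v(b) v(Y)^2 is a square. So v(q W^2) < v(a X^2), X is nonzero,
v(b Y^2) = v(a X^2), Y is nonzero, and with g = a X / (r Y): a b Y^2 = a^2 X^2 - a q W^2, so
2 = g^2 - a q W^2 / (r Y)^2 = g^2 (1 - q W^2 / (a X^2)), so v(g)^2 = v(2) = 1, v(g) = 1 and
v(2 - g^2) = v(q W^2 / (a X^2)) < 1. -/
theorem two_sq_at_q {F : Type*} [Field F] {Γ : Type*} [LinearOrderedCommGroupWithZero Γ]
    (v : Valuation F Γ) (q a b r : F) (ha : a ≠ 0) (hb : b ≠ 0) (hr : r ≠ 0)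
    (hab : a * b = 2 * r ^ 2) (h2 : v 2 = 1) (hq : ¬ IsSquare (v q))
    (hva : IsSquare (v a)) (hvb : IsSquare (v b)) (h : HasPoint q a b) :
    ∃ g : F, v g ≤ 1 ∧ v (2 - g ^ 2) < 1 := by
  obtain ⟨X, Y, Z, W, hne, e1, e2⟩ := h
  have sq_of : ∀ (c t : F), IsSquare (v c) → IsSquare (v (c * t ^ 2)) := by
    rintro c t ⟨s, hs⟩
    refine ⟨s * v t, ?_⟩
    rw [map_mul, map_pow, hs, pow_two]
    exact mul_mul_mul_comm s s (v t) (v t)
  by_cases hW : W = 0
  · subst hW
    have hX : X ≠ 0 := by
      intro hX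
      subst hX
      have hY : Y = 0 := by
        have : b * Y ^ 2 = 0 := by rw [e1]; ring
        rcases mul_eq_zero.1 this with h | h
        · exact absurd h hb
        · exact pow_eq_zero_iff (two_ne_zero) |>.1 h
      have hZ : Z = 0 := by
        have : a * b * Z ^ 2 = 0 := by rw [e2]; ring
        rcases mul_eq_zero.1 this with h | h
        · exact absurd h (mul_ne_zero ha hb)
        · exact pow_eq_zero_iff (two_ne_zero) |>.1 h
      simp [hY, hZ] at hne
    have hY : Y ≠ 0 := by
      intro hY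
      subst hY
      have : a * X ^ 2 = 0 := by linear_combination -e1
      rcases mul_eq_zero.1 this with h | h
      · exact ha h
      · exact hX (pow_eq_zero_iff (two_ne_zero) |>.1 h)
    have hg : (a * X / (r * Y)) ^ 2 = 2 := by
      rw [div_pow, div_eq_iff (pow_ne_zero 2 (mul_ne_zero hr hY))]
      linear_combination Y ^ 2 * hab - a * e1
    refine ⟨a * X / (r * Y), ?_, ?_⟩
    · have : (v (a * X / (r * Y))) ^ 2 = 1 := by rw [← map_pow, hg, h2]
      exact le_of_eq ((pow_eq_one_iff_of_nonneg zero_le two_ne_zero).1 this)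
    · rw [hg, sub_self, map_zero]
      exact zero_lt_one
  · have hvW : v W ≠ 0 := (Valuation.ne_zero_iff v).2 hW
    have hns : ¬ IsSquare (v (q * W ^ 2)) := by
      rintro ⟨s, hs⟩
      apply hq
      refine ⟨s / v W, ?_⟩
      rw [map_mul, map_pow] at hs
      rw [div_mul_div_comm, eq_div_iff (mul_ne_zero hvW hvW), ← hs, pow_two]
    have hXs : IsSquare (v (a * X ^ 2)) := sq_of a X hva
    have hYs : IsSquare (v (b * Y ^ 2)) := sq_of b Y hvb
    rcases lt_trichotomy (v (a * X ^ 2)) (v (q * W ^ 2)) with hlt | heq | hgt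
    · exfalso
      apply hns
      have : v (b * Y ^ 2) = v (q * W ^ 2) := by
        rw [e1]
        exact Valuation.map_sub_eq_of_lt_right v hlt
      rw [← this]
      exact hYs
    · exact absurd (heq ▸ hXs) hns
    · have hvY : v (b * Y ^ 2) = v (a * X ^ 2) := by
        rw [e1]
        exact Valuation.map_sub_eq_of_lt_left v hgt
      have hX0 : v (a * X ^ 2) ≠ 0 := ne_of_gt (lt_of_le_of_lt zero_le hgt)
      have hY : Y ≠ 0 := by
        intro hY
        subst hY
        apply hX0
        rw [← hvY]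
        simp
      have hrY : r * Y ≠ 0 := mul_ne_zero hr hY
      have hvrY : v (r * Y) ≠ 0 := (Valuation.ne_zero_iff v).2 hrY
      have hva0 : v a ≠ 0 := (Valuation.ne_zero_iff v).2 ha
      have key : (v (r * Y)) ^ 2 = v a * v (a * X ^ 2) := by
        have h1 : 2 * (r * Y) ^ 2 = a * (b * Y ^ 2) := by linear_combination -Y ^ 2 * hab
        have h3 := congrArg v h1
        rw [map_mul, map_mul, map_pow, h2, one_mul, hvY] at h3
        exact h3
      refine ⟨a * X / (r * Y), ?_, ?_⟩
      · have h3 : (v (a * X / (r * Y))) ^ 2 = 1 := by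
          rw [map_div₀, div_pow, key, div_eq_one_iff_eq (mul_ne_zero hva0 hX0), map_mul, map_mul,
            map_pow, mul_pow, pow_two (v a), mul_assoc]
        exact le_of_eq ((pow_eq_one_iff_of_nonneg zero_le two_ne_zero).1 h3)
      · have h4 : 2 - (a * X / (r * Y)) ^ 2 = - (a * (q * W ^ 2) / (r * Y) ^ 2) := by
          rw [div_pow, eq_neg_iff_add_eq_zero]
          field_simp
          linear_combination (-Y ^ 2) * hab + a * e1
        rw [h4, Valuation.map_neg, map_div₀, map_pow, key, map_mul,
          mul_div_mul_left _ _ hva0, div_lt_one₀ (lt_of_le_of_ne zero_le (Ne.symm hX0))]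
        exact hgt

end Pool.Agent.MP009fd8
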