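import Pool.Agent.Lib.MP_009fd8_ag.Def

/-!
MP_009fd8_ag, leaf file: away from 2q a locally soluble covering has even valuations.
-/

namespace Pool.Agent.MP009fd8

private theorem away_aux {Γ : Type*} [LinearOrderedCommGroupWithZero Γ] {x s r : Γ}
    (h : x * s = r) (hs : s ≠ 0) (h1 : IsSquare s) (h2 : IsSquare r) : IsSquare x := by
  have e : x = r / s := eq_div_of_mul_eq hs h
  rw [e]
  exact h2.div h1

/-- Away from 2q: if C_(a,b) has a point over a valued field in which 2 and q are units, then
the valuations of a and b are squares in the value group.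

Proof. Take a point. If W = 0: X = 0 forces Y = Z = 0, so X is nonzero, hence Y and Z are
nonzero; a b Z^2 = a X^2 gives v(b) = (v(X) / v(Z))^2, then b Y^2 = a X^2 gives v(a).
If W is nonzero compare v(a X^2) with v(q W^2) = v(W)^2.
(1) v(a X^2) > v(W)^2: v(b Y^2) = v(a X^2) and v(a b Z^2) = v(a X^2), so v(b) = (v X / v Z)^2 and
v(a) = v(b) (v Y / v X)^2.
(2) v(a X^2) < v(W)^2: v(b Y^2) = v(W)^2, v(a b Z^2) = v(W)^2: v(b) and v(a b) are squares.
(3) equality: v(a) = (v W / v X)^2; and a b Z^2 - b Y^2 = 2 q W^2 has value v(W)^2 while both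
terms have value at most v(W)^2, so one of them has value exactly v(W)^2. -/
theorem isSquare_away {F : Type*} [Field F] {Γ : Type*} [LinearOrderedCommGroupWithZero Γ]
    (v : Valuation F Γ) (q a b : F) (ha : a ≠ 0) (hb : b ≠ 0) (h2 : v 2 = 1) (hq : v q = 1)
    (h : HasPoint q a b) : IsSquare (v a) ∧ IsSquare (v b) := by
  obtain ⟨X, Y, Z, W, hne, h1, h3⟩ := h
  have va : v a ≠ 0 := (Valuation.ne_zero_iff v).2 ha
  have vb : v b ≠ 0 := (Valuation.ne_zero_iff v).2 hb
  have hsq : ∀ x : Γ, IsSquare (x ^ 2) := fun x => IsSquare.sq x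
  have e1 : v (b * Y ^ 2) = v b * v Y ^ 2 := by rw [map_mul, map_pow]
  have e2 : v (a * b * Z ^ 2) = v a * v b * v Z ^ 2 := by rw [map_mul, map_mul, map_pow]
  have e3 : v (a * X ^ 2) = v a * v X ^ 2 := by rw [map_mul, map_pow]
  have e4 : v (q * W ^ 2) = v W ^ 2 := by rw [map_mul, map_pow, hq, one_mul]
  -- the first case
  have key : v b * v Y ^ 2 = v a * v X ^ 2 → v a * v b * v Z ^ 2 = v a * v X ^ 2 → v X ≠ 0 →
      IsSquare (v a) ∧ IsSquare (v b) := by
    intro k1 k2 hX
    have k3 : v b * v Z ^ 2 = v X ^ 2 := by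
      apply mul_left_cancel₀ va
      rw [← mul_assoc, k2]
    have hZ : v Z ^ 2 ≠ 0 := by
      intro h0
      rw [h0, mul_zero] at k3
      exact pow_ne_zero 2 hX k3.symm
    have hb' : IsSquare (v b) := away_aux k3 hZ (hsq _) (hsq _)
    exact ⟨away_aux k1.symm (pow_ne_zero 2 hX) (hsq _) (hb'.mul (hsq _)), hb'⟩
  by_cases hW : W = 0
  · subst hW
    have h1' : b * Y ^ 2 = a * X ^ 2 := by rw [h1]; ring
    have h3' : a * b * Z ^ 2 = a * X ^ 2 := by rw [h3]; ring
    have hX : X ≠ 0 := by
      rintro rfl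
      have y1 : b * Y ^ 2 = 0 := by rw [h1']; ring
      have z1 : a * b * Z ^ 2 = 0 := by rw [h3']; ring
      have y2 : Y = 0 := by
        rcases mul_eq_zero.1 y1 with h | h
        · exact absurd h hb
        · exact pow_eq_zero_iff (two_ne_zero) |>.1 h
      have z2 : Z = 0 := by
        rcases mul_eq_zero.1 z1 with h | h
        · exact absurd h (mul_ne_zero ha hb)
        · exact pow_eq_zero_iff (two_ne_zero) |>.1 h
      rcases hne with h | h | h | h
      · exact h rfl
      · exact h y2
      · exact h z2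
      · exact h rfl
    refine key ?_ ?_ ((Valuation.ne_zero_iff v).2 hX)
    · rw [← e1, ← e3, h1']
    · rw [← e2, ← e3, h3']
  · have vW : v W ≠ 0 := (Valuation.ne_zero_iff v).2 hW
    have vW2 : v W ^ 2 ≠ 0 := pow_ne_zero 2 vW
    rcases lt_trichotomy (v (a * X ^ 2)) (v (q * W ^ 2)) with hlt | heq | hgt
    · have k1 : v (b * Y ^ 2) = v (q * W ^ 2) := by
        rw [h1]
        exact Valuation.map_sub_eq_of_lt_right v hlt
      have k2 : v (a * b * Z ^ 2) = v (q * W ^ 2) := by
        rw [h3]
        exact Valuation.map_add_eq_of_lt_right v hlt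
      rw [e1, e4] at k1
      rw [e2, e4] at k2
      have hY : v Y ^ 2 ≠ 0 := by
        intro h0
        rw [h0, mul_zero] at k1
        exact vW2 k1.symm
      have hZ : v Z ^ 2 ≠ 0 := by
        intro h0
        rw [h0, mul_zero] at k2
        exact vW2 k2.symm
      have hb' : IsSquare (v b) := away_aux k1 hY (hsq _) (hsq _)
      refine ⟨?_, hb'⟩
      rw [mul_assoc] at k2
      exact away_aux k2 (mul_ne_zero vb hZ) (hb'.mul (hsq _)) (hsq _)
    · have k0 : v a * v X ^ 2 = v W ^ 2 := by rw [← e3, heq, e4]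
      have hX : v X ^ 2 ≠ 0 := by
        intro h0
        rw [h0, mul_zero] at k0
        exact vW2 k0.symm
      have ha' : IsSquare (v a) := away_aux k0 hX (hsq _) (hsq _)
      refine ⟨ha', ?_⟩
      have hd : a * b * Z ^ 2 - b * Y ^ 2 = 2 * (q * W ^ 2) := by
        rw [h1, h3]
        ring
      have hdv : v (a * b * Z ^ 2 - b * Y ^ 2) = v W ^ 2 := by
        rw [hd, map_mul, h2, one_mul, e4]
      have hle1 : v (b * Y ^ 2) ≤ v W ^ 2 := by
        rw [h1]
        refine (Valuation.map_sub v _ _).trans ?_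
        rw [heq, max_self, e4]
      have hle2 : v (a * b * Z ^ 2) ≤ v W ^ 2 := by
        rw [h3]
        refine (Valuation.map_add v _ _).trans ?_
        rw [heq, max_self, e4]
      by_cases hy : v (b * Y ^ 2) = v W ^ 2
      · rw [e1] at hy
        have hY : v Y ^ 2 ≠ 0 := by
          intro h0
          rw [h0, mul_zero] at hy
          exact vW2 hy.symm
        exact away_aux hy hY (hsq _) (hsq _)
      · have hz : v (a * b * Z ^ 2) = v W ^ 2 := by
          by_contra hz
          have l1 := lt_of_le_of_ne hle1 hy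
          have l2 := lt_of_le_of_ne hle2 hz
          have l3 := (Valuation.map_sub v (a * b * Z ^ 2) (b * Y ^ 2)).trans_lt (max_lt l2 l1)
          rw [hdv] at l3
          exact lt_irrefl _ l3
        rw [e2] at hz
        have hZ : v Z ^ 2 ≠ 0 := by
          intro h0
          rw [h0, mul_zero] at hz
          exact vW2 hz.symm
        have hz' : v b * (v a * v Z ^ 2) = v W ^ 2 := by
          rw [← hz, mul_comm (v a) (v b), mul_assoc]
        exact away_aux hz' (mul_ne_zero va hZ) (ha'.mul (hsq _)) (hsq _)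
    · have hX : v X ≠ 0 := by
        intro h0
        rw [e3, h0] at hgt
        simp at hgt
      refine key ?_ ?_ hX
      · rw [← e1, ← e3, h1]
        exact Valuation.map_sub_eq_of_lt_left v hgt
      · rw [← e2, ← e3, h3]
        exact Valuation.map_add_eq_of_lt_left v hgt

end Pool.Agent.MP009fd8
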