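import Mathlib

/-!
MP_009fd8_ag, leaf file: in a number field of odd class number, an element all of whose
valuations are even is a unit times a square.
-/

namespace Pool.Agent.MP009fd8

open IsDedekindDomain NumberField UniqueFactorizationMonoid

/-- A multiset with even multiplicities is twice a multiset. -/
theorem exists_two_nsmul {α : Type*} [DecidableEq α] (s : Multiset α)
    (h : ∀ p ∈ s, Even (s.count p)) : ∃ t : Multiset α, s = 2 • t := by
  refine ⟨∑ p ∈ s.toFinset, (s.count p / 2) • {p}, ?_⟩
  rw [← Finset.sum_nsmul]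
  conv_lhs => rw [← Multiset.toFinset_sum_count_nsmul_eq s]
  refine Finset.sum_congr rfl fun p hp => ?_
  rw [← mul_nsmul', Nat.two_mul_div_two_of_even (h p (Multiset.mem_toFinset.1 hp))]

/-- An ideal with even multiplicities is a square. -/
theorem ideal_exists_sq {R : Type*} [CommRing R] [IsDedekindDomain R] (I : Ideal R) (hI : I ≠ ⊥)
    (h : ∀ v : HeightOneSpectrum R, Even (multiplicity v.asIdeal I)) : ∃ J : Ideal R, I = J ^ 2 := by
  classical
  obtain ⟨t, ht⟩ := exists_two_nsmul (normalizedFactors I) (by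
    intro p hp
    have hpr : Prime p := prime_of_normalized_factor p hp
    have hp0 : p ≠ ⊥ := hpr.ne_zero
    let v : HeightOneSpectrum R := ⟨p, Ideal.isPrime_of_prime hpr, hp0⟩
    have h1 := h v
    have hfm : FiniteMultiplicity p I := FiniteMultiplicity.of_prime_left hpr hI
    have h2 := emultiplicity_eq_count_normalizedFactors hpr.irreducible hI
    rw [normalize_eq, hfm.emultiplicity_eq_multiplicity] at h2
    have h3 : multiplicity p I = (normalizedFactors I).count p := by exact_mod_cast h2
    rw [← h3]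
    exact h1)
  refine ⟨t.prod, ?_⟩
  rw [← Ideal.prod_normalizedFactors_eq_self hI, ht, Multiset.prod_nsmul]

/-- `exp (-m)` is a square only for even `m`. -/
theorem even_of_isSquare_exp {m : ℕ} (h : IsSquare (WithZero.exp (-(m : ℤ)))) : Even m := by
  obtain ⟨y, hy⟩ := h
  have hy0 : y ≠ 0 := by
    rintro rfl
    simp at hy
  obtain ⟨k, hk⟩ : ∃ k : ℤ, y = WithZero.exp k := ⟨WithZero.log y, (WithZero.exp_log hy0).symm⟩
  rw [hk, ← WithZero.exp_add, WithZero.exp_inj] at hy
  have : Even (m : ℤ) := ⟨-k, by linarith⟩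
  exact_mod_cast this

/-- Odd class number: an element of K with all valuations even is a unit times a square.

Proof. Write x = n / d with n, d in the ring of integers, nonzero; then x d^2 = n d is an
integer with all valuations even (v(d)^2 is a square), so we may assume x = n integral.
In the Dedekind domain the ideal (n) has even multiplicity at every prime ideal
(intValuation_if_neg / intValuation_eq_exp_neg_multiplicity and IsSquare of exp (-k) iff k even),
so (n) = J^2 for an ideal J (normalizedFactors multiset with all counts even, or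
Ideal.finprod_heightOneSpectrum_factorization). J^2 is principal, so the class of J has order
dividing 2 in the class group, whose order is odd; so J = (r) (ClassGroup.mk0_eq_one_iff),
and (n) = (r^2), so n = u r^2 (Ideal.span_singleton_eq_span_singleton, Associated). -/
theorem exists_unit_mul_sq {K : Type*} [Field K] [NumberField K]
    (hodd : Odd (NumberField.classNumber K)) (x : K) (hx : x ≠ 0)
    (hv : ∀ v : HeightOneSpectrum (𝓞 K), IsSquare (v.valuation K x)) :
    ∃ (u : (𝓞 K)ˣ) (r : K), r ≠ 0 ∧ x = algebraMap (𝓞 K) K (u : 𝓞 K) * r ^ 2 := by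
  obtain ⟨n, d, hd, hxnd⟩ := IsFractionRing.div_surjective (A := 𝓞 K) x
  have hd0 : d ≠ 0 := nonZeroDivisors.ne_zero hd
  have hdK : algebraMap (𝓞 K) K d ≠ 0 := by
    simpa using hd0
  have hn0 : n ≠ 0 := by
    rintro rfl
    apply hx
    rw [← hxnd]; simp
  set y : 𝓞 K := n * d with hy
  have hy0 : y ≠ 0 := mul_ne_zero hn0 hd0
  have hyx : algebraMap (𝓞 K) K y = x * (algebraMap (𝓞 K) K d) ^ 2 := by
    rw [hy, map_mul, ← hxnd]
    field_simp
  have hev : ∀ v : HeightOneSpectrum (𝓞 K), Even (multiplicity v.asIdeal (Ideal.span {y})) := by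
    intro v
    apply even_of_isSquare_exp
    have e0 : v.valuation K (algebraMap (𝓞 K) K y) = v.intValuation y :=
      v.valuation_of_algebraMap y
    rw [← v.intValuation_eq_exp_neg_multiplicity hy0, ← e0, hyx, map_mul, map_pow]
    exact (hv v).mul (IsSquare.sq _)
  have hspan : Ideal.span {y} ≠ ⊥ := by
    rw [Ne, Ideal.span_singleton_eq_bot]; exact hy0
  obtain ⟨J, hJ⟩ := ideal_exists_sq _ hspan hev
  have hJ0 : J ≠ 0 := by
    rintro rfl
    rw [zero_pow two_ne_zero] at hJ
    exact hspan hJ
  let J' : nonZeroDivisors (Ideal (𝓞 K)) := ⟨J, mem_nonZeroDivisors_of_ne_zero hJ0⟩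
  have hJ2 : ClassGroup.mk0 J' ^ 2 = 1 := by
    rw [← map_pow, ClassGroup.mk0_eq_one_iff]
    refine ⟨⟨y, ?_⟩⟩
    change J ^ 2 = _
    rw [← hJ]
  have hJ1 : ClassGroup.mk0 J' = 1 := by
    rw [← orderOf_eq_one_iff]
    have h1 := orderOf_dvd_of_pow_eq_one hJ2
    have h2 := orderOf_dvd_card (x := ClassGroup.mk0 J')
    have h3 : Nat.Coprime 2 (Fintype.card (ClassGroup (𝓞 K))) := by
      rw [Nat.coprime_two_left]
      exact hodd
    exact Nat.Coprime.eq_one_of_dvd (Nat.Coprime.coprime_dvd_left h1 h3) h2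
  rw [ClassGroup.mk0_eq_one_iff] at hJ1
  obtain ⟨⟨r, hr⟩⟩ := hJ1
  have hr' : J = Ideal.span {r} := hr
  rw [hr', Ideal.span_singleton_pow, Ideal.span_singleton_eq_span_singleton] at hJ
  obtain ⟨u, hu⟩ := hJ.symm
  have hr0 : r ≠ 0 := by
    rintro rfl
    apply hJ0
    rw [hr']; simp
  refine ⟨u, algebraMap (𝓞 K) K r / algebraMap (𝓞 K) K d, div_ne_zero (by simpa using hr0) hdK, ?_⟩
  have e1 : x = algebraMap (𝓞 K) K y / (algebraMap (𝓞 K) K d) ^ 2 := by
    rw [hyx]; field_simp
  rw [e1, ← hu, map_mul, map_pow]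
  field_simp

end Pool.Agent.MP009fd8
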