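import Mathlib

/-!
MP_009fd8_ag, definitions for the complete 2-descent on E_q : y^2 = x^3 - q^2 x.
-/

namespace Pool.Agent.MP009fd8

open IsDedekindDomain NumberField

/-- The 2-covering C_(a,b) of the curve y^2 = x^3 - q^2 x = x (x - q) (x + q), given in
projective 3-space by b Y^2 = a X^2 - q W^2 and a b Z^2 = a X^2 + q W^2, has a point over the
field F. -/
def HasPoint {F : Type*} [Field F] (q a b : F) : Prop :=
  ∃ X Y Z W : F, (X ≠ 0 ∨ Y ≠ 0 ∨ Z ≠ 0 ∨ W ≠ 0) ∧
    b * Y ^ 2 = a * X ^ 2 - q * W ^ 2 ∧ a * b * Z ^ 2 = a * X ^ 2 + q * W ^ 2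

/-- The pair (a, b) defines a class of the 2-Selmer group of y^2 = x^3 - q^2 x over the number
field K: the covering C_(a,b) has a point over the completion of K at every finite place and
over the real numbers for every real embedding of K. -/
def SelmerPair (K : Type*) [Field K] [NumberField K] (q a b : K) : Prop :=
  (∀ v : HeightOneSpectrum (𝓞 K),
    HasPoint (algebraMap K (v.adicCompletion K) q) (algebraMap K (v.adicCompletion K) a)
      (algebraMap K (v.adicCompletion K) b)) ∧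
  ∀ f : K →+* ℝ, HasPoint (f q) (f a) (f b)

/-- The pair (a, b) is, up to squares of nonzero elements, one of the four pairs (1, 1),
(-1, -q), (q, 2), (-q, -2q) that come from the 2-torsion points of y^2 = x^3 - q^2 x. -/
def TorsionPair {F : Type*} [Field F] (q a b : F) : Prop :=
  ∃ r s : F, r ≠ 0 ∧ s ≠ 0 ∧
    ((a = r ^ 2 ∧ b = s ^ 2) ∨ (a = -r ^ 2 ∧ b = -q * s ^ 2) ∨
      (a = q * r ^ 2 ∧ b = 2 * s ^ 2) ∨ (a = -q * r ^ 2 ∧ b = -2 * q * s ^ 2))

/-- The set V_q of the classes z modulo 2 of integers y with y^4 + e y^2 + y = 0 modulo 2 such that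
some unit u of the ring of integers of K is a square modulo q and u = g^2 (1 + 2 y^2) modulo 4 for
some g not divisible by 2. It has at most four elements when 2 is prime in the ring of integers. -/
def classes (K : Type*) [Field K] [NumberField K] (q e : 𝓞 K) :
    Set (𝓞 K ⧸ Ideal.span {(2 : 𝓞 K)}) :=
  {z | ∃ (u : (𝓞 K)ˣ) (m y g : 𝓞 K), Ideal.Quotient.mk _ y = z ∧ q ∣ (u : 𝓞 K) - m ^ 2 ∧
    ¬ 2 ∣ g ∧ 2 ∣ y ^ 4 + e * y ^ 2 + y ∧ 4 ∣ (u : 𝓞 K) - g ^ 2 * (1 + 2 * y ^ 2)}

end Pool.Agent.MP009fd8
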