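import Pool.Agent.Lib.MP_009fd8_ag.MainC

/-!
MP_009fd8_ag: the 2-descent on y^2 = x^3 - q^2 x, uniform form: statements with equivalences.
-/

namespace Pool.Agent.MP009fd8

open IsDedekindDomain NumberField WithZero

variable {K : Type*} [Field K] [NumberField K]

theorem SelmerPair.of_hasPoint {q a b : K} (h : HasPoint q a b) : SelmerPair K q a b :=
  ⟨fun _ => h.map _, fun f => h.map f⟩

/-- There are at most four classes. -/
theorem classes_ncard_le_four (h2 : Prime (2 : 𝓞 K)) (q e : 𝓞 K) :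
    (classes K q e).ncard ≤ 4 := by
  classical
  set I : Ideal (𝓞 K) := Ideal.span {(2 : 𝓞 K)} with hI
  have hIp : I.IsPrime := (Ideal.span_singleton_prime two_ne_zero).2 h2
  have : IsDomain (𝓞 K ⧸ I) := Ideal.Quotient.isDomain I
  let p : Polynomial (𝓞 K ⧸ I) := Polynomial.X ^ 4 +
    Polynomial.C (Ideal.Quotient.mk I e) * Polynomial.X ^ 2 + Polynomial.X
  have hdeg : p.natDegree = 4 := by
    simp only [p]
    compute_degree!
  have hp0 : p ≠ 0 := by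
    intro h0
    rw [h0] at hdeg
    simp at hdeg
  have hsub : classes K q e ⊆ (p.roots.toFinset : Set (𝓞 K ⧸ I)) := by
    rintro z ⟨u, m, y, g, rfl, -, -, hy, -⟩
    have h4 : Ideal.Quotient.mk I (y ^ 4 + e * y ^ 2 + y) = 0 := by
      rw [Ideal.Quotient.eq_zero_iff_mem, hI, Ideal.mem_span_singleton]
      exact hy
    simp only [Finset.mem_coe, Multiset.mem_toFinset]
    rw [Polynomial.mem_roots hp0, Polynomial.IsRoot.def]
    simp only [p, Polynomial.eval_add, Polynomial.eval_mul, Polynomial.eval_pow,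
      Polynomial.eval_X, Polynomial.eval_C]
    rw [← h4]
    simp only [map_add, map_mul, map_pow]
    rfl
  calc (classes K q e).ncard ≤ (p.roots.toFinset : Set (𝓞 K ⧸ I)).ncard :=
        Set.ncard_le_ncard hsub (Finset.finite_toSet _)
    _ = p.roots.toFinset.card := Set.ncard_coe_finset _
    _ ≤ Multiset.card p.roots := Multiset.toFinset_card_le _
    _ ≤ p.natDegree := Polynomial.card_roots' _
    _ = 4 := hdeg

/-- Without a nonzero root there is at most one class. -/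
theorem classes_ncard_le_one (h2 : Prime (2 : 𝓞 K)) (q e : 𝓞 K)
    (hroot : ∀ (u : (𝓞 K)ˣ) (m y g : 𝓞 K), q ∣ (u : 𝓞 K) - m ^ 2 → ¬ 2 ∣ g →
      2 ∣ y ^ 3 + e * y + 1 → ¬ 4 ∣ (u : 𝓞 K) - g ^ 2 * (1 + 2 * y ^ 2)) :
    (classes K q e).ncard ≤ 1 := by
  rw [Set.ncard_le_one (classes_finite q e)]
  have key : ∀ z ∈ classes K q e, z = 0 := by
    rintro z ⟨u, m, y, g, rfl, hm, hg, hy, hu⟩
    rw [Ideal.Quotient.eq_zero_iff_mem, Ideal.mem_span_singleton]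
    have h1 : (2 : 𝓞 K) ∣ y * (y ^ 3 + e * y + 1) := by
      convert hy using 1; ring
    rcases h2.dvd_or_dvd h1 with h | h
    · exact h
    · exact absurd hu (hroot u m y g hm hg h)
  intro a ha b hb
  rw [key a ha, key b hb]

/-- The uniform 2-descent with equivalences. -/
theorem two_descent (hclass : Odd (NumberField.classNumber K))
    (hpos : ∀ u : (𝓞 K)ˣ, (∀ f : K →+* ℝ, 0 < f (algebraMap (𝓞 K) K (u : 𝓞 K))) → IsSquare u)
    (hfour : ∀ u : (𝓞 K)ˣ, (∃ m : 𝓞 K, (4 : 𝓞 K) ∣ (u : 𝓞 K) - m ^ 2) → IsSquare u)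
    (h2 : Prime (2 : 𝓞 K))
    (q : 𝓞 K) (hq : Prime q) (hqpos : ∀ f : K →+* ℝ, 0 < f (algebraMap (𝓞 K) K q))
    (hq2 : ∀ m : 𝓞 K, ¬ q ∣ 2 - m ^ 2)
    (c e : 𝓞 K) (hqe : 4 ∣ q - c ^ 2 * (1 + 2 * e))
    (P : Finset (K × K)) (hP0 : ∀ p ∈ P, p.1 ≠ 0 ∧ p.2 ≠ 0)
    (hP : ∀ p ∈ P, HasPoint (algebraMap (𝓞 K) K q) p.1 p.2)
    (hPne : ∀ p ∈ P, ∀ p' ∈ P, p ≠ p' →
      ¬ TorsionPair (algebraMap (𝓞 K) K q) (p.1 * p'.1) (p.2 * p'.2))
    (hcard : (classes K q e).ncard ≤ P.card)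
    (a b : K) (ha : a ≠ 0) (hb : b ≠ 0) :
    (SelmerPair K (algebraMap (𝓞 K) K q) a b ↔ HasPoint (algebraMap (𝓞 K) K q) a b) ∧
    (SelmerPair K (algebraMap (𝓞 K) K q) a b ↔
      ∃ p ∈ P, TorsionPair (algebraMap (𝓞 K) K q) (a * p.1) (b * p.2)) := by
  have hq0 : algebraMap (𝓞 K) K q ≠ 0 := by
    have := hq.ne_zero
    simpa using this
  have h1 : SelmerPair K (algebraMap (𝓞 K) K q) a b →
      ∃ p ∈ P, TorsionPair (algebraMap (𝓞 K) K q) (a * p.1) (b * p.2) :=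
    uniform_descent hclass hpos hfour h2 q hq hqpos hq2 c e hqe P hP0 hP hPne hcard a b ha hb
  have h3 : (∃ p ∈ P, TorsionPair (algebraMap (𝓞 K) K q) (a * p.1) (b * p.2)) →
      HasPoint (algebraMap (𝓞 K) K q) a b := by
    rintro ⟨p, hp, ht⟩
    exact hasPoint_of_equiv hq0 (hP0 p hp).1 (hP0 p hp).2 (hP p hp) ht
  exact ⟨⟨fun h => h3 (h1 h), SelmerPair.of_hasPoint⟩,
    ⟨h1, fun h => SelmerPair.of_hasPoint (h3 h)⟩⟩

/-- The case of rank 0. -/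
theorem two_descent_one (hclass : Odd (NumberField.classNumber K))
    (hpos : ∀ u : (𝓞 K)ˣ, (∀ f : K →+* ℝ, 0 < f (algebraMap (𝓞 K) K (u : 𝓞 K))) → IsSquare u)
    (hfour : ∀ u : (𝓞 K)ˣ, (∃ m : 𝓞 K, (4 : 𝓞 K) ∣ (u : 𝓞 K) - m ^ 2) → IsSquare u)
    (h2 : Prime (2 : 𝓞 K))
    (q : 𝓞 K) (hq : Prime q) (hqpos : ∀ f : K →+* ℝ, 0 < f (algebraMap (𝓞 K) K q))
    (hq2 : ∀ m : 𝓞 K, ¬ q ∣ 2 - m ^ 2)
    (c e : 𝓞 K) (hqe : 4 ∣ q - c ^ 2 * (1 + 2 * e))
    (hroot : ∀ (u : (𝓞 K)ˣ) (m y g : 𝓞 K), q ∣ (u : 𝓞 K) - m ^ 2 → ¬ 2 ∣ g →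
      2 ∣ y ^ 3 + e * y + 1 → ¬ 4 ∣ (u : 𝓞 K) - g ^ 2 * (1 + 2 * y ^ 2))
    (a b : K) (ha : a ≠ 0) (hb : b ≠ 0) :
    SelmerPair K (algebraMap (𝓞 K) K q) a b ↔ TorsionPair (algebraMap (𝓞 K) K q) a b := by
  have h := (two_descent hclass hpos hfour h2 q hq hqpos hq2 c e hqe {((1 : K), (1 : K))}
    (by intro p hp; rw [Finset.mem_singleton] at hp; subst hp; simp)
    (by
      intro p hp; rw [Finset.mem_singleton] at hp; subst hp
      exact ⟨1, 1, 1, 0, Or.inl one_ne_zero, by ring, by ring⟩)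
    (by
      intro p hp p' hp' hne
      rw [Finset.mem_singleton] at hp hp'
      exact absurd (hp.trans hp'.symm) hne)
    (by rw [Finset.card_singleton]; exact classes_ncard_le_one h2 q e hroot) a b ha hb).2
  rw [h]
  constructor
  · rintro ⟨p, hp, ht⟩
    rw [Finset.mem_singleton] at hp
    subst hp
    simpa using ht
  · intro ht
    exact ⟨_, Finset.mem_singleton_self _, by simpa using ht⟩

end Pool.Agent.MP009fd8
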