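import Mathlib

/-!
MP_009fd8_ag, leaf file: odd class number gives elements of odd valuation at one place only.
-/

namespace Pool.Agent.MP009fd8

open NumberField IsDedekindDomain

/-- Odd class number h: for every finite place v there is an element with valuation exp (-h) at v
(not a square in the value group) and 1 at all the other finite places.

Proof. The ideal v.asIdeal ^ h is principal (the class group has order h: pow_card_eq_one,
ClassGroup.mk0_eq_one_iff), generated by some p in the ring of integers, p nonzero. Its valuation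
at v is exp (-h) (intValuation_if_neg and the count of v in v^h, or
intValuation_eq_exp_neg_multiplicity, or: intValuation_le_pow_iff_mem for h and h + 1); at v' not
equal to v: p is not in v' (else v^h is contained in the prime v', so v = v' by maximality). Not a
square: exp (-h) = exp (n) * exp (n) forces 2 n = -h, h odd. -/
theorem exists_odd_generator {K : Type*} [Field K] [NumberField K]
    (hclass : Odd (NumberField.classNumber K)) (v : HeightOneSpectrum (𝓞 K)) :
    ∃ p : K, p ≠ 0 ∧ ¬ IsSquare (v.valuation K p) ∧
      ∀ v' : HeightOneSpectrum (𝓞 K), v' ≠ v → v'.valuation K p = 1 := by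
  classical
  obtain ⟨h, hh⟩ : ∃ h, h = NumberField.classNumber K := ⟨_, rfl⟩
  rw [← hh] at hclass
  have hv0 : v.asIdeal ≠ 0 := v.ne_bot
  let J' : nonZeroDivisors (Ideal (𝓞 K)) := ⟨v.asIdeal, mem_nonZeroDivisors_of_ne_zero hv0⟩
  have hJ : ClassGroup.mk0 (J' ^ h) = 1 := by
    rw [map_pow, hh]
    exact pow_card_eq_one
  rw [ClassGroup.mk0_eq_one_iff] at hJ
  obtain ⟨⟨r, hr⟩⟩ := hJ
  have hr' : v.asIdeal ^ h = Ideal.span {r} := hr
  have hr0 : r ≠ 0 := by
    rintro rfl
    apply pow_ne_zero h hv0
    rw [hr']
    simp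
  have hrK : algebraMap (𝓞 K) K r ≠ 0 := by simpa using hr0
  have hh0 : h ≠ 0 := fun h0 => by
    rw [h0] at hclass
    exact absurd hclass (by decide)
  refine ⟨algebraMap (𝓞 K) K r, hrK, ?_, ?_⟩
  · have e0 : v.valuation K (algebraMap (𝓞 K) K r) = v.intValuation r :=
      v.valuation_of_algebraMap r
    have e1 : multiplicity v.asIdeal (Ideal.span {r}) = h := by
      rw [← hr']
      exact multiplicity_pow_self_of_prime v.prime h
    rw [e0, v.intValuation_eq_exp_neg_multiplicity hr0, e1]
    rintro ⟨y, hy⟩
    have hy0 : y ≠ 0 := by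
      rintro rfl
      simp at hy
    obtain ⟨k, hk⟩ : ∃ k : ℤ, y = WithZero.exp k := ⟨WithZero.log y, (WithZero.exp_log hy0).symm⟩
    rw [hk, ← WithZero.exp_add, WithZero.exp_inj] at hy
    obtain ⟨m, hm⟩ := hclass
    omega
  · intro v' hv'
    have e0 : v'.valuation K (algebraMap (𝓞 K) K r) = v'.intValuation r :=
      v'.valuation_of_algebraMap r
    rw [e0]
    by_contra hne
    have hlt : v'.intValuation r < 1 := lt_of_le_of_ne (v'.intValuation_le_one r) hne
    rw [v'.intValuation_lt_one_iff_mem] at hlt
    have h1 : v.asIdeal ^ h ≤ v'.asIdeal := by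
      rw [hr', Ideal.span_singleton_le_iff_mem]
      exact hlt
    have h2 : v.asIdeal ≤ v'.asIdeal := Ideal.IsPrime.le_of_pow_le h1
    exact hv' (HeightOneSpectrum.ext (v.isMaximal.eq_of_le v'.isPrime.ne_top h2).symm)

end Pool.Agent.MP009fd8
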