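import Pool.Agent.Lib.MP_12adaf_nt.HM.Q04

/-!
MP_009fd8_ag, leaf file: if every totally positive unit is a square, there are units of all
signatures.
-/

namespace Pool.Agent.MP009fd8

open NumberField

open IsDedekindDomain Pool.Agent.Lib.MP_12adaf_nt.HM

section

variable {k : Type*} [Field k] [NumberField k]

private lemma sqI_congrSg {G H : Type*} [CommGroup G] [CommGroup H] (e : G ≃* H) :
    sqI G = sqI H := by
  have h1 : (powMonoidHom 2 : G →* G).range = ((powMonoidHom 2 : H →* H).range).comap
      (e : G →* H) := by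
    ext x
    rw [Subgroup.mem_comap]
    constructor
    · rintro ⟨y, rfl⟩
      exact ⟨e y, by simp [powMonoidHom_apply]⟩
    · rintro ⟨y, hy⟩
      refine ⟨e.symm y, ?_⟩
      rw [powMonoidHom_apply] at hy ⊢
      rw [← map_pow, hy]
      simp
  unfold sqI
  rw [h1]
  exact Subgroup.index_comap_of_surjective _ e.surjective

private lemma sqI_prodSg (G H : Type*) [CommGroup G] [CommGroup H] :
    sqI (G × H) = sqI G * sqI H := by
  have h1 : (powMonoidHom 2 : G × H →* G × H).range =
      ((powMonoidHom 2 : G →* G).range).prod ((powMonoidHom 2 : H →* H).range) := by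
    ext x
    rw [Subgroup.mem_prod]
    constructor
    · rintro ⟨y, rfl⟩
      exact ⟨⟨y.1, rfl⟩, ⟨y.2, rfl⟩⟩
    · rintro ⟨⟨y, hy⟩, ⟨z, hz⟩⟩
      exact ⟨(y, z), Prod.ext hy hz⟩
  unfold sqI
  rw [h1, Subgroup.index_prod]

private lemma sqI_intSg : sqI (Multiplicative ℤ) = 2 := by
  unfold sqI
  rw [Subgroup.index_eq_two_iff]
  refine ⟨Multiplicative.ofAdd 1, fun b => ?_⟩
  have h1 : ∀ c : Multiplicative ℤ,
      c ∈ (powMonoidHom 2 : Multiplicative ℤ →* Multiplicative ℤ).range ↔
        Even (Multiplicative.toAdd c) := by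
    intro c
    constructor
    · rintro ⟨d, rfl⟩
      exact ⟨Multiplicative.toAdd d, by rw [powMonoidHom_apply, sq, toAdd_mul]⟩
    · rintro ⟨d, hd⟩
      refine ⟨Multiplicative.ofAdd d, ?_⟩
      rw [powMonoidHom_apply, sq, ← ofAdd_add, ← hd, ofAdd_toAdd]
  rw [h1, h1, toAdd_mul, toAdd_ofAdd]
  rcases Int.even_or_odd (Multiplicative.toAdd b) with h | h
  · right
    refine ⟨h, ?_⟩
    rw [Int.not_even_iff_odd]
    exact h.add_odd odd_one
  · left
    refine ⟨h.add_odd odd_one, ?_⟩
    rwa [Int.not_even_iff_odd]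

private lemma sqI_piSg (r : ℕ) (G : Type*) [CommGroup G] :
    sqI (Fin r → G) = (sqI G) ^ r := by
  have h1 : (powMonoidHom 2 : (Fin r → G) →* (Fin r → G)).range =
      Subgroup.pi Set.univ (fun _ : Fin r => (powMonoidHom 2 : G →* G).range) := by
    ext x
    rw [Subgroup.mem_pi]
    constructor
    · rintro ⟨y, rfl⟩ i _
      exact ⟨y i, rfl⟩
    · intro h
      choose y hy using fun i => h i (Set.mem_univ i)
      exact ⟨y, funext hy⟩
  unfold sqI
  rw [h1, Subgroup.index_pi]
  simp

private lemma sqI_unitsSg : sqI (𝓞 k)ˣ = 2 ^ Fintype.card (InfinitePlace k) := by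
  classical
  let φ : (Units.torsion k) × (Fin (Units.rank k) → Multiplicative ℤ) →* (𝓞 k)ˣ :=
    { toFun := fun x => (x.1 : (𝓞 k)ˣ) *
        ∏ i, (Units.fundSystem k i) ^ (Multiplicative.toAdd (x.2 i))
      map_one' := by simp
      map_mul' := by
        intro x y
        simp only [Prod.fst_mul, Prod.snd_mul, Subgroup.coe_mul, Pi.mul_apply, toAdd_mul, zpow_add,
          Finset.prod_mul_distrib]
        exact mul_mul_mul_comm _ _ _ _ }
  have hφ : Function.Bijective φ := by
    constructor
    · intro x y hxy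
      obtain ⟨ζe, -, huniq⟩ := Units.exist_unique_eq_mul_prod k (φ x)
      have h1 := huniq (x.1, fun i => Multiplicative.toAdd (x.2 i)) rfl
      have h2 := huniq (y.1, fun i => Multiplicative.toAdd (y.2 i)) hxy
      have h3 := h1.trans h2.symm
      have h4 := congrArg Prod.fst h3
      have h5 := congrArg Prod.snd h3
      refine Prod.ext h4 (funext fun i => ?_)
      exact Multiplicative.toAdd.injective (congrFun h5 i)
    · intro u
      obtain ⟨ζe, h, -⟩ := Units.exist_unique_eq_mul_prod k u
      exact ⟨(ζe.1, fun i => Multiplicative.ofAdd (ζe.2 i)), h.symm⟩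
  rw [← sqI_congrSg (MulEquiv.ofBijective φ hφ), sqI_prodSg, sqI_piSg, sqI_intSg]
  have h1 : sqI (Units.torsion k) = 2 := by
    unfold sqI
    rw [IsCyclic.index_powMonoidHom_range]
    have h2 : 2 ∣ Nat.card (Units.torsion k) := even_iff_two_dvd.1 (Units.even_torsionOrder k)
    exact Nat.gcd_eq_right h2
  rw [h1, Units.rank, ← pow_succ', Nat.sub_add_cancel Fintype.card_pos]

end

private lemma card_emb_le (K : Type*) [Field K] [NumberField K] :
    Finite (K →+* ℝ) ∧ Nat.card (K →+* ℝ) ≤ Fintype.card (InfinitePlace K) := by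
  let j : (K →+* ℝ) → InfinitePlace K := fun f => InfinitePlace.mk (Complex.ofRealHom.comp f)
  have hj : Function.Injective j := by
    intro f g hfg
    have h1 : (Complex.ofRealHom.comp f) = (Complex.ofRealHom.comp g) := by
      rcases InfinitePlace.mk_eq_iff.1 hfg with h | h
      · exact h
      · rw [← h]
        ext x
        simp [ComplexEmbedding.conjugate_coe_eq]
    ext x
    have h2 := RingHom.congr_fun h1 x
    exact Complex.ofReal_injective h2
  have hfin : Finite (K →+* ℝ) := Finite.of_injective j hj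
  refine ⟨hfin, ?_⟩
  rw [← Nat.card_eq_fintype_card]
  exact Nat.card_le_card_of_injective j hj

/-- If every totally positive unit is a square then every sign pattern at the real embeddings is
the one of a unit.

Proof. Let s : units -> ((K ->+* R) -> signs) be the signature homomorphism. Its kernel is the
group of totally positive units, which by hpos is the group of squares, so the image has
2 ^ card (InfinitePlace K) elements: the index of the squares in the unit group is
2 ^ card (InfinitePlace K) (theorem sqI_SU_empty in Pool/Agent/Lib/MP_12adaf_nt/HM/Q04.lean,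
line 132, for SU K empty, which is isomorphic to the unit group as in its proof; or Dirichlet's
unit theorem directly). The target has 2 ^ (number of real embeddings) elements, and
number of real embeddings = nrRealPlaces K <= card (InfinitePlace K). So the signature
homomorphism is surjective. -/
theorem exists_unit_sign {K : Type*} [Field K] [NumberField K]
    (hpos : ∀ u : (𝓞 K)ˣ, (∀ f : K →+* ℝ, 0 < f (algebraMap (𝓞 K) K (u : 𝓞 K))) → IsSquare u)
    (J : Set (K →+* ℝ)) :
    ∃ w : (𝓞 K)ˣ, ∀ f : K →+* ℝ, (f (algebraMap (𝓞 K) K (w : 𝓞 K)) < 0 ↔ f ∈ J) := by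
  classical
  obtain ⟨hfin, hcard⟩ := card_emb_le K
  let g : (𝓞 K)ˣ → (K →+* ℝ) → ℝ := fun u f => f (algebraMap (𝓞 K) K (u : 𝓞 K))
  have hgmul : ∀ u v f, g (u * v) f = g u f * g v f := by
    intro u v f
    simp only [g, Units.val_mul, map_mul]
  have hg0 : ∀ u f, g u f ≠ 0 := by
    intro u f h
    have h1 : (u : 𝓞 K) = 0 := by
      have h2 : algebraMap (𝓞 K) K (u : 𝓞 K) = 0 := (map_eq_zero f).1 h
      exact RingOfIntegers.coe_injective (by simpa using h2)
    exact u.ne_zero h1
  let s : (𝓞 K)ˣ →* ((K →+* ℝ) → ℤˣ) :=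
    { toFun := fun u f => if 0 < g u f then 1 else -1
      map_one' := by
        funext f
        have : g 1 f = 1 := by simp [g]
        simp [this]
      map_mul' := by
        intro u v
        funext f
        have hu := hg0 u f
        have hv := hg0 v f
        have huv := hgmul u v f
        rcases lt_or_gt_of_ne hu with h1 | h1 <;> rcases lt_or_gt_of_ne hv with h2 | h2
        · have h3 : 0 < g (u * v) f := by rw [huv]; exact mul_pos_of_neg_of_neg h1 h2
          simp [h3, h1.not_gt, h2.not_gt]
        · have h3 : g (u * v) f < 0 := by rw [huv]; exact mul_neg_of_neg_of_pos h1 h2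
          simp [h3.not_gt, h1.not_gt, h2]
        · have h3 : g (u * v) f < 0 := by rw [huv]; exact mul_neg_of_pos_of_neg h1 h2
          simp [h3.not_gt, h1, h2.not_gt]
        · have h3 : 0 < g (u * v) f := by rw [huv]; exact mul_pos h1 h2
          simp [h3, h1, h2] }
  have hs : ∀ u f, s u f = if 0 < g u f then 1 else -1 := fun u f => rfl
  have hker : s.ker = (powMonoidHom 2 : (𝓞 K)ˣ →* (𝓞 K)ˣ).range := by
    ext u
    constructor
    · intro hu
      have h1 : ∀ f : K →+* ℝ, 0 < g u f := by
        intro f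
        by_contra hc
        have h2 : s u f = 1 := by rw [MonoidHom.mem_ker.1 hu]; rfl
        rw [hs, if_neg hc] at h2
        exact absurd h2 (by decide)
      obtain ⟨r, hr⟩ := hpos u h1
      exact ⟨r, by rw [powMonoidHom_apply, hr, sq]⟩
    · rintro ⟨r, rfl⟩
      rw [MonoidHom.mem_ker]
      funext f
      rw [powMonoidHom_apply, sq, hs, if_pos, Pi.one_apply]
      rw [hgmul]
      exact mul_self_pos.2 (hg0 r f)
  have hidx : Nat.card s.range = 2 ^ Fintype.card (InfinitePlace K) := by
    rw [← Subgroup.index_ker, hker]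
    exact sqI_unitsSg
  have htgt : Nat.card ((K →+* ℝ) → ℤˣ) ≤ Nat.card s.range := by
    rw [hidx, Nat.card_fun]
    have h2 : Nat.card ℤˣ = 2 := by rw [Nat.card_eq_fintype_card]; rfl
    rw [h2]
    exact Nat.pow_le_pow_right (by norm_num) hcard
  have htop : s.range = ⊤ := Subgroup.eq_top_of_le_card _ htgt
  obtain ⟨w, hw⟩ : (fun f => if f ∈ J then (-1 : ℤˣ) else 1) ∈ s.range := by
    rw [htop]; exact Subgroup.mem_top _
  refine ⟨w, fun f => ?_⟩
  have h1 : s w f = if f ∈ J then (-1 : ℤˣ) else 1 := by rw [hw]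
  rw [hs] at h1
  have h0 := hg0 w f
  show g w f < 0 ↔ f ∈ J
  constructor
  · intro h2
    by_contra h3
    rw [if_neg h2.not_gt, if_neg h3] at h1
    exact absurd h1 (by decide)
  · intro h2
    rw [if_pos h2] at h1
    rcases lt_or_gt_of_ne h0 with h3 | h3
    · exact h3
    · rw [if_pos h3] at h1
      exact absurd h1 (by decide)

end Pool.Agent.MP009fd8
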