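import Pool.Agent.Lib.MP_12adaf_nt.HM.H24

/-!
MP_009fd8_ag, leaf file: norms from an unramified quadratic extension have even valuation.
-/

namespace Pool.Agent.MP009fd8

open NumberField IsDedekindDomain

open IsLocalRing Pool.Agent.Lib.MP_12adaf_nt.HM in
private lemma ue_dvr {O F : Type*} [CommRing O] [IsDomain O] [IsDiscreteValuationRing O]
    [HenselianLocalRing O] [Finite (ResidueField O)] [Field F] [Algebra O F] [IsFractionRing O F]
    {w n r : O} (hw : IsUnit w) (hn : IsUnit n) (e : w = n ^ 2 * (1 + 4 * r))
    (hns : ¬ IsSquare (algebraMap O F w)) {p : O} (hp : Irreducible p) {c : F} (hc : c ≠ 0)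
    (h : NF (algebraMap O F w) c) : ∃ k : ℤ, HasOrd p c (k + k) := by
  obtain ⟨N, hN⟩ := exists_hasOrd hp hc
  have hr : ∀ x : ResidueField O, x ^ 2 + x ≠ residue O r := by
    intro x hx
    obtain ⟨a₀, rfl⟩ := residue_surjective (R := O) x
    have h1 : IsUnit (1 + 4 * r) := by
      rw [e] at hw
      exact isUnit_of_mul_isUnit_right hw
    have h2 : IsUnit (2 * a₀ + 1) := by
      by_contra hna
      have h3 : residue O (2 * a₀ + 1) = 0 := by
        rw [residue_eq_zero_iff, mem_maximalIdeal]
        exact hna
      have h4 : residue O (1 + 4 * r) = residue O (2 * a₀ + 1) ^ 2 := by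
        simp only [map_add, map_mul, map_one, map_ofNat]
        rw [← hx]
        ring
      rw [h3] at h4
      have h5 : residue O (1 + 4 * r) = 0 := by
        rw [h4]
        ring
      rw [residue_eq_zero_iff, mem_maximalIdeal] at h5
      exact h5 h1
    have hdeg : (Polynomial.X ^ 2 + Polynomial.X - Polynomial.C r : Polynomial O).Monic := by
      have h6 : (Polynomial.X ^ 2 + Polynomial.X - Polynomial.C r : Polynomial O) =
          Polynomial.X ^ (1 + 1) + (Polynomial.X - Polynomial.C r) := by ring
      rw [h6]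
      refine Polynomial.monic_X_pow_add ?_
      rw [Polynomial.degree_X_sub_C]
      norm_num
    obtain ⟨a, ha1, -⟩ := HenselianLocalRing.is_henselian
      (Polynomial.X ^ 2 + Polynomial.X - Polynomial.C r : Polynomial O) hdeg a₀ (by
        rw [← residue_eq_zero_iff]
        simp only [Polynomial.eval_sub, Polynomial.eval_add, Polynomial.eval_pow,
          Polynomial.eval_X, Polynomial.eval_C, map_sub, map_add, map_pow]
        rw [hx]
        ring) (by
        simp only [Polynomial.derivative_sub, Polynomial.derivative_add,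
          Polynomial.derivative_X_pow, Polynomial.derivative_C, Polynomial.derivative_X,
          sub_zero, Polynomial.eval_add, Polynomial.eval_mul, Polynomial.eval_C,
          Polynomial.eval_pow, Polynomial.eval_X, Polynomial.eval_one]
        norm_num
        exact h2)
    simp only [Polynomial.IsRoot, Polynomial.eval_sub, Polynomial.eval_add, Polynomial.eval_pow,
      Polynomial.eval_X, Polynomial.eval_C] at ha1
    apply hns
    refine ⟨algebraMap O F (n * (2 * a + 1)), ?_⟩
    rw [← map_mul]
    congr 1
    rw [e]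
    linear_combination (-4 * n ^ 2) * ha1
  have hn0 : algebraMap O F n ≠ 0 := (hn.map (algebraMap O F)).ne_zero
  have h7 : NF (algebraMap O F (1 + 4 * r)) c := by
    rw [e, map_mul, map_pow, mul_comm] at h
    exact (nf_mul_sq_left hn0).1 h
  obtain ⟨k, hk⟩ := even_of_nf_unram hp hr hN h7
  exact ⟨k, hk ▸ hN⟩

/-- Let u be a unit of the ring of integers of K which is a square modulo 4, and v a finite place
where u is not a square. Then the values c of the form x^2 - u y^2 over the completion (NF, see
Pool/Agent/Lib/MP_12adaf_nt/HM/Basic.lean) have even valuation.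

Proof. With O = v.adicCompletionIntegers K (a henselian discrete valuation ring; see the use of
exists_not_nf_dvr in theorem exists_not_nf of HM/H24.lean, line 1443, for the instances) one has
u = n^2 (1 + 4 r) in the completion, with n, r in O and n a unit: if 2 is not in v take n = 1 and
r = (u - 1) / 4; if 2 is in v then m is a unit of O (as u is), n = m, r = ((u - m^2) / 4) / m^2.
The polynomial X^2 + X - r has no root modulo the maximal ideal: at a root x the derivative 2 x + 1
is a unit, as (2 x + 1)^2 = 1 + 4 r modulo the maximal ideal and 1 + 4 r = u / n^2 is a unit; by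
Hensel it lifts to a root in O, and then u = (n (2 X + 1))^2 is a square, excluded. Now apply
even_of_nf_unram (HM/H24.lean, line 451) to 1 + 4 r (NF u c gives NF (1 + 4 r) c by
nf_mul_sq_left in HM/Basic.lean); HasOrd, exists_hasOrd: HM/Q02.lean. Convert HasOrd p c n with n
even into: the valuation of c is a square. (Or a direct valuation argument instead of
even_of_nf_unram: with c = a^2 - u b^2, X = a / n' - b ..., see its docstring.) -/
theorem isSquare_val_of_nf {K : Type*} [Field K] [NumberField K]
    (v : HeightOneSpectrum (𝓞 K)) (u : (𝓞 K)ˣ) (m : 𝓞 K) (h : (4 : 𝓞 K) ∣ (u : 𝓞 K) - m ^ 2)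
    (hns : ¬ IsSquare (algebraMap K (v.adicCompletion K) (algebraMap (𝓞 K) K (u : 𝓞 K))))
    (c : K) (hc : c ≠ 0)
    (hn : Pool.Agent.Lib.MP_12adaf_nt.HM.NF
      (algebraMap K (v.adicCompletion K) (algebraMap (𝓞 K) K (u : 𝓞 K)))
      (algebraMap K (v.adicCompletion K) c)) :
    IsSquare (v.valuation K c) := by
  classical
  set O := v.adicCompletionIntegers K with hO
  obtain ⟨s, hs⟩ := h
  have htow : ∀ x : 𝓞 K, algebraMap O (v.adicCompletion K) (algebraMap (𝓞 K) O x) =
      algebraMap K (v.adicCompletion K) (algebraMap (𝓞 K) K x) := by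
    intro x
    rfl
  have huO : IsUnit (algebraMap (𝓞 K) O (u : 𝓞 K)) := u.isUnit.map _
  obtain ⟨p, hp⟩ := IsDiscreteValuationRing.exists_irreducible O
  have hc' : algebraMap K (v.adicCompletion K) c ≠ 0 := by
    rw [Ne, map_eq_zero]
    exact hc
  rw [← htow] at hns hn
  obtain ⟨n, r, hnu, e⟩ : ∃ n r : O, IsUnit n ∧
      algebraMap (𝓞 K) O (u : 𝓞 K) = n ^ 2 * (1 + 4 * r) := by
    by_cases h2 : IsUnit (2 : O)
    · obtain ⟨t, ht⟩ := h2.exists_right_inv
      refine ⟨1, (algebraMap (𝓞 K) O (u : 𝓞 K) - 1) * t ^ 2, isUnit_one, ?_⟩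
      have h3 : (4 : O) * t ^ 2 = 1 := by
        linear_combination (2 * t + 1) * ht
      linear_combination (-(algebraMap (𝓞 K) O (u : 𝓞 K) - 1)) * h3
    · have hm : IsUnit (algebraMap (𝓞 K) O m) := by
        by_contra hmn
        have h4 : (algebraMap (𝓞 K) O (u : 𝓞 K)) ∈ IsLocalRing.maximalIdeal O := by
          have h5 : (algebraMap (𝓞 K) O (u : 𝓞 K)) =
              2 * (2 * algebraMap (𝓞 K) O s) + algebraMap (𝓞 K) O m * algebraMap (𝓞 K) O m := by
            have h6 := congrArg (algebraMap (𝓞 K) O) hs
            simp only [map_sub, map_mul, map_pow, map_ofNat] at h6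
            linear_combination h6
          rw [h5]
          refine Ideal.add_mem _ (Ideal.mul_mem_right _ _ ?_) (Ideal.mul_mem_right _ _ ?_)
          · exact (IsLocalRing.mem_maximalIdeal _).2 h2
          · exact (IsLocalRing.mem_maximalIdeal _).2 hmn
        exact (IsLocalRing.mem_maximalIdeal _).1 h4 huO
      obtain ⟨t, ht⟩ := hm.exists_right_inv
      refine ⟨algebraMap (𝓞 K) O m, algebraMap (𝓞 K) O s * t ^ 2, hm, ?_⟩
      have h6 := congrArg (algebraMap (𝓞 K) O) hs
      simp only [map_sub, map_mul, map_pow, map_ofNat] at h6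
      linear_combination h6 - 4 * algebraMap (𝓞 K) O s * (algebraMap (𝓞 K) O m * t + 1) * ht
  obtain ⟨k, w, hk⟩ := ue_dvr huO hnu e hns hp hc' hn
  refine ⟨(Valued.v (algebraMap O (v.adicCompletion K) p)) ^ k, ?_⟩
  have h7 : Valued.v (algebraMap K (v.adicCompletion K) c) = v.valuation K c :=
    HeightOneSpectrum.valuedAdicCompletion_eq_valuation' (v := v) c
  have h8 : Valued.v (algebraMap O (v.adicCompletion K) (w : O)) = 1 :=
    HeightOneSpectrum.adicCompletionIntegers.isUnit_iff_valued_eq_one.1 w.isUnit
  have h9 : algebraMap O (v.adicCompletion K) p ≠ 0 := by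
    intro h0
    exact hp.ne_zero ((IsFractionRing.injective O (v.adicCompletion K)) (by rw [h0, map_zero]))
  rw [← h7, hk, map_mul, h8, mul_one, zpow_add₀ h9, map_mul, map_zpow₀]


end Pool.Agent.MP009fd8
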