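import Pool.Agent.Lib.MP_12adaf_nt.HM.Q10
import Pool.Agent.Lib.MP_009fd8_ag.Sig
import Pool.Agent.Lib.MP_009fd8_ag.UnramEven
import Pool.Agent.Lib.MP_009fd8_ag.OddGen

/-!
MP_009fd8_ag: if the narrow class number is odd, a unit which is a square modulo 4 is a square.
-/

namespace Pool.Agent.MP009fd8

open NumberField IsDedekindDomain
open Pool.Agent.Lib.MP_12adaf_nt Pool.Agent.Lib.MP_12adaf_nt.HM

variable {K : Type*} [Field K] [NumberField K]

/-- An element which is not a square at an infinite place is negative at a real embedding. -/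
theorem exists_real_emb (w : InfinitePlace K) (x : K)
    (h : ¬ IsSquare (algebraMap K w.Completion x)) :
    ∃ f : K →+* ℝ, (∀ y, |f y| = w y) ∧ f x < 0 := by
  rcases exists_equiv_real_or_complex w with ⟨e, he⟩ | ⟨e, he⟩
  · refine ⟨(e : w.Completion →+* ℝ).comp (algebraMap K w.Completion), fun y => ?_, ?_⟩
    · have h1 := norm_plEmb K (Sum.inl w) y
      change ‖algebraMap K w.Completion y‖ = w y at h1
      rw [← h1, ← he, Real.norm_eq_abs]
      rfl
    · by_contra hneg
      apply h
      have h2 : IsSquare (e (algebraMap K w.Completion x)) :=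
        Real.isSquare_iff.mpr (not_lt.mp hneg)
      obtain ⟨y, hy⟩ := h2
      refine ⟨e.symm y, ?_⟩
      rw [← map_mul, ← hy, RingEquiv.symm_apply_apply]
  · exfalso
    apply h
    obtain ⟨y, hy⟩ := IsAlgClosed.exists_pow_nat_eq (e (algebraMap K w.Completion x))
      (zero_lt_two)
    refine ⟨e.symm y, ?_⟩
    rw [← map_mul, ← sq, hy, RingEquiv.symm_apply_apply]

/-- A unit which is a square in K is the square of a unit. -/
theorem isSquare_unit_of_isSquare (u : (𝓞 K)ˣ)
    (h : IsSquare (algebraMap (𝓞 K) K (u : 𝓞 K))) : IsSquare u := by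
  obtain ⟨y, hy⟩ := h
  have hy2 : y ^ 2 = algebraMap (𝓞 K) K (u : 𝓞 K) := by rw [hy]; ring
  have hint : IsIntegral (𝓞 K) y := by
    refine IsIntegral.of_pow zero_lt_two ?_
    rw [hy2]
    exact isIntegral_algebraMap
  obtain ⟨z, hz⟩ := IsIntegrallyClosed.isIntegral_iff.mp hint
  have hzz : z * z = (u : 𝓞 K) := by
    apply FaithfulSMul.algebraMap_injective (𝓞 K) K
    rw [map_mul, hz, hy]
  have hzu : IsUnit z := isUnit_of_mul_isUnit_left (by rw [hzz]; exact u.isUnit)
  obtain ⟨t, ht⟩ := hzu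
  exact ⟨t, Units.ext (by rw [Units.val_mul, ht, hzz])⟩

/-- Odd class number and every totally positive unit a square (so the narrow class number is odd):
a unit which is a square modulo 4 is a square. -/
theorem isSquare_of_sq_mod_four (hclass : Odd (NumberField.classNumber K))
    (hpos : ∀ u : (𝓞 K)ˣ, (∀ f : K →+* ℝ, 0 < f (algebraMap (𝓞 K) K (u : 𝓞 K))) → IsSquare u)
    (u : (𝓞 K)ˣ) (m : 𝓞 K) (h4 : (4 : 𝓞 K) ∣ (u : 𝓞 K) - m ^ 2) : IsSquare u := by
  classical
  by_contra hu
  set x : K := algebraMap (𝓞 K) K (u : 𝓞 K) with hxdef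
  have hx : ¬ IsSquare x := fun h => hu (isSquare_unit_of_isSquare u h)
  obtain ⟨T, hTsub, hcl⟩ := exists_Cl1 (finite_valuation_ne_one (k := K) two_ne_zero).toFinset
  have hT2 : ∀ w ∉ T, w.valuation K 2 = 1 := by
    intro w hw
    by_contra hcon
    exact hw (hTsub ((Set.Finite.mem_toFinset _).mpr hcon))
  have hval_unit : ∀ (w : HeightOneSpectrum (𝓞 K)) (t : (𝓞 K)ˣ),
      w.valuation K (algebraMap (𝓞 K) K (t : 𝓞 K)) = 1 := by
    intro w t
    rw [w.valuation_eq_one_iff_notMem]
    intro h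
    exact w.isPrime.ne_top (Ideal.eq_top_of_isUnit_mem _ h t.isUnit)
  have hTx : ∀ w ∉ T, w.valuation K x = 1 := fun w _ => hval_unit w u
  obtain ⟨hi0, hile⟩ := first_ineq hx T hT2 hTx hcl
  set A : Finset (Pl K) := (SP K T).filter fun i => ¬ IsSquare (plEmb K i x) with hA
  have hnsq : nsq T x ≤ A.card := by
    unfold nsq
    apply Finset.card_le_card
    intro i hi
    rw [Finset.mem_filter] at hi
    rw [hA, Finset.mem_filter]
    exact hi
  -- real embeddings attached to the infinite places of A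
  have hemb : ∀ w : InfinitePlace K, ∃ f : K →+* ℝ,
      Sum.inl w ∈ A → (∀ y, |f y| = w y) ∧ f x < 0 := by
    intro w
    by_cases hw : (Sum.inl w : Pl K) ∈ A
    · obtain ⟨f, hf1, hf2⟩ := exists_real_emb w x (Finset.mem_filter.mp hw).2
      exact ⟨f, fun _ => ⟨hf1, hf2⟩⟩
    · by_cases hf : Nonempty (K →+* ℝ)
      · obtain ⟨f⟩ := hf
        exact ⟨f, fun h => absurd h hw⟩
      · -- no real embedding: then every unit is totally positive
        exfalso
        apply hu
        exact hpos u (fun f => absurd ⟨f⟩ hf)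
  choose fe hfe using hemb
  -- elements of odd valuation at one place
  choose π hπ0 hπ1 hπ2 using fun v : HeightOneSpectrum (𝓞 K) => exists_odd_generator hclass v
  let P : Finset (Pl K) → K := fun J => ∏ v ∈ T.filter (fun v => (Sum.inr v : Pl K) ∈ J), π v
  have hP0 : ∀ J, P J ≠ 0 := fun J => Finset.prod_ne_zero_iff.mpr fun v _ => hπ0 v
  have hPval : ∀ J (v : HeightOneSpectrum (𝓞 K)), v.valuation K (P J) =
      if v ∈ T.filter (fun v => (Sum.inr v : Pl K) ∈ J) then v.valuation K (π v) else 1 := by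
    intro J v
    change v.valuation K (∏ v ∈ T.filter (fun v => (Sum.inr v : Pl K) ∈ J), π v) = _
    rw [map_prod]
    split_ifs with hv
    · rw [Finset.prod_eq_single v]
      · intro b _ hb
        exact hπ2 b v (Ne.symm hb)
      · intro h; exact absurd hv h
    · refine Finset.prod_eq_one fun b hb => ?_
      apply hπ2 b v
      rintro rfl
      exact hv hb
  -- units of prescribed signs
  have hw : ∀ J : Finset (Pl K), ∃ w : (𝓞 K)ˣ, ∀ f : K →+* ℝ,
      (f (algebraMap (𝓞 K) K (w : 𝓞 K) * P J) < 0 ↔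
        ∃ i : InfinitePlace K, Sum.inl i ∈ J ∧ f = fe i) := by
    intro J
    obtain ⟨w, hw⟩ := exists_unit_sign hpos
      {f : K →+* ℝ | ¬ ((f (P J) < 0) ↔ ∃ i : InfinitePlace K, Sum.inl i ∈ J ∧ f = fe i)}
    refine ⟨w, fun f => ?_⟩
    have h1 := hw f
    rw [Set.mem_ofPred_eq] at h1
    have hfP : f (P J) ≠ 0 := (map_ne_zero f).mpr (hP0 J)
    have hfw : f (algebraMap (𝓞 K) K (w : 𝓞 K)) ≠ 0 := (map_ne_zero f).mpr (by simp)
    rw [map_mul, mul_neg_iff]
    rcases lt_or_gt_of_ne hfP with hP | hP <;> rcases lt_or_gt_of_ne hfw with hw' | hw' <;>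
      simp only [hP, hw', not_lt_of_gt, true_and, and_true, and_false, false_and, or_false,
        false_or, true_iff, false_iff, not_not, iff_true, not_true, not_false_iff,
        iff_false, true_or, or_true] at h1 ⊢ <;> tauto
  choose wt hwt using hw
  let y : Finset (Pl K) → K := fun J => algebraMap (𝓞 K) K (wt J : 𝓞 K) * P J
  have hy0 : ∀ J, y J ≠ 0 := fun J => mul_ne_zero (by simp) (hP0 J)
  have hyval : ∀ J (v : HeightOneSpectrum (𝓞 K)), v.valuation K (y J) =
      if v ∈ T.filter (fun v => (Sum.inr v : Pl K) ∈ J) then v.valuation K (π v) else 1 := by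
    intro J v
    change v.valuation K (algebraMap (𝓞 K) K (wt J : 𝓞 K) * P J) = _
    rw [map_mul, hval_unit, one_mul, hPval]
  have key : ∀ J ⊆ A, ∀ J' ⊆ A, NF x ((y J)⁻¹ * y J') → J ⊆ J' := by
    intro J hJ J' hJ' hn i hi
    by_contra hi'
    rcases i with w | v
    · have hiA := hJ hi
      obtain ⟨hf1, hf2⟩ := hfe w hiA
      have h1 : fe w (y J) < 0 := (hwt J (fe w)).mpr ⟨w, hi, rfl⟩
      have h2 : ¬ fe w (y J') < 0 := by
        intro hcon
        obtain ⟨w', hw', hww⟩ := (hwt J' (fe w)).mp hcon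
        apply hi'
        have : w = w' := by
          apply DFunLike.ext
          intro z
          rw [← hf1, ← (hfe w' (hJ' hw')).1, hww]
        rw [this]; exact hw'
      have h3 : 0 < fe w (y J') :=
        lt_of_le_of_ne (not_lt.mp h2) (Ne.symm ((map_ne_zero _).mpr (hy0 J')))
      obtain ⟨a, b, hab⟩ := hn
      have h4 := congrArg (fe w) hab
      simp only [map_mul, map_inv₀, map_sub, map_pow] at h4
      have h5 : (fe w (y J))⁻¹ * fe w (y J') < 0 := mul_neg_of_neg_of_pos (inv_lt_zero.mpr h1) h3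
      nlinarith [sq_nonneg (fe w a), mul_nonneg (neg_nonneg.mpr hf2.le) (sq_nonneg (fe w b))]
    · have hiA := hJ hi
      have hvT : v ∈ T := mem_SP_inr.mp (Finset.mem_filter.mp hiA).1
      have hns : ¬ IsSquare (algebraMap K (v.adicCompletion K) x) := (Finset.mem_filter.mp hiA).2
      have h1 : v.valuation K (y J) = v.valuation K (π v) := by
        rw [hyval, if_pos (Finset.mem_filter.mpr ⟨hvT, hi⟩)]
      have h2 : v.valuation K (y J') = 1 := by
        rw [hyval, if_neg]
        intro h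
        exact hi' (Finset.mem_filter.mp h).2
      have h3 := isSquare_val_of_nf v u m h4 hns ((y J)⁻¹ * y J')
        (mul_ne_zero (inv_ne_zero (hy0 J)) (hy0 J')) (hn.map _)
      rw [map_mul, map_inv₀, h1, h2, mul_one] at h3
      apply hπ1 v
      obtain ⟨z, hz⟩ := h3
      exact ⟨z⁻¹, by rw [← mul_inv, ← hz, inv_inv]⟩
  -- the cosets
  have hmem : ∀ J : {J // J ∈ A.powerset}, Units.mk0 (y J.1) (hy0 J.1) ∈ SU K T := by
    intro J w hw
    change w.valuation K (y J.1) = 1
    rw [hyval, if_neg]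
    intro h
    exact hw (Finset.mem_filter.mp h).1
  let F : {J // J ∈ A.powerset} → SU K T ⧸ (NS x).subgroupOf (SU K T) :=
    fun J => QuotientGroup.mk ⟨Units.mk0 (y J.1) (hy0 J.1), hmem J⟩
  have hF : Function.Injective F := by
    intro J J' hJJ'
    have h1 := QuotientGroup.eq.mp hJJ'
    rw [Subgroup.mem_subgroupOf] at h1
    have h2 : NF x ((y J.1)⁻¹ * y J'.1) := by
      have h3 := mem_NS.mp h1
      simpa using h3
    have h3 : NF x ((y J'.1)⁻¹ * y J.1) := by
      have h4 := h2.inv
      rwa [mul_inv, inv_inv, mul_comm] at h4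
    have hJA := Finset.mem_powerset.mp J.2
    have hJA' := Finset.mem_powerset.mp J'.2
    exact Subtype.ext (Finset.Subset.antisymm (key _ hJA _ hJA' h2) (key _ hJA' _ hJA h3))
  have hfin : Finite (SU K T ⧸ (NS x).subgroupOf (SU K T)) :=
    Nat.finite_of_card_ne_zero hi0
  have hcard := Nat.card_le_card_of_injective F hF
  rw [Nat.card_eq_fintype_card, Fintype.card_coe, Finset.card_powerset] at hcard
  have h5 : 2 ^ A.card * 2 ≤ 2 ^ A.card :=
    ((Nat.mul_le_mul_right 2 hcard).trans hile).trans (Nat.pow_le_pow_right (by norm_num) hnsq)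
  have h6 : 0 < 2 ^ A.card := by positivity
  omega

end Pool.Agent.MP009fd8
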