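import Pool.Agent.Lib.MP_009fd8_ag.Final
import Pool.Agent.Lib.MP_009fd8_ag.FourSq

/-!
MP_009fd8_ag: the 2-descent on y^2 = x^3 - q^2 x, uniform form, final statement.
-/

namespace Pool.Agent.MP009fd8

open IsDedekindDomain NumberField WithZero

theorem two_descent_final {K : Type*} [Field K] [NumberField K]
    (hclass : Odd (NumberField.classNumber K))
    (hpos : ∀ u : (𝓞 K)ˣ, (∀ f : K →+* ℝ, 0 < f (algebraMap (𝓞 K) K (u : 𝓞 K))) → IsSquare u)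
    (h2 : Prime (2 : 𝓞 K))
    (q : 𝓞 K) (hq : Prime q) (hqpos : ∀ f : K →+* ℝ, 0 < f (algebraMap (𝓞 K) K q))
    (hq2 : ∀ m : 𝓞 K, ¬ q ∣ 2 - m ^ 2)
    (c e : 𝓞 K) (hqe : 4 ∣ q - c ^ 2 * (1 + 2 * e)) :
    (classes K q e).ncard ≤ 4 ∧
    (∀ P : Finset (K × K),
      (∀ p ∈ P, p.1 ≠ 0 ∧ p.2 ≠ 0 ∧ HasPoint (algebraMap (𝓞 K) K q) p.1 p.2) →
      (∀ p ∈ P, ∀ p' ∈ P, p ≠ p' →
        ¬ TorsionPair (algebraMap (𝓞 K) K q) (p.1 * p'.1) (p.2 * p'.2)) →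
      (classes K q e).ncard ≤ P.card →
      ∀ a b : K, a ≠ 0 → b ≠ 0 →
        (SelmerPair K (algebraMap (𝓞 K) K q) a b ↔ HasPoint (algebraMap (𝓞 K) K q) a b) ∧
        (SelmerPair K (algebraMap (𝓞 K) K q) a b ↔
          ∃ p ∈ P, TorsionPair (algebraMap (𝓞 K) K q) (a * p.1) (b * p.2))) ∧
    ((∀ (u : (𝓞 K)ˣ) (m y g : 𝓞 K), q ∣ (u : 𝓞 K) - m ^ 2 → ¬ 2 ∣ g →
        2 ∣ y ^ 3 + e * y + 1 → ¬ 4 ∣ (u : 𝓞 K) - g ^ 2 * (1 + 2 * y ^ 2)) →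
      ∀ a b : K, a ≠ 0 → b ≠ 0 →
        (SelmerPair K (algebraMap (𝓞 K) K q) a b ↔ TorsionPair (algebraMap (𝓞 K) K q) a b)) := by
  have hfour : ∀ u : (𝓞 K)ˣ, (∃ m : 𝓞 K, (4 : 𝓞 K) ∣ (u : 𝓞 K) - m ^ 2) → IsSquare u :=
    fun u ⟨m, hm⟩ => isSquare_of_sq_mod_four hclass hpos u m hm
  refine ⟨classes_ncard_le_four h2 q e, ?_, ?_⟩
  · intro P hP hPne hcard a b ha hb
    exact two_descent hclass hpos hfour h2 q hq hqpos hq2 c e hqe P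
      (fun p hp => ⟨(hP p hp).1, (hP p hp).2.1⟩) (fun p hp => (hP p hp).2.2) hPne hcard a b ha hb
  · intro hroot a b ha hb
    exact two_descent_one hclass hpos hfour h2 q hq hqpos hq2 c e hqe hroot a b ha hb

end Pool.Agent.MP009fd8
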