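import Mathlib

/-!
MP_009fd8_ag: the places of prime elements of the ring of integers.
-/

namespace Pool.Agent.MP009fd8

open IsDedekindDomain NumberField WithZero

variable {K : Type*} [Field K] [NumberField K]

/-- The finite place attached to a prime element. -/
noncomputable def placeOf (p : 𝓞 K) (hp : Prime p) : HeightOneSpectrum (𝓞 K) :=
  ⟨Ideal.span {p}, (Ideal.span_singleton_prime hp.ne_zero).mpr hp, by
    simpa using hp.ne_zero⟩

omit [NumberField K] in
theorem asIdeal_placeOf (p : 𝓞 K) (hp : Prime p) :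
    (placeOf p hp).asIdeal = Ideal.span {p} := rfl

omit [NumberField K] in
theorem mem_placeOf {p : 𝓞 K} (hp : Prime p) {r : 𝓞 K} :
    r ∈ (placeOf p hp).asIdeal ↔ p ∣ r := by
  rw [asIdeal_placeOf, Ideal.mem_span_singleton]

/-- At every other place the prime element is a unit. -/
theorem notMem_of_ne {p : 𝓞 K} (hp : Prime p) {v : HeightOneSpectrum (𝓞 K)}
    (hv : v ≠ placeOf p hp) : p ∉ v.asIdeal := by
  intro hmem
  apply hv
  have hle : (placeOf p hp).asIdeal ≤ v.asIdeal := by
    rw [asIdeal_placeOf, Ideal.span_singleton_le_iff_mem]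
    exact hmem
  have hmax : (placeOf p hp).asIdeal.IsMaximal := (placeOf p hp).isMaximal
  have heq := hmax.eq_of_le v.isPrime.ne_top hle
  exact (HeightOneSpectrum.ext heq).symm

theorem val_completion (v : HeightOneSpectrum (𝓞 K)) (x : K) :
    Valued.v (algebraMap K (v.adicCompletion K) x) = v.valuation K x :=
  v.valuedAdicCompletion_eq_valuation' x

theorem val_eq_one (v : HeightOneSpectrum (𝓞 K)) {r : 𝓞 K} (h : r ∉ v.asIdeal) :
    v.valuation K (algebraMap (𝓞 K) K r) = 1 :=
  (v.valuation_eq_one_iff_notMem (K := K)).mpr h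

theorem val_unit (v : HeightOneSpectrum (𝓞 K)) (u : (𝓞 K)ˣ) :
    v.valuation K (algebraMap (𝓞 K) K (u : 𝓞 K)) = 1 := by
  apply val_eq_one
  intro h
  exact v.isPrime.ne_top (Ideal.eq_top_of_isUnit_mem _ h u.isUnit)

theorem val_self {p : 𝓞 K} (hp : Prime p) :
    (placeOf p hp).valuation K (algebraMap (𝓞 K) K p) = exp (-1 : ℤ) := by
  rw [HeightOneSpectrum.valuation_of_algebraMap]
  exact HeightOneSpectrum.intValuation_singleton _ hp.ne_zero rfl

theorem not_isSquare_exp_neg_one : ¬ IsSquare (exp (-1 : ℤ) : WithZero (Multiplicative ℤ)) := by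
  rintro ⟨y, hy⟩
  have hy0 : y ≠ 0 := by
    rintro rfl
    simp at hy
  lift y to ℤ using hy0 with n
  · rw [← exp_add, exp_inj] at hy
    omega

theorem isSquare_or {x : WithZero (Multiplicative ℤ)} (hx : x ≠ 0) :
    IsSquare x ∨ IsSquare (exp (-1 : ℤ) * x) := by
  lift x to ℤ using hx with n
  · rcases Int.even_or_odd n with ⟨m, hm⟩ | ⟨m, hm⟩
    · left
      exact ⟨exp m, by rw [hm, exp_add]⟩
    · right
      exact ⟨exp m, by rw [← exp_add, ← exp_add, hm]; congr 1; omega⟩

/-- At the place of p: the valuation of x or of p x is a square. -/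
theorem isSquare_val_or {p : 𝓞 K} (hp : Prime p) {x : K} (hx : x ≠ 0) :
    IsSquare ((placeOf p hp).valuation K x) ∨
      IsSquare ((placeOf p hp).valuation K (algebraMap (𝓞 K) K p * x)) := by
  rw [map_mul, val_self]
  exact isSquare_or (by simpa using hx)

theorem le_of_lt_one {x : WithZero (Multiplicative ℤ)} (hx : x < 1) : x ≤ exp (-1 : ℤ) := by
  by_cases h0 : x = 0
  · rw [h0]; exact zero_le
  · lift x to ℤ using h0 with n
    rw [← exp_zero, exp_lt_exp] at hx
    rw [exp_le_exp]
    omega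

/-- Divisibility by 4 from the valuation at 2. -/
theorem four_dvd_of_val (h2 : Prime (2 : 𝓞 K)) {r : 𝓞 K}
    (h : (placeOf 2 h2).valuation K (algebraMap (𝓞 K) K r) ≤
      (placeOf 2 h2).valuation K 4) : (4 : 𝓞 K) ∣ r := by
  have h4 : (placeOf 2 h2).valuation K 4 = exp (-((2 : ℕ) : ℤ)) := by
    have : (4 : K) = algebraMap (𝓞 K) K 2 * algebraMap (𝓞 K) K 2 := by
      rw [map_ofNat]; norm_num
    rw [this, map_mul, val_self, ← exp_add]
    norm_num
  rw [h4, HeightOneSpectrum.valuation_of_algebraMap,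
    HeightOneSpectrum.intValuation_le_pow_iff_mem, asIdeal_placeOf, Ideal.span_singleton_pow,
    Ideal.mem_span_singleton] at h
  norm_num at h
  exact h

theorem val_le_of_four_dvd (v : HeightOneSpectrum (𝓞 K)) {r : 𝓞 K} (h : (4 : 𝓞 K) ∣ r) :
    v.valuation K (algebraMap (𝓞 K) K r) ≤ v.valuation K 4 := by
  obtain ⟨k, rfl⟩ := h
  rw [map_mul, map_mul, map_ofNat]
  calc v.valuation K 4 * v.valuation K (algebraMap (𝓞 K) K k) ≤ v.valuation K 4 * 1 := by
        gcongr
        exact v.valuation_le_one k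
    _ = v.valuation K 4 := mul_one _

end Pool.Agent.MP009fd8
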