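import Pool.Agent.Lib.MP_009fd8_ag.Def

/-!
MP_009fd8_ag, leaf file: the real places and the translations by 2-torsion points.
-/

namespace Pool.Agent.MP009fd8

/-- Over the reals, with q positive: if C_(a,b) has a point then a b is positive. -/
theorem real_pos (q a b : ℝ) (hq : 0 < q) (ha : a ≠ 0) (hb : b ≠ 0) (h : HasPoint q a b) :
    0 < a * b := by
  obtain ⟨X, Y, Z, W, hne, h1, h2⟩ := h
  by_contra hab
  have hab' : a * b < 0 := lt_of_le_of_ne (not_lt.mp hab) (mul_ne_zero ha hb)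
  have hX2 := sq_nonneg X
  have hY2 := sq_nonneg Y
  have hZ2 := sq_nonneg Z
  have hW2 := sq_nonneg W
  rcases lt_or_gt_of_ne ha with han | hap
  · -- a < 0, b > 0
    have hbp : 0 < b := by
      by_contra hb'
      have : b < 0 := lt_of_le_of_ne (not_lt.mp hb') hb
      nlinarith [mul_pos_of_neg_of_neg han this]
    have hX0 : X ^ 2 = 0 := by
      by_contra hx
      have hxp : 0 < X ^ 2 := lt_of_le_of_ne hX2 (Ne.symm hx)
      nlinarith [mul_nonneg hbp.le hY2, mul_neg_of_neg_of_pos han hxp, mul_nonneg hq.le hW2]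
    have hW0 : W ^ 2 = 0 := by
      by_contra hw
      have hwp : 0 < W ^ 2 := lt_of_le_of_ne hW2 (Ne.symm hw)
      nlinarith [mul_nonneg hbp.le hY2, mul_pos hq hwp]
    have hY0 : Y ^ 2 = 0 := by
      have : b * Y ^ 2 = 0 := by rw [h1, hX0, hW0]; ring
      exact (mul_eq_zero.mp this).resolve_left hb
    have hZ0 : Z ^ 2 = 0 := by
      have : a * b * Z ^ 2 = 0 := by rw [h2, hX0, hW0]; ring
      exact (mul_eq_zero.mp this).resolve_left (mul_ne_zero ha hb)
    have e1 := pow_eq_zero_iff (two_ne_zero) |>.mp hX0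
    have e2 := pow_eq_zero_iff (two_ne_zero) |>.mp hY0
    have e3 := pow_eq_zero_iff (two_ne_zero) |>.mp hZ0
    have e4 := pow_eq_zero_iff (two_ne_zero) |>.mp hW0
    simp [e1, e2, e3, e4] at hne
  · -- a > 0, b < 0
    have hX0 : X ^ 2 = 0 := by
      by_contra hx
      have hxp : 0 < X ^ 2 := lt_of_le_of_ne hX2 (Ne.symm hx)
      nlinarith [mul_nonneg (neg_pos.mpr hab').le hZ2, mul_pos hap hxp, mul_nonneg hq.le hW2]
    have hW0 : W ^ 2 = 0 := by
      by_contra hw
      have hwp : 0 < W ^ 2 := lt_of_le_of_ne hW2 (Ne.symm hw)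
      nlinarith [mul_nonneg (neg_pos.mpr hab').le hZ2, mul_pos hq hwp]
    have hY0 : Y ^ 2 = 0 := by
      have : b * Y ^ 2 = 0 := by rw [h1, hX0, hW0]; ring
      exact (mul_eq_zero.mp this).resolve_left hb
    have hZ0 : Z ^ 2 = 0 := by
      have : a * b * Z ^ 2 = 0 := by rw [h2, hX0, hW0]; ring
      exact (mul_eq_zero.mp this).resolve_left (mul_ne_zero ha hb)
    have e1 := pow_eq_zero_iff (two_ne_zero) |>.mp hX0
    have e2 := pow_eq_zero_iff (two_ne_zero) |>.mp hY0
    have e3 := pow_eq_zero_iff (two_ne_zero) |>.mp hZ0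
    have e4 := pow_eq_zero_iff (two_ne_zero) |>.mp hW0
    simp [e1, e2, e3, e4] at hne

/-- Translation by (0, 0): C_(a,b) and C_(-a,-qb) are isomorphic through
(X, Y, Z, W) -> (q W, a Z, Y, a X). -/
theorem hasPoint_translate_zero {F : Type*} [Field F] (q a b : F) (hq : q ≠ 0) (ha : a ≠ 0)
    (h : HasPoint q a b) : HasPoint q (-a) (-q * b) := by
  obtain ⟨X, Y, Z, W, hne, h1, h2⟩ := h
  refine ⟨q * W, a * Z, Y, a * X, ?_, ?_, ?_⟩
  · rcases hne with h | h | h | h
    · exact Or.inr (Or.inr (Or.inr (mul_ne_zero ha h)))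
    · exact Or.inr (Or.inr (Or.inl h))
    · exact Or.inr (Or.inl (mul_ne_zero ha h))
    · exact Or.inl (mul_ne_zero hq h)
  · linear_combination (-q * a) * h2
  · linear_combination (q * a) * h1

/-- Translation by (q, 0): C_(a,b) and C_(qa,2b) are isomorphic through
(X, Y, Z, W) -> (b Z, q W, X, b Y). -/
theorem hasPoint_translate_q {F : Type*} [Field F] (q a b : F) (hq : q ≠ 0)
    (hb : b ≠ 0) (h : HasPoint q a b) : HasPoint q (q * a) (2 * b) := by
  obtain ⟨X, Y, Z, W, hne, h1, h2⟩ := h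
  refine ⟨b * Z, q * W, X, b * Y, ?_, ?_, ?_⟩
  · rcases hne with h | h | h | h
    · exact Or.inr (Or.inr (Or.inl h))
    · exact Or.inr (Or.inr (Or.inr (mul_ne_zero hb h)))
    · exact Or.inl (mul_ne_zero hb h)
    · exact Or.inr (Or.inl (mul_ne_zero hq h))
  · linear_combination (q * b) * h1 - (q * b) * h2
  · linear_combination (-q * b) * h1 - (q * b) * h2

/-- Rescaling by squares. -/
theorem hasPoint_sq {F : Type*} [Field F] (q a b r s : F) (hr : r ≠ 0) (hs : s ≠ 0)
    (h : HasPoint q (a * r ^ 2) (b * s ^ 2)) : HasPoint q a b := by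
  obtain ⟨X, Y, Z, W, hne, h1, h2⟩ := h
  refine ⟨r * X, s * Y, r * s * Z, W, ?_, ?_, ?_⟩
  · rcases hne with h | h | h | h
    · exact Or.inl (mul_ne_zero hr h)
    · exact Or.inr (Or.inl (mul_ne_zero hs h))
    · exact Or.inr (Or.inr (Or.inl (mul_ne_zero (mul_ne_zero hr hs) h)))
    · exact Or.inr (Or.inr (Or.inr h))
  · linear_combination h1
  · linear_combination h2

/-- The four pairs of the torsion points have a point over the base field. -/
theorem hasPoint_of_torsionPair {F : Type*} [Field F] (q a b : F)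
    (h : TorsionPair q a b) : HasPoint q a b := by
  obtain ⟨r, s, hr, hs, h⟩ := h
  rcases h with ⟨rfl, rfl⟩ | ⟨rfl, rfl⟩ | ⟨rfl, rfl⟩ | ⟨rfl, rfl⟩
  · exact ⟨s, r, 1, 0, Or.inl hs, by ring, by ring⟩
  · exact ⟨0, r, 1, r * s, Or.inr (Or.inr (Or.inl one_ne_zero)), by ring, by ring⟩
  · exact ⟨s, 0, 1, r * s, Or.inl hs, by ring, by ring⟩
  · exact ⟨s, r, 0, r * s, Or.inl hs, by ring, by ring⟩

/-- Functoriality. -/
theorem HasPoint.map {F G : Type*} [Field F] [Field G] (f : F →+* G) {q a b : F}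
    (h : HasPoint q a b) : HasPoint (f q) (f a) (f b) := by
  obtain ⟨X, Y, Z, W, hne, h1, h2⟩ := h
  refine ⟨f X, f Y, f Z, f W, ?_, ?_, ?_⟩
  · rcases hne with h | h | h | h
    · exact Or.inl (by simpa using h)
    · exact Or.inr (Or.inl (by simpa using h))
    · exact Or.inr (Or.inr (Or.inl (by simpa using h)))
    · exact Or.inr (Or.inr (Or.inr (by simpa using h)))
  · simpa using congrArg f h1
  · simpa using congrArg f h2

end Pool.Agent.MP009fd8
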