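import Pool.Agent.Lib.MP_009fd8_ag.Def
import Pool.Agent.Lib.MP_009fd8_ag.Places
import Pool.Agent.Lib.MP_009fd8_ag.ClassLemma
import Pool.Agent.Lib.MP_009fd8_ag.Approx
import Pool.Agent.Lib.MP_009fd8_ag.Away
import Pool.Agent.Lib.MP_009fd8_ag.AtQ
import Pool.Agent.Lib.MP_009fd8_ag.At2a
import Pool.Agent.Lib.MP_009fd8_ag.At2b
import Pool.Agent.Lib.MP_009fd8_ag.RealPlace

/-!
MP_009fd8_ag: the complete 2-descent on y^2 = x^3 - q^2 x, assembly.
-/

namespace Pool.Agent.MP009fd8

open IsDedekindDomain NumberField WithZero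

variable {K : Type*} [Field K] [NumberField K]

/-- Odd class number and 2 inert: an element with even valuations away from 2 is a unit or twice
a unit, times a square. -/
theorem unit_form (hclass : Odd (NumberField.classNumber K)) (h2 : Prime (2 : 𝓞 K)) (z : K)
    (hz : z ≠ 0)
    (hv : ∀ v : HeightOneSpectrum (𝓞 K), v ≠ placeOf 2 h2 → IsSquare (v.valuation K z)) :
    ∃ (u : (𝓞 K)ˣ) (r : K), r ≠ 0 ∧ (z = algebraMap (𝓞 K) K (u : 𝓞 K) * r ^ 2 ∨
      z = 2 * algebraMap (𝓞 K) K (u : 𝓞 K) * r ^ 2) := by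
  rcases isSquare_val_or h2 hz with h | h
  · obtain ⟨u, r, hr, hzr⟩ := exists_unit_mul_sq hclass z hz (fun v => by
      by_cases hvv : v = placeOf 2 h2
      · rw [hvv]; exact h
      · exact hv v hvv)
    exact ⟨u, r, hr, Or.inl hzr⟩
  · have h20 : (algebraMap (𝓞 K) K 2) ≠ 0 := by
      rw [map_ofNat]; exact two_ne_zero
    obtain ⟨u, r, hr, hzr⟩ := exists_unit_mul_sq hclass (algebraMap (𝓞 K) K 2 * z)
      (mul_ne_zero h20 hz) (fun v => by
        by_cases hvv : v = placeOf 2 h2
        · rw [hvv]; exact h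
        · rw [map_mul, val_eq_one v (notMem_of_ne h2 hvv), one_mul]
          exact hv v hvv)
    refine ⟨u, r / 2, div_ne_zero hr two_ne_zero, Or.inr ?_⟩
    rw [map_ofNat] at hzr
    have : z = (2 * z) / 2 := by ring
    rw [this, hzr]; ring

/-- Selmer pairs are stable under translation by (0, 0). -/
theorem SelmerPair.translate_zero {q a b : K} (hq : q ≠ 0) (ha : a ≠ 0)
    (h : SelmerPair K q a b) : SelmerPair K q (-a) (-q * b) := by
  refine ⟨fun v => ?_, fun f => ?_⟩
  · have := hasPoint_translate_zero _ _ _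
      ((map_ne_zero (algebraMap K (v.adicCompletion K))).mpr hq)
      ((map_ne_zero (algebraMap K (v.adicCompletion K))).mpr ha) (h.1 v)
    simpa only [map_neg, map_mul] using this
  · have := hasPoint_translate_zero _ _ _
      ((map_ne_zero f).mpr hq) ((map_ne_zero f).mpr ha) (h.2 f)
    simpa only [map_neg, map_mul] using this

/-- Selmer pairs are stable under translation by (q, 0). -/
theorem SelmerPair.translate_q {q a b : K} (hq : q ≠ 0) (hb : b ≠ 0)
    (h : SelmerPair K q a b) : SelmerPair K q (q * a) (2 * b) := by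
  refine ⟨fun v => ?_, fun f => ?_⟩
  · have := hasPoint_translate_q _ _ _
      ((map_ne_zero (algebraMap K (v.adicCompletion K))).mpr hq)
      ((map_ne_zero (algebraMap K (v.adicCompletion K))).mpr hb) (h.1 v)
    simpa only [map_ofNat, map_mul] using this
  · have := hasPoint_translate_q _ _ _
      ((map_ne_zero f).mpr hq) ((map_ne_zero f).mpr hb) (h.2 f)
    simpa only [map_ofNat, map_mul] using this

/-- The case of even valuations at q. -/
theorem main_even (hclass : Odd (NumberField.classNumber K))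
    (hpos : ∀ u : (𝓞 K)ˣ, (∀ f : K →+* ℝ, 0 < f (algebraMap (𝓞 K) K (u : 𝓞 K))) → IsSquare u)
    (hfour : ∀ u : (𝓞 K)ˣ, (∃ m : 𝓞 K, (4 : 𝓞 K) ∣ (u : 𝓞 K) - m ^ 2) → IsSquare u)
    (h2 : Prime (2 : 𝓞 K))
    (q : 𝓞 K) (hq : Prime q) (hqpos : ∀ f : K →+* ℝ, 0 < f (algebraMap (𝓞 K) K q))
    (hq2 : ∀ m : 𝓞 K, ¬ q ∣ 2 - m ^ 2)
    (c e : 𝓞 K) (hqe : 4 ∣ q - c ^ 2 * (1 + 2 * e)) (hroot : ∀ y : 𝓞 K, ¬ 2 ∣ y ^ 3 + e * y + 1)
    (a b : K) (ha : a ≠ 0) (hb : b ≠ 0)
    (hqa : IsSquare ((placeOf q hq).valuation K a))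
    (hqb : IsSquare ((placeOf q hq).valuation K b))
    (h : SelmerPair K (algebraMap (𝓞 K) K q) a b) :
    ∃ r s : K, r ≠ 0 ∧ s ≠ 0 ∧ a = r ^ 2 ∧ b = s ^ 2 := by
  classical
  -- q does not divide 2, and 2 does not divide q
  have hq2' : ¬ q ∣ 2 := by
    have := hq2 0
    simpa using this
  have h2q : ¬ (2 : 𝓞 K) ∣ q := by
    intro hd
    exact hq2' ((h2.associated_of_dvd hq hd).symm.dvd)
  have h20 : (algebraMap (𝓞 K) K 2) = 2 := map_ofNat _ _
  -- valuations away from 2
  have haway : ∀ v : HeightOneSpectrum (𝓞 K), v ≠ placeOf 2 h2 →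
      IsSquare (v.valuation K a) ∧ IsSquare (v.valuation K b) := by
    intro v hv
    by_cases hvq : v = placeOf q hq
    · rw [hvq]; exact ⟨hqa, hqb⟩
    · have h2v : v.valuation K (2 : K) = 1 := by
        rw [← h20]; exact val_eq_one v (notMem_of_ne h2 hv)
      have hqv : v.valuation K (algebraMap (𝓞 K) K q) = 1 := val_eq_one v (notMem_of_ne hq hvq)
      have key := isSquare_away (Valued.v : Valuation (v.adicCompletion K) _)
        (algebraMap K (v.adicCompletion K) (algebraMap (𝓞 K) K q))
        (algebraMap K (v.adicCompletion K) a) (algebraMap K (v.adicCompletion K) b)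
        ((map_ne_zero _).mpr ha) ((map_ne_zero _).mpr hb)
        (by rw [← map_ofNat (algebraMap K (v.adicCompletion K)) 2, val_completion]; exact h2v)
        (by rw [val_completion]; exact hqv) (h.1 v)
      rw [val_completion, val_completion] at key
      exact key
  obtain ⟨u, r, hr, hur⟩ := unit_form hclass h2 a ha (fun v hv => (haway v hv).1)
  obtain ⟨w, s, hs, hws⟩ := unit_form hclass h2 b hb (fun v hv => (haway v hv).2)
  -- real places
  have hreal : ∀ f : K →+* ℝ, 0 < f a * f b := fun f =>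
    real_pos (f (algebraMap (𝓞 K) K q)) (f a) (f b) (hqpos f) ((map_ne_zero f).mpr ha)
      ((map_ne_zero f).mpr hb) (h.2 f)
  -- u w is totally positive
  have huw : IsSquare (u * w) := by
    apply hpos
    intro f
    have hf := hreal f
    have hfr : 0 < f r ^ 2 := by
      have : f r ≠ 0 := (map_ne_zero f).mpr hr
      positivity
    have hfs : 0 < f s ^ 2 := by
      have : f s ≠ 0 := (map_ne_zero f).mpr hs
      positivity
    have hrs : 0 < f r ^ 2 * f s ^ 2 := mul_pos hfr hfs
    rw [Units.val_mul, map_mul, map_mul]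
    rcases hur with hur | hur <;> rcases hws with hws | hws <;>
      rw [hur, hws] at hf <;> simp only [map_mul, map_pow, map_ofNat] at hf <;>
      by_contra hneg <;> nlinarith [mul_nonneg (neg_nonneg.mpr (not_lt.mp hneg)) hrs.le]
  obtain ⟨η, hη⟩ := huw
  have hη' : algebraMap (𝓞 K) K (u : 𝓞 K) * algebraMap (𝓞 K) K (w : 𝓞 K) =
      algebraMap (𝓞 K) K (η : 𝓞 K) ^ 2 := by
    rw [← map_mul, ← Units.val_mul, hη, Units.val_mul, map_mul]; ring
  have hη0 : algebraMap (𝓞 K) K (η : 𝓞 K) ≠ 0 := by
    simp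
  -- a b is a square or twice a square
  have hab : (∃ t : K, t ≠ 0 ∧ a * b = t ^ 2) ∨ (∃ t : K, t ≠ 0 ∧ a * b = 2 * t ^ 2) := by
    have ht : algebraMap (𝓞 K) K (η : 𝓞 K) * r * s ≠ 0 := mul_ne_zero (mul_ne_zero hη0 hr) hs
    rcases hur with hur | hur <;> rcases hws with hws | hws
    · exact Or.inl ⟨_, ht, by rw [hur, hws]; linear_combination (r ^ 2 * s ^ 2) * hη'⟩
    · exact Or.inr ⟨_, ht, by rw [hur, hws]; linear_combination (2 * r ^ 2 * s ^ 2) * hη'⟩
    · exact Or.inr ⟨_, ht, by rw [hur, hws]; linear_combination (2 * r ^ 2 * s ^ 2) * hη'⟩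
    · exact Or.inl ⟨2 * (algebraMap (𝓞 K) K (η : 𝓞 K) * r * s), mul_ne_zero two_ne_zero ht, by
        rw [hur, hws]; linear_combination (4 * r ^ 2 * s ^ 2) * hη'⟩
  -- the second case is impossible at q
  have hab' : ∃ t : K, t ≠ 0 ∧ a * b = t ^ 2 := by
    rcases hab with hab | ⟨t, ht, hab⟩
    · exact hab
    · exfalso
      set v := placeOf q hq with hvdef
      obtain ⟨g, hg1, hg⟩ := two_sq_at_q (Valued.v : Valuation (v.adicCompletion K) _)
        (algebraMap K (v.adicCompletion K) (algebraMap (𝓞 K) K q))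
        (algebraMap K (v.adicCompletion K) a) (algebraMap K (v.adicCompletion K) b)
        (algebraMap K (v.adicCompletion K) t)
        ((map_ne_zero _).mpr ha) ((map_ne_zero _).mpr hb) ((map_ne_zero _).mpr ht)
        (by rw [← map_mul, hab, map_mul, map_pow, map_ofNat])
        (by
          rw [← map_ofNat (algebraMap K (v.adicCompletion K)) 2, val_completion, ← h20]
          apply val_eq_one
          rw [hvdef, mem_placeOf]
          exact hq2')
        (by
          rw [val_completion, hvdef, val_self]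
          exact not_isSquare_exp_neg_one)
        (by rw [val_completion]; exact hqa) (by rw [val_completion]; exact hqb) (h.1 v)
      obtain ⟨m, hm⟩ := exists_int_sub_lt v g hg1 1 one_pos
      apply hq2 m
      rw [← mem_placeOf hq, ← v.valuation_lt_one_iff_mem (K := K), ← val_completion]
      have hmg : Valued.v (algebraMap K (v.adicCompletion K) (algebraMap (𝓞 K) K m)) ≤ 1 := by
        rw [val_completion]; exact v.valuation_le_one m
      have hexp : algebraMap K (v.adicCompletion K) (algebraMap (𝓞 K) K (2 - m ^ 2)) =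
          (2 - g ^ 2) + (g - algebraMap K (v.adicCompletion K) (algebraMap (𝓞 K) K m)) *
            (g + algebraMap K (v.adicCompletion K) (algebraMap (𝓞 K) K m)) := by
        simp only [map_sub, map_pow, map_ofNat]; ring
      rw [hexp]
      refine Valuation.map_add_lt _ hg ?_
      rw [map_mul]
      calc _ ≤ Valued.v (g - algebraMap K (v.adicCompletion K) (algebraMap (𝓞 K) K m)) * 1 := by
            gcongr
            exact Valuation.map_add_le _ hg1 hmg
        _ < 1 := by rw [mul_one]; exact hm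
  obtain ⟨t, ht, hab⟩ := hab'
  -- so b = a (t / a)^2, look at the place 2
  have hba : b = a * (t / a) ^ 2 := by
    field_simp
    linear_combination hab
  set v := placeOf 2 h2 with hvdef
  have hv2 : (Valued.v : Valuation (v.adicCompletion K) _) 2 = exp (-1 : ℤ) := by
    rw [← map_ofNat (algebraMap K (v.adicCompletion K)) 2, val_completion, ← h20]
    exact val_self h2
  have hvq : (Valued.v : Valuation (v.adicCompletion K) _)
      (algebraMap K (v.adicCompletion K) (algebraMap (𝓞 K) K q)) = 1 := by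
    rw [val_completion]
    apply val_eq_one
    rw [hvdef, mem_placeOf]
    exact h2q
  have hpt : ∀ d : K, d ≠ 0 → ∀ r : K, r ≠ 0 → a = d * r ^ 2 →
      HasPoint (algebraMap K (v.adicCompletion K) (algebraMap (𝓞 K) K q))
        (algebraMap K (v.adicCompletion K) d) (algebraMap K (v.adicCompletion K) d) := by
    intro d hd r hr har
    have h1 := h.1 v
    refine hasPoint_sq _ _ _ (algebraMap K (v.adicCompletion K) r)
      (algebraMap K (v.adicCompletion K) (r * (t / a))) ((map_ne_zero _).mpr hr)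
      ((map_ne_zero _).mpr (mul_ne_zero hr (div_ne_zero ht ha))) ?_
    rw [← map_pow, ← map_pow, ← map_mul, ← map_mul, ← har]
    have : d * (r * (t / a)) ^ 2 = b := by
      rw [hba]; nth_rewrite 2 [har]; ring
    rw [this]
    exact h1
  have husq : ∀ r : K, r ≠ 0 → a = algebraMap (𝓞 K) K (u : 𝓞 K) * r ^ 2 →
      ∃ r s : K, r ≠ 0 ∧ s ≠ 0 ∧ a = r ^ 2 ∧ b = s ^ 2 := by
    intro r hr hur
    have hu0 : algebraMap (𝓞 K) K (u : 𝓞 K) ≠ 0 := by
      simp
    have hp := hpt _ hu0 r hr hur
    obtain ⟨g, hg1, hg⟩ := sq_mod_four (Valued.v : Valuation (v.adicCompletion K) _)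
      (algebraMap K (v.adicCompletion K) (algebraMap (𝓞 K) K q))
      (algebraMap K (v.adicCompletion K) (algebraMap (𝓞 K) K (u : 𝓞 K)))
      (algebraMap K (v.adicCompletion K) (algebraMap (𝓞 K) K c))
      (algebraMap K (v.adicCompletion K) (algebraMap (𝓞 K) K e))
      (by rw [hv2, ← exp_zero, exp_lt_exp]; norm_num)
      (by
        rw [← map_ofNat (algebraMap K (v.adicCompletion K)) 2]
        exact (map_ne_zero _).mpr two_ne_zero)
      (fun x hx => by rw [hv2]; exact le_of_lt_one hx)
      hvq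
      (by rw [val_completion]; exact val_unit v u)
      (by
        rw [val_completion]
        apply val_eq_one
        rw [hvdef, mem_placeOf]
        intro hc
        apply h2q
        have h1 : (2 : 𝓞 K) ∣ q - c ^ 2 * (1 + 2 * e) :=
          dvd_trans ⟨2, by norm_num⟩ hqe
        have h3 : (2 : 𝓞 K) ∣ c ^ 2 * (1 + 2 * e) :=
          dvd_mul_of_dvd_left (dvd_pow hc two_ne_zero) _
        have := dvd_add h1 h3
        simpa using this)
      (by rw [val_completion]; exact v.valuation_le_one e)
      (by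
        have h4 := val_le_of_four_dvd (K := K) v hqe
        have e1 : algebraMap K (v.adicCompletion K) (algebraMap (𝓞 K) K q) -
            algebraMap K (v.adicCompletion K) (algebraMap (𝓞 K) K c) ^ 2 *
              (1 + 2 * algebraMap K (v.adicCompletion K) (algebraMap (𝓞 K) K e)) =
            algebraMap K (v.adicCompletion K) (algebraMap (𝓞 K) K
              (q - c ^ 2 * (1 + 2 * e))) := by
          simp only [map_sub, map_mul, map_add, map_pow, map_one, map_ofNat]
        rw [e1, ← map_ofNat (algebraMap K (v.adicCompletion K)) 4, val_completion,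
          val_completion]
        exact h4)
      (fun y hy => by
        obtain ⟨m, hm⟩ := exists_int_sub_lt v y hy 1 one_pos
        have hm1 : (Valued.v : Valuation (v.adicCompletion K) _)
            (algebraMap K (v.adicCompletion K) (algebraMap (𝓞 K) K (m ^ 3 + e * m + 1))) = 1 := by
          rw [val_completion]
          apply val_eq_one
          rw [hvdef, mem_placeOf]
          exact hroot m
        have hmg : Valued.v (algebraMap K (v.adicCompletion K) (algebraMap (𝓞 K) K m)) ≤ 1 := by
          rw [val_completion]; exact v.valuation_le_one m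
        have heg : Valued.v (algebraMap K (v.adicCompletion K) (algebraMap (𝓞 K) K e)) ≤ 1 := by
          rw [val_completion]; exact v.valuation_le_one e
        set M := algebraMap K (v.adicCompletion K) (algebraMap (𝓞 K) K m) with hM
        set E := algebraMap K (v.adicCompletion K) (algebraMap (𝓞 K) K e) with hE
        have e2 : algebraMap K (v.adicCompletion K) (algebraMap (𝓞 K) K (m ^ 3 + e * m + 1)) =
            M ^ 3 + E * M + 1 := by
          simp only [map_mul, map_add, map_pow, map_one, hM, hE]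
        rw [e2] at hm1
        have e3 : y ^ 3 + E * y + 1 = (M ^ 3 + E * M + 1) +
            (y - M) * (y ^ 2 + y * M + M ^ 2 + E) := by ring
        rw [e3, Valuation.map_add_eq_of_lt_left _ _, hm1]
        rw [hm1, map_mul]
        calc _ ≤ Valued.v (y - M) * 1 := by
              gcongr
              refine Valuation.map_add_le _ (Valuation.map_add_le _ (Valuation.map_add_le _ ?_ ?_)
                ?_) heg
              · rw [map_pow]; exact pow_le_one' hy 2
              · rw [map_mul]; exact mul_le_one' hy hmg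
              · rw [map_pow]; exact pow_le_one' hmg 2
          _ < 1 := by rw [mul_one]; exact hm)
      hp
    have h40 : (0 : WithZero (Multiplicative ℤ)) <
        (Valued.v : Valuation (v.adicCompletion K) _) 4 := by
      have h4K : (4 : K) ≠ 0 := by norm_num
      have : (algebraMap K (v.adicCompletion K)) 4 ≠ 0 := (map_ne_zero _).mpr h4K
      rw [map_ofNat] at this
      exact zero_lt_iff.mpr ((Valuation.ne_zero_iff _).mpr this)
    obtain ⟨m, hm⟩ := exists_int_sub_lt v g hg1 _ h40
    have hmg : Valued.v (algebraMap K (v.adicCompletion K) (algebraMap (𝓞 K) K m)) ≤ 1 := by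
      rw [val_completion]; exact v.valuation_le_one m
    have hdvd : (4 : 𝓞 K) ∣ (u : 𝓞 K) - m ^ 2 := by
      apply four_dvd_of_val h2
      rw [← hvdef, ← val_completion, ← val_completion]
      have e4 : algebraMap K (v.adicCompletion K) (algebraMap (𝓞 K) K ((u : 𝓞 K) - m ^ 2)) =
          (algebraMap K (v.adicCompletion K) (algebraMap (𝓞 K) K (u : 𝓞 K)) - g ^ 2) +
          (g - algebraMap K (v.adicCompletion K) (algebraMap (𝓞 K) K m)) *
            (g + algebraMap K (v.adicCompletion K) (algebraMap (𝓞 K) K m)) := by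
        simp only [map_sub, map_pow]; ring
      rw [e4, map_ofNat]
      refine Valuation.map_add_le _ hg ?_
      rw [map_mul]
      calc _ ≤ Valued.v (g - algebraMap K (v.adicCompletion K) (algebraMap (𝓞 K) K m)) * 1 := by
            gcongr
            exact Valuation.map_add_le _ hg1 hmg
        _ ≤ _ := by rw [mul_one]; exact hm.le
    obtain ⟨z, hz⟩ := hfour u ⟨m, hdvd⟩
    have hz0 : algebraMap (𝓞 K) K (z : 𝓞 K) ≠ 0 := by
      simp
    have ha2 : a = (algebraMap (𝓞 K) K (z : 𝓞 K) * r) ^ 2 := by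
      rw [hur, hz, Units.val_mul, map_mul]; ring
    refine ⟨algebraMap (𝓞 K) K (z : 𝓞 K) * r,
      algebraMap (𝓞 K) K (z : 𝓞 K) * r * (t / a), mul_ne_zero hz0 hr,
      mul_ne_zero (mul_ne_zero hz0 hr) (div_ne_zero ht ha), ha2, ?_⟩
    rw [mul_pow, ← ha2]
    exact hba
  rcases hur with hur | hur
  · exact husq r hr hur
  · exfalso
    have hu0 : algebraMap (𝓞 K) K (u : 𝓞 K) ≠ 0 := by
      simp
    have hp := hpt _ (mul_ne_zero two_ne_zero hu0) r hr hur
    refine no_point_odd (Valued.v : Valuation (v.adicCompletion K) _) _ _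
      ((map_ne_zero _).mpr (mul_ne_zero two_ne_zero hu0)) ?_ hvq hp
    rw [map_mul, map_mul, map_ofNat, hv2, val_completion, val_unit, mul_one]
    exact not_isSquare_exp_neg_one

/-- The complete 2-descent on y^2 = x^3 - q^2 x. -/
theorem selmer_iff (hclass : Odd (NumberField.classNumber K))
    (hpos : ∀ u : (𝓞 K)ˣ, (∀ f : K →+* ℝ, 0 < f (algebraMap (𝓞 K) K (u : 𝓞 K))) → IsSquare u)
    (hfour : ∀ u : (𝓞 K)ˣ, (∃ m : 𝓞 K, (4 : 𝓞 K) ∣ (u : 𝓞 K) - m ^ 2) → IsSquare u)
    (h2 : Prime (2 : 𝓞 K))
    (q : 𝓞 K) (hq : Prime q) (hqpos : ∀ f : K →+* ℝ, 0 < f (algebraMap (𝓞 K) K q))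
    (hq2 : ∀ m : 𝓞 K, ¬ q ∣ 2 - m ^ 2)
    (c e : 𝓞 K) (hqe : 4 ∣ q - c ^ 2 * (1 + 2 * e)) (hroot : ∀ y : 𝓞 K, ¬ 2 ∣ y ^ 3 + e * y + 1)
    (a b : K) (ha : a ≠ 0) (hb : b ≠ 0) :
    SelmerPair K (algebraMap (𝓞 K) K q) a b ↔ TorsionPair (algebraMap (𝓞 K) K q) a b := by
  have hq0 : algebraMap (𝓞 K) K q ≠ 0 := by
    have := hq.ne_zero
    simpa using this
  constructor
  · intro h
    have hqa := isSquare_val_or hq ha
    have hqb := isSquare_val_or hq hb
    have hneg : ∀ x : K, (placeOf q hq).valuation K (-x) = (placeOf q hq).valuation K x :=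
      fun x => Valuation.map_neg _ x
    have hq2' : ¬ q ∣ 2 := by
      have := hq2 0
      simpa using this
    have hv2 : (placeOf q hq).valuation K (2 : K) = 1 := by
      rw [← map_ofNat (algebraMap (𝓞 K) K) 2]
      apply val_eq_one
      rw [mem_placeOf]
      exact hq2'
    have main := fun a b ha hb => main_even hclass hpos hfour h2 q hq hqpos hq2 c e hqe hroot a b
      ha hb
    rcases hqa with hqa | hqa <;> rcases hqb with hqb | hqb
    · obtain ⟨r, s, hr, hs, h1, h3⟩ := main a b ha hb hqa hqb h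
      exact ⟨r, s, hr, hs, Or.inl ⟨h1, h3⟩⟩
    · obtain ⟨r, s, hr, hs, h1, h3⟩ := main (-a) (-algebraMap (𝓞 K) K q * b) (neg_ne_zero.mpr ha)
        (mul_ne_zero (neg_ne_zero.mpr hq0) hb) (by rw [hneg]; exact hqa)
        (by rw [neg_mul, hneg]; exact hqb) (h.translate_zero hq0 ha)
      refine ⟨r, s / algebraMap (𝓞 K) K q, hr, div_ne_zero hs hq0, Or.inr (Or.inl ⟨?_, ?_⟩)⟩
      · linear_combination -h1
      · field_simp
        linear_combination -h3
    · obtain ⟨r, s, hr, hs, h1, h3⟩ := main (algebraMap (𝓞 K) K q * a) (2 * b)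
        (mul_ne_zero hq0 ha) (mul_ne_zero two_ne_zero hb) hqa
        (by rw [map_mul, hv2, one_mul]; exact hqb) (h.translate_q hq0 hb)
      refine ⟨r / algebraMap (𝓞 K) K q, s / 2, div_ne_zero hr hq0,
        div_ne_zero hs two_ne_zero, Or.inr (Or.inr (Or.inl ⟨?_, ?_⟩))⟩
      · field_simp
        linear_combination h1
      · linear_combination h3 / 2
    · obtain ⟨r, s, hr, hs, h1, h3⟩ := main (algebraMap (𝓞 K) K q * (-a))
        (2 * (-algebraMap (𝓞 K) K q * b))
        (mul_ne_zero hq0 (neg_ne_zero.mpr ha))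
        (mul_ne_zero two_ne_zero (mul_ne_zero (neg_ne_zero.mpr hq0) hb))
        (by rw [mul_neg, hneg]; exact hqa)
        (by rw [map_mul, hv2, one_mul, neg_mul, hneg]; exact hqb)
        ((h.translate_zero hq0 ha).translate_q hq0 (mul_ne_zero (neg_ne_zero.mpr hq0) hb))
      refine ⟨r / algebraMap (𝓞 K) K q, s / (2 * algebraMap (𝓞 K) K q), div_ne_zero hr hq0,
        div_ne_zero hs (mul_ne_zero two_ne_zero hq0), Or.inr (Or.inr (Or.inr ⟨?_, ?_⟩))⟩
      · field_simp
        linear_combination -h1
      · field_simp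
        linear_combination -h3
  · intro h
    have hp := hasPoint_of_torsionPair _ _ _ h
    exact ⟨fun v => hp.map _, fun f => hp.map f⟩

end Pool.Agent.MP009fd8
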