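import Pool.Agent.Lib.MP_009fd8_ag.Main
import Pool.Agent.Lib.MP_009fd8_ag.At2c

/-!
MP_009fd8_ag: the 2-descent on y^2 = x^3 - q^2 x, uniform form (Selmer rank 0, 1 or 2).
-/

namespace Pool.Agent.MP009fd8

open IsDedekindDomain NumberField WithZero

/-- At the place q: if C_(u,u) has a point and u is a unit, then u is a square modulo the
maximal ideal. -/
theorem unit_sq_at_q {F : Type*} [Field F] {Γ : Type*} [LinearOrderedCommGroupWithZero Γ]
    (v : Valuation F Γ) (q u : F) (hu : v u = 1) (hq : ¬ IsSquare (v q))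
    (h : HasPoint q u u) : ∃ g : F, v g ≤ 1 ∧ v (u - g ^ 2) < 1 := by
  have hu0 : u ≠ 0 := by rintro rfl; simp at hu
  obtain ⟨X, Y, Z, W, hne, e1, e2⟩ := h
  by_cases hW : W = 0
  · subst hW
    have hX : X ≠ 0 := by
      intro hX
      subst hX
      have hY : Y = 0 := by
        have : u * Y ^ 2 = 0 := by rw [e1]; ring
        rcases mul_eq_zero.1 this with h | h
        · exact absurd h hu0
        · exact pow_eq_zero_iff (two_ne_zero) |>.1 h
      have hZ : Z = 0 := by
        have : u * u * Z ^ 2 = 0 := by rw [e2]; ring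
        rcases mul_eq_zero.1 this with h | h
        · exact absurd h (mul_ne_zero hu0 hu0)
        · exact pow_eq_zero_iff (two_ne_zero) |>.1 h
      simp [hY, hZ] at hne
    have hg : (u * Z / X) ^ 2 = u := by
      rw [div_pow, div_eq_iff (pow_ne_zero 2 hX)]
      linear_combination e2
    refine ⟨u * Z / X, ?_, ?_⟩
    · have : (v (u * Z / X)) ^ 2 = 1 := by rw [← map_pow, hg, hu]
      exact le_of_eq ((pow_eq_one_iff_of_nonneg zero_le two_ne_zero).1 this)
    · rw [hg, sub_self, map_zero]
      exact zero_lt_one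
  · have hvW : v W ≠ 0 := (Valuation.ne_zero_iff v).2 hW
    have hns : ¬ IsSquare (v (q * W ^ 2)) := by
      rintro ⟨s, hs⟩
      apply hq
      refine ⟨s / v W, ?_⟩
      rw [map_mul, map_pow] at hs
      rw [div_mul_div_comm, eq_div_iff (mul_ne_zero hvW hvW), ← hs, pow_two]
    have sq_of : ∀ t : F, v (u * t ^ 2) = v t * v t := by
      intro t
      rw [map_mul, hu, one_mul, map_pow, pow_two]
    rcases lt_trichotomy (v (u * X ^ 2)) (v (q * W ^ 2)) with hlt | heq | hgt
    · exfalso
      apply hns
      have : v (u * Y ^ 2) = v (q * W ^ 2) := by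
        rw [e1]
        exact Valuation.map_sub_eq_of_lt_right v hlt
      exact ⟨v Y, by rw [← this, sq_of]⟩
    · exact absurd ⟨v X, by rw [← heq, sq_of]⟩ hns
    · have hX : X ≠ 0 := by
        rintro rfl
        simp at hgt
      have hvX : 0 < v X := zero_lt_iff.2 ((Valuation.ne_zero_iff v).2 hX)
      have hX2 : v (u * X ^ 2) = v X ^ 2 := by rw [sq_of, pow_two]
      have hZ2 : v (u * Z) ^ 2 = v X ^ 2 := by
        have h3 : (u * Z) ^ 2 = u * X ^ 2 + q * W ^ 2 := by linear_combination e2
        rw [← map_pow, h3, Valuation.map_add_eq_of_lt_left v hgt, hX2]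
      refine ⟨u * Z / X, ?_, ?_⟩
      · have h3 : (v (u * Z / X)) ^ 2 = 1 := by
          rw [map_div₀, div_pow, hZ2, div_self (pow_ne_zero 2 hvX.ne')]
        exact le_of_eq ((pow_eq_one_iff_of_nonneg zero_le two_ne_zero).1 h3)
      · have h4 : u - (u * Z / X) ^ 2 = - ((q * W ^ 2) / X ^ 2) := by
          field_simp
          linear_combination -e2
        rw [h4, Valuation.map_neg, map_div₀, map_pow, div_lt_one₀ (pow_pos hvX 2), ← hX2]
        exact hgt

variable {K : Type*} [Field K] [NumberField K]

/-- The case of even valuations at q. -/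
theorem main_even_unit (hclass : Odd (NumberField.classNumber K))
    (hpos : ∀ u : (𝓞 K)ˣ, (∀ f : K →+* ℝ, 0 < f (algebraMap (𝓞 K) K (u : 𝓞 K))) → IsSquare u)
    (h2 : Prime (2 : 𝓞 K))
    (q : 𝓞 K) (hq : Prime q) (hqpos : ∀ f : K →+* ℝ, 0 < f (algebraMap (𝓞 K) K q))
    (hq2 : ∀ m : 𝓞 K, ¬ q ∣ 2 - m ^ 2)
    (c e : 𝓞 K) (hqe : 4 ∣ q - c ^ 2 * (1 + 2 * e))
    (a b : K) (ha : a ≠ 0) (hb : b ≠ 0)
    (hqa : IsSquare ((placeOf q hq).valuation K a))
    (hqb : IsSquare ((placeOf q hq).valuation K b))
    (h : SelmerPair K (algebraMap (𝓞 K) K q) a b) :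
    ∃ (η : (𝓞 K)ˣ) (r s : K), r ≠ 0 ∧ s ≠ 0 ∧
      a = algebraMap (𝓞 K) K (η : 𝓞 K) * r ^ 2 ∧ b = algebraMap (𝓞 K) K (η : 𝓞 K) * s ^ 2 ∧
      (∃ m : 𝓞 K, q ∣ (η : 𝓞 K) - m ^ 2) ∧
      ∃ y g : 𝓞 K, ¬ 2 ∣ g ∧ 2 ∣ y ^ 4 + e * y ^ 2 + y ∧
        4 ∣ (η : 𝓞 K) - g ^ 2 * (1 + 2 * y ^ 2) := by
  classical
  -- q does not divide 2, and 2 does not divide q
  have hq2' : ¬ q ∣ 2 := by
    have := hq2 0
    simpa using this
  have h2q : ¬ (2 : 𝓞 K) ∣ q := by
    intro hd
    exact hq2' ((h2.associated_of_dvd hq hd).symm.dvd)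
  have h20 : (algebraMap (𝓞 K) K 2) = 2 := map_ofNat _ _
  -- valuations away from 2
  have haway : ∀ v : HeightOneSpectrum (𝓞 K), v ≠ placeOf 2 h2 →
      IsSquare (v.valuation K a) ∧ IsSquare (v.valuation K b) := by
    intro v hv
    by_cases hvq : v = placeOf q hq
    · rw [hvq]; exact ⟨hqa, hqb⟩
    · have h2v : v.valuation K (2 : K) = 1 := by
        rw [← h20]; exact val_eq_one v (notMem_of_ne h2 hv)
      have hqv : v.valuation K (algebraMap (𝓞 K) K q) = 1 := val_eq_one v (notMem_of_ne hq hvq)
      have key := isSquare_away (Valued.v : Valuation (v.adicCompletion K) _)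
        (algebraMap K (v.adicCompletion K) (algebraMap (𝓞 K) K q))
        (algebraMap K (v.adicCompletion K) a) (algebraMap K (v.adicCompletion K) b)
        ((map_ne_zero _).mpr ha) ((map_ne_zero _).mpr hb)
        (by rw [← map_ofNat (algebraMap K (v.adicCompletion K)) 2, val_completion]; exact h2v)
        (by rw [val_completion]; exact hqv) (h.1 v)
      rw [val_completion, val_completion] at key
      exact key
  obtain ⟨u, r, hr, hur⟩ := unit_form hclass h2 a ha (fun v hv => (haway v hv).1)
  obtain ⟨w, s, hs, hws⟩ := unit_form hclass h2 b hb (fun v hv => (haway v hv).2)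
  -- real places
  have hreal : ∀ f : K →+* ℝ, 0 < f a * f b := fun f =>
    real_pos (f (algebraMap (𝓞 K) K q)) (f a) (f b) (hqpos f) ((map_ne_zero f).mpr ha)
      ((map_ne_zero f).mpr hb) (h.2 f)
  -- u w is totally positive
  have huw : IsSquare (u * w) := by
    apply hpos
    intro f
    have hf := hreal f
    have hfr : 0 < f r ^ 2 := by
      have : f r ≠ 0 := (map_ne_zero f).mpr hr
      positivity
    have hfs : 0 < f s ^ 2 := by
      have : f s ≠ 0 := (map_ne_zero f).mpr hs
      positivity
    have hrs : 0 < f r ^ 2 * f s ^ 2 := mul_pos hfr hfs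
    rw [Units.val_mul, map_mul, map_mul]
    rcases hur with hur | hur <;> rcases hws with hws | hws <;>
      rw [hur, hws] at hf <;> simp only [map_mul, map_pow, map_ofNat] at hf <;>
      by_contra hneg <;> nlinarith [mul_nonneg (neg_nonneg.mpr (not_lt.mp hneg)) hrs.le]
  obtain ⟨η, hη⟩ := huw
  have hη' : algebraMap (𝓞 K) K (u : 𝓞 K) * algebraMap (𝓞 K) K (w : 𝓞 K) =
      algebraMap (𝓞 K) K (η : 𝓞 K) ^ 2 := by
    rw [← map_mul, ← Units.val_mul, hη, Units.val_mul, map_mul]; ring
  have hη0 : algebraMap (𝓞 K) K (η : 𝓞 K) ≠ 0 := by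
    simp
  -- a b is a square or twice a square
  have hab : (∃ t : K, t ≠ 0 ∧ a * b = t ^ 2) ∨ (∃ t : K, t ≠ 0 ∧ a * b = 2 * t ^ 2) := by
    have ht : algebraMap (𝓞 K) K (η : 𝓞 K) * r * s ≠ 0 := mul_ne_zero (mul_ne_zero hη0 hr) hs
    rcases hur with hur | hur <;> rcases hws with hws | hws
    · exact Or.inl ⟨_, ht, by rw [hur, hws]; linear_combination (r ^ 2 * s ^ 2) * hη'⟩
    · exact Or.inr ⟨_, ht, by rw [hur, hws]; linear_combination (2 * r ^ 2 * s ^ 2) * hη'⟩
    · exact Or.inr ⟨_, ht, by rw [hur, hws]; linear_combination (2 * r ^ 2 * s ^ 2) * hη'⟩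
    · exact Or.inl ⟨2 * (algebraMap (𝓞 K) K (η : 𝓞 K) * r * s), mul_ne_zero two_ne_zero ht, by
        rw [hur, hws]; linear_combination (4 * r ^ 2 * s ^ 2) * hη'⟩
  -- the second case is impossible at q
  have hab' : ∃ t : K, t ≠ 0 ∧ a * b = t ^ 2 := by
    rcases hab with hab | ⟨t, ht, hab⟩
    · exact hab
    · exfalso
      set v := placeOf q hq with hvdef
      obtain ⟨g, hg1, hg⟩ := two_sq_at_q (Valued.v : Valuation (v.adicCompletion K) _)
        (algebraMap K (v.adicCompletion K) (algebraMap (𝓞 K) K q))
        (algebraMap K (v.adicCompletion K) a) (algebraMap K (v.adicCompletion K) b)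
        (algebraMap K (v.adicCompletion K) t)
        ((map_ne_zero _).mpr ha) ((map_ne_zero _).mpr hb) ((map_ne_zero _).mpr ht)
        (by rw [← map_mul, hab, map_mul, map_pow, map_ofNat])
        (by
          rw [← map_ofNat (algebraMap K (v.adicCompletion K)) 2, val_completion, ← h20]
          apply val_eq_one
          rw [hvdef, mem_placeOf]
          exact hq2')
        (by
          rw [val_completion, hvdef, val_self]
          exact not_isSquare_exp_neg_one)
        (by rw [val_completion]; exact hqa) (by rw [val_completion]; exact hqb) (h.1 v)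
      obtain ⟨m, hm⟩ := exists_int_sub_lt v g hg1 1 one_pos
      apply hq2 m
      rw [← mem_placeOf hq, ← v.valuation_lt_one_iff_mem (K := K), ← val_completion]
      have hmg : Valued.v (algebraMap K (v.adicCompletion K) (algebraMap (𝓞 K) K m)) ≤ 1 := by
        rw [val_completion]; exact v.valuation_le_one m
      have hexp : algebraMap K (v.adicCompletion K) (algebraMap (𝓞 K) K (2 - m ^ 2)) =
          (2 - g ^ 2) + (g - algebraMap K (v.adicCompletion K) (algebraMap (𝓞 K) K m)) *
            (g + algebraMap K (v.adicCompletion K) (algebraMap (𝓞 K) K m)) := by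
        simp only [map_sub, map_pow, map_ofNat]; ring
      rw [hexp]
      refine Valuation.map_add_lt _ hg ?_
      rw [map_mul]
      calc _ ≤ Valued.v (g - algebraMap K (v.adicCompletion K) (algebraMap (𝓞 K) K m)) * 1 := by
            gcongr
            exact Valuation.map_add_le _ hg1 hmg
        _ < 1 := by rw [mul_one]; exact hm
  obtain ⟨t, ht, hab⟩ := hab'
  -- so b = a (t / a)^2, look at the place 2
  have hba : b = a * (t / a) ^ 2 := by
    field_simp
    linear_combination hab
  -- the coverings C_(d,d)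
  have hpt : ∀ (v : HeightOneSpectrum (𝓞 K)) (d : K), d ≠ 0 → ∀ r : K, r ≠ 0 → a = d * r ^ 2 →
      HasPoint (algebraMap K (v.adicCompletion K) (algebraMap (𝓞 K) K q))
        (algebraMap K (v.adicCompletion K) d) (algebraMap K (v.adicCompletion K) d) := by
    intro v d hd r hr har
    have h1 := h.1 v
    refine hasPoint_sq _ _ _ (algebraMap K (v.adicCompletion K) r)
      (algebraMap K (v.adicCompletion K) (r * (t / a))) ((map_ne_zero _).mpr hr)
      ((map_ne_zero _).mpr (mul_ne_zero hr (div_ne_zero ht ha))) ?_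
    rw [← map_pow, ← map_pow, ← map_mul, ← map_mul, ← har]
    have : d * (r * (t / a)) ^ 2 = b := by
      rw [hba]; nth_rewrite 2 [har]; ring
    rw [this]
    exact h1
  have hvleone : ∀ (v : HeightOneSpectrum (𝓞 K)) (m : 𝓞 K),
      Valued.v (algebraMap K (v.adicCompletion K) (algebraMap (𝓞 K) K m)) ≤ 1 := by
    intro v m
    rw [val_completion]; exact v.valuation_le_one m
  have hv2 : (Valued.v : Valuation ((placeOf 2 h2).adicCompletion K) _) 2 = exp (-1 : ℤ) := by
    rw [← map_ofNat (algebraMap K ((placeOf 2 h2).adicCompletion K)) 2, val_completion, ← h20]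
    exact val_self h2
  have hvq : (Valued.v : Valuation ((placeOf 2 h2).adicCompletion K) _)
      (algebraMap K ((placeOf 2 h2).adicCompletion K) (algebraMap (𝓞 K) K q)) = 1 := by
    rw [val_completion]
    apply val_eq_one
    rw [mem_placeOf]
    exact h2q
  rcases hur with hur | hur
  · have hu0 : algebraMap (𝓞 K) K (u : 𝓞 K) ≠ 0 := by
      simp
    refine ⟨u, r, r * (t / a), hr, mul_ne_zero hr (div_ne_zero ht ha), hur, ?_, ?_, ?_⟩
    · rw [hba]
      nth_rewrite 1 [hur]
      ring
    · -- the place q
      obtain ⟨v, hvdef⟩ : ∃ v, v = placeOf q hq := ⟨_, rfl⟩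
      have hp := hpt v _ hu0 r hr hur
      obtain ⟨g, hg1, hg⟩ := unit_sq_at_q (Valued.v : Valuation (v.adicCompletion K) _)
        (algebraMap K (v.adicCompletion K) (algebraMap (𝓞 K) K q))
        (algebraMap K (v.adicCompletion K) (algebraMap (𝓞 K) K (u : 𝓞 K)))
        (by rw [val_completion]; exact val_unit v u)
        (by
          rw [val_completion, hvdef, val_self]
          exact not_isSquare_exp_neg_one) hp
      obtain ⟨m, hm⟩ := exists_int_sub_lt v g hg1 1 one_pos
      refine ⟨m, ?_⟩
      rw [← mem_placeOf hq, ← hvdef, ← v.valuation_lt_one_iff_mem (K := K), ← val_completion]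
      have hexp : algebraMap K (v.adicCompletion K) (algebraMap (𝓞 K) K ((u : 𝓞 K) - m ^ 2)) =
          (algebraMap K (v.adicCompletion K) (algebraMap (𝓞 K) K (u : 𝓞 K)) - g ^ 2) +
          (g - algebraMap K (v.adicCompletion K) (algebraMap (𝓞 K) K m)) *
            (g + algebraMap K (v.adicCompletion K) (algebraMap (𝓞 K) K m)) := by
        simp only [map_sub, map_pow]; ring
      rw [hexp]
      refine Valuation.map_add_lt _ hg ?_
      rw [map_mul]
      calc _ ≤ Valued.v (g - algebraMap K (v.adicCompletion K) (algebraMap (𝓞 K) K m)) * 1 := by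
            gcongr
            exact Valuation.map_add_le _ hg1 (hvleone v m)
        _ < 1 := by rw [mul_one]; exact hm
    · -- the place 2
      obtain ⟨v, hvdef⟩ : ∃ v, v = placeOf 2 h2 := ⟨_, rfl⟩
      rw [← hvdef] at hv2 hvq
      have hp := hpt v _ hu0 r hr hur
      have hK20 : (2 : v.adicCompletion K) ≠ 0 := by
        rw [← map_ofNat (algebraMap K (v.adicCompletion K)) 2]
        exact (map_ne_zero _).mpr two_ne_zero
      have hK2lt : (Valued.v : Valuation (v.adicCompletion K) _) 2 < 1 := by
        rw [hv2, ← exp_zero, exp_lt_exp]; norm_num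
      have hmaxv : ∀ x : v.adicCompletion K, Valued.v x < 1 →
          Valued.v x ≤ (Valued.v : Valuation (v.adicCompletion K) _) 2 :=
        fun x hx => by rw [hv2]; exact le_of_lt_one hx
      obtain ⟨y, g, hy1, hg1, hyr, hug⟩ := unit_class_at_two
        (Valued.v : Valuation (v.adicCompletion K) _)
        (algebraMap K (v.adicCompletion K) (algebraMap (𝓞 K) K q))
        (algebraMap K (v.adicCompletion K) (algebraMap (𝓞 K) K (u : 𝓞 K)))
        (algebraMap K (v.adicCompletion K) (algebraMap (𝓞 K) K c))
        (algebraMap K (v.adicCompletion K) (algebraMap (𝓞 K) K e))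
        hK2lt hK20 hmaxv hvq
        (by rw [val_completion]; exact val_unit v u)
        (by
          rw [val_completion]
          apply val_eq_one
          rw [hvdef, mem_placeOf]
          intro hc
          apply h2q
          have h1 : (2 : 𝓞 K) ∣ q - c ^ 2 * (1 + 2 * e) :=
            dvd_trans ⟨2, by norm_num⟩ hqe
          have h3 : (2 : 𝓞 K) ∣ c ^ 2 * (1 + 2 * e) :=
            dvd_mul_of_dvd_left (dvd_pow hc two_ne_zero) _
          have := dvd_add h1 h3
          simpa using this)
        (hvleone v e)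
        (by
          have h4 := val_le_of_four_dvd (K := K) v hqe
          have e1 : algebraMap K (v.adicCompletion K) (algebraMap (𝓞 K) K q) -
              algebraMap K (v.adicCompletion K) (algebraMap (𝓞 K) K c) ^ 2 *
                (1 + 2 * algebraMap K (v.adicCompletion K) (algebraMap (𝓞 K) K e)) =
              algebraMap K (v.adicCompletion K) (algebraMap (𝓞 K) K
                (q - c ^ 2 * (1 + 2 * e))) := by
            simp only [map_sub, map_mul, map_add, map_pow, map_one, map_ofNat]
          rw [e1, ← map_ofNat (algebraMap K (v.adicCompletion K)) 4, val_completion,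
            val_completion]
          exact h4)
        hp
      have h40 : (0 : WithZero (Multiplicative ℤ)) <
          (Valued.v : Valuation (v.adicCompletion K) _) 4 := by
        have h4K : (4 : K) ≠ 0 := by norm_num
        have : (algebraMap K (v.adicCompletion K)) 4 ≠ 0 := (map_ne_zero _).mpr h4K
        rw [map_ofNat] at this
        exact zero_lt_iff.mpr ((Valuation.ne_zero_iff _).mpr this)
      have h4lt : (Valued.v : Valuation (v.adicCompletion K) _) 4 < 1 := by
        have e5 : (4 : v.adicCompletion K) = 2 * 2 := by norm_num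
        rw [e5, map_mul]
        calc _ ≤ (Valued.v : Valuation (v.adicCompletion K) _) 2 * 1 := by
              gcongr
          _ < 1 := by rw [mul_one]; exact hK2lt
      obtain ⟨m, hm⟩ := exists_int_sub_lt v g hg1.le _ h40
      obtain ⟨n, hn⟩ := exists_int_sub_lt v y hy1 1 one_pos
      obtain ⟨M, hMdef⟩ : ∃ M, M = algebraMap K (v.adicCompletion K) (algebraMap (𝓞 K) K m) :=
        ⟨_, rfl⟩
      obtain ⟨N, hNdef⟩ : ∃ N, N = algebraMap K (v.adicCompletion K) (algebraMap (𝓞 K) K n) :=
        ⟨_, rfl⟩
      obtain ⟨E, hEdef⟩ : ∃ E, E = algebraMap K (v.adicCompletion K) (algebraMap (𝓞 K) K e) :=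
        ⟨_, rfl⟩
      have hM1 : Valued.v M ≤ 1 := by rw [hMdef]; exact hvleone v m
      have hN1 : Valued.v N ≤ 1 := by rw [hNdef]; exact hvleone v n
      have hE1 : Valued.v E ≤ 1 := by rw [hEdef]; exact hvleone v e
      rw [← hMdef] at hm
      rw [← hNdef] at hn
      rw [← hEdef] at hyr
      have hV2 : Valued.v (2 : v.adicCompletion K) ≤ 1 := hK2lt.le
      refine ⟨n, m, ?_, ?_, ?_⟩
      · intro hdvd
        have h5 : Valued.v M < 1 := by
          rw [hMdef, val_completion, v.valuation_lt_one_iff_mem, hvdef, mem_placeOf]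
          exact hdvd
        have h6 : Valued.v g < 1 := by
          have : g = (g - M) + M := by ring
          rw [this]
          exact Valuation.map_add_lt _ (lt_trans hm h4lt) h5
        exact (ne_of_lt h6) hg1
      · rw [← mem_placeOf h2, ← hvdef, ← v.valuation_lt_one_iff_mem (K := K), ← val_completion]
        have e6 : algebraMap K (v.adicCompletion K) (algebraMap (𝓞 K) K
            (n ^ 4 + e * n ^ 2 + n)) = (y ^ 4 + E * y ^ 2 + y) -
            (y - N) * ((y + N) * (y ^ 2 + N ^ 2) + E * (y + N) + 1) := by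
          simp only [map_mul, map_add, map_pow, ← hNdef, ← hEdef]; ring
        rw [e6]
        refine Valuation.map_sub_lt _ hyr ?_
        rw [map_mul]
        calc _ ≤ Valued.v (y - N) * 1 := by
              gcongr
              have h7 : Valued.v (y + N) ≤ 1 := Valuation.map_add_le _ hy1 hN1
              refine Valuation.map_add_le _ (Valuation.map_add_le _ ?_ ?_) ?_
              · rw [map_mul]
                refine mul_le_one' h7 (Valuation.map_add_le _ ?_ ?_)
                · rw [map_pow]; exact pow_le_one' hy1 2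
                · rw [map_pow]; exact pow_le_one' hN1 2
              · rw [map_mul]; exact mul_le_one' hE1 h7
              · rw [map_one]
          _ < 1 := by rw [mul_one]; exact hn
      · apply four_dvd_of_val h2
        rw [← hvdef, ← val_completion, ← val_completion]
        have e7 : algebraMap K (v.adicCompletion K) (algebraMap (𝓞 K) K
            ((u : 𝓞 K) - m ^ 2 * (1 + 2 * n ^ 2))) =
            (algebraMap K (v.adicCompletion K) (algebraMap (𝓞 K) K (u : 𝓞 K))
              - g ^ 2 * (1 + 2 * y ^ 2)) +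
            ((g - M) * ((g + M) * (1 + 2 * y ^ 2)) + 2 * (y - N) * (M ^ 2 * (y + N))) := by
          simp only [map_sub, map_mul, map_add, map_pow, map_one, map_ofNat, ← hMdef, ← hNdef]
          ring
        rw [e7, map_ofNat]
        refine Valuation.map_add_le _ hug (Valuation.map_add_le _ ?_ ?_)
        · rw [map_mul]
          calc _ ≤ Valued.v (g - M) * 1 := by
                gcongr
                rw [map_mul]
                refine mul_le_one' (Valuation.map_add_le _ hg1.le hM1) ?_
                refine Valuation.map_add_le _ (by rw [map_one]) ?_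
                rw [map_mul, map_pow]
                exact mul_le_one' hV2 (pow_le_one' hy1 2)
            _ ≤ _ := by rw [mul_one]; exact hm.le
        · rw [map_mul]
          have h8 : Valued.v (2 * (y - N)) ≤ (Valued.v : Valuation (v.adicCompletion K) _) 4 := by
            have e8 : (4 : v.adicCompletion K) = 2 * 2 := by norm_num
            rw [e8, map_mul, map_mul]
            gcongr
            exact hmaxv _ hn
          calc _ ≤ (Valued.v : Valuation (v.adicCompletion K) _) 4 * 1 := by
                gcongr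
                rw [map_mul, map_pow]
                exact mul_le_one' (pow_le_one' hM1 2) (Valuation.map_add_le _ hy1 hN1)
            _ = _ := mul_one _
  · exfalso
    have hu0 : algebraMap (𝓞 K) K (u : 𝓞 K) ≠ 0 := by
      simp
    have hp := hpt (placeOf 2 h2) _ (mul_ne_zero two_ne_zero hu0) r hr hur
    refine no_point_odd (Valued.v : Valuation ((placeOf 2 h2).adicCompletion K) _) _ _
      ((map_ne_zero _).mpr (mul_ne_zero two_ne_zero hu0)) ?_ hvq hp
    rw [map_mul, map_mul, map_ofNat, hv2, val_completion, val_unit, mul_one]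
    exact not_isSquare_exp_neg_one

end Pool.Agent.MP009fd8
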