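import Pool.Agent.Lib.MP_009fd8_ag.MainB

/-!
MP_009fd8_ag: the 2-descent on y^2 = x^3 - q^2 x, uniform form: final count.
-/

namespace Pool.Agent.MP009fd8

open IsDedekindDomain NumberField WithZero

/-- The torsion pairs are closed under products. -/
theorem TorsionPair.mul {F : Type*} [Field F] {q a b a' b' : F} (h20 : (2 : F) ≠ 0) (hq : q ≠ 0)
    (h : TorsionPair q a b) (h' : TorsionPair q a' b') : TorsionPair q (a * a') (b * b') := by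
  obtain ⟨r, s, hr, hs, h⟩ := h
  obtain ⟨r', s', hr', hs', h'⟩ := h'
  have h1 : r * r' ≠ 0 := mul_ne_zero hr hr'
  have h2 : s * s' ≠ 0 := mul_ne_zero hs hs'
  have h3 : q * (r * r') ≠ 0 := mul_ne_zero hq h1
  have h4 : q * (s * s') ≠ 0 := mul_ne_zero hq h2
  have h5 : 2 * (s * s') ≠ 0 := mul_ne_zero h20 h2
  have h6 : 2 * (q * (s * s')) ≠ 0 := mul_ne_zero h20 h4
  rcases h with ⟨rfl, rfl⟩ | ⟨rfl, rfl⟩ | ⟨rfl, rfl⟩ | ⟨rfl, rfl⟩ <;>
    rcases h' with ⟨rfl, rfl⟩ | ⟨rfl, rfl⟩ | ⟨rfl, rfl⟩ | ⟨rfl, rfl⟩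
  · exact ⟨_, _, h1, h2, Or.inl ⟨by ring, by ring⟩⟩
  · exact ⟨_, _, h1, h2, Or.inr (Or.inl ⟨by ring, by ring⟩)⟩
  · exact ⟨_, _, h1, h2, Or.inr (Or.inr (Or.inl ⟨by ring, by ring⟩))⟩
  · exact ⟨_, _, h1, h2, Or.inr (Or.inr (Or.inr ⟨by ring, by ring⟩))⟩
  · exact ⟨_, _, h1, h2, Or.inr (Or.inl ⟨by ring, by ring⟩)⟩
  · exact ⟨_, _, h1, h4, Or.inl ⟨by ring, by ring⟩⟩
  · exact ⟨_, _, h1, h2, Or.inr (Or.inr (Or.inr ⟨by ring, by ring⟩))⟩
  · exact ⟨_, _, h1, h4, Or.inr (Or.inr (Or.inl ⟨by ring, by ring⟩))⟩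
  · exact ⟨_, _, h1, h2, Or.inr (Or.inr (Or.inl ⟨by ring, by ring⟩))⟩
  · exact ⟨_, _, h1, h2, Or.inr (Or.inr (Or.inr ⟨by ring, by ring⟩))⟩
  · exact ⟨_, _, h3, h5, Or.inl ⟨by ring, by ring⟩⟩
  · exact ⟨_, _, h3, h5, Or.inr (Or.inl ⟨by ring, by ring⟩)⟩
  · exact ⟨_, _, h1, h2, Or.inr (Or.inr (Or.inr ⟨by ring, by ring⟩))⟩
  · exact ⟨_, _, h1, h4, Or.inr (Or.inr (Or.inl ⟨by ring, by ring⟩))⟩
  · exact ⟨_, _, h3, h5, Or.inr (Or.inl ⟨by ring, by ring⟩)⟩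
  · exact ⟨_, _, h3, h6, Or.inl ⟨by ring, by ring⟩⟩

/-- Dividing by squares. -/
theorem TorsionPair.of_mul_sq {F : Type*} [Field F] {q a b t t' : F} (ht : t ≠ 0) (ht' : t' ≠ 0)
    (h : TorsionPair q (a * t ^ 2) (b * t' ^ 2)) : TorsionPair q a b := by
  obtain ⟨r, s, hr, hs, h⟩ := h
  have e1 : a = a * t ^ 2 / t ^ 2 := by field_simp
  have e2 : b = b * t' ^ 2 / t' ^ 2 := by field_simp
  refine ⟨r / t, s / t', div_ne_zero hr ht, div_ne_zero hs ht', ?_⟩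
  rcases h with ⟨h1, h2⟩ | ⟨h1, h2⟩ | ⟨h1, h2⟩ | ⟨h1, h2⟩
  · left; constructor
    · rw [e1, h1]; ring
    · rw [e2, h2]; ring
  · right; left; constructor
    · rw [e1, h1]; ring
    · rw [e2, h2]; ring
  · right; right; left; constructor
    · rw [e1, h1]; ring
    · rw [e2, h2]; ring
  · right; right; right; constructor
    · rw [e1, h1]; ring
    · rw [e2, h2]; ring

/-- A covering equivalent to one with a point has a point. -/
theorem hasPoint_of_equiv {F : Type*} [Field F] {q a b a' b' : F} (hq : q ≠ 0)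
    (ha' : a' ≠ 0) (hb' : b' ≠ 0) (h : HasPoint q a' b')
    (ht : TorsionPair q (a * a') (b * b')) : HasPoint q a b := by
  obtain ⟨r, s, hr, hs, ht⟩ := ht
  have hr' : a' / r ≠ 0 := div_ne_zero ha' hr
  have hs' : b' / s ≠ 0 := div_ne_zero hb' hs
  refine hasPoint_sq q a b (a' / r) (b' / s) hr' hs' ?_
  have e1 : a * (a' / r) ^ 2 = a * a' * a' / r ^ 2 := by ring
  have e2 : b * (b' / s) ^ 2 = b * b' * b' / s ^ 2 := by ring
  rcases ht with ⟨h1, h2⟩ | ⟨h1, h2⟩ | ⟨h1, h2⟩ | ⟨h1, h2⟩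
  · have e3 : a * (a' / r) ^ 2 = a' := by rw [e1, h1]; field_simp
    have e4 : b * (b' / s) ^ 2 = b' := by rw [e2, h2]; field_simp
    rw [e3, e4]; exact h
  · have e3 : a * (a' / r) ^ 2 = -a' := by rw [e1, h1]; field_simp
    have e4 : b * (b' / s) ^ 2 = -q * b' := by rw [e2, h2]; field_simp
    rw [e3, e4]; exact hasPoint_translate_zero _ _ _ hq ha' h
  · have e3 : a * (a' / r) ^ 2 = q * a' := by rw [e1, h1]; field_simp
    have e4 : b * (b' / s) ^ 2 = 2 * b' := by rw [e2, h2]; field_simp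
    rw [e3, e4]; exact hasPoint_translate_q _ _ _ hq hb' h
  · have e3 : a * (a' / r) ^ 2 = q * (-a') := by rw [e1, h1]; field_simp
    have e4 : b * (b' / s) ^ 2 = 2 * (-q * b') := by rw [e2, h2]; field_simp
    rw [e3, e4]
    exact hasPoint_translate_q _ _ _ hq (mul_ne_zero (neg_ne_zero.mpr hq) hb')
      (hasPoint_translate_zero _ _ _ hq ha' h)

variable {K : Type*} [Field K] [NumberField K]

/-- Every Selmer pair is, up to torsion pairs, given by a unit. -/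
theorem selmer_unit (hclass : Odd (NumberField.classNumber K))
    (hpos : ∀ u : (𝓞 K)ˣ, (∀ f : K →+* ℝ, 0 < f (algebraMap (𝓞 K) K (u : 𝓞 K))) → IsSquare u)
    (h2 : Prime (2 : 𝓞 K))
    (q : 𝓞 K) (hq : Prime q) (hqpos : ∀ f : K →+* ℝ, 0 < f (algebraMap (𝓞 K) K q))
    (hq2 : ∀ m : 𝓞 K, ¬ q ∣ 2 - m ^ 2)
    (c e : 𝓞 K) (hqe : 4 ∣ q - c ^ 2 * (1 + 2 * e))
    (a b : K) (ha : a ≠ 0) (hb : b ≠ 0)
    (h : SelmerPair K (algebraMap (𝓞 K) K q) a b) :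
    ∃ η : (𝓞 K)ˣ, TorsionPair (algebraMap (𝓞 K) K q) (a * algebraMap (𝓞 K) K (η : 𝓞 K))
      (b * algebraMap (𝓞 K) K (η : 𝓞 K)) ∧
      (∃ m : 𝓞 K, q ∣ (η : 𝓞 K) - m ^ 2) ∧
      ∃ y g : 𝓞 K, ¬ 2 ∣ g ∧ 2 ∣ y ^ 4 + e * y ^ 2 + y ∧
        4 ∣ (η : 𝓞 K) - g ^ 2 * (1 + 2 * y ^ 2) := by
  have hq0 : algebraMap (𝓞 K) K q ≠ 0 := by
    have := hq.ne_zero
    simpa using this
  have hqa := isSquare_val_or hq ha
  have hqb := isSquare_val_or hq hb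
  have hneg : ∀ x : K, (placeOf q hq).valuation K (-x) = (placeOf q hq).valuation K x :=
    fun x => Valuation.map_neg _ x
  have hq2' : ¬ q ∣ 2 := by
    have := hq2 0
    simpa using this
  have hv2 : (placeOf q hq).valuation K (2 : K) = 1 := by
    rw [← map_ofNat (algebraMap (𝓞 K) K) 2]
    apply val_eq_one
    rw [mem_placeOf]
    exact hq2'
  have main := fun a b ha hb => main_even_unit hclass hpos h2 q hq hqpos hq2 c e hqe a b
    ha hb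
  have hη0 : ∀ η : (𝓞 K)ˣ, algebraMap (𝓞 K) K (η : 𝓞 K) ≠ 0 := by
    intro η; simp
  rcases hqa with hqa | hqa <;> rcases hqb with hqb | hqb
  · obtain ⟨η, r, s, hr, hs, h1, h3, hm, hy⟩ := main a b ha hb hqa hqb h
    refine ⟨η, ⟨algebraMap (𝓞 K) K (η : 𝓞 K) * r, algebraMap (𝓞 K) K (η : 𝓞 K) * s,
      mul_ne_zero (hη0 η) hr, mul_ne_zero (hη0 η) hs, Or.inl ⟨?_, ?_⟩⟩, hm, hy⟩
    · rw [h1]; ring
    · rw [h3]; ring
  · obtain ⟨η, r, s, hr, hs, h1, h3, hm, hy⟩ := main (-a) (-algebraMap (𝓞 K) K q * b)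
      (neg_ne_zero.mpr ha)
      (mul_ne_zero (neg_ne_zero.mpr hq0) hb) (by rw [hneg]; exact hqa)
      (by rw [neg_mul, hneg]; exact hqb) (h.translate_zero hq0 ha)
    refine ⟨η, ⟨algebraMap (𝓞 K) K (η : 𝓞 K) * r,
      algebraMap (𝓞 K) K (η : 𝓞 K) * s / algebraMap (𝓞 K) K q,
      mul_ne_zero (hη0 η) hr, div_ne_zero (mul_ne_zero (hη0 η) hs) hq0,
      Or.inr (Or.inl ⟨?_, ?_⟩)⟩, hm, hy⟩
    · linear_combination (-algebraMap (𝓞 K) K (η : 𝓞 K)) * h1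
    · field_simp
      linear_combination -h3
  · obtain ⟨η, r, s, hr, hs, h1, h3, hm, hy⟩ := main (algebraMap (𝓞 K) K q * a) (2 * b)
      (mul_ne_zero hq0 ha) (mul_ne_zero two_ne_zero hb) hqa
      (by rw [map_mul, hv2, one_mul]; exact hqb) (h.translate_q hq0 hb)
    refine ⟨η, ⟨algebraMap (𝓞 K) K (η : 𝓞 K) * r / algebraMap (𝓞 K) K q,
      algebraMap (𝓞 K) K (η : 𝓞 K) * s / 2,
      div_ne_zero (mul_ne_zero (hη0 η) hr) hq0, div_ne_zero (mul_ne_zero (hη0 η) hs) two_ne_zero,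
      Or.inr (Or.inr (Or.inl ⟨?_, ?_⟩))⟩, hm, hy⟩
    · field_simp
      linear_combination h1
    · linear_combination (algebraMap (𝓞 K) K (η : 𝓞 K)) * h3 / 2
  · obtain ⟨η, r, s, hr, hs, h1, h3, hm, hy⟩ := main (algebraMap (𝓞 K) K q * (-a))
      (2 * (-algebraMap (𝓞 K) K q * b))
      (mul_ne_zero hq0 (neg_ne_zero.mpr ha))
      (mul_ne_zero two_ne_zero (mul_ne_zero (neg_ne_zero.mpr hq0) hb))
      (by rw [mul_neg, hneg]; exact hqa)
      (by rw [map_mul, hv2, one_mul, neg_mul, hneg]; exact hqb)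
      ((h.translate_zero hq0 ha).translate_q hq0 (mul_ne_zero (neg_ne_zero.mpr hq0) hb))
    refine ⟨η, ⟨algebraMap (𝓞 K) K (η : 𝓞 K) * r / algebraMap (𝓞 K) K q,
      algebraMap (𝓞 K) K (η : 𝓞 K) * s / (2 * algebraMap (𝓞 K) K q),
      div_ne_zero (mul_ne_zero (hη0 η) hr) hq0,
      div_ne_zero (mul_ne_zero (hη0 η) hs) (mul_ne_zero two_ne_zero hq0),
      Or.inr (Or.inr (Or.inr ⟨?_, ?_⟩))⟩, hm, hy⟩
    · field_simp
      linear_combination -h1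
    · field_simp
      linear_combination -h3

theorem classes_finite (q e : 𝓞 K) : (classes K q e).Finite := by
  have : Finite (𝓞 K ⧸ Ideal.span {(2 : 𝓞 K)}) := by
    apply Ideal.finiteQuotientOfFreeOfNeBot
    rw [Ne, Ideal.span_singleton_eq_bot]
    exact two_ne_zero
  exact Set.toFinite _

/-- The uniform 2-descent. -/
theorem uniform_descent (hclass : Odd (NumberField.classNumber K))
    (hpos : ∀ u : (𝓞 K)ˣ, (∀ f : K →+* ℝ, 0 < f (algebraMap (𝓞 K) K (u : 𝓞 K))) → IsSquare u)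
    (hfour : ∀ u : (𝓞 K)ˣ, (∃ m : 𝓞 K, (4 : 𝓞 K) ∣ (u : 𝓞 K) - m ^ 2) → IsSquare u)
    (h2 : Prime (2 : 𝓞 K))
    (q : 𝓞 K) (hq : Prime q) (hqpos : ∀ f : K →+* ℝ, 0 < f (algebraMap (𝓞 K) K q))
    (hq2 : ∀ m : 𝓞 K, ¬ q ∣ 2 - m ^ 2)
    (c e : 𝓞 K) (hqe : 4 ∣ q - c ^ 2 * (1 + 2 * e))
    (P : Finset (K × K)) (hP0 : ∀ p ∈ P, p.1 ≠ 0 ∧ p.2 ≠ 0)
    (hP : ∀ p ∈ P, HasPoint (algebraMap (𝓞 K) K q) p.1 p.2)
    (hPne : ∀ p ∈ P, ∀ p' ∈ P, p ≠ p' →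
      ¬ TorsionPair (algebraMap (𝓞 K) K q) (p.1 * p'.1) (p.2 * p'.2))
    (hcard : (classes K q e).ncard ≤ P.card)
    (a b : K) (ha : a ≠ 0) (hb : b ≠ 0)
    (h : SelmerPair K (algebraMap (𝓞 K) K q) a b) :
    ∃ p ∈ P, TorsionPair (algebraMap (𝓞 K) K q) (a * p.1) (b * p.2) := by
  classical
  by_contra hcon
  push Not at hcon
  have hq0 : algebraMap (𝓞 K) K q ≠ 0 := by
    have := hq.ne_zero
    simpa using this
  have hη0 : ∀ η : (𝓞 K)ˣ, algebraMap (𝓞 K) K (η : 𝓞 K) ≠ 0 := by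
    intro η; simp
  -- the set of all pairs considered
  have hab : (a, b) ∉ P := by
    intro hmem
    exact hcon _ hmem ⟨a, b, ha, hb, Or.inl ⟨by ring, by ring⟩⟩
  have hS : ∀ x ∈ insert (a, b) P, ∃ (η : (𝓞 K)ˣ) (m y g : 𝓞 K),
      TorsionPair (algebraMap (𝓞 K) K q) (x.1 * algebraMap (𝓞 K) K (η : 𝓞 K))
      (x.2 * algebraMap (𝓞 K) K (η : 𝓞 K)) ∧ q ∣ (η : 𝓞 K) - m ^ 2 ∧
      ¬ 2 ∣ g ∧ 2 ∣ y ^ 4 + e * y ^ 2 + y ∧ 4 ∣ (η : 𝓞 K) - g ^ 2 * (1 + 2 * y ^ 2) := by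
    intro x hx
    have hx' : x.1 ≠ 0 ∧ x.2 ≠ 0 ∧ SelmerPair K (algebraMap (𝓞 K) K q) x.1 x.2 := by
      rcases Finset.mem_insert.1 hx with rfl | hx
      · exact ⟨ha, hb, h⟩
      · exact ⟨(hP0 x hx).1, (hP0 x hx).2, fun v => (hP x hx).map _, fun f => (hP x hx).map f⟩
    obtain ⟨η, ht, ⟨m, hm⟩, y, g, hg, hy, hu⟩ := selmer_unit hclass hpos h2 q hq hqpos hq2 c e hqe
      x.1 x.2 hx'.1 hx'.2.1 hx'.2.2
    exact ⟨η, m, y, g, ht, hm, hg, hy, hu⟩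
  choose! η m y g hT hm hg hy hu using hS
  have hle : (insert (a, b) P).card ≤ (classes K q e).ncard := by
    rw [← Set.ncard_coe_finset]
    refine Set.ncard_le_ncard_of_injOn (fun x => Ideal.Quotient.mk _ (y x)) ?_ ?_
      (classes_finite q e)
    · intro x hx
      have hx' : x ∈ insert (a, b) P := by exact_mod_cast hx
      exact ⟨η x, m x, y x, g x, rfl, hm x hx', hg x hx', hy x hx', hu x hx'⟩
    · intro x hx x' hx' hxx
      have hx1 : x ∈ insert (a, b) P := by exact_mod_cast hx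
      have hx1' : x' ∈ insert (a, b) P := by exact_mod_cast hx'
      by_contra hne
      have hd : (2 : 𝓞 K) ∣ y x - y x' := by
        rw [← Ideal.mem_span_singleton]
        exact Ideal.Quotient.eq.1 hxx
      obtain ⟨d, hd⟩ := hd
      obtain ⟨k, hk⟩ := hu x hx1
      obtain ⟨k', hk'⟩ := hu x' hx1'
      have hsq : IsSquare (η x * η x') := by
        apply hfour
        refine ⟨g x * g x' * (1 + 2 * (y x) ^ 2), ?_⟩
        rw [Units.val_mul]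
        have e1 : (η x : 𝓞 K) = g x ^ 2 * (1 + 2 * (y x) ^ 2) + 4 * k := by
          linear_combination hk
        have e2 : (η x' : 𝓞 K) = g x' ^ 2 * (1 + 2 * (y x') ^ 2) + 4 * k' := by
          linear_combination hk'
        have e3 : y x' = y x - 2 * d := by linear_combination -hd
        rw [e1, e2, e3]
        refine ⟨g x ^ 2 * (1 + 2 * y x ^ 2) * (g x' ^ 2 * (-2 * y x * d + 2 * d ^ 2) + k')
          + k * (g x' ^ 2 * (1 + 2 * (y x - 2 * d) ^ 2) + 4 * k'), by ring⟩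
      obtain ⟨z, hz⟩ := hsq
      have hz' : algebraMap (𝓞 K) K (η x : 𝓞 K) * algebraMap (𝓞 K) K (η x' : 𝓞 K) =
          algebraMap (𝓞 K) K (z : 𝓞 K) ^ 2 := by
        rw [← map_mul, ← Units.val_mul, hz, Units.val_mul, map_mul]; ring
      have ht : TorsionPair (algebraMap (𝓞 K) K q) (x.1 * x'.1) (x.2 * x'.2) := by
        have h5 := (hT x hx1).mul two_ne_zero hq0 (hT x' hx1')
        refine TorsionPair.of_mul_sq (hη0 z) (hη0 z) ?_
        rw [← hz']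
        convert h5 using 1 <;> ring
      rcases Finset.mem_insert.1 hx1 with rfl | hxP
      · rcases Finset.mem_insert.1 hx1' with h6 | hxP'
        · exact hne h6.symm
        · exact hcon _ hxP' ht
      · rcases Finset.mem_insert.1 hx1' with rfl | hxP'
        · refine hcon _ hxP ?_
          convert ht using 1 <;> ring
        · exact hPne x hxP x' hxP' hne ht
  rw [Finset.card_insert_of_notMem hab] at hle
  omega

end Pool.Agent.MP009fd8
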