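import Mathlib

/-!
MP_009fd8_ag, QuarticTwists: the local computation at a place above 2, in the ring of integers O
of the completion, unramified over the Gaussian numbers, p = 1 + i a uniformiser.
-/

namespace Pool.Agent.MP009fd8Q4

variable {O : Type*} [CommRing O] [IsDomain O]

/-- A square divisible by p. -/
theorem dvd_of_dvd_sq {p : O} (hloc : ∀ x : O, IsUnit x ∨ p ∣ x) (hp : ¬ IsUnit p) {z : O}
    (h : p ∣ z ^ 2) : p ∣ z := by
  rcases hloc z with hz | hz
  · exact absurd (isUnit_of_dvd_unit h (hz.pow 2)) hp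
  · exact hz

/-- The key computation. If (1 + p x)(w^4 (1 + p x)^2 - (1 + p^2 b^2 + p^3 t)) is a square, then
x = 0 or x^3 + (1 + b^2) x + t = 0 modulo p. -/
theorem key_ring (i p : O) (hi : i ^ 2 = -1) (hip : p = 1 + i) (hp0 : p ≠ 0)
    (hp : ¬ IsUnit p) (hloc : ∀ x : O, IsUnit x ∨ p ∣ x) (x w b t Z : O)
    (h : (1 + p * x) * (w ^ 4 * (1 + p * x) ^ 2 - (1 + p ^ 2 * b ^ 2 + p ^ 3 * t)) = Z ^ 2) :
    p ∣ x ∨ p ∣ x ^ 3 + (1 + b ^ 2) * x + t := by
  have h2 : (2 : O) = -i * p ^ 2 := by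
    rw [hip]; linear_combination (2 + i) * hi
  rcases hloc (w - 1) with hw1 | ⟨o, ho⟩
  · left
    -- h0 = w^2 - 1 is a unit
    obtain ⟨y, hy⟩ := hw1
    have hw2 : IsUnit (w + 1) := by
      rcases hloc (w + 1) with hh | hh
      · exact hh
      · exfalso
        apply hp
        have h3 : p ∣ w - 1 := by
          have e : w - 1 = (w + 1) - p * (-i * p) := by linear_combination -h2
          rw [e]
          exact dvd_sub hh (dvd_mul_right _ _)
        rw [← hy] at h3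
        exact isUnit_of_dvd_unit h3 y.isUnit
    obtain ⟨y2, hy2⟩ := hw2
    set k : O := (↑(y⁻¹) : O) * (↑(y2⁻¹) : O) with hk
    have hkk : (w ^ 2 - 1) * k = 1 := by
      have e1 : (w - 1) * (↑(y⁻¹) : O) = 1 := by rw [← hy]; simp
      have e2 : (w + 1) * (↑(y2⁻¹) : O) = 1 := by rw [← hy2]; simp
      rw [hk]
      linear_combination (w + 1) * (↑(y2⁻¹) : O) * e1 + e2
    set z : O := Z * k with hz
    -- z^2 = 1 + p x + p^2 R
    obtain ⟨R, hR⟩ : ∃ R : O, z ^ 2 = 1 + p * x + p ^ 2 * R := by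
      refine ⟨(1 + p * x) * (-i * (w ^ 2 - 1) + w ^ 4 * (-i * p * x + x ^ 2) - b ^ 2 - p * t) *
        k ^ 2, ?_⟩
      have e3 : Z ^ 2 = (1 + p * x) * (w ^ 2 - 1) ^ 2 +
          p ^ 2 * ((1 + p * x) *
            (-i * (w ^ 2 - 1) + w ^ 4 * (-i * p * x + x ^ 2) - b ^ 2 - p * t)) := by
        rw [← h]
        linear_combination ((1 + p * x) * (w ^ 2 - 1) + w ^ 4 * (1 + p * x) * p * x) * h2
      rw [hz, mul_pow, e3]
      linear_combination (1 + p * x) * ((w ^ 2 - 1) * k + 1) * hkk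
    have hdz : p ∣ (z - 1) ^ 2 :=
      ⟨x + p * R + i * p * (z - 1), by linear_combination hR - (z - 1) * h2⟩
    obtain ⟨m, hm⟩ := dvd_of_dvd_sq hloc hp hdz
    refine ⟨m ^ 2 - R - i * p * m, ?_⟩
    apply mul_left_cancel₀ hp0
    have e4 : z = 1 + p * m := by linear_combination hm
    rw [e4] at hR
    linear_combination -hR + p * m * h2
  · right
    have hw' : w = 1 + p * o := by linear_combination ho
    -- w^4 = 1 + p^4 A
    obtain ⟨A, hA⟩ : ∃ A : O, w ^ 4 = 1 + p ^ 4 * A := by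
      refine ⟨o * (o - i * p) * (o ^ 2 - i * p * o - i), ?_⟩
      have e1 : w + 1 = p * (o - i * p) := by linear_combination hw' + h2
      have e2 : w ^ 2 + 1 = p ^ 2 * (o ^ 2 - i * p * o - i) := by
        linear_combination (w + 1) * hw' + p * o * e1 + h2
      linear_combination (w + 1) * (w ^ 2 + 1) * ho + (p * o) * (w ^ 2 + 1) * e1 +
        p * o * (p * (o - i * p)) * e2
    set R : O := x * (-i * x - t) + A * (1 + p * x) ^ 3 with hR
    have e3 : Z ^ 2 = p ^ 2 * (x ^ 2 - b ^ 2 + p * (x ^ 3 - b ^ 2 * x - i * x - t) +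
        p ^ 2 * R) := by
      rw [← h, hA, hR]
      linear_combination (1 + p * x) * p * x * h2
    have hZ : p ∣ Z := dvd_of_dvd_sq hloc hp
      ⟨p * (x ^ 2 - b ^ 2 + p * (x ^ 3 - b ^ 2 * x - i * x - t) + p ^ 2 * R), by rw [e3]; ring⟩
    obtain ⟨z, hz⟩ := hZ
    have e4 : z ^ 2 = x ^ 2 - b ^ 2 + p * (x ^ 3 - b ^ 2 * x - i * x - t) + p ^ 2 * R := by
      apply mul_left_cancel₀ (pow_ne_zero 2 hp0)
      rw [← e3, hz]; ring
    -- y = x - b
    have hdz : p ∣ (z - (x - b)) ^ 2 :=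
      ⟨(x ^ 3 - b ^ 2 * x - i * x - t) + p * R - i * p * b * (x - b) +
          i * p * (x - b) * (z - (x - b)), by
        linear_combination e4 + (b * (x - b) - (x - b) * (z - (x - b))) * h2⟩
    obtain ⟨m, hm⟩ := dvd_of_dvd_sq hloc hp hdz
    have e5 : z = x - b + p * m := by linear_combination hm
    have hd : x ^ 3 - b ^ 2 * x - i * x - t =
        p * (m ^ 2 - R - i * p * (x - b) * m + i * b * (x - b)) := by
      apply mul_left_cancel₀ hp0
      rw [e5] at e4
      linear_combination -e4 + (p * m * (x - b) - b * (x - b)) * h2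
    refine ⟨(m ^ 2 - R - i * p * (x - b) * m + i * b * (x - b)) + x - i * p * t -
      i * p * b ^ 2 * x, ?_⟩
    have e6 : (1 + i) * x = p * x := by rw [hip]
    linear_combination hd + e6 + (t + b ^ 2 * x) * h2

/-- Units congruent modulo p^2 differ by a square modulo p^3. -/
theorem transfer (i p : O) (hi : i ^ 2 = -1) (hip : p = 1 + i)
    (hp : ¬ IsUnit p) (hloc : ∀ x : O, IsUnit x ∨ p ∣ x)
    (hperf : ∀ x : O, ∃ y : O, p ∣ x - y ^ 2) (x y : O) (hxy : p ∣ x - y) :
    ∃ g : O, IsUnit g ∧ p ^ 3 ∣ (1 + p * x) - g ^ 2 * (1 + p * y) := by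
  have h2 : (2 : O) = -i * p ^ 2 := by
    rw [hip]; linear_combination (2 + i) * hi
  obtain ⟨z, hz⟩ := hxy
  obtain ⟨e, k, hk⟩ := hperf z
  refine ⟨1 + p * e, ?_, ?_⟩
  · rcases hloc (1 + p * e) with h | h
    · exact h
    · exfalso
      apply hp
      have : p ∣ 1 := by
        have h3 := dvd_sub h (dvd_mul_right p e)
        have e1 : 1 + p * e - p * e = 1 := by ring
        rwa [e1] at h3
      exact isUnit_of_dvd_one this
  · -- (1 + p e)^2 = 1 - i p^3 e + p^2 e^2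
    refine ⟨k + i * e * (1 + p * y) - y * e ^ 2, ?_⟩
    linear_combination p * hz + p ^ 2 * hk - p * e * (1 + p * y) * h2

end Pool.Agent.MP009fd8Q4
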