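import Pool.Agent.Lib.MP_009fd8_ag.Q4Def
import Pool.Agent.Lib.MP_009fd8_ag.Q4Ring

/-!
MP_009fd8_ag, QuarticTwists: the places above 2.
-/

namespace Pool.Agent.MP009fd8Q4

variable {F : Type*} [Field F] {Γ : Type*} [LinearOrderedCommGroupWithZero Γ]

/-- At a place above 2 where 1 + i is a uniformiser, D = c^4 (1 + (1+i)^2 b^2 + (1+i)^3 t) modulo
(1+i)^4: a unit u whose covering has a point is g^2 (1 + (1+i) x) modulo (1+i)^3 with
x^4 + (1 + b^2) x^2 + t x = 0 in the residue field, and x may be changed to any y congruent to it. -/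
theorem at_two (v : Valuation F Γ) (i D u c b t : F) (hi : i ^ 2 = -1) (hp1 : v (1 + i) < 1)
    (hp0 : 1 + i ≠ 0) (hmax : ∀ x : F, v x < 1 → v x ≤ v (1 + i))
    (hperf : ∀ x : F, v x ≤ 1 → ∃ y : F, v y ≤ 1 ∧ v (x - y ^ 2) < 1)
    (hu : v u = 1) (hc : v c = 1) (hb : v b ≤ 1) (ht : v t ≤ 1)
    (hD : v (D - c ^ 4 * (1 + (1 + i) ^ 2 * b ^ 2 + (1 + i) ^ 3 * t)) ≤ v (1 + i) ^ 4)
    (h : HasPoint D u) :
    ∃ x : F, v x ≤ 1 ∧ v (x ^ 4 + (1 + b ^ 2) * x ^ 2 + t * x) < 1 ∧
      ∀ y : F, v (x - y) < 1 → ∃ g : F, v g = 1 ∧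
        v (u - g ^ 2 * (1 + (1 + i) * y)) ≤ v (1 + i) ^ 3 := by
  set p : F := 1 + i with hp
  have hu0 : u ≠ 0 := by
    rintro rfl
    simp at hu
  have hc0 : c ≠ 0 := by
    rintro rfl
    simp at hc
  have hvi : v i = 1 := by
    have h1 : v i ^ 2 = 1 := by rw [← map_pow, hi, Valuation.map_neg, map_one]
    exact (pow_eq_one_iff_of_nonneg zero_le two_ne_zero).1 h1
  have vp0 : v p ≠ 0 := (Valuation.ne_zero_iff v).2 hp0
  have hp34 : v p ^ 4 ≤ v p ^ 3 := pow_le_pow_right_of_le_one' hp1.le (by norm_num)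
  have hp31 : v p ^ 3 < 1 := pow_lt_one₀ zero_le hp1 (by norm_num)
  have hp41 : v p ^ 4 < 1 := hp34.trans_lt hp31
  -- the ring of integers
  have hO : v.Integers v.integer := Valuation.integer.integers v
  have hloc : ∀ x : v.integer, IsUnit x ∨ (⟨p, hp1.le⟩ : v.integer) ∣ x := by
    intro x
    rcases lt_or_eq_of_le (show v (x : F) ≤ 1 from x.2) with h1 | h1
    · right
      exact hO.dvd_of_le (hmax _ h1)
    · left
      exact hO.isUnit_of_one' h1
  have hpu : ¬ IsUnit (⟨p, hp1.le⟩ : v.integer) := by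
    intro h1
    have := hO.one_of_isUnit h1
    exact absurd this hp1.ne
  have hperf' : ∀ x : v.integer, ∃ y : v.integer, (⟨p, hp1.le⟩ : v.integer) ∣ x - y ^ 2 := by
    intro x
    obtain ⟨y, hy, hxy⟩ := hperf x x.2
    exact ⟨⟨y, hy⟩, hO.dvd_of_le (hmax _ hxy)⟩
  have hi' : (⟨i, hvi.le⟩ : v.integer) ^ 2 = -1 := by
    apply Subtype.ext
    simpa using hi
  have hip' : (⟨p, hp1.le⟩ : v.integer) = 1 + ⟨i, hvi.le⟩ := by
    apply Subtype.ext
    simpa using hp
  have hpz' : (⟨p, hp1.le⟩ : v.integer) ≠ 0 := by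
    intro h1
    exact hp0 (congrArg Subtype.val h1)
  -- the transfer
  have htr : ∀ x y : F, v x ≤ 1 → v (x - y) < 1 → ∃ g : F, v g = 1 ∧
      v ((1 + p * x) - g ^ 2 * (1 + p * y)) ≤ v p ^ 3 := by
    intro x y hx hxy
    have hy : v y ≤ 1 := by
      have e : y = x - (x - y) := by ring
      rw [e]
      exact (Valuation.map_sub v _ _).trans (max_le hx hxy.le)
    obtain ⟨g, hg, hd⟩ := transfer _ _ hi' hip' hpu hloc hperf' ⟨x, hx⟩ ⟨y, hy⟩
      (hO.dvd_of_le (hmax _ hxy))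
    refine ⟨g, hO.one_of_isUnit hg, ?_⟩
    have := hO.le_of_dvd hd
    rw [map_pow, map_pow] at this
    exact this
  -- a square modulo p^3
  have hsq : ∀ G : F, v G = 1 → v (u - G ^ 2) ≤ v p ^ 3 → ∃ x : F, v x ≤ 1 ∧
      v (x ^ 4 + (1 + b ^ 2) * x ^ 2 + t * x) < 1 ∧
      ∀ y : F, v (x - y) < 1 → ∃ g : F, v g = 1 ∧
        v (u - g ^ 2 * (1 + p * y)) ≤ v p ^ 3 := by
    intro G hG hGu
    refine ⟨0, by simp, by simp, ?_⟩
    intro y hy
    obtain ⟨g, hg, hd⟩ := htr 0 y (by simp) hy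
    refine ⟨G * g, by rw [map_mul, hG, hg, one_mul], ?_⟩
    have e : u - (G * g) ^ 2 * (1 + p * y) =
        (u - G ^ 2) + G ^ 2 * ((1 + p * 0) - g ^ 2 * (1 + p * y)) := by ring
    rw [e]
    refine Valuation.map_add_le _ hGu ?_
    rw [map_mul, map_pow, hG, one_pow, one_mul]
    exact hd
  -- the valuation of D
  have hp2 : v p ^ 2 < 1 := pow_lt_one₀ zero_le hp1 (by norm_num)
  have vb2 : v (b ^ 2) ≤ 1 := by rw [map_pow]; exact pow_le_one' hb 2
  have hvpt : ∀ t : F, v t ≤ 1 → v (p ^ 2 * b ^ 2 + p ^ 3 * t) < 1 := by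
    intro t ht
    refine Valuation.map_add_lt _ ?_ ?_
    · rw [map_mul, map_pow]
      calc v p ^ 2 * v (b ^ 2) ≤ v p ^ 2 * 1 := by gcongr
        _ < 1 := by rw [mul_one]; exact hp2
    · rw [map_mul, map_pow]
      calc v p ^ 3 * v t ≤ v p ^ 3 * 1 := by gcongr
        _ < 1 := by rw [mul_one]; exact hp31
  have hvD1 : v (c ^ 4 * (1 + p ^ 2 * b ^ 2 + p ^ 3 * t)) = 1 := by
    rw [map_mul, map_pow, hc, one_pow, one_mul, add_assoc]
    have h1 : v (p ^ 2 * b ^ 2 + p ^ 3 * t) < v 1 := by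
      rw [map_one]
      exact hvpt t ht
    rw [Valuation.map_add_eq_of_lt_left v h1, map_one]
  have hvD : v D = 1 := by
    have e : D = c ^ 4 * (1 + p ^ 2 * b ^ 2 + p ^ 3 * t) +
        (D - c ^ 4 * (1 + p ^ 2 * b ^ 2 + p ^ 3 * t)) := by ring
    rw [e, Valuation.map_add_eq_of_lt_left v _, hvD1]
    rw [hvD1]
    exact hD.trans_lt hp41
  have h2p : (2 : F) = -i * p ^ 2 := by
    rw [hp]; linear_combination (2 + i) * hi
  have hDc : v (D - (c ^ 2 * (1 + p * b)) ^ 2) ≤ v p ^ 3 := by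
    have e : D - (c ^ 2 * (1 + p * b)) ^ 2 =
        (D - c ^ 4 * (1 + p ^ 2 * b ^ 2 + p ^ 3 * t)) + c ^ 4 * (p ^ 3 * (t + i * b)) := by
      linear_combination (-c ^ 4 * p * b) * h2p
    rw [e]
    refine Valuation.map_add_le _ (hD.trans hp34) ?_
    rw [map_mul, map_mul, map_pow, map_pow, hc, one_pow, one_mul]
    calc v p ^ 3 * v (t + i * b) ≤ v p ^ 3 * 1 := by
          gcongr
          refine Valuation.map_add_le _ ht ?_
          rw [map_mul, hvi, one_mul]
          exact hb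
      _ = v p ^ 3 := mul_one _
  have vpb : v (1 + p * b) = 1 := by
    have h1 : v (p * b) < v 1 := by
      rw [map_one, map_mul]
      calc v p * v b ≤ v p * 1 := by gcongr
        _ < 1 := by rw [mul_one]; exact hp1
    rw [Valuation.map_add_eq_of_lt_left v h1, map_one]
  have hfour : ∀ x : F, v x < 1 → v (x ^ 4) ≤ v p ^ 3 := by
    intro x hx
    rw [map_pow]
    exact (pow_le_pow_left₀ zero_le (hmax x hx) 4).trans hp34
  obtain ⟨N, M, e, hne, h1⟩ := h
  rcases lt_trichotomy (v e) (v M) with hlt | heq | hgt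
  · -- v e < v M
    have hM : M ≠ 0 := by
      rintro rfl
      simp at hlt
    have vM : v M ≠ 0 := (Valuation.ne_zero_iff v).2 hM
    have he : v (e / M) < 1 := by
      rw [map_div₀, div_lt_one₀ (zero_lt_iff.mpr vM)]
      exact hlt
    have h2 : u - (N / M ^ 2) ^ 2 = D / u * (e / M) ^ 4 := by
      field_simp
      have : u * N ^ 2 = u ^ 2 * M ^ 4 - D * e ^ 4 := by
        rw [h1]; field_simp
      linear_combination -this
    have h3 : v (u - (N / M ^ 2) ^ 2) ≤ v p ^ 3 := by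
      rw [h2, map_mul, map_div₀, hvD, hu, div_one, one_mul]
      exact hfour _ he
    refine hsq (N / M ^ 2) ?_ h3
    have h4 : v (N / M ^ 2) ^ 2 = 1 := by
      rw [← map_pow]
      have e4 : (N / M ^ 2) ^ 2 = u - (u - (N / M ^ 2) ^ 2) := by ring
      rw [e4, Valuation.map_sub_eq_of_lt_left v _, hu]
      rw [hu]
      exact h3.trans_lt hp31
    exact (pow_eq_one_iff_of_nonneg zero_le two_ne_zero).1 h4
  · -- equal valuations
    have he : e ≠ 0 := by
      rintro rfl
      rw [map_zero] at heq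
      have hM : M = 0 := (Valuation.zero_iff v).1 heq.symm
      rcases hne with h5 | h5
      · exact h5 hM
      · exact h5 rfl
    have ve : v e ≠ 0 := (Valuation.ne_zero_iff v).2 he
    have hM : M ≠ 0 := by
      rintro rfl
      rw [map_zero] at heq
      exact ve heq
    set μ : F := M / e with hμ
    set ν : F := N / e ^ 2 with hν
    have hμ0 : μ ≠ 0 := div_ne_zero hM he
    have vμ : v μ = 1 := by
      rw [hμ, map_div₀, ← heq]
      exact div_self ve
    have h2 : u * ν ^ 2 = u ^ 2 * μ ^ 4 - D := by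
      rw [hμ, hν]
      field_simp
      have : u * N ^ 2 = u ^ 2 * M ^ 4 - D * e ^ 4 := by
        rw [h1]; field_simp
      linear_combination this
    have vx0 : v (u * μ ^ 2) = 1 := by rw [map_mul, map_pow, hu, vμ, one_pow, mul_one]
    obtain ⟨s, hs1, hs⟩ := hperf (u * μ ^ 2) vx0.le
    have vs : v s = 1 := by
      have h4 : v s ^ 2 = 1 := by
        rw [← map_pow]
        have e4 : s ^ 2 = u * μ ^ 2 - (u * μ ^ 2 - s ^ 2) := by ring
        rw [e4, Valuation.map_sub_eq_of_lt_left v _, vx0]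
        rw [vx0]
        exact hs
      exact (pow_eq_one_iff_of_nonneg zero_le two_ne_zero).1 h4
    have hs0 : s ≠ 0 := by
      rintro rfl
      simp at vs
    set x : F := (u * μ ^ 2 / s ^ 2 - 1) / p with hx
    have hpx : 1 + p * x = u * μ ^ 2 / s ^ 2 := by
      rw [hx]; field_simp; ring
    have vx : v x ≤ 1 := by
      rw [hx, map_div₀, div_le_one₀ (zero_lt_iff.mpr vp0)]
      apply hmax
      have e4 : u * μ ^ 2 / s ^ 2 - 1 = (u * μ ^ 2 - s ^ 2) / s ^ 2 := by field_simp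
      rw [e4, map_div₀, map_pow, vs, one_pow, div_one]
      exact hs
    set w : F := s / c with hw
    have vw : v w = 1 := by rw [hw, map_div₀, vs, hc, div_one]
    set t' : F := (D / c ^ 4 - 1 - p ^ 2 * b ^ 2) / p ^ 3 with ht'
    have hpt : 1 + p ^ 2 * b ^ 2 + p ^ 3 * t' = D / c ^ 4 := by
      rw [ht']; field_simp; ring
    have vt' : v (t' - t) ≤ v p := by
      have e4 : t' - t = (D - c ^ 4 * (1 + p ^ 2 * b ^ 2 + p ^ 3 * t)) / (c ^ 4 * p ^ 3) := by
        rw [ht']; field_simp; ring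
      rw [e4, map_div₀, map_mul, map_pow, map_pow, hc, one_pow, one_mul,
        div_le_iff₀ (zero_lt_iff.mpr (pow_ne_zero 3 vp0)), ← pow_succ']
      exact hD
    have vt'1 : v t' ≤ 1 := by
      have e4 : t' = (t' - t) + t := by ring
      rw [e4]
      exact Valuation.map_add_le _ (vt'.trans hp1.le) ht
    set Z : F := u * μ * ν / (s * c ^ 2) with hZ
    have hkey : (1 + p * x) * (w ^ 4 * (1 + p * x) ^ 2 - (1 + p ^ 2 * b ^ 2 + p ^ 3 * t')) =
        Z ^ 2 := by
      rw [hpx, hpt, hw, hZ]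
      clear_value μ ν
      calc u * μ ^ 2 / s ^ 2 * ((s / c) ^ 4 * (u * μ ^ 2 / s ^ 2) ^ 2 - D / c ^ 4)
          = (u * μ ^ 2) * (u ^ 2 * μ ^ 4 - D) / (s ^ 2 * c ^ 4) := by field_simp
        _ = (u * μ ^ 2) * (u * ν ^ 2) / (s ^ 2 * c ^ 4) := by rw [h2]
        _ = (u * μ * ν / (s * c ^ 2)) ^ 2 := by field_simp
    have vpx : v (1 + p * x) ≤ 1 := by
      refine Valuation.map_add_le _ (by rw [map_one]) ?_
      rw [map_mul]
      exact mul_le_one' hp1.le vx
    have vpt : v (1 + p ^ 2 * b ^ 2 + p ^ 3 * t') ≤ 1 := by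
      rw [add_assoc]
      exact Valuation.map_add_le _ (by rw [map_one]) (hvpt t' vt'1).le
    have vZ : v Z ≤ 1 := by
      have h4 : v Z ^ 2 ≤ 1 := by
        rw [← map_pow, ← hkey, map_mul]
        refine mul_le_one' vpx ?_
        refine (Valuation.map_sub v _ _).trans (max_le ?_ vpt)
        rw [map_mul, map_pow, map_pow, vw, one_pow, one_mul]
        exact pow_le_one' vpx 2
      by_contra h5
      exact absurd h4 (not_le.mpr (one_lt_pow₀ (not_le.mp h5) two_ne_zero))
    have hres := key_ring _ _ hi' hip' hpz' hpu hloc ⟨x, vx⟩ ⟨w, vw.le⟩ ⟨b, hb⟩ ⟨t', vt'1⟩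
      ⟨Z, vZ⟩ (by
        apply Subtype.ext
        simpa using hkey)
    have hroot : v (x ^ 4 + (1 + b ^ 2) * x ^ 2 + t * x) < 1 := by
      have e4 : x ^ 4 + (1 + b ^ 2) * x ^ 2 + t * x = x * (x ^ 3 + (1 + b ^ 2) * x + t) := by ring
      rw [e4, map_mul]
      rcases hres with hres | hres
      · have h5 : v x < 1 := (hO.le_of_dvd hres).trans_lt hp1
        calc v x * v (x ^ 3 + (1 + b ^ 2) * x + t) ≤ v x * 1 := by
              gcongr
              refine Valuation.map_add_le _ (Valuation.map_add_le _ ?_ ?_) ht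
              · rw [map_pow]
                exact pow_le_one' vx 3
              · rw [map_mul]
                refine mul_le_one' (Valuation.map_add_le _ (by rw [map_one]) vb2) vx
          _ < 1 := by rw [mul_one]; exact h5
      · have h5 : v (x ^ 3 + (1 + b ^ 2) * x + t') < 1 := (hO.le_of_dvd hres).trans_lt hp1
        have h6 : v (x ^ 3 + (1 + b ^ 2) * x + t) < 1 := by
          have e5 : x ^ 3 + (1 + b ^ 2) * x + t =
              (x ^ 3 + (1 + b ^ 2) * x + t') - (t' - t) := by ring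
          rw [e5]
          exact Valuation.map_sub_lt _ h5 (vt'.trans_lt hp1)
        calc v x * v (x ^ 3 + (1 + b ^ 2) * x + t) ≤ 1 * v (x ^ 3 + (1 + b ^ 2) * x + t) := by
              gcongr
          _ < 1 := by rw [one_mul]; exact h6
    refine ⟨x, vx, hroot, ?_⟩
    intro y hy
    obtain ⟨g, hg, hd⟩ := htr x y vx hy
    refine ⟨s / μ * g, by rw [map_mul, map_div₀, vs, vμ, hg, div_one, one_mul], ?_⟩
    have e4 : u - (s / μ * g) ^ 2 * (1 + p * y) =
        (s / μ) ^ 2 * ((1 + p * x) - g ^ 2 * (1 + p * y)) := by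
      rw [hpx]; field_simp
    rw [e4, map_mul, map_pow, map_div₀, vs, vμ, div_one, one_pow, one_mul]
    exact hd
  · -- v M < v e
    have he : e ≠ 0 := by
      rintro rfl
      simp at hgt
    have ve : v e ≠ 0 := (Valuation.ne_zero_iff v).2 he
    set μ : F := M / e with hμ
    set ν : F := N / e ^ 2 with hν
    have vμ : v μ < 1 := by
      rw [hμ, map_div₀, div_lt_one₀ (zero_lt_iff.mpr ve)]
      exact hgt
    have h2 : u * ν ^ 2 = u ^ 2 * μ ^ 4 - D := by
      rw [hμ, hν]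
      field_simp
      have : u * N ^ 2 = u ^ 2 * M ^ 4 - D * e ^ 4 := by
        rw [h1]; field_simp
      linear_combination this
    have h3 : v (u ^ 2 * μ ^ 4) ≤ v p ^ 3 := by
      rw [map_mul, map_pow, hu, one_pow, one_mul]
      exact hfour _ vμ
    have vν : v ν = 1 := by
      have h4 : v ν ^ 2 = 1 := by
        have h5 : v (u * ν ^ 2) = 1 := by
          rw [h2, Valuation.map_sub_eq_of_lt_right v _, hvD]
          rw [hvD]
          exact h3.trans_lt hp31
        rw [map_mul, hu, one_mul, map_pow] at h5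
        exact h5
      exact (pow_eq_one_iff_of_nonneg zero_le two_ne_zero).1 h4
    have hν0 : ν ≠ 0 := by
      intro h0
      rw [h0] at vν
      simp at vν
    clear_value μ ν
    refine hsq (i * (c ^ 2 * (1 + p * b)) / ν) ?_ ?_
    · rw [map_div₀, map_mul, map_mul, map_pow, hvi, hc, vν, vpb, one_pow, one_mul, div_one,
        mul_one]
    · have e4 : u - (i * (c ^ 2 * (1 + p * b)) / ν) ^ 2 =
          (u ^ 2 * μ ^ 4 - (D - (c ^ 2 * (1 + p * b)) ^ 2)) / ν ^ 2 := by
        rw [div_pow, mul_pow, hi]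
        field_simp
        linear_combination h2
      rw [e4, map_div₀, map_pow, vν, one_pow, div_one]
      exact (Valuation.map_sub v _ _).trans (max_le h3 hDc)

end Pool.Agent.MP009fd8Q4
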