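import Mathlib

/-!
MP_009fd8_ag, QuarticTwists: definitions for the descent by the endomorphism 1 + i on
E_q : y^2 = x^3 - q x over number fields containing i.
-/

namespace Pool.Agent.MP009fd8Q4

open IsDedekindDomain NumberField

/-- The (1+i)-covering C_a : N^2 = a M^4 - (q/a) e^4 of the curve E_q : y^2 = x^3 - q x (the
covering map is x = a M^2 / e^2) has a point over the field F. -/
def HasPoint {F : Type*} [Field F] (q a : F) : Prop :=
  ∃ N M e : F, (M ≠ 0 ∨ e ≠ 0) ∧ N ^ 2 = a * M ^ 4 - q / a * e ^ 4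

/-- The covering C_a has a point over the completion of the number field K at every finite
place. -/
def LocallySoluble (K : Type*) [Field K] [NumberField K] (q a : K) : Prop :=
  ∀ v : HeightOneSpectrum (𝓞 K), HasPoint (algebraMap K (v.adicCompletion K) q)
    (algebraMap K (v.adicCompletion K) a)

/-- a is b or q b, up to the square of a nonzero element. -/
def SameClass {F : Type*} [Field F] (q a b : F) : Prop :=
  ∃ s : F, s ≠ 0 ∧ (a = b * s ^ 2 ∨ a = q * b * s ^ 2)

/-- The number of classes y modulo 1 + i in the ring of integers of K with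
y^4 + (1 + b^2) y^2 + t y = 0. -/
noncomputable def rootCount {K : Type*} [Field K] [NumberField K] (i b t : 𝓞 K) : ℕ :=
  Nat.card {y : 𝓞 K ⧸ Ideal.span {1 + i} //
    y ^ 4 + Ideal.Quotient.mk (Ideal.span {1 + i}) (1 + b ^ 2) * y ^ 2 +
      Ideal.Quotient.mk (Ideal.span {1 + i}) t * y = 0}

/-- Every unit u of the ring of integers that is a square modulo v^3 for all primes v above 2
and a square modulo q is an element of the finite set R times the square of a unit. -/
def CoversUnits {K : Type*} [Field K] [NumberField K] (q : 𝓞 K) (R : Finset (𝓞 K)ˣ) : Prop :=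
  ∀ u : (𝓞 K)ˣ, (∀ v : HeightOneSpectrum (𝓞 K), (2 : 𝓞 K) ∈ v.asIdeal →
    ∃ m : 𝓞 K, (u : 𝓞 K) - m ^ 2 ∈ v.asIdeal ^ 3) → (∃ m : 𝓞 K, q ∣ (u : 𝓞 K) - m ^ 2) →
    ∃ r ∈ R, IsSquare (u * r)

end Pool.Agent.MP009fd8Q4
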