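import Pool.Agent.Lib.MP_009fd8_ag.Q4Def
import Pool.Agent.Lib.MP_009fd8_ag.Q4Ring

/-!
MP_009fd8_ag, QuarticTwists: the local computations.
-/

namespace Pool.Agent.MP009fd8Q4

variable {F : Type*} [Field F] {Γ : Type*} [LinearOrderedCommGroupWithZero Γ]

private theorem aux {x s r : Γ} (h : x * s = r) (hs : s ≠ 0) (h1 : IsSquare s)
    (h2 : IsSquare r) : IsSquare x := by
  have e : x = r / s := eq_div_of_mul_eq hs h
  rw [e]
  exact h2.div h1

private theorem sq4 (x : Γ) : IsSquare (x ^ 4) := ⟨x ^ 2, by rw [← pow_add]⟩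

/-- Where q is a unit (2 may be anything), a covering with a point has even valuation. -/
theorem isSquare_away (v : Valuation F Γ) (q a : F) (ha : a ≠ 0) (hq : v q = 1)
    (h : HasPoint q a) : IsSquare (v a) := by
  obtain ⟨N, M, e, hne, h1⟩ := h
  have va : v a ≠ 0 := (Valuation.ne_zero_iff v).2 ha
  have e1 : v (a * M ^ 4) = v a * v M ^ 4 := by rw [map_mul, map_pow]
  have e2 : v (q / a * e ^ 4) = (v a)⁻¹ * v e ^ 4 := by
    rw [map_mul, map_div₀, hq, one_div, map_pow]
  rcases lt_trichotomy (v (a * M ^ 4)) (v (q / a * e ^ 4)) with hlt | heq | hgt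
  · have h2 : v N ^ 2 = (v a)⁻¹ * v e ^ 4 := by
      rw [← e2, ← map_pow, h1]
      exact Valuation.map_sub_eq_of_lt_right v hlt
    have h0 : (v a)⁻¹ * v e ^ 4 ≠ 0 := by
      rw [← e2]
      exact ne_of_gt (lt_of_le_of_lt zero_le hlt)
    have hN : v N ≠ 0 := by
      intro hN
      rw [hN, zero_pow two_ne_zero] at h2
      exact h0 h2.symm
    refine aux (s := v N ^ 2) (r := v e ^ 4) ?_ (pow_ne_zero 2 hN) (IsSquare.sq _) (sq4 _)
    rw [h2, mul_inv_cancel_left₀ va]
  · have hM : M ≠ 0 := by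
      rintro rfl
      have he : v (q / a * e ^ 4) = 0 := by rw [← heq]; simp
      rw [e2] at he
      rcases mul_eq_zero.1 he with h3 | h3
      · exact inv_ne_zero va h3
      · have h4 : e = 0 := (Valuation.zero_iff v).1 (pow_eq_zero_iff (four_ne_zero) |>.1 h3)
        rcases hne with h5 | h5
        · exact h5 rfl
        · exact h5 h4
    have vM : v M ≠ 0 := (Valuation.ne_zero_iff v).2 hM
    rw [e1, e2] at heq
    have h3 : (v a) ^ 2 = ((v e / v M) ^ 2) ^ 2 := by
      rw [← pow_mul, div_pow, eq_div_iff (pow_ne_zero _ vM)]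
      have : v a ^ 2 * v M ^ (2 * 2) = v a * (v a * v M ^ 4) := by
        rw [pow_two, mul_assoc]
      rw [this, heq, mul_inv_cancel_left₀ va]
    have h4 : v a = (v e / v M) ^ 2 := (pow_left_inj₀ zero_le zero_le two_ne_zero).1 h3
    rw [h4]
    exact IsSquare.sq _
  · have h2 : v N ^ 2 = v a * v M ^ 4 := by
      rw [← e1, ← map_pow, h1]
      exact Valuation.map_sub_eq_of_lt_left v hgt
    have h0 : v a * v M ^ 4 ≠ 0 := by
      rw [← e1]
      exact ne_of_gt (lt_of_le_of_lt zero_le hgt)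
    have hM : v M ≠ 0 := by
      intro hM
      rw [hM] at h0
      simp at h0
    exact aux h2.symm (pow_ne_zero 4 hM) (sq4 _) (IsSquare.sq _)

/-- At q: a unit whose covering has a point is a square. -/
theorem square_at_q (v : Valuation F Γ) (q u : F) (hu : v u = 1) (hq : ¬ IsSquare (v q))
    (h : HasPoint q u) : ∃ g : F, v g ≤ 1 ∧ v (u - g ^ 2) < 1 := by
  obtain ⟨N, M, e, hne, h1⟩ := h
  have hu0 : u ≠ 0 := by
    rintro rfl
    simp at hu
  have hq0 : v q ≠ 0 := by
    intro h0
    rw [h0] at hq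
    exact hq ⟨0, by simp⟩
  have e1 : v (u * M ^ 4) = v M ^ 4 := by rw [map_mul, map_pow, hu, one_mul]
  have e2 : v (q / u * e ^ 4) = v q * v e ^ 4 := by
    rw [map_mul, map_div₀, hu, div_one, map_pow]
  rcases lt_trichotomy (v (u * M ^ 4)) (v (q / u * e ^ 4)) with hlt | heq | hgt
  · exfalso
    have h2 : v N ^ 2 = v q * v e ^ 4 := by
      rw [← e2, ← map_pow, h1]
      exact Valuation.map_sub_eq_of_lt_right v hlt
    have he : v e ≠ 0 := by
      intro he
      rw [e2, he] at hlt
      simp at hlt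
    exact hq (aux h2.symm (pow_ne_zero 4 he) (sq4 _) (IsSquare.sq _))
  · exfalso
    rw [e1, e2] at heq
    have he : v e ≠ 0 := by
      intro he
      rw [he] at heq
      have hM : v M = 0 := by
        have : v M ^ 4 = 0 := by rw [heq]; simp
        exact pow_eq_zero_iff (four_ne_zero) |>.1 this
      rcases hne with h5 | h5
      · exact h5 ((Valuation.zero_iff v).1 hM)
      · exact h5 ((Valuation.zero_iff v).1 he)
    exact hq (aux heq.symm (pow_ne_zero 4 he) (sq4 _) (sq4 _))
  · have h2 : v N ^ 2 = v M ^ 4 := by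
      rw [← e1, ← map_pow, h1]
      exact Valuation.map_sub_eq_of_lt_left v hgt
    have hM : M ≠ 0 := by
      rintro rfl
      rw [e1] at hgt
      simp at hgt
    have vM : v M ≠ 0 := (Valuation.ne_zero_iff v).2 hM
    refine ⟨N / M ^ 2, ?_, ?_⟩
    · have h3 : v (N / M ^ 2) ^ 2 = 1 := by
        rw [map_div₀, div_pow, h2, map_pow, ← pow_mul]
        exact div_self (pow_ne_zero 4 vM)
      exact le_of_eq ((pow_eq_one_iff_of_nonneg zero_le two_ne_zero).1 h3)
    · have h3 : u - (N / M ^ 2) ^ 2 = (q / u * e ^ 4) / M ^ 4 := by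
        field_simp
        have : u * N ^ 2 = u ^ 2 * M ^ 4 - q * e ^ 4 := by
          rw [h1]; field_simp
        linear_combination -this
      rw [h3, map_div₀, map_pow, div_lt_one₀ (zero_lt_iff.mpr (pow_ne_zero 4 vM)), ← e1]
      exact hgt

end Pool.Agent.MP009fd8Q4
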