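import Pool.Agent.Lib.MP_009fd8_ag.Q4Unit

/-!
MP_009fd8_ag, QuarticTwists: assembly.
-/

namespace Pool.Agent.MP009fd8Q4

open IsDedekindDomain NumberField WithZero
open Pool.Agent.MP009fd8

variable {K : Type*} [Field K] [NumberField K]

/-- A locally soluble class contains a locally soluble unit. -/
theorem exists_unit_form (hclass : Odd (NumberField.classNumber K)) {i : 𝓞 K}
    (hi : i ^ 2 = -1) {q : 𝓞 K} (hq : Prime q) {a : K} (ha : a ≠ 0)
    (h : LocallySoluble K (algebraMap (𝓞 K) K q) a) :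
    ∃ u : (𝓞 K)ˣ, SameClass (algebraMap (𝓞 K) K q) a (algebraMap (𝓞 K) K (u : 𝓞 K)) ∧
      LocallySoluble K (algebraMap (𝓞 K) K q) (algebraMap (𝓞 K) K (u : 𝓞 K)) := by
  have hq0 : algebraMap (𝓞 K) K q ≠ 0 := by
    have := hq.ne_zero
    simpa using this
  have hiK : (algebraMap (𝓞 K) K i) ^ 2 = -1 := by
    rw [← map_pow, hi, map_neg, map_one]
  have haway : ∀ b : K, b ≠ 0 → LocallySoluble K (algebraMap (𝓞 K) K q) b →
      ∀ v : HeightOneSpectrum (𝓞 K), v ≠ placeOf q hq → IsSquare (v.valuation K b) := by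
    intro b hb hsol v hv
    rw [← val_completion]
    refine isSquare_away _ _ _ ((map_ne_zero _).mpr hb) ?_ (hsol v)
    rw [val_completion]
    exact val_eq_one v (notMem_of_ne hq hv)
  have key : ∀ b : K, b ≠ 0 → LocallySoluble K (algebraMap (𝓞 K) K q) b →
      IsSquare ((placeOf q hq).valuation K b) → ∃ (u : (𝓞 K)ˣ) (r : K), r ≠ 0 ∧
        b = algebraMap (𝓞 K) K (u : 𝓞 K) * r ^ 2 := by
    intro b hb hsol hsq
    refine exists_unit_mul_sq hclass b hb (fun v => ?_)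
    by_cases hv : v = placeOf q hq
    · rw [hv]; exact hsq
    · exact haway b hb hsol v hv
  have hfin : ∀ u : (𝓞 K)ˣ,
      SameClass (algebraMap (𝓞 K) K q) a (algebraMap (𝓞 K) K (u : 𝓞 K)) →
      LocallySoluble K (algebraMap (𝓞 K) K q) (algebraMap (𝓞 K) K (u : 𝓞 K)) := by
    intro u hu
    exact LocallySoluble.of_sameClass hiK hq0 ha (hu.symm hq0) h
  rcases isSquare_val_or hq ha with hsq | hsq
  · obtain ⟨u, r, hr, hb⟩ := key a ha h hsq
    have hs : SameClass (algebraMap (𝓞 K) K q) a (algebraMap (𝓞 K) K (u : 𝓞 K)) :=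
      ⟨r, hr, Or.inl hb⟩
    exact ⟨u, hs, hfin u hs⟩
  · have h1 : LocallySoluble K (algebraMap (𝓞 K) K q) (algebraMap (𝓞 K) K q * a) :=
      LocallySoluble.of_sameClass hiK hq0 ha ⟨1, one_ne_zero, Or.inr (by ring)⟩ h
    obtain ⟨u, r, hr, hb⟩ := key _ (mul_ne_zero hq0 ha) h1 hsq
    have hs : SameClass (algebraMap (𝓞 K) K q) a (algebraMap (𝓞 K) K (u : 𝓞 K)) := by
      refine ⟨r / algebraMap (𝓞 K) K q, div_ne_zero hr hq0, Or.inr ?_⟩
      field_simp
      linear_combination hb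
    exact ⟨u, hs, hfin u hs⟩

/-- If 1 + i is in the first power only of the places above 2, an integer in all places above 2
is divisible by 1 + i. -/
theorem dvd_of_forall_mem {i : 𝓞 K} (hi : i ^ 2 = -1)
    (h2 : ∀ v : HeightOneSpectrum (𝓞 K), (2 : 𝓞 K) ∈ v.asIdeal → 1 + i ∉ v.asIdeal ^ 2)
    {z : 𝓞 K} (hz : ∀ v : HeightOneSpectrum (𝓞 K), (2 : 𝓞 K) ∈ v.asIdeal → z ∈ v.asIdeal) :
    1 + i ∣ z := by
  have hp0 : (1 + i : 𝓞 K) ≠ 0 := by
    intro h0
    have h1 : (1 + i) ^ 2 = 2 * i := by linear_combination hi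
    rw [h0, zero_pow two_ne_zero] at h1
    have hi0 : i ≠ 0 := by
      rintro rfl
      simp at hi
    rcases mul_eq_zero.1 h1.symm with h3 | h3
    · exact two_ne_zero h3
    · exact hi0 h3
  have hpK : algebraMap (𝓞 K) K (1 + i) ≠ 0 := by
    rw [Ne, FaithfulSMul.algebraMap_eq_zero_iff]
    exact hp0
  have hint : ∀ v : HeightOneSpectrum (𝓞 K),
      v.valuation K (algebraMap (𝓞 K) K z / algebraMap (𝓞 K) K (1 + i)) ≤ 1 := by
    intro v
    rw [map_div₀]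
    by_cases hv : (2 : 𝓞 K) ∈ v.asIdeal
    · have hval := val_one_add_i hi v hv (h2 v hv)
      rw [hval, div_le_one₀ (zero_lt_iff.mpr WithZero.exp_ne_zero)]
      exact le_of_lt_one ((v.valuation_lt_one_iff_mem z).mpr (hz v hv))
    · have hval : v.valuation K (algebraMap (𝓞 K) K (1 + i)) = 1 := by
        apply val_eq_one
        intro hmem
        apply hv
        have h1 : (2 : 𝓞 K) = (1 + i) * ((1 + i) * (-i)) := by
          linear_combination (2 + i) * hi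
        rw [h1]
        exact Ideal.mul_mem_right _ _ hmem
      rw [hval, div_one]
      exact v.valuation_le_one z
  obtain ⟨y, hy⟩ := HeightOneSpectrum.mem_integers_of_valuation_le_one K _ hint
  refine ⟨y, ?_⟩
  apply FaithfulSMul.algebraMap_injective (𝓞 K) K
  rw [map_mul, hy]
  field_simp

/-- The unit u has the class X at the places above 2. -/
def HasClass (i : 𝓞 K) (u : 𝓞 K) (X : 𝓞 K ⧸ Ideal.span {1 + i}) : Prop :=
  ∀ y : 𝓞 K, Ideal.Quotient.mk (Ideal.span {1 + i}) y = X →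
    ∀ v : HeightOneSpectrum (𝓞 K), (2 : 𝓞 K) ∈ v.asIdeal →
      ∃ g : 𝓞 K, u - g ^ 2 * (1 + (1 + i) * y) ∈ v.asIdeal ^ 3

/-- Every locally soluble unit has a class, and the class is a root of
y^4 + (1 + b^2) y^2 + t y. -/
theorem exists_class {i : 𝓞 K} (hi : i ^ 2 = -1)
    (h2 : ∀ v : HeightOneSpectrum (𝓞 K), (2 : 𝓞 K) ∈ v.asIdeal → 1 + i ∉ v.asIdeal ^ 2)
    {q : 𝓞 K} (hq : Prime q) (hq2 : ¬ q ∣ 2) {c b t : 𝓞 K}
    (hqc : 4 ∣ q - c ^ 4 * (1 + (1 + i) ^ 2 * b ^ 2 + (1 + i) ^ 3 * t)) (u : (𝓞 K)ˣ)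
    (h : LocallySoluble K (algebraMap (𝓞 K) K q) (algebraMap (𝓞 K) K (u : 𝓞 K))) :
    ∃ X : 𝓞 K ⧸ Ideal.span {1 + i},
      X ^ 4 + Ideal.Quotient.mk (Ideal.span {1 + i}) (1 + b ^ 2) * X ^ 2 +
        Ideal.Quotient.mk (Ideal.span {1 + i}) t * X = 0 ∧
      HasClass i (u : 𝓞 K) X := by
  classical
  have hqv : ∀ v : HeightOneSpectrum (𝓞 K), (2 : 𝓞 K) ∈ v.asIdeal → q ∉ v.asIdeal := by
    intro v hv hmem
    apply hq2
    have hvq : v = placeOf q hq := by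
      by_contra hne
      exact notMem_of_ne hq hne hmem
    rw [hvq, mem_placeOf] at hv
    exact hv
  have hloc := fun (v : HeightOneSpectrum (𝓞 K)) (hv : (2 : 𝓞 K) ∈ v.asIdeal) =>
    unit_at_two hi v hv (h2 v hv) (hqv v hv) hqc u h
  choose! f hf1 hf2 using hloc
  -- the finite set of places above 2
  have hfin : {v : HeightOneSpectrum (𝓞 K) | v.asIdeal ∣ Ideal.span {(2 : 𝓞 K)}}.Finite :=
    Ideal.finite_factors (by
      rw [Ne, Submodule.zero_eq_bot, Ideal.span_singleton_eq_bot]; exact two_ne_zero)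
  have hmem : ∀ v : HeightOneSpectrum (𝓞 K), (2 : 𝓞 K) ∈ v.asIdeal ↔ v ∈ hfin.toFinset := by
    intro v
    rw [Set.Finite.mem_toFinset, Set.mem_setOf_eq, Ideal.dvd_span_singleton]
  obtain ⟨x, hx⟩ := IsDedekindDomain.exists_forall_sub_mem_ideal
    (s := hfin.toFinset) (fun v : HeightOneSpectrum (𝓞 K) => v.asIdeal) (fun _ => 1)
    (fun v _ => v.prime) (fun v _ w _ hvw h' => hvw (HeightOneSpectrum.ext h'))
    (fun v => f v)
  have hx' : ∀ v : HeightOneSpectrum (𝓞 K), (2 : 𝓞 K) ∈ v.asIdeal → x - f v ∈ v.asIdeal := by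
    intro v hv
    have := hx v ((hmem v).mp hv)
    simpa using this
  have hroot : 1 + i ∣ x ^ 4 + (1 + b ^ 2) * x ^ 2 + t * x := by
    refine dvd_of_forall_mem hi h2 (fun v hv => ?_)
    have h3 := hf1 v hv
    have e : x ^ 4 + (1 + b ^ 2) * x ^ 2 + t * x =
        (f v ^ 4 + (1 + b ^ 2) * f v ^ 2 + t * f v) + (x - f v) *
        (x ^ 3 + x ^ 2 * f v + x * f v ^ 2 + f v ^ 3 + (1 + b ^ 2) * (x + f v) + t) := by ring
    rw [e]
    exact Ideal.add_mem _ h3 (Ideal.mul_mem_right _ _ (hx' v hv))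
  refine ⟨Ideal.Quotient.mk _ x, ?_, ?_⟩
  · rw [← map_pow, ← map_pow, ← map_mul, ← map_mul, ← map_add, ← map_add,
      Ideal.Quotient.eq_zero_iff_mem, Ideal.mem_span_singleton]
    exact hroot
  · intro y hy v hv
    apply hf2 v hv
    rw [Ideal.Quotient.eq, Ideal.mem_span_singleton] at hy
    have hpv : 1 + i ∈ v.asIdeal := by
      have h1 : (1 + i) ^ 2 = 2 * i := by linear_combination hi
      have h3 : (1 + i) ^ 2 ∈ v.asIdeal := by
        rw [h1]; exact Ideal.mul_mem_right _ _ hv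
      exact v.isPrime.mem_of_pow_mem 2 h3
    have h3 : y - x ∈ v.asIdeal := Ideal.mem_of_dvd _ hy hpv
    have e : f v - y = -((y - x) + (x - f v)) := by ring
    rw [e]
    exact neg_mem (Ideal.add_mem _ h3 (hx' v hv))

/-- Two locally soluble units with the same class. -/
theorem exists_rep {i : 𝓞 K} {q : 𝓞 K} (hq : Prime q) (R : Finset (𝓞 K)ˣ)
    (hR : CoversUnits q R) (u w : (𝓞 K)ˣ)
    (hu : LocallySoluble K (algebraMap (𝓞 K) K q) (algebraMap (𝓞 K) K (u : 𝓞 K)))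
    (hw : LocallySoluble K (algebraMap (𝓞 K) K q) (algebraMap (𝓞 K) K (w : 𝓞 K)))
    (X : 𝓞 K ⧸ Ideal.span {1 + i}) (hX : HasClass i (u : 𝓞 K) X)
    (hX' : HasClass i (w : 𝓞 K) X) : ∃ r ∈ R, IsSquare (u * w * r) := by
  apply hR
  · intro v hv
    obtain ⟨y, hy⟩ := Ideal.Quotient.mk_surjective X
    obtain ⟨g, hg⟩ := hX y hy v hv
    obtain ⟨g', hg'⟩ := hX' y hy v hv
    refine ⟨g * g' * (1 + (1 + i) * y), ?_⟩
    have e : ((u * w : (𝓞 K)ˣ) : 𝓞 K) - (g * g' * (1 + (1 + i) * y)) ^ 2 =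
        ((u : 𝓞 K) - g ^ 2 * (1 + (1 + i) * y)) * (w : 𝓞 K) +
        ((w : 𝓞 K) - g' ^ 2 * (1 + (1 + i) * y)) * (g ^ 2 * (1 + (1 + i) * y)) := by
      rw [Units.val_mul]; ring
    rw [e]
    exact Ideal.add_mem _ (Ideal.mul_mem_right _ _ hg) (Ideal.mul_mem_right _ _ hg')
  · obtain ⟨m, hm⟩ := unit_sq_at_q hq u hu
    obtain ⟨n, hn⟩ := unit_sq_at_q hq w hw
    refine ⟨m * n, ?_⟩
    have e : ((u * w : (𝓞 K)ˣ) : 𝓞 K) - (m * n) ^ 2 =
        ((u : 𝓞 K) - m ^ 2) * (w : 𝓞 K) + ((w : 𝓞 K) - n ^ 2) * m ^ 2 := by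
      rw [Units.val_mul]; ring
    rw [e]
    exact dvd_add (Dvd.dvd.mul_right hm _) (Dvd.dvd.mul_right hn _)

/-- The bound for the number of locally soluble classes. -/
theorem card_le (hclass : Odd (NumberField.classNumber K)) {i : 𝓞 K} (hi : i ^ 2 = -1)
    (h2 : ∀ v : HeightOneSpectrum (𝓞 K), (2 : 𝓞 K) ∈ v.asIdeal → 1 + i ∉ v.asIdeal ^ 2)
    {q : 𝓞 K} (hq : Prime q) (hq2 : ¬ q ∣ 2) {c b t : 𝓞 K}
    (hqc : 4 ∣ q - c ^ 4 * (1 + (1 + i) ^ 2 * b ^ 2 + (1 + i) ^ 3 * t)) (R : Finset (𝓞 K)ˣ)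
    (hR : CoversUnits q R) (S : Finset K)
    (hS : ∀ a ∈ S, a ≠ 0 ∧ LocallySoluble K (algebraMap (𝓞 K) K q) a)
    (hSne : ∀ a ∈ S, ∀ a' ∈ S, a ≠ a' → ¬ SameClass (algebraMap (𝓞 K) K q) a a') :
    S.card ≤ rootCount i b t * R.card := by
  classical
  have hq0 : algebraMap (𝓞 K) K q ≠ 0 := by
    have := hq.ne_zero
    simpa using this
  have hp0 : (1 + i : 𝓞 K) ≠ 0 := by
    intro h0
    have h1 : (1 + i) ^ 2 = 2 * i := by linear_combination hi
    rw [h0, zero_pow two_ne_zero] at h1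
    have hi0 : i ≠ 0 := by
      rintro rfl
      simp at hi
    rcases mul_eq_zero.1 h1.symm with h3 | h3
    · exact two_ne_zero h3
    · exact hi0 h3
  have hfinq : Finite (𝓞 K ⧸ Ideal.span {1 + i}) :=
    Ideal.finiteQuotientOfFreeOfNeBot _ (by
      rw [Ne, Ideal.span_singleton_eq_bot]; exact hp0)
  set T := {y : 𝓞 K ⧸ Ideal.span {1 + i} //
    y ^ 4 + Ideal.Quotient.mk (Ideal.span {1 + i}) (1 + b ^ 2) * y ^ 2 +
      Ideal.Quotient.mk (Ideal.span {1 + i}) t * y = 0} with hT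
  have hfinT : Finite T := Subtype.finite
  have hfty : Fintype T := Fintype.ofFinite T
  have hdata : ∀ a ∈ S, ∃ (u : (𝓞 K)ˣ) (X : T),
      SameClass (algebraMap (𝓞 K) K q) a (algebraMap (𝓞 K) K (u : 𝓞 K)) ∧
      LocallySoluble K (algebraMap (𝓞 K) K q) (algebraMap (𝓞 K) K (u : 𝓞 K)) ∧
      HasClass i (u : 𝓞 K) X.1 := by
    intro a ha
    obtain ⟨u, hu1, hu2⟩ := exists_unit_form hclass hi hq (hS a ha).1 (hS a ha).2
    obtain ⟨X, hX1, hX2⟩ := exists_class hi h2 hq hq2 hqc u hu2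
    exact ⟨u, ⟨X, hX1⟩, hu1, hu2, hX2⟩
  have hTne : Nonempty T := ⟨⟨0, by simp⟩⟩
  choose! U X hU1 hU2 hX using hdata
  by_contra hlt
  push Not at hlt
  have hcardT : rootCount i b t = (Finset.univ : Finset T).card := by
    rw [Finset.card_univ, rootCount, Nat.card_eq_fintype_card]
  rw [hcardT] at hlt
  obtain ⟨X0, _, hX0⟩ := Finset.exists_lt_card_fiber_of_mul_lt_card_of_maps_to
    (f := X) (fun a _ => Finset.mem_univ (X a)) hlt
  set S' := S.filter (fun a => X a = X0) with hS'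
  have hS'ne : S'.Nonempty := by
    rw [← Finset.card_pos]
    exact lt_of_le_of_lt (Nat.zero_le _) hX0
  obtain ⟨a0, ha0⟩ := hS'ne
  rw [hS', Finset.mem_filter] at ha0
  have hrep : ∀ a ∈ S', ∃ r ∈ R, IsSquare (U a * U a0 * r) := by
    intro a ha
    rw [hS', Finset.mem_filter] at ha
    refine exists_rep hq R hR (U a) (U a0) (hU2 a ha.1) (hU2 a0 ha0.1) X0.1 ?_ ?_
    · have := hX a ha.1
      rwa [ha.2] at this
    · have := hX a0 ha0.1
      rwa [ha0.2] at this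
  choose! r hrR hrsq using hrep
  obtain ⟨a, ha, b, hb, hab, hrab⟩ := Finset.exists_ne_map_eq_of_card_lt_of_maps_to
    hX0 (f := r) (fun a ha => hrR a ha)
  have ha' : a ∈ S := (Finset.mem_filter.mp ha).1
  have hb' : b ∈ S := (Finset.mem_filter.mp hb).1
  apply hSne a ha' b hb' hab
  -- U a * U b is a square
  have hsq : IsSquare (U a * U b) := by
    have h3 : IsSquare ((U a * U a0 * r a) * (U b * U a0 * r b)) := (hrsq a ha).mul (hrsq b hb)
    have e : (U a * U a0 * r a) * (U b * U a0 * r b) = (U a * U b) * (U a0 * r a) ^ 2 := by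
      rw [← hrab, pow_two]
      ac_rfl
    rw [e] at h3
    have h4 : U a * U b = ((U a * U b) * (U a0 * r a) ^ 2) / (U a0 * r a) ^ 2 := by
      rw [mul_div_cancel_right]
    rw [h4]
    exact h3.div (IsSquare.sq _)
  obtain ⟨z, hz⟩ := hsq
  have hu0 : ∀ w : (𝓞 K)ˣ, algebraMap (𝓞 K) K (w : 𝓞 K) ≠ 0 := fun w => by simp
  have hzK : algebraMap (𝓞 K) K (U a : 𝓞 K) * algebraMap (𝓞 K) K (U b : 𝓞 K) =
      algebraMap (𝓞 K) K (z : 𝓞 K) ^ 2 := by
    rw [← map_mul, ← Units.val_mul, hz, Units.val_mul, map_mul]; ring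
  obtain ⟨s, hs, hs'⟩ := hU1 a ha'
  obtain ⟨s2, hs2, hs2'⟩ := hU1 b hb'
  set A := algebraMap (𝓞 K) K (U a : 𝓞 K) with hA
  set B := algebraMap (𝓞 K) K (U b : 𝓞 K) with hB
  set Z := algebraMap (𝓞 K) K (z : 𝓞 K) with hZ
  set Q := algebraMap (𝓞 K) K q with hQ
  have hA0 : A ≠ 0 := hu0 _
  have hB0 : B ≠ 0 := hu0 _
  have hZ0 : Z ≠ 0 := hu0 _
  have hAB : A = Z ^ 2 / B := by
    field_simp
    linear_combination hzK
  clear_value A B Z Q
  rcases hs' with hs' | hs' <;> rcases hs2' with hs2' | hs2'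
  · refine ⟨Z * s / (B * s2), div_ne_zero (mul_ne_zero hZ0 hs) (mul_ne_zero hB0 hs2), Or.inl ?_⟩
    rw [hs', hs2', hAB]; field_simp
  · refine ⟨Z * s / (Q * B * s2), div_ne_zero (mul_ne_zero hZ0 hs)
      (mul_ne_zero (mul_ne_zero hq0 hB0) hs2), Or.inr ?_⟩
    rw [hs', hs2', hAB]; field_simp
  · refine ⟨Z * s / (B * s2), div_ne_zero (mul_ne_zero hZ0 hs) (mul_ne_zero hB0 hs2), Or.inr ?_⟩
    rw [hs', hs2', hAB]; field_simp
  · refine ⟨Z * s / (B * s2), div_ne_zero (mul_ne_zero hZ0 hs) (mul_ne_zero hB0 hs2), Or.inl ?_⟩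
    rw [hs', hs2', hAB]; field_simp

/-- The Hasse principle for the coverings, when there are enough rational points. -/
theorem hasse (hclass : Odd (NumberField.classNumber K)) {i : 𝓞 K} (hi : i ^ 2 = -1)
    (h2 : ∀ v : HeightOneSpectrum (𝓞 K), (2 : 𝓞 K) ∈ v.asIdeal → 1 + i ∉ v.asIdeal ^ 2)
    {q : 𝓞 K} (hq : Prime q) (hq2 : ¬ q ∣ 2) {c b t : 𝓞 K}
    (hqc : 4 ∣ q - c ^ 4 * (1 + (1 + i) ^ 2 * b ^ 2 + (1 + i) ^ 3 * t)) (R : Finset (𝓞 K)ˣ)
    (hR : CoversUnits q R) (P : Finset K)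
    (hP : ∀ a ∈ P, a ≠ 0 ∧ HasPoint (algebraMap (𝓞 K) K q) a)
    (hPne : ∀ a ∈ P, ∀ a' ∈ P, a ≠ a' → ¬ SameClass (algebraMap (𝓞 K) K q) a a')
    (hcard : rootCount i b t * R.card ≤ P.card) (a : K) (ha : a ≠ 0)
    (h : LocallySoluble K (algebraMap (𝓞 K) K q) a) :
    ∃ a' ∈ P, SameClass (algebraMap (𝓞 K) K q) a a' := by
  classical
  have hq0 : algebraMap (𝓞 K) K q ≠ 0 := by
    have := hq.ne_zero
    simpa using this
  by_contra hno
  push Not at hno
  have haP : a ∉ P := fun hmem => hno a hmem ⟨1, one_ne_zero, Or.inl (by ring)⟩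
  have := card_le hclass hi h2 hq hq2 hqc R hR (insert a P) (by
      intro b hb
      rcases Finset.mem_insert.mp hb with rfl | hb
      · exact ⟨ha, h⟩
      · exact ⟨(hP b hb).1, LocallySoluble.of_hasPoint (hP b hb).2⟩) (by
      intro b hb b' hb' hbb'
      rcases Finset.mem_insert.mp hb with h3 | h3 <;>
        rcases Finset.mem_insert.mp hb' with h4 | h4
      · exact absurd (h3.trans h4.symm) hbb'
      · rw [h3]
        exact hno b' h4
      · intro hs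
        rw [h4] at hs
        exact hno b h3 (hs.symm hq0)
      · exact hPne b h3 b' h4 hbb')
  rw [Finset.card_insert_of_notMem haP] at this
  omega

end Pool.Agent.MP009fd8Q4
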