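import Pool.Agent.Lib.MP_009fd8_ag.Q4Def

/-!
MP_009fd8_ag, QuarticTwists: the coverings depend on the class only.
-/

namespace Pool.Agent.MP009fd8Q4

open IsDedekindDomain NumberField

section Field

variable {F : Type*} [Field F]

theorem hasPoint_one (q : F) : HasPoint q 1 :=
  ⟨1, 1, 0, Or.inl one_ne_zero, by ring⟩

theorem HasPoint.mul_sq {q a : F} (s : F) (hs : s ≠ 0) (h : HasPoint q a) :
    HasPoint q (a * s ^ 2) := by
  obtain ⟨N, M, e, hne, h1⟩ := h
  refine ⟨s * N, M, s * e, ?_, ?_⟩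
  · rcases hne with h2 | h2
    · exact Or.inl h2
    · exact Or.inr (mul_ne_zero hs h2)
  · rw [mul_pow, h1]
    by_cases ha : a = 0
    · subst ha; simp
    · field_simp

theorem HasPoint.swap {q a : F} (hq : q ≠ 0) (ha : a ≠ 0) (h : HasPoint q a) :
    HasPoint q (-q / a) := by
  obtain ⟨N, M, e, hne, h1⟩ := h
  refine ⟨N, e, M, hne.symm, ?_⟩
  rw [h1]
  field_simp
  ring

theorem HasPoint.mul_q {q a i : F} (hi : i ^ 2 = -1) (hq : q ≠ 0) (ha : a ≠ 0)
    (h : HasPoint q a) : HasPoint q (q * a) := by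
  have hi0 : i ≠ 0 := by
    rintro rfl
    simp at hi
  have h1 := (h.swap hq ha).mul_sq (i * a) (mul_ne_zero hi0 ha)
  have e : -q / a * (i * a) ^ 2 = q * a := by
    rw [mul_pow, hi]; field_simp
  rwa [e] at h1

theorem HasPoint.map {F' : Type*} [Field F'] (f : F →+* F') {q a : F} (h : HasPoint q a) :
    HasPoint (f q) (f a) := by
  obtain ⟨N, M, e, hne, h1⟩ := h
  refine ⟨f N, f M, f e, ?_, ?_⟩
  · rcases hne with h2 | h2
    · exact Or.inl ((map_ne_zero f).mpr h2)
    · exact Or.inr ((map_ne_zero f).mpr h2)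
  · rw [← map_pow, h1]
    simp only [map_sub, map_mul, map_div₀, map_pow]

theorem HasPoint.of_sameClass {q a b i : F} (hi : i ^ 2 = -1) (hq : q ≠ 0) (hb : b ≠ 0)
    (hab : SameClass q a b) (h : HasPoint q b) : HasPoint q a := by
  obtain ⟨s, hs, rfl | rfl⟩ := hab
  · exact h.mul_sq s hs
  · exact (h.mul_q hi hq hb).mul_sq s hs

theorem SameClass.symm {q a b : F} (hq : q ≠ 0) (h : SameClass q a b) : SameClass q b a := by
  obtain ⟨s, hs, rfl | rfl⟩ := h
  · exact ⟨s⁻¹, inv_ne_zero hs, Or.inl (by field_simp)⟩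
  · exact ⟨(q * s)⁻¹, inv_ne_zero (mul_ne_zero hq hs), Or.inr (by field_simp)⟩

end Field

variable {K : Type*} [Field K] [NumberField K]

theorem LocallySoluble.of_sameClass {q a b i : K} (hi : i ^ 2 = -1) (hq : q ≠ 0) (hb : b ≠ 0)
    (hab : SameClass q a b) (h : LocallySoluble K q b) : LocallySoluble K q a := by
  intro v
  have hf := h v
  refine HasPoint.of_sameClass (i := algebraMap K (v.adicCompletion K) i) ?_
    ((map_ne_zero _).mpr hq) ((map_ne_zero _).mpr hb) ?_ hf
  · rw [← map_pow, hi, map_neg, map_one]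
  · obtain ⟨s, hs, h1⟩ := hab
    refine ⟨algebraMap K (v.adicCompletion K) s, (map_ne_zero _).mpr hs, ?_⟩
    rcases h1 with h1 | h1
    · left; rw [h1, map_mul, map_pow]
    · right; rw [h1, map_mul, map_mul, map_pow]

theorem LocallySoluble.of_hasPoint {q a : K} (h : HasPoint q a) : LocallySoluble K q a :=
  fun v => h.map (algebraMap K (v.adicCompletion K))

end Pool.Agent.MP009fd8Q4
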