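import Pool.Agent.Lib.MP_009fd8_ag.Approx
import Pool.Agent.Lib.MP_009fd8_ag.ClassLemma
import Pool.Agent.Lib.MP_009fd8_ag.Places
import Pool.Agent.Lib.MP_009fd8_ag.Q4Point
import Pool.Agent.Lib.MP_009fd8_ag.Q4Local
import Pool.Agent.Lib.MP_009fd8_ag.Q4At2

/-!
MP_009fd8_ag, QuarticTwists: from the completions to the ring of integers.
-/

namespace Pool.Agent.MP009fd8Q4

open IsDedekindDomain NumberField WithZero
open Pool.Agent.MP009fd8

variable {K : Type*} [Field K] [NumberField K]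

/-- At a place above 2 every integer is a square modulo the place. -/
theorem exists_sq_sub_mem (v : HeightOneSpectrum (𝓞 K)) (h2 : (2 : 𝓞 K) ∈ v.asIdeal)
    (x : 𝓞 K) : ∃ y : 𝓞 K, x - y ^ 2 ∈ v.asIdeal := by
  have hfin : Finite (𝓞 K ⧸ v.asIdeal) := Ideal.finiteQuotientOfFreeOfNeBot _ v.ne_bot
  have hprime : v.asIdeal.IsPrime := v.isPrime
  have h20 : (2 : 𝓞 K ⧸ v.asIdeal) = 0 := by
    have := Ideal.Quotient.eq_zero_iff_mem.mpr h2
    rwa [map_ofNat] at this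
  have hinj : Function.Injective (fun z : 𝓞 K ⧸ v.asIdeal => z ^ 2) := by
    intro a b hab
    have hab' : a ^ 2 = b ^ 2 := hab
    have h3 : (a - b) ^ 2 = 0 := by linear_combination hab' - b * (a - b) * h20
    have h4 := pow_eq_zero_iff (two_ne_zero) |>.1 h3
    exact sub_eq_zero.1 h4
  obtain ⟨z, hz⟩ := Finite.surjective_of_injective hinj (Ideal.Quotient.mk v.asIdeal x)
  obtain ⟨y, rfl⟩ := Ideal.Quotient.mk_surjective z
  refine ⟨y, ?_⟩
  rw [← Ideal.Quotient.eq_zero_iff_mem, map_sub, map_pow, sub_eq_zero]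
  exact hz.symm

theorem val_lt_one_iff (v : HeightOneSpectrum (𝓞 K)) (x : 𝓞 K) :
    Valued.v (algebraMap K (v.adicCompletion K) (algebraMap (𝓞 K) K x)) < 1 ↔ x ∈ v.asIdeal := by
  rw [val_completion]
  exact v.valuation_lt_one_iff_mem x

theorem val_le_one (v : HeightOneSpectrum (𝓞 K)) (x : 𝓞 K) :
    Valued.v (algebraMap K (v.adicCompletion K) (algebraMap (𝓞 K) K x)) ≤ 1 := by
  rw [val_completion]; exact v.valuation_le_one x

theorem val_eq_one_iff (v : HeightOneSpectrum (𝓞 K)) (x : 𝓞 K) :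
    Valued.v (algebraMap K (v.adicCompletion K) (algebraMap (𝓞 K) K x)) = 1 ↔
      x ∉ v.asIdeal := by
  rw [val_completion]
  exact v.valuation_eq_one_iff_notMem

/-- At q: the unit is a square modulo q. -/
theorem unit_sq_at_q {q : 𝓞 K} (hq : Prime q) (u : (𝓞 K)ˣ)
    (h : LocallySoluble K (algebraMap (𝓞 K) K q) (algebraMap (𝓞 K) K (u : 𝓞 K))) :
    ∃ m : 𝓞 K, q ∣ (u : 𝓞 K) - m ^ 2 := by
  set v := placeOf q hq with hv
  obtain ⟨g, hg1, hg⟩ := square_at_q (Valued.v : Valuation (v.adicCompletion K) _)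
    (algebraMap K (v.adicCompletion K) (algebraMap (𝓞 K) K q))
    (algebraMap K (v.adicCompletion K) (algebraMap (𝓞 K) K (u : 𝓞 K)))
    (by rw [val_completion]; exact val_unit v u)
    (by rw [val_completion, hv, val_self]; exact not_isSquare_exp_neg_one) (h v)
  obtain ⟨m, hm⟩ := exists_int_sub_lt v g hg1 1 one_pos
  refine ⟨m, ?_⟩
  rw [← mem_placeOf hq, ← val_lt_one_iff]
  have hmg := val_le_one v m
  have hexp : algebraMap K (v.adicCompletion K) (algebraMap (𝓞 K) K ((u : 𝓞 K) - m ^ 2)) =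
      (algebraMap K (v.adicCompletion K) (algebraMap (𝓞 K) K (u : 𝓞 K)) - g ^ 2) +
        (g - algebraMap K (v.adicCompletion K) (algebraMap (𝓞 K) K m)) *
        (g + algebraMap K (v.adicCompletion K) (algebraMap (𝓞 K) K m)) := by
    simp only [map_sub, map_pow]; ring
  rw [← hv, hexp]
  refine Valuation.map_add_lt _ hg ?_
  rw [map_mul]
  calc _ ≤ Valued.v (g - algebraMap K (v.adicCompletion K) (algebraMap (𝓞 K) K m)) * 1 := by
        gcongr
        exact Valuation.map_add_le _ hg1 hmg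
    _ < 1 := by rw [mul_one]; exact hm

/-- The valuation of 1 + i at a place above 2. -/
theorem val_one_add_i {i : 𝓞 K} (hi : i ^ 2 = -1) (v : HeightOneSpectrum (𝓞 K))
    (hv2 : (2 : 𝓞 K) ∈ v.asIdeal) (hv : 1 + i ∉ v.asIdeal ^ 2) :
    v.valuation K (algebraMap (𝓞 K) K (1 + i)) = exp (-1 : ℤ) := by
  have hmem : 1 + i ∈ v.asIdeal := by
    have h1 : (1 + i) ^ 2 = 2 * i := by linear_combination hi
    have h3 : (1 + i) ^ 2 ∈ v.asIdeal := by
      rw [h1]; exact Ideal.mul_mem_right _ _ hv2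
    exact v.isPrime.mem_of_pow_mem 2 h3
  have hle : v.valuation K (algebraMap (𝓞 K) K (1 + i)) ≤ exp (-1 : ℤ) :=
    le_of_lt_one ((v.valuation_lt_one_iff_mem (1 + i)).mpr hmem)
  have hnot : ¬ v.valuation K (algebraMap (𝓞 K) K (1 + i)) ≤ exp (-((2 : ℕ) : ℤ)) := by
    rw [HeightOneSpectrum.valuation_of_algebraMap,
      HeightOneSpectrum.intValuation_le_pow_iff_mem]
    exact hv
  have h0 : v.valuation K (algebraMap (𝓞 K) K (1 + i)) ≠ 0 := by
    intro h0
    rw [h0] at hnot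
    exact hnot zero_le
  obtain ⟨n, hn⟩ : ∃ n : ℤ, v.valuation K (algebraMap (𝓞 K) K (1 + i)) = exp n :=
    ⟨WithZero.log _, (WithZero.exp_log h0).symm⟩
  rw [hn] at hle hnot ⊢
  rw [exp_le_exp] at hle hnot
  congr 1
  push_cast at hnot
  omega

/-- At a place above 2. -/
theorem unit_at_two {i : 𝓞 K} (hi : i ^ 2 = -1) (v : HeightOneSpectrum (𝓞 K))
    (hv2 : (2 : 𝓞 K) ∈ v.asIdeal) (hv : 1 + i ∉ v.asIdeal ^ 2) {q c b t : 𝓞 K}
    (hqv : q ∉ v.asIdeal)
    (hqc : 4 ∣ q - c ^ 4 * (1 + (1 + i) ^ 2 * b ^ 2 + (1 + i) ^ 3 * t)) (u : (𝓞 K)ˣ)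
    (h : LocallySoluble K (algebraMap (𝓞 K) K q) (algebraMap (𝓞 K) K (u : 𝓞 K))) :
    ∃ x : 𝓞 K, x ^ 4 + (1 + b ^ 2) * x ^ 2 + t * x ∈ v.asIdeal ∧
      ∀ y : 𝓞 K, x - y ∈ v.asIdeal → ∃ g : 𝓞 K,
        (u : 𝓞 K) - g ^ 2 * (1 + (1 + i) * y) ∈ v.asIdeal ^ 3 := by
  have hval := val_one_add_i hi v hv2 hv
  set V : Valuation (v.adicCompletion K) (WithZero (Multiplicative ℤ)) := Valued.v with hV
  set φ : 𝓞 K →+* v.adicCompletion K :=
    (algebraMap K (v.adicCompletion K)).comp (algebraMap (𝓞 K) K) with hφ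
  have hφa : ∀ x : 𝓞 K, φ x = algebraMap K (v.adicCompletion K) (algebraMap (𝓞 K) K x) :=
    fun x => rfl
  have hle : ∀ x : 𝓞 K, V (φ x) ≤ 1 := fun x => val_le_one v x
  have hlt : ∀ x : 𝓞 K, V (φ x) < 1 ↔ x ∈ v.asIdeal := fun x => val_lt_one_iff v x
  have heq : ∀ x : 𝓞 K, V (φ x) = 1 ↔ x ∉ v.asIdeal := fun x => val_eq_one_iff v x
  have hp : V (1 + φ i) = exp (-1 : ℤ) := by
    have e : (1 : v.adicCompletion K) + φ i = φ (1 + i) := by rw [map_add, map_one]
    rw [e, hφa, hV, val_completion]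
    exact hval
  have hp0 : V (1 + φ i) ≠ 0 := by rw [hp]; exact WithZero.exp_ne_zero
  have h4 : ∀ r : 𝓞 K, 4 ∣ r → V (φ r) ≤ V (1 + φ i) ^ 4 := by
    rintro r ⟨k, rfl⟩
    have e : (4 : 𝓞 K) * k = (1 + i) ^ 4 * (-k) := by
      have : (1 + i) ^ 4 = -4 := by linear_combination (i ^ 2 + 4 * i + 5) * hi
      rw [this]; ring
    rw [e, map_mul, map_pow, map_add, map_one, map_mul, map_pow]
    calc V (1 + φ i) ^ 4 * V (φ (-k)) ≤ V (1 + φ i) ^ 4 * 1 := by
          gcongr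
          exact hle _
      _ = _ := mul_one _
  have hdens : ∀ x : v.adicCompletion K, V x ≤ 1 → ∀ γ : WithZero (Multiplicative ℤ), 0 < γ →
      ∃ m : 𝓞 K, V (x - φ m) < γ := fun x hx γ hγ => exists_int_sub_lt v x hx γ hγ
  have hc : c ∉ v.asIdeal := by
    intro hc
    apply hqv
    have h5 : (4 : 𝓞 K) ∈ v.asIdeal := by
      have : (4 : 𝓞 K) = 2 * 2 := by norm_num
      rw [this]; exact Ideal.mul_mem_left _ _ hv2
    have h6 : q - c ^ 4 * (1 + (1 + i) ^ 2 * b ^ 2 + (1 + i) ^ 3 * t) ∈ v.asIdeal :=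
      Ideal.mem_of_dvd _ hqc h5
    have h7 : c ^ 4 * (1 + (1 + i) ^ 2 * b ^ 2 + (1 + i) ^ 3 * t) ∈ v.asIdeal :=
      Ideal.mul_mem_right _ _ (Ideal.pow_mem_of_mem _ hc 4 (by norm_num))
    have := Ideal.add_mem _ h6 h7
    simpa using this
  obtain ⟨x, hx1, hx2, hx3⟩ := at_two V (φ i) (φ q) (φ (u : 𝓞 K)) (φ c) (φ b) (φ t)
    (by rw [← map_pow, hi, map_neg, map_one])
    (by rw [hp, ← exp_zero, exp_lt_exp]; norm_num)
    (by
      intro h0
      rw [h0, map_zero] at hp0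
      exact hp0 rfl)
    (fun x hx => by rw [hp]; exact le_of_lt_one hx)
    (fun x hx => by
      obtain ⟨m, hm⟩ := hdens x hx 1 one_pos
      obtain ⟨k, hk⟩ := exists_sq_sub_mem v hv2 m
      refine ⟨φ k, hle k, ?_⟩
      have e : x - φ k ^ 2 = (x - φ m) + φ (m - k ^ 2) := by
        rw [map_sub, map_pow]; ring
      rw [e]
      exact Valuation.map_add_lt _ hm ((hlt _).mpr hk))
    (by
      rw [hφa, hV, val_completion]
      exact val_unit v u)
    ((heq c).mpr hc) (hle b) (hle t)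
    (by
      have e : φ q - φ c ^ 4 * (1 + (1 + φ i) ^ 2 * φ b ^ 2 + (1 + φ i) ^ 3 * φ t) =
          φ (q - c ^ 4 * (1 + (1 + i) ^ 2 * b ^ 2 + (1 + i) ^ 3 * t)) := by
        simp only [map_sub, map_mul, map_pow, map_add, map_one]
      rw [e]
      exact h4 _ hqc)
    (h v)
  obtain ⟨m, hm⟩ := hdens x hx1 1 one_pos
  refine ⟨m, ?_, ?_⟩
  · rw [← hlt]
    have e : φ (m ^ 4 + (1 + b ^ 2) * m ^ 2 + t * m) =
        (x ^ 4 + (1 + φ b ^ 2) * x ^ 2 + φ t * x) -
        (x - φ m) * (x ^ 3 + x ^ 2 * φ m + x * φ m ^ 2 + φ m ^ 3 + φ (1 + b ^ 2) * (x + φ m) +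
          φ t) := by
      simp only [map_mul, map_pow, map_add, map_one]; ring
    rw [e]
    refine Valuation.map_sub_lt _ hx2 ?_
    rw [map_mul]
    have hmm := hle m
    have ht := hle t
    calc _ ≤ V (x - φ m) * 1 := by
          gcongr
          refine Valuation.map_add_le _ (Valuation.map_add_le _
            (Valuation.map_add_le _ (Valuation.map_add_le _ (Valuation.map_add_le _ ?_ ?_) ?_)
              ?_) ?_) ht
          · rw [map_pow]; exact pow_le_one' hx1 3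
          · rw [map_mul, map_pow]; exact mul_le_one' (pow_le_one' hx1 2) hmm
          · rw [map_mul, map_pow]; exact mul_le_one' hx1 (pow_le_one' hmm 2)
          · rw [map_pow]; exact pow_le_one' hmm 3
          · rw [map_mul]; exact mul_le_one' (hle _) (Valuation.map_add_le _ hx1 hmm)
      _ < 1 := by rw [mul_one]; exact hm
  · intro y hy
    have hxy : V (x - φ y) < 1 := by
      have e : x - φ y = (x - φ m) + φ (m - y) := by rw [map_sub]; ring
      rw [e]
      exact Valuation.map_add_lt _ hm ((hlt _).mpr hy)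
    obtain ⟨g, hg1, hg⟩ := hx3 (φ y) hxy
    have hγ : (0 : WithZero (Multiplicative ℤ)) < V (1 + φ i) ^ 3 :=
      zero_lt_iff.mpr (pow_ne_zero 3 hp0)
    obtain ⟨n, hn⟩ := hdens g hg1.le _ hγ
    refine ⟨n, ?_⟩
    have hfin : V (φ ((u : 𝓞 K) - n ^ 2 * (1 + (1 + i) * y))) ≤ V (1 + φ i) ^ 3 := by
      have e : φ ((u : 𝓞 K) - n ^ 2 * (1 + (1 + i) * y)) =
          (φ (u : 𝓞 K) - g ^ 2 * (1 + (1 + φ i) * φ y)) +
          (g - φ n) * ((g + φ n) * φ (1 + (1 + i) * y)) := by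
        simp only [map_sub, map_mul, map_pow, map_add, map_one]; ring
      rw [e]
      refine Valuation.map_add_le _ hg ?_
      rw [map_mul]
      calc _ ≤ V (g - φ n) * 1 := by
            gcongr
            rw [map_mul]
            exact mul_le_one' (Valuation.map_add_le _ hg1.le (hle n)) (hle _)
        _ ≤ _ := by rw [mul_one]; exact hn.le
    rw [hp] at hfin
    rw [← HeightOneSpectrum.intValuation_le_pow_iff_mem,
      ← HeightOneSpectrum.valuation_of_algebraMap (K := K), ← val_completion]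
    refine hfin.trans (le_of_eq ?_)
    rw [← exp_nsmul]
    norm_num

end Pool.Agent.MP009fd8Q4
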