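import Pool.Agent.Lib.MP_009fd8_ag.Q4Def

/-!
MP_009fd8_ag, QuarticTwists: definitions for arbitrary q prime to 2.
-/

namespace Pool.Agent.MP009fd8Q4

open IsDedekindDomain NumberField

/-- The strict Selmer condition on an element A of K: the valuation of A is even at all v not
dividing q; at the v with v(q) odd, q^j A is g^2 (1 + x) with v(x) > 0 for some j; at the v
above 2, A is g^2 (1 + x) with x divisible by (1 + i)^3 at v. -/
def StrictSelmer {K : Type*} [Field K] [NumberField K] (i q : 𝓞 K) (A : K) : Prop :=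
  (∀ v : HeightOneSpectrum (𝓞 K), q ∉ v.asIdeal → IsSquare (v.valuation K A)) ∧
  (∀ v : HeightOneSpectrum (𝓞 K), ¬ IsSquare (v.valuation K (algebraMap (𝓞 K) K q)) →
    ∃ (j : ℕ) (g x : K), algebraMap (𝓞 K) K q ^ j * A = g ^ 2 * (1 + x) ∧
      v.valuation K x < 1) ∧
  (∀ v : HeightOneSpectrum (𝓞 K), (2 : 𝓞 K) ∈ v.asIdeal →
    ∃ g x : K, A = g ^ 2 * (1 + x) ∧
      v.valuation K x ≤ v.valuation K (algebraMap (𝓞 K) K ((1 + i) ^ 3)))

/-- Every nonzero A with the strict Selmer condition is in the class of an element of R. -/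
def CoversStrict {K : Type*} [Field K] [NumberField K] (i q : 𝓞 K) (R : Finset K) : Prop :=
  ∀ A : K, A ≠ 0 → StrictSelmer i q A → ∃ r ∈ R, SameClass (algebraMap (𝓞 K) K q) A r

/-- q is a product of primes p_0, ..., p_(s-1), none dividing another one, such that for
j + 1 < s all units and all p_k with k > j + 1 are squares modulo p_j and p_(j+1) is not; and
every unit that is a square modulo v^3 for all primes v above 2 and modulo all p_j is an element
of R times a square. The class number is odd. -/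
def ManyPrimes {K : Type*} [Field K] [NumberField K] (q : 𝓞 K) (R : Finset K) : Prop :=
  Odd (NumberField.classNumber K) ∧ ∃ (s : ℕ) (p : ℕ → 𝓞 K),
    q = ∏ j ∈ Finset.range s, p j ∧ (∀ j < s, Prime (p j)) ∧
    (∀ j < s, ∀ k < s, j ≠ k → ¬ p j ∣ p k) ∧
    (∀ j, j + 1 < s → (∀ u : (𝓞 K)ˣ, ∃ m, p j ∣ (u : 𝓞 K) - m ^ 2) ∧
      (∀ k < s, j + 1 < k → ∃ m, p j ∣ p k - m ^ 2) ∧ ¬ ∃ m, p j ∣ p (j + 1) - m ^ 2) ∧
    ∀ u : (𝓞 K)ˣ, (∀ v : HeightOneSpectrum (𝓞 K), (2 : 𝓞 K) ∈ v.asIdeal →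
      ∃ m : 𝓞 K, (u : 𝓞 K) - m ^ 2 ∈ v.asIdeal ^ 3) →
      (∀ j < s, ∃ m, p j ∣ (u : 𝓞 K) - m ^ 2) →
      ∃ r ∈ R, ∃ z : K, algebraMap (𝓞 K) K (u : 𝓞 K) = r * z ^ 2

end Pool.Agent.MP009fd8Q4
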