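import Pool.Agent.Lib.MP_009fd8_ag.Q4Unit
import Pool.Agent.Lib.MP_009fd8_ag.Q5Def

/-!
MP_009fd8_ag, QuarticTwists: from the completions to the field K.
-/

namespace Pool.Agent.MP009fd8Q4

open IsDedekindDomain NumberField WithZero
open Pool.Agent.MP009fd8

variable {K : Type*} [Field K] [NumberField K]

/-- Density of K in the completion. -/
theorem exists_sub_lt (v : HeightOneSpectrum (𝓞 K)) (x : v.adicCompletion K)
    (γ : WithZero (Multiplicative ℤ)) (hγ : 0 < γ) :
    ∃ k : K, Valued.v (x - algebraMap K (v.adicCompletion K) k) < γ := by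
  obtain ⟨π, hπ⟩ := v.valuation_exists_uniformizer K
  have hπ0' : π ≠ 0 := by
    rintro rfl
    rw [map_zero] at hπ
    exact WithZero.exp_ne_zero hπ.symm
  -- scale into the integers
  have hscale : ∃ n : ℕ, Valued.v (x * algebraMap K (v.adicCompletion K) (π ^ n)) ≤ 1 := by
    by_cases hx : Valued.v x = 0
    · exact ⟨0, by rw [map_mul, hx, zero_mul]; exact zero_le⟩
    · obtain ⟨n, hn⟩ : ∃ n : ℤ, Valued.v x = exp n := ⟨WithZero.log _, (WithZero.exp_log hx).symm⟩
      refine ⟨n.toNat, ?_⟩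
      rw [map_mul, val_completion, map_pow, hπ, hn, ← exp_nsmul, ← exp_add, ← exp_zero,
        exp_le_exp]
      simp only [smul_neg, nsmul_eq_mul, mul_one]
      have := Int.self_le_toNat n
      omega
  obtain ⟨n, hn⟩ := hscale
  have hz : Valued.v (algebraMap K (v.adicCompletion K) (π ^ n)) ≠ 0 := by
    rw [val_completion]
    exact (Valuation.ne_zero_iff _).mpr (pow_ne_zero n hπ0')
  obtain ⟨m, hm⟩ := exists_int_sub_lt v _ hn
    (γ * Valued.v (algebraMap K (v.adicCompletion K) (π ^ n)))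
    (mul_pos hγ (zero_lt_iff.mpr hz))
  refine ⟨algebraMap (𝓞 K) K m / π ^ n, ?_⟩
  have hz' : algebraMap K (v.adicCompletion K) (π ^ n) ≠ 0 := by
    intro h0
    rw [h0, map_zero] at hz
    exact hz rfl
  have e : x * algebraMap K (v.adicCompletion K) (π ^ n) -
      algebraMap K (v.adicCompletion K) (algebraMap (𝓞 K) K m) =
      (x - algebraMap K (v.adicCompletion K) (algebraMap (𝓞 K) K m / π ^ n)) *
        algebraMap K (v.adicCompletion K) (π ^ n) := by
    rw [map_div₀]
    field_simp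
  rw [e, map_mul] at hm
  exact lt_of_mul_lt_mul_right' hm

/-- An element of K that is G^2 (B + X) in the completion is of this form over K. -/
theorem exists_global (v : HeightOneSpectrum (𝓞 K)) (a B : K) (hB : v.valuation K B ≤ 1)
    (G X : v.adicCompletion K) (hG : G ≠ 0) (γ : WithZero (Multiplicative ℤ)) (hγ0 : 0 < γ)
    (hγ1 : γ ≤ 1)
    (h : algebraMap K (v.adicCompletion K) a = G ^ 2 * (algebraMap K (v.adicCompletion K) B + X))
    (hX : Valued.v X ≤ γ) :
    ∃ g x : K, g ≠ 0 ∧ a = g ^ 2 * (B + x) ∧ v.valuation K x ≤ γ := by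
  have hVG : Valued.v G ≠ 0 := (Valuation.ne_zero_iff _).mpr hG
  obtain ⟨g, hg⟩ := exists_sub_lt v G (Valued.v G * γ) (mul_pos (zero_lt_iff.mpr hVG) hγ0)
  set G' := algebraMap K (v.adicCompletion K) g with hG'
  have hlt : Valued.v (G - G') < Valued.v G :=
    lt_of_lt_of_le hg (by
      calc Valued.v G * γ ≤ Valued.v G * 1 := by gcongr
        _ = Valued.v G := mul_one _)
  have hVG' : Valued.v G' = Valued.v G := by
    have : G' = G - (G - G') := by ring
    rw [this]
    exact Valuation.map_sub_eq_of_lt_left _ hlt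
  have hG'0 : G' ≠ 0 := by
    intro h0
    rw [h0, map_zero] at hVG'
    exact hVG hVG'.symm
  have hg0 : g ≠ 0 := by
    rintro rfl
    rw [map_zero] at hG'
    exact hG'0 hG'
  refine ⟨g, a / g ^ 2 - B, hg0, by field_simp; ring, ?_⟩
  rw [← val_completion]
  have e : algebraMap K (v.adicCompletion K) (a / g ^ 2 - B) =
      (G - G') / G' * ((G + G') / G') * (algebraMap K (v.adicCompletion K) B + X) + X := by
    rw [map_sub, map_div₀, h, map_pow, ← hG']
    field_simp
    ring
  rw [e]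
  have h1 : Valued.v ((G - G') / G') ≤ γ := by
    rw [map_div₀, hVG', div_le_iff₀ (zero_lt_iff.mpr hVG)]
    rw [mul_comm γ]
    exact hg.le
  have h2 : Valued.v ((G + G') / G') ≤ 1 := by
    rw [map_div₀, hVG', div_le_one₀ (zero_lt_iff.mpr hVG)]
    exact Valuation.map_add_le _ le_rfl hVG'.le
  have h3 : Valued.v (algebraMap K (v.adicCompletion K) B + X) ≤ 1 :=
    Valuation.map_add_le _ (by rw [val_completion]; exact hB) (hX.trans hγ1)
  refine Valuation.map_add_le _ ?_ hX
  rw [map_mul, map_mul]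
  calc _ ≤ γ * 1 * 1 := by gcongr
    _ = γ := by rw [mul_one, mul_one]

/-- Every nonzero value is attained on K. -/
theorem exists_val_eq (v : HeightOneSpectrum (𝓞 K)) {y : WithZero (Multiplicative ℤ)}
    (hy : y ≠ 0) : ∃ z : K, z ≠ 0 ∧ v.valuation K z = y := by
  obtain ⟨π, hπ⟩ := v.valuation_exists_uniformizer K
  have hπ0 : π ≠ 0 := by
    rintro rfl
    rw [map_zero] at hπ
    exact WithZero.exp_ne_zero hπ.symm
  obtain ⟨n, hn⟩ : ∃ n : ℤ, y = exp n := ⟨WithZero.log _, (WithZero.exp_log hy).symm⟩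
  refine ⟨π ^ (-n), zpow_ne_zero _ hπ0, ?_⟩
  rw [map_zpow₀, hπ, hn, ← exp_zsmul]
  congr 1
  simp

/-- An element of even valuation is a square times a unit at v. -/
theorem exists_unit_at (v : HeightOneSpectrum (𝓞 K)) {a : K} (ha : a ≠ 0)
    (h : IsSquare (v.valuation K a)) : ∃ z : K, z ≠ 0 ∧ v.valuation K (a / z ^ 2) = 1 := by
  obtain ⟨y, hy⟩ := h
  have hy0 : y ≠ 0 := by
    rintro rfl
    rw [mul_zero] at hy
    exact (Valuation.ne_zero_iff _).mpr ha hy
  obtain ⟨z, hz0, hz⟩ := exists_val_eq v hy0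
  refine ⟨z, hz0, ?_⟩
  rw [map_div₀, map_pow, hz, hy, pow_two, div_self (mul_ne_zero hy0 hy0)]

/-- The product of two nonsquares is a square. -/
theorem isSquare_mul_of_not {x y : WithZero (Multiplicative ℤ)} (hx : ¬ IsSquare x)
    (hy : ¬ IsSquare y) : IsSquare (x * y) := by
  have hx0 : x ≠ 0 := by
    rintro rfl
    exact hx ⟨0, by simp⟩
  have hy0 : y ≠ 0 := by
    rintro rfl
    exact hy ⟨0, by simp⟩
  obtain ⟨n, hn⟩ : ∃ n : ℤ, x = exp n := ⟨WithZero.log _, (WithZero.exp_log hx0).symm⟩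
  obtain ⟨m, hm⟩ : ∃ n : ℤ, y = exp n := ⟨WithZero.log _, (WithZero.exp_log hy0).symm⟩
  have hn' : ¬ Even n := by
    rintro ⟨k, hk⟩
    exact hx ⟨exp k, by rw [hn, hk, exp_add]⟩
  have hm' : ¬ Even m := by
    rintro ⟨k, hk⟩
    exact hy ⟨exp k, by rw [hm, hk, exp_add]⟩
  rw [Int.not_even_iff_odd] at hn' hm'
  obtain ⟨k, hk⟩ := hn'.add_odd hm'
  exact ⟨exp k, by rw [hn, hm, ← exp_add, ← exp_add, hk]⟩

/-- At a place where v(q) is odd. -/
theorem near_at_odd {i q : K} (hi : i ^ 2 = -1) (hq0 : q ≠ 0) (v : HeightOneSpectrum (𝓞 K))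
    (hq : ¬ IsSquare (v.valuation K q)) {a : K} (ha : a ≠ 0)
    (h : HasPoint (algebraMap K (v.adicCompletion K) q) (algebraMap K (v.adicCompletion K) a)) :
    ∃ (j : ℕ) (g x : K), q ^ j * a = g ^ 2 * (1 + x) ∧ v.valuation K x < 1 := by
  have key : ∀ a : K, a ≠ 0 → IsSquare (v.valuation K a) →
      HasPoint (algebraMap K (v.adicCompletion K) q) (algebraMap K (v.adicCompletion K) a) →
      ∃ g x : K, a = g ^ 2 * (1 + x) ∧ v.valuation K x < 1 := by
    intro a ha hsq h
    obtain ⟨z, hz0, hz⟩ := exists_unit_at v ha hsq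
    have hz0' : algebraMap K (v.adicCompletion K) z ≠ 0 := (map_ne_zero _).mpr hz0
    have h1 := h.mul_sq (algebraMap K (v.adicCompletion K) z)⁻¹ (inv_ne_zero hz0')
    have e : algebraMap K (v.adicCompletion K) a * ((algebraMap K (v.adicCompletion K) z)⁻¹) ^ 2 =
        algebraMap K (v.adicCompletion K) (a / z ^ 2) := by
      rw [map_div₀, map_pow, inv_pow, div_eq_mul_inv]
    rw [e] at h1
    obtain ⟨G, hG1, hG⟩ := square_at_q (Valued.v : Valuation (v.adicCompletion K) _) _ _
      (by rw [val_completion]; exact hz) (by rw [val_completion]; exact hq) h1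
    have hu : Valued.v (algebraMap K (v.adicCompletion K) (a / z ^ 2)) = 1 := by
      rw [val_completion]; exact hz
    have hG0 : Valued.v G = 1 := by
      by_contra hne
      have hlt : Valued.v G < 1 := lt_of_le_of_ne hG1 hne
      have h2 : Valued.v (G ^ 2) < 1 := by
        rw [map_pow]
        exact pow_lt_one₀ zero_le hlt two_ne_zero
      have h3 : Valued.v (algebraMap K (v.adicCompletion K) (a / z ^ 2)) < 1 := by
        have e2 : algebraMap K (v.adicCompletion K) (a / z ^ 2) =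
          (algebraMap K (v.adicCompletion K) (a / z ^ 2) - G ^ 2) + G ^ 2 := by ring
        rw [e2]
        exact Valuation.map_add_lt _ hG h2
      rw [hu] at h3
      exact lt_irrefl _ h3
    have hG00 : G ≠ 0 := by
      rintro rfl
      rw [map_zero] at hG0
      exact zero_ne_one hG0
    obtain ⟨g, x, hg0, hgx, hx⟩ := exists_global v (a / z ^ 2) 1 (by rw [map_one]) G
      ((algebraMap K (v.adicCompletion K) (a / z ^ 2) - G ^ 2) / G ^ 2) hG00 (exp (-1 : ℤ))
      (zero_lt_iff.mpr WithZero.exp_ne_zero)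
      (by rw [← exp_zero, exp_le_exp]; norm_num)
      (by rw [map_one]; field_simp; ring)
      (by
        apply le_of_lt_one
        rw [map_div₀, map_pow, hG0, one_pow, div_one]
        exact hG)
    refine ⟨z * g, x, ?_, lt_of_le_of_lt hx (by rw [← exp_zero, exp_lt_exp]; norm_num)⟩
    have : a = z ^ 2 * (a / z ^ 2) := by field_simp
    rw [this, hgx]; ring
  by_cases hsq : IsSquare (v.valuation K a)
  · obtain ⟨g, x, h1, h2⟩ := key a ha hsq h
    exact ⟨0, g, x, by rw [pow_zero, one_mul]; exact h1, h2⟩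
  · have h3 : HasPoint (algebraMap K (v.adicCompletion K) q)
        (algebraMap K (v.adicCompletion K) (q * a)) := by
      rw [map_mul]
      exact h.mul_q (i := algebraMap K (v.adicCompletion K) i)
        (by rw [← map_pow, hi, map_neg, map_one]) ((map_ne_zero _).mpr hq0)
        ((map_ne_zero _).mpr ha)
    obtain ⟨g, x, h1, h2⟩ := key (q * a) (mul_ne_zero hq0 ha)
      (by rw [map_mul]; exact isSquare_mul_of_not hq hsq) h3
    exact ⟨1, g, x, by rw [pow_one]; exact h1, h2⟩

end Pool.Agent.MP009fd8Q4
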