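import Pool.Agent.Lib.MP_009fd8_ag.Q4Main
import Pool.Agent.Lib.MP_009fd8_ag.Q5Near

/-!
MP_009fd8_ag, QuarticTwists: the places above 2 for arbitrary classes in K.
-/

namespace Pool.Agent.MP009fd8Q4

open IsDedekindDomain NumberField WithZero
open Pool.Agent.MP009fd8

variable {K : Type*} [Field K] [NumberField K]

/-- At a place above 2, for an element of K that is a unit there. -/
theorem at_two_unit {i : 𝓞 K} (hi : i ^ 2 = -1) (v : HeightOneSpectrum (𝓞 K))
    (hv2 : (2 : 𝓞 K) ∈ v.asIdeal) (hv : 1 + i ∉ v.asIdeal ^ 2) {q c b t : 𝓞 K}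
    (hqv : q ∉ v.asIdeal)
    (hqc : 4 ∣ q - c ^ 4 * (1 + (1 + i) ^ 2 * b ^ 2 + (1 + i) ^ 3 * t)) (u : K)
    (hu : v.valuation K u = 1)
    (h : HasPoint (algebraMap K (v.adicCompletion K) (algebraMap (𝓞 K) K q))
      (algebraMap K (v.adicCompletion K) u)) :
    ∃ x : 𝓞 K, x ^ 4 + (1 + b ^ 2) * x ^ 2 + t * x ∈ v.asIdeal ∧
      ∀ y : 𝓞 K, x - y ∈ v.asIdeal → ∃ g w : K, g ≠ 0 ∧
        u = g ^ 2 * (algebraMap (𝓞 K) K (1 + (1 + i) * y) + w) ∧
        v.valuation K w ≤ v.valuation K (algebraMap (𝓞 K) K ((1 + i) ^ 3)) := by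
  have hval := val_one_add_i hi v hv2 hv
  set V : Valuation (v.adicCompletion K) (WithZero (Multiplicative ℤ)) := Valued.v with hV
  set φ : 𝓞 K →+* v.adicCompletion K :=
    (algebraMap K (v.adicCompletion K)).comp (algebraMap (𝓞 K) K) with hφ
  have hφa : ∀ x : 𝓞 K, φ x = algebraMap K (v.adicCompletion K) (algebraMap (𝓞 K) K x) :=
    fun x => rfl
  have hle : ∀ x : 𝓞 K, V (φ x) ≤ 1 := fun x => val_le_one v x
  have hlt : ∀ x : 𝓞 K, V (φ x) < 1 ↔ x ∈ v.asIdeal := fun x => val_lt_one_iff v x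
  have heq : ∀ x : 𝓞 K, V (φ x) = 1 ↔ x ∉ v.asIdeal := fun x => val_eq_one_iff v x
  have hp : V (1 + φ i) = exp (-1 : ℤ) := by
    have e : (1 : v.adicCompletion K) + φ i = φ (1 + i) := by rw [map_add, map_one]
    rw [e, hφa, hV, val_completion]
    exact hval
  have hp0 : V (1 + φ i) ≠ 0 := by rw [hp]; exact WithZero.exp_ne_zero
  have h4 : ∀ r : 𝓞 K, 4 ∣ r → V (φ r) ≤ V (1 + φ i) ^ 4 := by
    rintro r ⟨k, rfl⟩
    have e : (4 : 𝓞 K) * k = (1 + i) ^ 4 * (-k) := by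
      have : (1 + i) ^ 4 = -4 := by linear_combination (i ^ 2 + 4 * i + 5) * hi
      rw [this]; ring
    rw [e, map_mul, map_pow, map_add, map_one, map_mul, map_pow]
    calc V (1 + φ i) ^ 4 * V (φ (-k)) ≤ V (1 + φ i) ^ 4 * 1 := by
          gcongr
          exact hle _
      _ = _ := mul_one _
  have hdens : ∀ x : v.adicCompletion K, V x ≤ 1 → ∀ γ : WithZero (Multiplicative ℤ), 0 < γ →
      ∃ m : 𝓞 K, V (x - φ m) < γ := fun x hx γ hγ => exists_int_sub_lt v x hx γ hγ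
  have hc : c ∉ v.asIdeal := by
    intro hc
    apply hqv
    have h5 : (4 : 𝓞 K) ∈ v.asIdeal := by
      have : (4 : 𝓞 K) = 2 * 2 := by norm_num
      rw [this]; exact Ideal.mul_mem_left _ _ hv2
    have h6 : q - c ^ 4 * (1 + (1 + i) ^ 2 * b ^ 2 + (1 + i) ^ 3 * t) ∈ v.asIdeal :=
      Ideal.mem_of_dvd _ hqc h5
    have h7 : c ^ 4 * (1 + (1 + i) ^ 2 * b ^ 2 + (1 + i) ^ 3 * t) ∈ v.asIdeal :=
      Ideal.mul_mem_right _ _ (Ideal.pow_mem_of_mem _ hc 4 (by norm_num))
    have := Ideal.add_mem _ h6 h7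
    simpa using this
  have hp1 : V (1 + φ i) < 1 := by rw [hp, ← exp_zero, exp_lt_exp]; norm_num
  obtain ⟨x, hx1, hx2, hx3⟩ := at_two V (φ i) (φ q)
    (algebraMap K (v.adicCompletion K) u) (φ c) (φ b) (φ t)
    (by rw [← map_pow, hi, map_neg, map_one])
    hp1
    (by
      intro h0
      rw [h0, map_zero] at hp0
      exact hp0 rfl)
    (fun x hx => by rw [hp]; exact le_of_lt_one hx)
    (fun x hx => by
      obtain ⟨m, hm⟩ := hdens x hx 1 one_pos
      obtain ⟨k, hk⟩ := exists_sq_sub_mem v hv2 m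
      refine ⟨φ k, hle k, ?_⟩
      have e : x - φ k ^ 2 = (x - φ m) + φ (m - k ^ 2) := by
        rw [map_sub, map_pow]; ring
      rw [e]
      exact Valuation.map_add_lt _ hm ((hlt _).mpr hk))
    (by
      rw [hV, val_completion]
      exact hu)
    ((heq c).mpr hc) (hle b) (hle t)
    (by
      have e : φ q - φ c ^ 4 * (1 + (1 + φ i) ^ 2 * φ b ^ 2 + (1 + φ i) ^ 3 * φ t) =
          φ (q - c ^ 4 * (1 + (1 + i) ^ 2 * b ^ 2 + (1 + i) ^ 3 * t)) := by
        simp only [map_sub, map_mul, map_pow, map_add, map_one]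
      rw [e]
      exact h4 _ hqc)
    h
  obtain ⟨m, hm⟩ := hdens x hx1 1 one_pos
  refine ⟨m, ?_, ?_⟩
  · rw [← hlt]
    have e : φ (m ^ 4 + (1 + b ^ 2) * m ^ 2 + t * m) =
        (x ^ 4 + (1 + φ b ^ 2) * x ^ 2 + φ t * x) -
        (x - φ m) * (x ^ 3 + x ^ 2 * φ m + x * φ m ^ 2 + φ m ^ 3 + φ (1 + b ^ 2) * (x + φ m) +
          φ t) := by
      simp only [map_mul, map_pow, map_add, map_one]; ring
    rw [e]
    refine Valuation.map_sub_lt _ hx2 ?_
    rw [map_mul]
    have hmm := hle m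
    have ht := hle t
    calc _ ≤ V (x - φ m) * 1 := by
          gcongr
          refine Valuation.map_add_le _ (Valuation.map_add_le _
            (Valuation.map_add_le _ (Valuation.map_add_le _ (Valuation.map_add_le _ ?_ ?_) ?_)
              ?_) ?_) ht
          · rw [map_pow]; exact pow_le_one' hx1 3
          · rw [map_mul, map_pow]; exact mul_le_one' (pow_le_one' hx1 2) hmm
          · rw [map_mul, map_pow]; exact mul_le_one' hx1 (pow_le_one' hmm 2)
          · rw [map_pow]; exact pow_le_one' hmm 3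
          · rw [map_mul]; exact mul_le_one' (hle _) (Valuation.map_add_le _ hx1 hmm)
      _ < 1 := by rw [mul_one]; exact hm
  · intro y hy
    have hxy : V (x - φ y) < 1 := by
      have e : x - φ y = (x - φ m) + φ (m - y) := by rw [map_sub]; ring
      rw [e]
      exact Valuation.map_add_lt _ hm ((hlt _).mpr hy)
    obtain ⟨g, hg1, hg⟩ := hx3 (φ y) hxy
    have hg0 : g ≠ 0 := by
      rintro rfl
      rw [map_zero] at hg1
      exact zero_ne_one hg1
    have hγ : v.valuation K (algebraMap (𝓞 K) K ((1 + i) ^ 3)) = V (1 + φ i) ^ 3 := by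
      rw [map_pow, map_pow, hval, hp]
    rw [hγ]
    refine exists_global v u (algebraMap (𝓞 K) K (1 + (1 + i) * y)) (v.valuation_le_one _) g
      ((algebraMap K (v.adicCompletion K) u - g ^ 2 * (1 + (1 + φ i) * φ y)) / g ^ 2) hg0
      (V (1 + φ i) ^ 3) (pow_pos (zero_lt_iff.mpr hp0) 3) (pow_le_one' hp1.le 3) ?_ ?_
    · have e : algebraMap K (v.adicCompletion K) (algebraMap (𝓞 K) K (1 + (1 + i) * y)) =
          1 + (1 + φ i) * φ y := by
        rw [← hφa]; simp only [map_add, map_mul, map_one]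
      rw [e]
      field_simp
      ring
    · rw [map_div₀, map_pow, ← hV, hg1, one_pow, div_one]
      exact hg

/-- The element a of K has the class X at the places above 2. -/
def HasClassK (i : 𝓞 K) (a : K) (X : 𝓞 K ⧸ Ideal.span {1 + i}) : Prop :=
  ∀ y : 𝓞 K, Ideal.Quotient.mk (Ideal.span {1 + i}) y = X →
    ∀ v : HeightOneSpectrum (𝓞 K), (2 : 𝓞 K) ∈ v.asIdeal →
      ∃ g w : K, g ≠ 0 ∧ a = g ^ 2 * (algebraMap (𝓞 K) K (1 + (1 + i) * y) + w) ∧
        v.valuation K w ≤ v.valuation K (algebraMap (𝓞 K) K ((1 + i) ^ 3))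

/-- Every locally soluble class has a class at the places above 2, and this is a root of
y^4 + (1 + b^2) y^2 + t y. -/
theorem exists_classK {i : 𝓞 K} (hi : i ^ 2 = -1)
    (h2 : ∀ v : HeightOneSpectrum (𝓞 K), (2 : 𝓞 K) ∈ v.asIdeal → 1 + i ∉ v.asIdeal ^ 2)
    {q : 𝓞 K} (hqv : ∀ v : HeightOneSpectrum (𝓞 K), (2 : 𝓞 K) ∈ v.asIdeal → q ∉ v.asIdeal)
    {c b t : 𝓞 K}
    (hqc : 4 ∣ q - c ^ 4 * (1 + (1 + i) ^ 2 * b ^ 2 + (1 + i) ^ 3 * t)) (a : K) (ha : a ≠ 0)
    (h : LocallySoluble K (algebraMap (𝓞 K) K q) a) :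
    ∃ X : 𝓞 K ⧸ Ideal.span {1 + i},
      X ^ 4 + Ideal.Quotient.mk (Ideal.span {1 + i}) (1 + b ^ 2) * X ^ 2 +
        Ideal.Quotient.mk (Ideal.span {1 + i}) t * X = 0 ∧
      HasClassK i a X := by
  classical
  have hloc : ∀ v : HeightOneSpectrum (𝓞 K), (2 : 𝓞 K) ∈ v.asIdeal →
      ∃ x : 𝓞 K, x ^ 4 + (1 + b ^ 2) * x ^ 2 + t * x ∈ v.asIdeal ∧
      ∀ y : 𝓞 K, x - y ∈ v.asIdeal → ∃ g w : K, g ≠ 0 ∧
        a = g ^ 2 * (algebraMap (𝓞 K) K (1 + (1 + i) * y) + w) ∧
        v.valuation K w ≤ v.valuation K (algebraMap (𝓞 K) K ((1 + i) ^ 3)) := by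
    intro v hv
    have hsq : IsSquare (v.valuation K a) := by
      rw [← val_completion]
      refine isSquare_away _ _ _ ((map_ne_zero _).mpr ha) ?_ (h v)
      rw [val_completion]
      exact val_eq_one v (hqv v hv)
    obtain ⟨z, hz0, hz⟩ := exists_unit_at v ha hsq
    have hz0' : algebraMap K (v.adicCompletion K) z ≠ 0 := (map_ne_zero _).mpr hz0
    have h1 := (h v).mul_sq (algebraMap K (v.adicCompletion K) z)⁻¹ (inv_ne_zero hz0')
    have e : algebraMap K (v.adicCompletion K) a * ((algebraMap K (v.adicCompletion K) z)⁻¹) ^ 2 =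
        algebraMap K (v.adicCompletion K) (a / z ^ 2) := by
      rw [map_div₀, map_pow, inv_pow, div_eq_mul_inv]
    rw [e] at h1
    obtain ⟨x, hx1, hx2⟩ := at_two_unit hi v hv (h2 v hv) (hqv v hv) hqc (a / z ^ 2) hz h1
    refine ⟨x, hx1, fun y hy => ?_⟩
    obtain ⟨g, w, hg0, hgw, hw⟩ := hx2 y hy
    refine ⟨z * g, w, mul_ne_zero hz0 hg0, ?_, hw⟩
    have : a = z ^ 2 * (a / z ^ 2) := by field_simp
    rw [this, hgw]; ring
  choose! f hf1 hf2 using hloc
  have hfin : {v : HeightOneSpectrum (𝓞 K) | v.asIdeal ∣ Ideal.span {(2 : 𝓞 K)}}.Finite :=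
    Ideal.finite_factors (by
      rw [Ne, Submodule.zero_eq_bot, Ideal.span_singleton_eq_bot]; exact two_ne_zero)
  have hmem : ∀ v : HeightOneSpectrum (𝓞 K), (2 : 𝓞 K) ∈ v.asIdeal ↔ v ∈ hfin.toFinset := by
    intro v
    rw [Set.Finite.mem_toFinset, Set.mem_setOf_eq, Ideal.dvd_span_singleton]
  obtain ⟨x, hx⟩ := IsDedekindDomain.exists_forall_sub_mem_ideal
    (s := hfin.toFinset) (fun v : HeightOneSpectrum (𝓞 K) => v.asIdeal) (fun _ => 1)
    (fun v _ => v.prime) (fun v _ w _ hvw h' => hvw (HeightOneSpectrum.ext h'))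
    (fun v => f v)
  have hx' : ∀ v : HeightOneSpectrum (𝓞 K), (2 : 𝓞 K) ∈ v.asIdeal → x - f v ∈ v.asIdeal := by
    intro v hv
    have := hx v ((hmem v).mp hv)
    simpa using this
  have hroot : 1 + i ∣ x ^ 4 + (1 + b ^ 2) * x ^ 2 + t * x := by
    refine dvd_of_forall_mem hi h2 (fun v hv => ?_)
    have h3 := hf1 v hv
    have e : x ^ 4 + (1 + b ^ 2) * x ^ 2 + t * x =
        (f v ^ 4 + (1 + b ^ 2) * f v ^ 2 + t * f v) + (x - f v) *
        (x ^ 3 + x ^ 2 * f v + x * f v ^ 2 + f v ^ 3 + (1 + b ^ 2) * (x + f v) + t) := by ring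
    rw [e]
    exact Ideal.add_mem _ h3 (Ideal.mul_mem_right _ _ (hx' v hv))
  refine ⟨Ideal.Quotient.mk _ x, ?_, ?_⟩
  · rw [← map_pow, ← map_pow, ← map_mul, ← map_mul, ← map_add, ← map_add,
      Ideal.Quotient.eq_zero_iff_mem, Ideal.mem_span_singleton]
    exact hroot
  · intro y hy v hv
    apply hf2 v hv
    rw [Ideal.Quotient.eq, Ideal.mem_span_singleton] at hy
    have hpv : 1 + i ∈ v.asIdeal := by
      have h1 : (1 + i) ^ 2 = 2 * i := by linear_combination hi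
      have h3 : (1 + i) ^ 2 ∈ v.asIdeal := by
        rw [h1]; exact Ideal.mul_mem_right _ _ hv
      exact v.isPrime.mem_of_pow_mem 2 h3
    have h3 : y - x ∈ v.asIdeal := Ideal.mem_of_dvd _ hy hpv
    have e : f v - y = -((y - x) + (x - f v)) := by ring
    rw [e]
    exact neg_mem (Ideal.add_mem _ h3 (hx' v hv))

/-- The product of two locally soluble classes with the same class at 2 is strict. -/
theorem strict_mul {i : 𝓞 K} (hi : i ^ 2 = -1)
    {q : 𝓞 K} (hq0 : q ≠ 0) {a a' : K} (ha : a ≠ 0) (ha' : a' ≠ 0)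
    (h : LocallySoluble K (algebraMap (𝓞 K) K q) a)
    (h' : LocallySoluble K (algebraMap (𝓞 K) K q) a')
    (X : 𝓞 K ⧸ Ideal.span {1 + i}) (hX : HasClassK i a X) (hX' : HasClassK i a' X) :
    StrictSelmer i q (a * a') := by
  have hq0K : algebraMap (𝓞 K) K q ≠ 0 := by simpa using hq0
  have hiK : (algebraMap (𝓞 K) K i) ^ 2 = -1 := by
    rw [← map_pow, hi, map_neg, map_one]
  refine ⟨?_, ?_, ?_⟩
  · intro v hv
    have key : ∀ b : K, b ≠ 0 → LocallySoluble K (algebraMap (𝓞 K) K q) b →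
        IsSquare (v.valuation K b) := by
      intro b hb hsol
      rw [← val_completion]
      refine isSquare_away _ _ _ ((map_ne_zero _).mpr hb) ?_ (hsol v)
      rw [val_completion]
      exact val_eq_one v hv
    rw [map_mul]
    exact (key a ha h).mul (key a' ha' h')
  · intro v hv
    obtain ⟨j, g, x, h1, hx⟩ := near_at_odd hiK hq0K v hv ha (h v)
    obtain ⟨j', g', x', h1', hx'⟩ := near_at_odd hiK hq0K v hv ha' (h' v)
    refine ⟨j + j', g * g', x + x' + x * x', ?_, ?_⟩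
    · have e : algebraMap (𝓞 K) K q ^ (j + j') * (a * a') =
          (algebraMap (𝓞 K) K q ^ j * a) * (algebraMap (𝓞 K) K q ^ j' * a') := by
        rw [pow_add]; ring
      rw [e, h1, h1']; ring
    · refine Valuation.map_add_lt _ (Valuation.map_add_lt _ hx hx') ?_
      rw [map_mul]
      exact mul_lt_one_of_lt_of_le hx hx'.le
  · intro v hv
    obtain ⟨y, hy⟩ := Ideal.Quotient.mk_surjective X
    obtain ⟨g, w, hg0, hgw, hw⟩ := hX y hy v hv
    obtain ⟨g', w', hg0', hgw', hw'⟩ := hX' y hy v hv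
    set B := algebraMap (𝓞 K) K (1 + (1 + i) * y) with hB
    have hBv : v.valuation K B = 1 := by
      apply val_eq_one
      intro hmem
      have hpv : 1 + i ∈ v.asIdeal := by
        have h1 : (1 + i) ^ 2 = 2 * i := by linear_combination hi
        have h3 : (1 + i) ^ 2 ∈ v.asIdeal := by
          rw [h1]; exact Ideal.mul_mem_right _ _ hv
        exact v.isPrime.mem_of_pow_mem 2 h3
      have h3 : (1 : 𝓞 K) ∈ v.asIdeal := by
        have e : (1 : 𝓞 K) = (1 + (1 + i) * y) - (1 + i) * y := by ring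
        rw [e]
        exact Ideal.sub_mem _ hmem (Ideal.mul_mem_right _ _ hpv)
      exact v.isPrime.ne_top ((Ideal.eq_top_iff_one _).mpr h3)
    have hB0 : B ≠ 0 := by
      intro h0
      rw [h0, map_zero] at hBv
      exact zero_ne_one hBv
    have hγ1 : v.valuation K (algebraMap (𝓞 K) K ((1 + i) ^ 3)) ≤ 1 := v.valuation_le_one _
    refine ⟨g * g' * B, (B * (w + w') + w * w') / B ^ 2, ?_, ?_⟩
    · rw [hgw, hgw']
      field_simp
      ring
    · rw [map_div₀, map_pow, hBv, one_pow, div_one]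
      refine Valuation.map_add_le _ ?_ ?_
      · rw [map_mul, hBv, one_mul]
        exact Valuation.map_add_le _ hw hw'
      · rw [map_mul]
        calc _ ≤ v.valuation K w * 1 := by
              gcongr
              exact hw'.trans hγ1
          _ ≤ _ := by rw [mul_one]; exact hw

end Pool.Agent.MP009fd8Q4
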