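import Pool.Agent.Lib.MP_009fd8_ag.Q5Loc

/-!
MP_009fd8_ag, QuarticTwists: assembly for arbitrary q prime to 2.
-/

namespace Pool.Agent.MP009fd8Q4

open IsDedekindDomain NumberField WithZero
open Pool.Agent.MP009fd8

variable {K : Type*} [Field K] [NumberField K]

/-- SameClass from an equation. -/
theorem sameClass_of_pow {q a b : K} (hq : q ≠ 0) (j : ℕ) (s : K) (hs : s ≠ 0)
    (h : a = q ^ j * b * s ^ 2) : SameClass q a b := by
  rcases Nat.even_or_odd' j with ⟨k, rfl | rfl⟩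
  · refine ⟨q ^ k * s, mul_ne_zero (pow_ne_zero _ hq) hs, Or.inl ?_⟩
    rw [h]; ring
  · refine ⟨q ^ k * s, mul_ne_zero (pow_ne_zero _ hq) hs, Or.inr ?_⟩
    rw [h]; ring

theorem SameClass.exists_pow {q a b : K} (h : SameClass q a b) :
    ∃ (j : ℕ) (s : K), s ≠ 0 ∧ a = q ^ j * b * s ^ 2 := by
  obtain ⟨s, hs, h1 | h1⟩ := h
  · exact ⟨0, s, hs, by rw [h1]; ring⟩
  · exact ⟨1, s, hs, by rw [h1]; ring⟩

/-- The bound for the number of locally soluble classes. -/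
theorem card_leK {i : 𝓞 K} (hi : i ^ 2 = -1)
    (h2 : ∀ v : HeightOneSpectrum (𝓞 K), (2 : 𝓞 K) ∈ v.asIdeal → 1 + i ∉ v.asIdeal ^ 2)
    {q : 𝓞 K} (hq0' : q ≠ 0)
    (hqv : ∀ v : HeightOneSpectrum (𝓞 K), (2 : 𝓞 K) ∈ v.asIdeal → q ∉ v.asIdeal)
    {c b t : 𝓞 K}
    (hqc : 4 ∣ q - c ^ 4 * (1 + (1 + i) ^ 2 * b ^ 2 + (1 + i) ^ 3 * t)) (R : Finset K)
    (hR : CoversStrict i q R) (S : Finset K)
    (hS : ∀ a ∈ S, a ≠ 0 ∧ LocallySoluble K (algebraMap (𝓞 K) K q) a)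
    (hSne : ∀ a ∈ S, ∀ a' ∈ S, a ≠ a' → ¬ SameClass (algebraMap (𝓞 K) K q) a a') :
    S.card ≤ rootCount i b t * R.card := by
  classical
  have hq0 : algebraMap (𝓞 K) K q ≠ 0 := by simpa using hq0'
  have hp0 : (1 + i : 𝓞 K) ≠ 0 := by
    intro h0
    have h1 : (1 + i) ^ 2 = 2 * i := by linear_combination hi
    rw [h0, zero_pow two_ne_zero] at h1
    have hi0 : i ≠ 0 := by
      rintro rfl
      simp at hi
    rcases mul_eq_zero.1 h1.symm with h3 | h3
    · exact two_ne_zero h3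
    · exact hi0 h3
  have hfinq : Finite (𝓞 K ⧸ Ideal.span {1 + i}) :=
    Ideal.finiteQuotientOfFreeOfNeBot _ (by
      rw [Ne, Ideal.span_singleton_eq_bot]; exact hp0)
  set T := {y : 𝓞 K ⧸ Ideal.span {1 + i} //
    y ^ 4 + Ideal.Quotient.mk (Ideal.span {1 + i}) (1 + b ^ 2) * y ^ 2 +
      Ideal.Quotient.mk (Ideal.span {1 + i}) t * y = 0} with hT
  have hfinT : Finite T := Subtype.finite
  have hfty : Fintype T := Fintype.ofFinite T
  have hdata : ∀ a ∈ S, ∃ X : T, HasClassK i a X.1 := by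
    intro a ha
    obtain ⟨X, hX1, hX2⟩ := exists_classK hi h2 hqv hqc a (hS a ha).1 (hS a ha).2
    exact ⟨⟨X, hX1⟩, hX2⟩
  have hTne : Nonempty T := ⟨⟨0, by simp⟩⟩
  choose! X hX using hdata
  by_contra hlt
  push Not at hlt
  have hcardT : rootCount i b t = (Finset.univ : Finset T).card := by
    rw [Finset.card_univ, rootCount, Nat.card_eq_fintype_card]
  rw [hcardT] at hlt
  obtain ⟨X0, _, hX0⟩ := Finset.exists_lt_card_fiber_of_mul_lt_card_of_maps_to
    (f := X) (fun a _ => Finset.mem_univ (X a)) hlt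
  set S' := S.filter (fun a => X a = X0) with hS'
  have hS'ne : S'.Nonempty := by
    rw [← Finset.card_pos]
    exact lt_of_le_of_lt (Nat.zero_le _) hX0
  obtain ⟨a0, ha0⟩ := hS'ne
  rw [hS', Finset.mem_filter] at ha0
  have ha00 : a0 ≠ 0 := (hS a0 ha0.1).1
  have hrep : ∀ a ∈ S', ∃ r ∈ R, SameClass (algebraMap (𝓞 K) K q) (a * a0) r := by
    intro a ha
    rw [hS', Finset.mem_filter] at ha
    refine hR _ (mul_ne_zero (hS a ha.1).1 ha00) ?_
    refine strict_mul hi hq0' (hS a ha.1).1 ha00 (hS a ha.1).2 (hS a0 ha0.1).2 X0.1 ?_ ?_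
    · have := hX a ha.1
      rwa [ha.2] at this
    · have := hX a0 ha0.1
      rwa [ha0.2] at this
  choose! r hrR hrsq using hrep
  obtain ⟨a, ha, b, hb, hab, hrab⟩ := Finset.exists_ne_map_eq_of_card_lt_of_maps_to
    hX0 (f := r) (fun a ha => hrR a ha)
  have ha' : a ∈ S := (Finset.mem_filter.mp ha).1
  have hb' : b ∈ S := (Finset.mem_filter.mp hb).1
  apply hSne a ha' b hb' hab
  obtain ⟨j, s, hs, hjs⟩ := (hrsq a ha).exists_pow
  obtain ⟨k, s', hs', hks⟩ := (hrsq b hb).exists_pow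
  rw [← hrab] at hks
  have hb0 : b ≠ 0 := (hS b hb').1
  have ha0' : a ≠ 0 := (hS a ha').1
  have hr0 : r a ≠ 0 := by
    intro h0
    rw [h0, mul_zero, zero_mul] at hjs
    exact mul_ne_zero ha0' ha00 hjs
  set Q := algebraMap (𝓞 K) K q with hQ
  refine sameClass_of_pow hq0 (j + k) (s / (Q ^ k * s'))
    (div_ne_zero hs (mul_ne_zero (pow_ne_zero _ hq0) hs')) ?_
  have h5 : a * (b * a0) = b * (a * a0) := by ring
  rw [hjs, hks] at h5
  have h6 : a * (Q ^ k * s' ^ 2) = b * (Q ^ j * s ^ 2) := by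
    apply mul_right_cancel₀ hr0
    linear_combination h5
  rw [div_pow, pow_add]
  field_simp
  linear_combination h6

/-- The Hasse principle for the coverings, when there are enough rational points. -/
theorem hasseK {i : 𝓞 K} (hi : i ^ 2 = -1)
    (h2 : ∀ v : HeightOneSpectrum (𝓞 K), (2 : 𝓞 K) ∈ v.asIdeal → 1 + i ∉ v.asIdeal ^ 2)
    {q : 𝓞 K} (hq0' : q ≠ 0)
    (hqv : ∀ v : HeightOneSpectrum (𝓞 K), (2 : 𝓞 K) ∈ v.asIdeal → q ∉ v.asIdeal)
    {c b t : 𝓞 K}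
    (hqc : 4 ∣ q - c ^ 4 * (1 + (1 + i) ^ 2 * b ^ 2 + (1 + i) ^ 3 * t)) (R : Finset K)
    (hR : CoversStrict i q R) (P : Finset K)
    (hP : ∀ a ∈ P, a ≠ 0 ∧ HasPoint (algebraMap (𝓞 K) K q) a)
    (hPne : ∀ a ∈ P, ∀ a' ∈ P, a ≠ a' → ¬ SameClass (algebraMap (𝓞 K) K q) a a')
    (hcard : rootCount i b t * R.card ≤ P.card) (a : K) (ha : a ≠ 0)
    (h : LocallySoluble K (algebraMap (𝓞 K) K q) a) :
    ∃ a' ∈ P, SameClass (algebraMap (𝓞 K) K q) a a' := by
  classical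
  have hq0 : algebraMap (𝓞 K) K q ≠ 0 := by simpa using hq0'
  by_contra hno
  push Not at hno
  have haP : a ∉ P := fun hmem => hno a hmem ⟨1, one_ne_zero, Or.inl (by ring)⟩
  have := card_leK hi h2 hq0' hqv hqc R hR (insert a P) (by
      intro b hb
      rcases Finset.mem_insert.mp hb with rfl | hb
      · exact ⟨ha, h⟩
      · exact ⟨(hP b hb).1, LocallySoluble.of_hasPoint (hP b hb).2⟩) (by
      intro b hb b' hb' hbb'
      rcases Finset.mem_insert.mp hb with h3 | h3 <;>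
        rcases Finset.mem_insert.mp hb' with h4 | h4
      · exact absurd (h3.trans h4.symm) hbb'
      · rw [h3]
        exact hno b' h4
      · intro hs
        rw [h4] at hs
        exact hno b h3 (hs.symm hq0)
      · exact hPne b h3 b' h4 hbb')
  rw [Finset.card_insert_of_notMem haP] at this
  omega

end Pool.Agent.MP009fd8Q4
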