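import Pool.Agent.Lib.MP_009fd8_ag.Q5Main

/-!
MP_009fd8_ag, QuarticTwists: products of many primes.
-/

namespace Pool.Agent.MP009fd8Q4

open IsDedekindDomain NumberField WithZero
open Pool.Agent.MP009fd8

variable {K : Type*} [Field K] [NumberField K]

section Squares

variable {O : Type*} [CommRing O]

theorem sq_mul {p x y : O} (h : ∃ m, p ∣ x - m ^ 2) (h' : ∃ m, p ∣ y - m ^ 2) :
    ∃ m, p ∣ x * y - m ^ 2 := by
  obtain ⟨m, hm⟩ := h
  obtain ⟨n, hn⟩ := h'
  refine ⟨m * n, ?_⟩
  have e : x * y - (m * n) ^ 2 = (x - m ^ 2) * n ^ 2 + (y - n ^ 2) * x := by ring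
  rw [e]
  exact dvd_add (Dvd.dvd.mul_right hm _) (Dvd.dvd.mul_right hn _)

theorem sq_prod {p : O} (U : Finset ℕ) (f : ℕ → O) (h : ∀ k ∈ U, ∃ m, p ∣ f k - m ^ 2) :
    ∃ m, p ∣ ∏ k ∈ U, f k - m ^ 2 := by
  classical
  induction U using Finset.induction_on with
  | empty => exact ⟨1, by simp⟩
  | insert a U ha ih =>
    rw [Finset.prod_insert ha]
    exact sq_mul (h a (Finset.mem_insert_self _ _))
      (ih (fun k hk => h k (Finset.mem_insert_of_mem hk)))

end Squares

theorem sq_cancel {p : 𝓞 K} (hp : Prime p) {x y : 𝓞 K} (h : ∃ m, p ∣ x * y - m ^ 2)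
    (h' : ∃ m, p ∣ y - m ^ 2) (hy : ¬ p ∣ y) : ∃ m, p ∣ x - m ^ 2 := by
  obtain ⟨m, hm⟩ := h
  obtain ⟨n, hn⟩ := h'
  have hn0 : n ∉ (placeOf p hp).asIdeal := by
    rw [mem_placeOf]
    intro hd
    apply hy
    have e : y = (y - n ^ 2) + n * n := by ring
    rw [e]
    exact dvd_add hn (Dvd.dvd.mul_right hd _)
  obtain ⟨n', k, hk, hnk⟩ := (placeOf p hp).isMaximal.exists_inv hn0
  rw [mem_placeOf] at hk
  refine ⟨n' * m, ?_⟩
  have e : x - (n' * m) ^ 2 = k * (x * (1 + n' * n)) + (x * y - m ^ 2) * n' ^ 2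
      - (y - n ^ 2) * (x * n' ^ 2) := by
    linear_combination (-x * (1 + n' * n)) * hnk
  rw [e]
  exact dvd_sub (dvd_add (Dvd.dvd.mul_right hk _) (Dvd.dvd.mul_right hm _))
    (Dvd.dvd.mul_right hn _)

/-- An integer that is a square up to a factor close to 1 is a square modulo v^n. -/
theorem sq_mod_of_near (v : HeightOneSpectrum (𝓞 K)) {x : 𝓞 K} (hx : x ∉ v.asIdeal)
    {g y : K} (n : ℕ) (hn : n ≠ 0) (h : algebraMap (𝓞 K) K x = g ^ 2 * (1 + y))
    (hy : v.valuation K y ≤ exp (-(n : ℤ))) : ∃ m : 𝓞 K, x - m ^ 2 ∈ v.asIdeal ^ n := by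
  have hexp : exp (-(n : ℤ)) < (1 : WithZero (Multiplicative ℤ)) := by
    rw [← exp_zero, exp_lt_exp]
    have : (0 : ℤ) < n := by exact_mod_cast Nat.pos_of_ne_zero hn
    omega
  have hvx : v.valuation K (algebraMap (𝓞 K) K x) = 1 := val_eq_one v hx
  have h1y : v.valuation K (1 + y) = 1 := by
    rw [Valuation.map_add_eq_of_lt_left]
    · exact map_one _
    · rw [map_one]; exact lt_of_le_of_lt hy hexp
  have hg : v.valuation K g = 1 := by
    rw [h, map_mul, map_pow, h1y, mul_one] at hvx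
    exact (pow_eq_one_iff_of_nonneg zero_le two_ne_zero).1 hvx
  obtain ⟨m, hm⟩ := v.exists_valuation_sub_lt_of_integer (K := K) hg.le
    (Units.mk0 (exp (-(n : ℤ))) WithZero.exp_ne_zero)
  refine ⟨m, ?_⟩
  have hm' : v.valuation K (g - algebraMap (𝓞 K) K m) ≤ exp (-(n : ℤ)) := by
    rw [Valuation.map_sub_swap]
    exact le_of_lt (by simpa using hm)
  rw [← HeightOneSpectrum.intValuation_le_pow_iff_mem,
    ← HeightOneSpectrum.valuation_of_algebraMap (K := K)]
  have e : algebraMap (𝓞 K) K (x - m ^ 2) = g ^ 2 * y +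
      (g - algebraMap (𝓞 K) K m) * (g + algebraMap (𝓞 K) K m) := by
    rw [map_sub, h, map_pow]; ring
  change v.valuation K (algebraMap (𝓞 K) K (x - m ^ 2)) ≤ _
  rw [e]
  refine Valuation.map_add_le _ ?_ ?_
  · rw [map_mul, map_pow, hg, one_pow, one_mul]
    exact hy
  · rw [map_mul]
    calc _ ≤ v.valuation K (g - algebraMap (𝓞 K) K m) * 1 := by
          gcongr
          exact Valuation.map_add_le _ hg.le (v.valuation_le_one m)
      _ ≤ _ := by rw [mul_one]; exact hm'

/-- q is a square up to a factor 1 + x with x divisible by (1 + i)^3, at the places above 2. -/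
theorem near_q {i : 𝓞 K} (hi : i ^ 2 = -1) {q c b t : 𝓞 K}
    (hqc : 4 ∣ q - c ^ 4 * (1 + (1 + i) ^ 2 * b ^ 2 + (1 + i) ^ 3 * t))
    (v : HeightOneSpectrum (𝓞 K)) (hv : (2 : 𝓞 K) ∈ v.asIdeal) (hqv : q ∉ v.asIdeal) :
    ∃ g x : K, algebraMap (𝓞 K) K q = g ^ 2 * (1 + x) ∧
      v.valuation K x ≤ v.valuation K (algebraMap (𝓞 K) K ((1 + i) ^ 3)) := by
  have hpv : 1 + i ∈ v.asIdeal := by
    have h1 : (1 + i) ^ 2 = 2 * i := by linear_combination hi
    have h3 : (1 + i) ^ 2 ∈ v.asIdeal := by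
      rw [h1]; exact Ideal.mul_mem_right _ _ hv
    exact v.isPrime.mem_of_pow_mem 2 h3
  obtain ⟨z, hz⟩ := hqc
  set h := c ^ 2 * (1 + (1 + i) * b) with hh
  -- q - h^2 is divisible by (1 + i)^3
  have hd : q - h ^ 2 = (1 + i) ^ 3 * (c ^ 4 * (t + i * b) - (1 + i) * z) := by
    have e2 : (2 : 𝓞 K) * (1 + i) = -i * (1 + i) ^ 3 := by
      linear_combination (2 * i + 2 + i * (i + 1)) * hi
    have e4 : (4 : 𝓞 K) = -(1 + i) ^ 4 := by
      linear_combination (i ^ 2 + 4 * i + 5) * hi
    have hz' : q = c ^ 4 * (1 + (1 + i) ^ 2 * b ^ 2 + (1 + i) ^ 3 * t) + 4 * z := by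
      linear_combination hz
    rw [hz', hh]
    linear_combination (-(c ^ 4 * b)) * e2 + z * e4
  have hhv : h ∉ v.asIdeal := by
    intro hmem
    apply hqv
    have e : q = (q - h ^ 2) + h * h := by ring
    rw [e, hd]
    refine Ideal.add_mem _ (Ideal.mul_mem_right _ _ (Ideal.pow_mem_of_mem _ hpv 3 (by norm_num)))
      (Ideal.mul_mem_right _ _ hmem)
  have hh0 : algebraMap (𝓞 K) K h ≠ 0 := by
    intro h0
    have : h = 0 := by
      rwa [FaithfulSMul.algebraMap_eq_zero_iff] at h0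
    rw [this] at hhv
    exact hhv (Ideal.zero_mem _)
  refine ⟨algebraMap (𝓞 K) K h, algebraMap (𝓞 K) K (q - h ^ 2) / algebraMap (𝓞 K) K h ^ 2, ?_, ?_⟩
  · rw [map_sub, map_pow]
    field_simp
    ring
  · rw [map_div₀, map_pow, val_eq_one v hhv, one_pow, div_one, hd, map_mul, map_mul]
    calc _ ≤ v.valuation K (algebraMap (𝓞 K) K ((1 + i) ^ 3)) * 1 := by
          gcongr
          exact v.valuation_le_one _
      _ = _ := mul_one _

/-- ManyPrimes gives the covering by R. -/
theorem covers_of_manyPrimes {i : 𝓞 K} (hi : i ^ 2 = -1)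
    (h2 : ∀ v : HeightOneSpectrum (𝓞 K), (2 : 𝓞 K) ∈ v.asIdeal → 1 + i ∉ v.asIdeal ^ 2)
    {q : 𝓞 K} (hqv : ∀ v : HeightOneSpectrum (𝓞 K), (2 : 𝓞 K) ∈ v.asIdeal → q ∉ v.asIdeal)
    {c b t : 𝓞 K}
    (hqc : 4 ∣ q - c ^ 4 * (1 + (1 + i) ^ 2 * b ^ 2 + (1 + i) ^ 3 * t)) (R : Finset K)
    (hM : ManyPrimes q R) : CoversStrict i q R := by
  classical
  obtain ⟨hclass, s, p, hqp, hprime, hndvd, hgraph, hunits⟩ := hM
  intro A hA ⟨hsa, hsb, hsc⟩
  set T := (Finset.range s).filter (fun j => ∃ h : j < s,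
    ¬ IsSquare ((placeOf (p j) (hprime j h)).valuation K A)) with hT
  have hTs : T ⊆ Finset.range s := Finset.filter_subset _ _
  have hmemT : ∀ j (hj : j < s), j ∈ T ↔
      ¬ IsSquare ((placeOf (p j) (hprime j hj)).valuation K A) := by
    intro j hj
    rw [hT, Finset.mem_filter, Finset.mem_range]
    exact ⟨fun h => h.2.2, fun h => ⟨hj, hj, h⟩⟩
  -- valuations of products of the p_k
  have hval : ∀ (U : Finset ℕ), U ⊆ Finset.range s → ∀ j (hj : j < s),
      (placeOf (p j) (hprime j hj)).valuation K (algebraMap (𝓞 K) K (∏ k ∈ U, p k)) =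
        if j ∈ U then exp (-1 : ℤ) else 1 := by
    intro U hU j hj
    rw [map_prod, map_prod]
    have hone : ∀ k ∈ U, k ≠ j →
        (placeOf (p j) (hprime j hj)).valuation K (algebraMap (𝓞 K) K (p k)) = 1 := by
      intro k hk hkj
      apply val_eq_one
      rw [mem_placeOf]
      exact hndvd j hj k (Finset.mem_range.mp (hU hk)) (Ne.symm hkj)
    split_ifs with hjU
    · rw [Finset.prod_eq_single j (fun k hk hkj => hone k hk hkj) (fun h => absurd hjU h)]
      exact val_self (hprime j hj)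
    · exact Finset.prod_eq_one (fun k hk => hone k hk (fun h => hjU (h ▸ hk)))
  have hvalout : ∀ (U : Finset ℕ), U ⊆ Finset.range s → ∀ v : HeightOneSpectrum (𝓞 K),
      q ∉ v.asIdeal → v.valuation K (algebraMap (𝓞 K) K (∏ k ∈ U, p k)) = 1 := by
    intro U hU v hv
    apply val_eq_one
    intro hmem
    apply hv
    rw [hqp]
    exact Ideal.mem_of_dvd _ (Finset.prod_dvd_prod_of_subset _ _ _ hU) hmem
  have hq0 : q ≠ 0 := by
    rw [hqp, Finset.prod_ne_zero_iff]
    intro k hk
    exact (hprime k (Finset.mem_range.mp hk)).ne_zero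
  have hprod0 : ∀ (U : Finset ℕ), U ⊆ Finset.range s →
      algebraMap (𝓞 K) K (∏ k ∈ U, p k) ≠ 0 := by
    intro U hU
    rw [Ne, FaithfulSMul.algebraMap_eq_zero_iff]
    rw [← Ne, Finset.prod_ne_zero_iff]
    intro k hk
    exact (hprime k (Finset.mem_range.mp (hU hk))).ne_zero
  set Q := algebraMap (𝓞 K) K q with hQ
  have hQ0 : Q ≠ 0 := by rw [hQ, Ne, FaithfulSMul.algebraMap_eq_zero_iff]; exact hq0
  -- the product A * P_T
  obtain ⟨u, r, hr, hur⟩ := exists_unit_mul_sq hclass
    (A * algebraMap (𝓞 K) K (∏ k ∈ T, p k)) (mul_ne_zero hA (hprod0 T hTs)) (by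
      intro v
      by_cases hv : q ∈ v.asIdeal
      · rw [hqp] at hv
        obtain ⟨j, hj, hjv⟩ := (Ideal.IsPrime.prod_mem_iff (hp := v.isPrime)).mp hv
        have hj' : j < s := Finset.mem_range.mp hj
        have hvj : v = placeOf (p j) (hprime j hj') := by
          by_contra hne
          exact notMem_of_ne (hprime j hj') hne hjv
        rw [hvj, map_mul, hval T hTs j hj']
        by_cases hjT : j ∈ T
        · rw [if_pos hjT]
          exact isSquare_mul_of_not ((hmemT j hj').mp hjT) not_isSquare_exp_neg_one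
        · rw [if_neg hjT, mul_one]
          have := (not_congr (hmemT j hj')).mp hjT
          rwa [not_not] at this
      · rw [map_mul, hvalout T hTs v hv, mul_one]
        exact hsa v hv)
  have hu0 : algebraMap (𝓞 K) K (u : 𝓞 K) ≠ 0 := by simp
  -- complementary products
  set T' := Finset.range s \ T with hT'
  have hT's : T' ⊆ Finset.range s := Finset.sdiff_subset
  have hTT' : algebraMap (𝓞 K) K (∏ k ∈ T, p k) * algebraMap (𝓞 K) K (∏ k ∈ T', p k) = Q := by
    rw [← map_mul, hQ, hqp, hT', mul_comm, Finset.prod_sdiff hTs]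
  -- u times the product over the set not containing j is a square modulo p_j
  have hloc : ∀ j, j < s → ∀ U : Finset ℕ, (U = T ∧ j ∉ T ∨ U = T' ∧ j ∈ T) →
      ∃ m : 𝓞 K, p j ∣ ((u : 𝓞 K) * ∏ k ∈ U, p k) - m ^ 2 := by
    intro j hj U hU
    set v := placeOf (p j) (hprime j hj) with hv
    have hvq : v.valuation K Q = exp (-1 : ℤ) := by
      rw [hQ, hqp, hval _ (Finset.Subset.refl _) j hj, if_pos (Finset.mem_range.mpr hj)]
    obtain ⟨n, g, x, hgx, hx⟩ := hsb v (by rw [hvq]; exact not_isSquare_exp_neg_one)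
    have h1x : v.valuation K (1 + x) = 1 := by
      rw [Valuation.map_add_eq_of_lt_left]
      · exact map_one _
      · rw [map_one]; exact hx
    have hsqn : IsSquare (v.valuation K (Q ^ n * A)) := by
      rw [hgx, map_mul, h1x, mul_one, map_pow]
      exact IsSquare.sq _
    have hx' : v.valuation K x ≤ exp (-((1 : ℕ) : ℤ)) := by
      have := le_of_lt_one hx
      simpa using this
    have hfin : ∀ U : Finset ℕ, U ⊆ Finset.range s → j ∉ U → ∀ G : K,
        algebraMap (𝓞 K) K ((u : 𝓞 K) * ∏ k ∈ U, p k) = G ^ 2 * (1 + x) →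
        ∃ m : 𝓞 K, p j ∣ ((u : 𝓞 K) * ∏ k ∈ U, p k) - m ^ 2 := by
      intro U hUs hjU G hG
      have hnot : (u : 𝓞 K) * ∏ k ∈ U, p k ∉ v.asIdeal := by
        rw [← v.valuation_eq_one_iff_notMem (K := K), map_mul, map_mul, val_unit, one_mul,
          hval U hUs j hj, if_neg hjU]
      obtain ⟨m, hm⟩ := sq_mod_of_near v hnot 1 one_ne_zero hG hx'
      rw [pow_one, hv, mem_placeOf] at hm
      exact ⟨m, hm⟩
    rcases hU with ⟨rfl, hjT⟩ | ⟨rfl, hjT⟩
    · -- n is even
      have hAsq : IsSquare (v.valuation K A) := by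
        have := (not_congr (hmemT j hj)).mp hjT
        rwa [not_not] at this
      have hne : Even n := by
        by_contra hodd
        rw [Nat.not_even_iff_odd] at hodd
        obtain ⟨k, rfl⟩ := hodd
        have hv0 : v.valuation K A ≠ 0 := (Valuation.ne_zero_iff _).mpr hA
        have hQv0 : v.valuation K Q ≠ 0 := (Valuation.ne_zero_iff _).mpr hQ0
        apply not_isSquare_exp_neg_one
        rw [← hvq]
        have e : v.valuation K Q = v.valuation K (Q ^ (2 * k + 1) * A) /
            (v.valuation K A * (v.valuation K Q ^ k) ^ 2) := by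
          rw [eq_div_iff (mul_ne_zero hv0 (pow_ne_zero _ (pow_ne_zero _ hQv0))), map_mul,
            map_pow, ← pow_mul, pow_succ, mul_comm k 2]
          ac_rfl
        rw [e]
        exact hsqn.div (hAsq.mul (IsSquare.sq _))
      obtain ⟨k, rfl⟩ := hne
      have hU0 := hprod0 T hTs
      refine hfin T hTs hjT (g * algebraMap (𝓞 K) K (∏ k ∈ T, p k) / (Q ^ k * r)) ?_
      rw [map_mul]
      rw [pow_add] at hgx
      have e1 : algebraMap (𝓞 K) K (u : 𝓞 K) =
          A * algebraMap (𝓞 K) K (∏ k ∈ T, p k) / r ^ 2 := by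
        rw [hur]; field_simp
      rw [e1]
      have e2 : A = g ^ 2 * (1 + x) / (Q ^ k * Q ^ k) := by
        rw [← hgx]; field_simp
      rw [e2]
      field_simp
    · have hAnsq : ¬ IsSquare (v.valuation K A) := (hmemT j hj).mp hjT
      have hno : ¬ Even n := by
        rintro ⟨k, rfl⟩
        apply hAnsq
        have hQv0 : v.valuation K Q ≠ 0 := (Valuation.ne_zero_iff _).mpr hQ0
        have e : v.valuation K A = v.valuation K (Q ^ (k + k) * A) /
            (v.valuation K Q ^ k) ^ 2 := by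
          rw [eq_div_iff (pow_ne_zero _ (pow_ne_zero _ hQv0)), map_mul,
            map_pow, ← pow_mul, mul_two, mul_comm]
        rw [e]
        exact hsqn.div (IsSquare.sq _)
      rw [Nat.not_even_iff_odd] at hno
      obtain ⟨k, rfl⟩ := hno
      have hU0 := hprod0 T hTs
      have hjT' : j ∉ T' := by
        rw [hT', Finset.mem_sdiff]
        exact fun h => h.2 hjT
      refine hfin T' hT's hjT' (g / (Q ^ k * r)) ?_
      rw [map_mul]
      have e1 : algebraMap (𝓞 K) K (u : 𝓞 K) =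
          A * algebraMap (𝓞 K) K (∏ k ∈ T, p k) / r ^ 2 := by
        rw [hur]; field_simp
      have e3 : algebraMap (𝓞 K) K (u : 𝓞 K) * algebraMap (𝓞 K) K (∏ k ∈ T', p k) =
          A * Q / r ^ 2 := by
        rw [e1, ← hTT']; ring
      rw [e3]
      have e2 : A = g ^ 2 * (1 + x) / Q ^ (2 * k + 1) := by
        rw [← hgx]; field_simp
      rw [e2]
      field_simp
      ring
  -- all the primes have the same status
  have hstep : ∀ j, j + 1 < s → (∀ k ≤ j, (k ∈ T ↔ j ∈ T)) → (j ∈ T ↔ j + 1 ∈ T) := by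
    intro j hj hk
    have hj' : j < s := by omega
    -- the set not containing j
    have key : ∀ U : Finset ℕ, U ⊆ Finset.range s → (∀ k ≤ j, k ∉ U) →
        (∃ m : 𝓞 K, p j ∣ ((u : 𝓞 K) * ∏ k ∈ U, p k) - m ^ 2) → j + 1 ∉ U := by
      intro U hUs hkU hsq hjU
      obtain ⟨hg1, hg2, hg3⟩ := hgraph j hj
      apply hg3
      have hU' : ∏ k ∈ U, p k = p (j + 1) * ∏ k ∈ U.erase (j + 1), p k :=
        (Finset.mul_prod_erase U p hjU).symm
      have hrest : ∃ m : 𝓞 K, p j ∣ ((u : 𝓞 K) * ∏ k ∈ U.erase (j + 1), p k) - m ^ 2 := by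
        refine sq_mul (hg1 u) (sq_prod _ _ (fun k hk => ?_))
        rw [Finset.mem_erase] at hk
        have hks : k < s := Finset.mem_range.mp (hUs hk.2)
        have hkj : j < k := by
          by_contra hle
          exact hkU k (by omega) hk.2
        exact hg2 k hks (by omega)
      refine sq_cancel (hprime j hj') (y := (u : 𝓞 K) * ∏ k ∈ U.erase (j + 1), p k) ?_ hrest ?_
      · obtain ⟨m, hm⟩ := hsq
        refine ⟨m, ?_⟩
        have e : p (j + 1) * ((u : 𝓞 K) * ∏ k ∈ U.erase (j + 1), p k) =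
            (u : 𝓞 K) * ∏ k ∈ U, p k := by
          rw [hU']; ring
        rw [e]; exact hm
      · rw [← mem_placeOf (hprime j hj'), ← (placeOf (p j) (hprime j hj')).valuation_eq_one_iff_notMem (K := K),
          map_mul, map_mul, val_unit, one_mul,
          hval _ ((Finset.erase_subset _ _).trans hUs) j hj', if_neg]
        intro h
        exact hkU j le_rfl (Finset.mem_of_mem_erase h)
    by_cases hjT : j ∈ T
    · have h1 := key T' hT's (fun k hkj => by
          rw [hT', Finset.mem_sdiff]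
          exact fun h => h.2 ((hk k hkj).mpr hjT)) (hloc j hj' T' (Or.inr ⟨rfl, hjT⟩))
      rw [hT', Finset.mem_sdiff, not_and_not_right] at h1
      exact ⟨fun _ => h1 (Finset.mem_range.mpr hj), fun _ => hjT⟩
    · have h1 := key T hTs (fun k hkj h => hjT ((hk k hkj).mp h))
        (hloc j hj' T (Or.inl ⟨rfl, hjT⟩))
      exact ⟨fun h => absurd h hjT, fun h => absurd h h1⟩
  have hall : ∀ j, j < s → (j ∈ T ↔ 0 ∈ T) := by
    intro j
    induction j using Nat.strong_induction_on with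
    | _ j ih =>
      intro hj
      rcases Nat.eq_zero_or_pos j with rfl | hpos
      · exact Iff.rfl
      · obtain ⟨k, rfl⟩ : ∃ k, j = k + 1 := ⟨j - 1, by omega⟩
        have h1 := ih k (by omega) (by omega)
        have h2 := hstep k hj (fun l hl => (ih l (by omega) (by omega)).trans h1.symm)
        exact h2.symm.trans h1
  -- u is a square modulo all p_j
  have husq : ∀ j < s, ∃ m : 𝓞 K, p j ∣ (u : 𝓞 K) - m ^ 2 := by
    intro j hj
    by_cases h0 : 0 ∈ T
    · have hjT : j ∈ T := (hall j hj).mpr h0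
      have hemp : T' = ∅ := by
        rw [hT', Finset.sdiff_eq_empty_iff_subset]
        intro k hk
        exact (hall k (Finset.mem_range.mp hk)).mpr h0
      have := hloc j hj T' (Or.inr ⟨rfl, hjT⟩)
      rwa [hemp, Finset.prod_empty, mul_one] at this
    · have hjT : j ∉ T := fun h => h0 ((hall j hj).mp h)
      have hemp : T = ∅ := by
        rw [Finset.eq_empty_iff_forall_notMem]
        intro k hk
        exact h0 ((hall k (Finset.mem_range.mp (hTs hk))).mp hk)
      have := hloc j hj T (Or.inl ⟨rfl, hjT⟩)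
      rwa [hemp, Finset.prod_empty, mul_one] at this
  -- A = q^e u r'^2
  have hform : ∃ r' : K, r' ≠ 0 ∧ (A = algebraMap (𝓞 K) K (u : 𝓞 K) * r' ^ 2 ∨
      A = Q * algebraMap (𝓞 K) K (u : 𝓞 K) * r' ^ 2) := by
    by_cases h0 : 0 ∈ T
    · have hfull : T = Finset.range s := by
        refine Finset.Subset.antisymm hTs ?_
        intro k hk
        exact (hall k (Finset.mem_range.mp hk)).mpr h0
      rw [hfull, ← hqp, ← hQ] at hur
      refine ⟨r / Q, div_ne_zero hr hQ0, Or.inr ?_⟩
      field_simp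
      linear_combination hur
    · have hemp : T = ∅ := by
        rw [Finset.eq_empty_iff_forall_notMem]
        intro k hk
        exact h0 ((hall k (Finset.mem_range.mp (hTs hk))).mp hk)
      rw [hemp, Finset.prod_empty, map_one, mul_one] at hur
      exact ⟨r, hr, Or.inl hur⟩
  obtain ⟨r', hr', hr'A⟩ := hform
  -- u is a square modulo v^3 at the places above 2
  have hu2 : ∀ v : HeightOneSpectrum (𝓞 K), (2 : 𝓞 K) ∈ v.asIdeal →
      ∃ m : 𝓞 K, (u : 𝓞 K) - m ^ 2 ∈ v.asIdeal ^ 3 := by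
    intro v hv
    obtain ⟨g, x, hgx, hx⟩ := hsc v hv
    have hval3 : v.valuation K (algebraMap (𝓞 K) K ((1 + i) ^ 3)) = exp (-((3 : ℕ) : ℤ)) := by
      rw [map_pow, map_pow, val_one_add_i hi v hv (h2 v hv), ← exp_nsmul]
      norm_num
    have huv : (u : 𝓞 K) ∉ v.asIdeal := by
      rw [← v.valuation_eq_one_iff_notMem (K := K)]
      exact val_unit v u
    rcases hr'A with h1 | h1
    · refine sq_mod_of_near v huv 3 (by norm_num) (g := g / r') (y := x) ?_
        (by rw [← hval3]; exact hx)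
      rw [h1] at hgx
      field_simp
      linear_combination hgx
    · obtain ⟨g', x', hgx', hx'⟩ := near_q hi hqc v hv (hqv v hv)
      rw [← hQ] at hgx'
      refine sq_mod_of_near v huv 3 (by norm_num) (g := g * g' / (r' * Q))
        (y := x + x' + x * x') ?_ ?_
      · rw [h1] at hgx
        field_simp
        have h3 : Q * (Q * algebraMap (𝓞 K) K (u : 𝓞 K) * r' ^ 2) =
            (g' ^ 2 * (1 + x')) * (g ^ 2 * (1 + x)) := by rw [hgx, ← hgx']
        linear_combination h3
      · rw [← hval3]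
        refine Valuation.map_add_le _ (Valuation.map_add_le _ hx hx') ?_
        rw [map_mul]
        calc _ ≤ v.valuation K x * 1 := by
              gcongr
              exact hx'.trans (v.valuation_le_one _)
          _ ≤ _ := by rw [mul_one]; exact hx
  obtain ⟨r0, hr0, z, hz⟩ := hunits u hu2 husq
  have hz0 : z ≠ 0 := by
    rintro rfl
    rw [zero_pow two_ne_zero, mul_zero] at hz
    exact hu0 hz
  refine ⟨r0, hr0, ?_⟩
  rcases hr'A with h1 | h1
  · exact ⟨z * r', mul_ne_zero hz0 hr', Or.inl (by rw [h1, hz]; ring)⟩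
  · exact ⟨z * r', mul_ne_zero hz0 hr', Or.inr (by rw [h1, hz]; ring)⟩

end Pool.Agent.MP009fd8Q4
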