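import Pool.Agent.Lib.MP_009fd8_ag.Final
import Pool.Agent.Lib.MP_009fd8_ag.FourSq

/-!
MP_009fd8_ag: an explicit family of curves y^2 = x^3 - q^2 x of rank one.
-/

namespace Pool.Agent.MP009fd8

open IsDedekindDomain NumberField WithZero

/-- The explicit points: q (m^2 + n^2)^2 = u^4 + 4 v^4 with v = m^2 - n^2, u = 2 m n - v. -/
theorem hasPoint_family {F : Type*} [Field F] (h2 : (2 : F) ≠ 0) (m n q : F)
    (hq : q = (m ^ 2 - n ^ 2) ^ 2 + 4 * (m ^ 2 - m * n - n ^ 2) ^ 2) (hq0 : q ≠ 0) :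
    HasPoint q (-1) (-1) := by
  refine ⟨2 * (2 * m * n - (m ^ 2 - n ^ 2)) * (m ^ 2 - n ^ 2),
    (2 * m * n - (m ^ 2 - n ^ 2)) ^ 2 + 2 * (m ^ 2 - n ^ 2) ^ 2,
    (2 * m * n - (m ^ 2 - n ^ 2)) ^ 2 - 2 * (m ^ 2 - n ^ 2) ^ 2, m ^ 2 + n ^ 2, ?_, ?_, ?_⟩
  · by_contra hcon
    push Not at hcon
    obtain ⟨-, h3, h4, -⟩ := hcon
    have h5 : 2 * (2 * m * n - (m ^ 2 - n ^ 2)) ^ 2 = 0 := by linear_combination h3 + h4
    have h6 : 2 * (2 * (m ^ 2 - n ^ 2) ^ 2) = 0 := by linear_combination h3 - h4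
    have h7 : m ^ 2 - n ^ 2 = 0 := by simpa [h2] using h6
    have h8 : 2 * m * n - (m ^ 2 - n ^ 2) = 0 := by simpa [h2] using h5
    apply hq0
    have h9 : 2 * (m ^ 2 - m * n - n ^ 2) = 0 := by linear_combination h7 - h8
    rw [hq, show (m ^ 2 - n ^ 2) ^ 2 + 4 * (m ^ 2 - m * n - n ^ 2) ^ 2 =
      (m ^ 2 - n ^ 2) ^ 2 + (2 * (m ^ 2 - m * n - n ^ 2)) ^ 2 by ring, h7, h9]
    ring
  · rw [hq]; ring
  · rw [hq]; ring

variable {K : Type*} [Field K] [NumberField K]

/-- A prime element is not a square in K. -/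
theorem not_sq_of_prime {q : 𝓞 K} (hq : Prime q) (r : K) : algebraMap (𝓞 K) K q ≠ r ^ 2 := by
  intro h
  have hint : IsIntegral (𝓞 K) r := by
    refine IsIntegral.of_pow zero_lt_two ?_
    rw [← h]
    exact isIntegral_algebraMap
  obtain ⟨z, hz⟩ := IsIntegrallyClosed.isIntegral_iff.mp hint
  have h1 : q = z * z := by
    apply FaithfulSMul.algebraMap_injective (𝓞 K) K
    rw [h, map_mul, hz, sq]
  rcases hq.irreducible.isUnit_or_isUnit h1 with h2 | h2
  · exact hq.not_unit (h1 ▸ h2.mul h2)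
  · exact hq.not_unit (h1 ▸ h2.mul h2)

/-- -1 is not a square in K if 2 is prime. -/
theorem neg_one_ne_sq (h2 : Prime (2 : 𝓞 K)) (r : K) : (-1 : K) ≠ r ^ 2 := by
  intro h
  have hint : IsIntegral (𝓞 K) r := by
    refine IsIntegral.of_pow zero_lt_two ?_
    rw [← h]
    exact (isIntegral_one).neg
  obtain ⟨z, hz⟩ := IsIntegrallyClosed.isIntegral_iff.mp hint
  have h1 : (-1 : 𝓞 K) = z ^ 2 := by
    apply FaithfulSMul.algebraMap_injective (𝓞 K) K
    rw [map_neg, map_one, map_pow, hz, h]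
  have h3 : (2 : 𝓞 K) ∣ (z + 1) ^ 2 := ⟨z, by linear_combination -h1⟩
  obtain ⟨k, hk⟩ := h2.dvd_of_dvd_pow h3
  have h4 : (2 : 𝓞 K) * z = 2 * (2 * k ^ 2) := by
    have h5 : (z + 1) ^ 2 = 2 * z := by linear_combination -h1
    rw [← h5, hk]; ring
  have h5 : z = 2 * k ^ 2 := mul_left_cancel₀ two_ne_zero h4
  have h6 : (2 : 𝓞 K) ∣ 1 := by
    have h7 : (2 : 𝓞 K) ∣ -(z ^ 2) := by
      rw [h5]; exact ⟨-(2 * k ^ 4), by ring⟩
    rwa [← h1, neg_neg] at h7
  exact h2.not_unit (isUnit_of_dvd_one h6)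

/-- The class of (-1, -1) is not a torsion class. -/
theorem not_torsionPair_neg_one (h2 : Prime (2 : 𝓞 K)) {q : 𝓞 K} (hq : Prime q) :
    ¬ TorsionPair (algebraMap (𝓞 K) K q) (-1) (-1) := by
  have hq0 : algebraMap (𝓞 K) K q ≠ 0 := by
    have := hq.ne_zero
    simpa using this
  rintro ⟨r, s, hr, hs, ⟨h, -⟩ | ⟨-, h⟩ | ⟨h, -⟩ | ⟨h, -⟩⟩
  · exact neg_one_ne_sq h2 r h
  · refine not_sq_of_prime hq (1 / s) ?_
    field_simp
    linear_combination h
  · refine not_sq_of_prime hq.neg (1 / r) ?_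
    rw [map_neg]
    field_simp
    linear_combination h
  · refine not_sq_of_prime hq (1 / r) ?_
    field_simp
    linear_combination h

/-- If the degree is odd, y^2 + y + 1 has no root modulo 2. -/
theorem no_root_of_odd (h2 : Prime (2 : 𝓞 K)) (hodd : Odd (Module.finrank ℚ K)) (y : 𝓞 K) :
    ¬ 2 ∣ y ^ 2 + y + 1 := by
  intro hy
  set I : Ideal (𝓞 K) := Ideal.span {(2 : 𝓞 K)} with hI
  have hIp : I.IsPrime := (Ideal.span_singleton_prime two_ne_zero).2 h2
  have hIm : I.IsMaximal := hIp.isMaximal (by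
    rw [hI, Ne, Ideal.span_singleton_eq_bot]; exact two_ne_zero)
  letI : Field (𝓞 K ⧸ I) := Ideal.Quotient.field I
  have : Finite (𝓞 K ⧸ I) := by
    apply Ideal.finiteQuotientOfFreeOfNeBot
    rw [hI, Ne, Ideal.span_singleton_eq_bot]
    exact two_ne_zero
  have hcard : Nat.card (𝓞 K ⧸ I) = 2 ^ Module.finrank ℚ K := by
    have h1 : Ideal.absNorm I = 2 ^ Module.finrank ℚ K := by
      rw [hI, Ideal.absNorm_span_singleton]
      have h3 : (2 : 𝓞 K) = algebraMap ℤ (𝓞 K) 2 := by simp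
      rw [h3, Algebra.norm_algebraMap, RingOfIntegers.rank, Int.natAbs_pow]
      rfl
    rw [← h1, Ideal.absNorm_apply]
    rfl
  set z : 𝓞 K ⧸ I := Ideal.Quotient.mk I y with hz
  have hz0 : z ^ 2 + z + 1 = 0 := by
    have h3 : Ideal.Quotient.mk I (y ^ 2 + y + 1) = 0 := by
      rw [Ideal.Quotient.eq_zero_iff_mem, hI, Ideal.mem_span_singleton]
      exact hy
    rw [← h3, hz]
    simp only [map_add, map_mul, map_pow, map_one]
  have h20 : (2 : 𝓞 K ⧸ I) = 0 := by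
    have h3 : Ideal.Quotient.mk I (2 : 𝓞 K) = 0 := by
      rw [Ideal.Quotient.eq_zero_iff_mem, hI, Ideal.mem_span_singleton]
    rw [← h3, map_ofNat]
  have hz3 : z ^ 3 = 1 := by linear_combination (z - 1) * hz0
  have hzne : z ≠ 1 := by
    intro h1
    rw [h1] at hz0
    have : (1 : 𝓞 K ⧸ I) = 0 := by linear_combination hz0 - h20
    exact one_ne_zero this
  have hzz : z ≠ 0 := by
    intro h1
    rw [h1] at hz3
    simp at hz3
  have hord : orderOf (Units.mk0 z hzz) = 3 := by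
    apply orderOf_eq_prime
    · ext; simpa using hz3
    · intro h1
      apply hzne
      have := congrArg Units.val h1
      simpa using this
  have hdvd : 3 ∣ Nat.card (𝓞 K ⧸ I)ˣ := by
    rw [← hord]; exact orderOf_dvd_natCard _
  rw [Nat.card_units, hcard] at hdvd
  obtain ⟨k, hk⟩ := hodd
  rw [hk] at hdvd
  have h4 : 2 ^ (2 * k + 1) % 3 = 2 := by
    rw [pow_succ, pow_mul, Nat.mul_mod, Nat.pow_mod]
    norm_num
  have h5 : 1 ≤ 2 ^ (2 * k + 1) := Nat.one_le_two_pow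
  generalize 2 ^ (2 * k + 1) = N at hdvd h4 h5
  omega

/-- The explicit family of rank one. -/
theorem rank_one_family (hclass : Odd (NumberField.classNumber K))
    (hpos : ∀ u : (𝓞 K)ˣ, (∀ f : K →+* ℝ, 0 < f (algebraMap (𝓞 K) K (u : 𝓞 K))) → IsSquare u)
    (h2 : Prime (2 : 𝓞 K)) (hodd : Odd (Module.finrank ℚ K))
    (m n q : 𝓞 K) (hqmn : q = (m ^ 2 - n ^ 2) ^ 2 + 4 * (m ^ 2 - m * n - n ^ 2) ^ 2)
    (hq : Prime q) (hq2 : ∀ z : 𝓞 K, ¬ q ∣ 2 - z ^ 2)
    (a b : K) (ha : a ≠ 0) (hb : b ≠ 0) :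
    (SelmerPair K (algebraMap (𝓞 K) K q) a b ↔ HasPoint (algebraMap (𝓞 K) K q) a b) ∧
    (SelmerPair K (algebraMap (𝓞 K) K q) a b ↔
      TorsionPair (algebraMap (𝓞 K) K q) a b ∨ TorsionPair (algebraMap (𝓞 K) K q) (-a) (-b)) ∧
    ¬ TorsionPair (algebraMap (𝓞 K) K q) (-1) (-1) := by
  classical
  have hfour : ∀ u : (𝓞 K)ˣ, (∃ m : 𝓞 K, (4 : 𝓞 K) ∣ (u : 𝓞 K) - m ^ 2) → IsSquare u :=
    fun u ⟨m, hm⟩ => isSquare_of_sq_mod_four hclass hpos u m hm
  have hq0 : algebraMap (𝓞 K) K q ≠ 0 := by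
    have := hq.ne_zero
    simpa using this
  have hqe : (4 : 𝓞 K) ∣ q - (m ^ 2 - n ^ 2) ^ 2 * (1 + 2 * 0) :=
    ⟨(m ^ 2 - m * n - n ^ 2) ^ 2, by rw [hqmn]; ring⟩
  have hqpos : ∀ f : K →+* ℝ, 0 < f (algebraMap (𝓞 K) K q) := by
    intro f
    have h1 : f (algebraMap (𝓞 K) K q) ≠ 0 := by
      rw [Ne, map_eq_zero]; exact hq0
    have h3 : 0 ≤ f (algebraMap (𝓞 K) K q) := by
      rw [hqmn]
      simp only [map_add, map_mul, map_pow, map_sub, map_ofNat]
      positivity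
    exact lt_of_le_of_ne h3 (Ne.symm h1)
  have hnt := not_torsionPair_neg_one h2 hq
  have hpt : HasPoint (algebraMap (𝓞 K) K q) (-1) (-1) := by
    refine hasPoint_family two_ne_zero (algebraMap (𝓞 K) K m) (algebraMap (𝓞 K) K n) _ ?_ hq0
    rw [hqmn]
    simp only [map_add, map_mul, map_pow, map_sub, map_ofNat]
  have hne : ((1 : K), (1 : K)) ≠ (-1, -1) := by
    intro h
    have h1 : (1 : K) = -1 := congrArg Prod.fst h
    have h3 : (2 : K) = 0 := by linear_combination h1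
    exact two_ne_zero h3
  have hcard : (classes K q 0).ncard ≤ ({((1 : K), (1 : K)), (-1, -1)} : Finset (K × K)).card := by
    rw [Finset.card_pair hne]
    have hsub : classes K q 0 ⊆ {0, 1} := by
      rintro z ⟨u, k, y, g, rfl, -, -, hy, -⟩
      have h1 : (2 : 𝓞 K) ∣ y * ((y - 1) * (y ^ 2 + y + 1)) := by
        obtain ⟨t, ht⟩ := hy
        exact ⟨t - y, by linear_combination ht⟩
      rcases h2.dvd_or_dvd h1 with h | h
      · left
        rw [Ideal.Quotient.eq_zero_iff_mem, Ideal.mem_span_singleton]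
        exact h
      · rcases h2.dvd_or_dvd h with h | h
        · right
          rw [Set.mem_singleton_iff, ← map_one (Ideal.Quotient.mk (Ideal.span {(2 : 𝓞 K)})),
            Ideal.Quotient.eq, Ideal.mem_span_singleton]
          exact h
        · exact absurd h (no_root_of_odd h2 hodd y)
    calc (classes K q 0).ncard ≤ ({0, 1} : Set (𝓞 K ⧸ Ideal.span {(2 : 𝓞 K)})).ncard :=
          Set.ncard_le_ncard hsub (Set.toFinite _)
      _ ≤ 2 := Set.ncard_insert_le _ _ |>.trans (by rw [Set.ncard_singleton])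
  have hmain := two_descent hclass hpos hfour h2 q hq hqpos hq2 (m ^ 2 - n ^ 2) 0 hqe
    {((1 : K), (1 : K)), (-1, -1)}
    (by
      intro p hp
      rw [Finset.mem_insert, Finset.mem_singleton] at hp
      rcases hp with rfl | rfl
      · simp
      · simp)
    (by
      intro p hp
      rw [Finset.mem_insert, Finset.mem_singleton] at hp
      rcases hp with rfl | rfl
      · exact ⟨1, 1, 1, 0, Or.inl one_ne_zero, by ring, by ring⟩
      · exact hpt)
    (by
      intro p hp p' hp' hpp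
      rw [Finset.mem_insert, Finset.mem_singleton] at hp hp'
      rcases hp with rfl | rfl <;> rcases hp' with rfl | rfl
      · exact absurd rfl hpp
      · simpa using hnt
      · simpa using hnt
      · exact absurd rfl hpp)
    hcard a b ha hb
  refine ⟨hmain.1, ?_, hnt⟩
  rw [hmain.2]
  constructor
  · rintro ⟨p, hp, ht⟩
    rw [Finset.mem_insert, Finset.mem_singleton] at hp
    rcases hp with rfl | rfl
    · left; simpa using ht
    · right; simpa using ht
  · rintro (ht | ht)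
    · exact ⟨(1, 1), Finset.mem_insert_self _ _, by simpa using ht⟩
    · exact ⟨(-1, -1), Finset.mem_insert_of_mem (Finset.mem_singleton_self _), by simpa using ht⟩

end Pool.Agent.MP009fd8
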