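import Pool.Agent.Lib.MP_009fd8_ag.Def
import Pool.Agent.Lib.MP_009fd8_ag.Places
import Pool.Agent.Lib.MP_009fd8_ag.ClassLemma
import Pool.Agent.Lib.MP_009fd8_ag.Approx
import Pool.Agent.Lib.MP_009fd8_ag.Away
import Pool.Agent.Lib.MP_009fd8_ag.AtQ
import Pool.Agent.Lib.MP_009fd8_ag.At2a
import Pool.Agent.Lib.MP_009fd8_ag.RealPlace

/-!
MP_009fd8_ag: the 2-descent on y^2 = x^3 - q^2 x, reduction to the pairs (u, u), u a unit.
-/

namespace Pool.Agent.MP009fd8

open IsDedekindDomain NumberField WithZero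

variable {K : Type*} [Field K] [NumberField K]

/-- Odd class number and 2 inert: an element with even valuations away from 2 is a unit or twice
a unit, times a square. -/
theorem unit_form (hclass : Odd (NumberField.classNumber K)) (h2 : Prime (2 : 𝓞 K)) (z : K)
    (hz : z ≠ 0)
    (hv : ∀ v : HeightOneSpectrum (𝓞 K), v ≠ placeOf 2 h2 → IsSquare (v.valuation K z)) :
    ∃ (u : (𝓞 K)ˣ) (r : K), r ≠ 0 ∧ (z = algebraMap (𝓞 K) K (u : 𝓞 K) * r ^ 2 ∨
      z = 2 * algebraMap (𝓞 K) K (u : 𝓞 K) * r ^ 2) := by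
  rcases isSquare_val_or h2 hz with h | h
  · obtain ⟨u, r, hr, hzr⟩ := exists_unit_mul_sq hclass z hz (fun v => by
      by_cases hvv : v = placeOf 2 h2
      · rw [hvv]; exact h
      · exact hv v hvv)
    exact ⟨u, r, hr, Or.inl hzr⟩
  · have h20 : (algebraMap (𝓞 K) K 2) ≠ 0 := by
      rw [map_ofNat]; exact two_ne_zero
    obtain ⟨u, r, hr, hzr⟩ := exists_unit_mul_sq hclass (algebraMap (𝓞 K) K 2 * z)
      (mul_ne_zero h20 hz) (fun v => by
        by_cases hvv : v = placeOf 2 h2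
        · rw [hvv]; exact h
        · rw [map_mul, val_eq_one v (notMem_of_ne h2 hvv), one_mul]
          exact hv v hvv)
    refine ⟨u, r / 2, div_ne_zero hr two_ne_zero, Or.inr ?_⟩
    rw [map_ofNat] at hzr
    have : z = (2 * z) / 2 := by ring
    rw [this, hzr]; ring

/-- Selmer pairs are stable under translation by (0, 0). -/
theorem SelmerPair.translate_zero {q a b : K} (hq : q ≠ 0) (ha : a ≠ 0)
    (h : SelmerPair K q a b) : SelmerPair K q (-a) (-q * b) := by
  refine ⟨fun v => ?_, fun f => ?_⟩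
  · have := hasPoint_translate_zero _ _ _
      ((map_ne_zero (algebraMap K (v.adicCompletion K))).mpr hq)
      ((map_ne_zero (algebraMap K (v.adicCompletion K))).mpr ha) (h.1 v)
    simpa only [map_neg, map_mul] using this
  · have := hasPoint_translate_zero _ _ _
      ((map_ne_zero f).mpr hq) ((map_ne_zero f).mpr ha) (h.2 f)
    simpa only [map_neg, map_mul] using this

/-- Selmer pairs are stable under translation by (q, 0). -/
theorem SelmerPair.translate_q {q a b : K} (hq : q ≠ 0) (hb : b ≠ 0)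
    (h : SelmerPair K q a b) : SelmerPair K q (q * a) (2 * b) := by
  refine ⟨fun v => ?_, fun f => ?_⟩
  · have := hasPoint_translate_q _ _ _
      ((map_ne_zero (algebraMap K (v.adicCompletion K))).mpr hq)
      ((map_ne_zero (algebraMap K (v.adicCompletion K))).mpr hb) (h.1 v)
    simpa only [map_ofNat, map_mul] using this
  · have := hasPoint_translate_q _ _ _
      ((map_ne_zero f).mpr hq) ((map_ne_zero f).mpr hb) (h.2 f)
    simpa only [map_ofNat, map_mul] using this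

/-- The case of even valuations at q. -/
theorem even_reduce (hclass : Odd (NumberField.classNumber K))
    (hpos : ∀ u : (𝓞 K)ˣ, (∀ f : K →+* ℝ, 0 < f (algebraMap (𝓞 K) K (u : 𝓞 K))) → IsSquare u)
    (h2 : Prime (2 : 𝓞 K))
    (q : 𝓞 K) (hq : Prime q) (hqpos : ∀ f : K →+* ℝ, 0 < f (algebraMap (𝓞 K) K q))
    (hq2 : ∀ m : 𝓞 K, ¬ q ∣ 2 - m ^ 2)
    (a b : K) (ha : a ≠ 0) (hb : b ≠ 0)
    (hqa : IsSquare ((placeOf q hq).valuation K a))
    (hqb : IsSquare ((placeOf q hq).valuation K b))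
    (h : SelmerPair K (algebraMap (𝓞 K) K q) a b) :
    ∃ (u : (𝓞 K)ˣ) (r s : K), r ≠ 0 ∧ s ≠ 0 ∧ a = algebraMap (𝓞 K) K (u : 𝓞 K) * r ^ 2 ∧
      b = algebraMap (𝓞 K) K (u : 𝓞 K) * s ^ 2 ∧
      HasPoint (algebraMap K ((placeOf 2 h2).adicCompletion K) (algebraMap (𝓞 K) K q))
        (algebraMap K ((placeOf 2 h2).adicCompletion K) (algebraMap (𝓞 K) K (u : 𝓞 K)))
        (algebraMap K ((placeOf 2 h2).adicCompletion K) (algebraMap (𝓞 K) K (u : 𝓞 K))) := by
  classical
  -- q does not divide 2, and 2 does not divide q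
  have hq2' : ¬ q ∣ 2 := by
    have := hq2 0
    simpa using this
  have h2q : ¬ (2 : 𝓞 K) ∣ q := by
    intro hd
    exact hq2' ((h2.associated_of_dvd hq hd).symm.dvd)
  have h20 : (algebraMap (𝓞 K) K 2) = 2 := map_ofNat _ _
  -- valuations away from 2
  have haway : ∀ v : HeightOneSpectrum (𝓞 K), v ≠ placeOf 2 h2 →
      IsSquare (v.valuation K a) ∧ IsSquare (v.valuation K b) := by
    intro v hv
    by_cases hvq : v = placeOf q hq
    · rw [hvq]; exact ⟨hqa, hqb⟩
    · have h2v : v.valuation K (2 : K) = 1 := by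
        rw [← h20]; exact val_eq_one v (notMem_of_ne h2 hv)
      have hqv : v.valuation K (algebraMap (𝓞 K) K q) = 1 := val_eq_one v (notMem_of_ne hq hvq)
      have key := isSquare_away (Valued.v : Valuation (v.adicCompletion K) _)
        (algebraMap K (v.adicCompletion K) (algebraMap (𝓞 K) K q))
        (algebraMap K (v.adicCompletion K) a) (algebraMap K (v.adicCompletion K) b)
        ((map_ne_zero _).mpr ha) ((map_ne_zero _).mpr hb)
        (by rw [← map_ofNat (algebraMap K (v.adicCompletion K)) 2, val_completion]; exact h2v)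
        (by rw [val_completion]; exact hqv) (h.1 v)
      rw [val_completion, val_completion] at key
      exact key
  obtain ⟨u, r, hr, hur⟩ := unit_form hclass h2 a ha (fun v hv => (haway v hv).1)
  obtain ⟨w, s, hs, hws⟩ := unit_form hclass h2 b hb (fun v hv => (haway v hv).2)
  -- real places
  have hreal : ∀ f : K →+* ℝ, 0 < f a * f b := fun f =>
    real_pos (f (algebraMap (𝓞 K) K q)) (f a) (f b) (hqpos f) ((map_ne_zero f).mpr ha)
      ((map_ne_zero f).mpr hb) (h.2 f)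
  -- u w is totally positive
  have huw : IsSquare (u * w) := by
    apply hpos
    intro f
    have hf := hreal f
    have hfr : 0 < f r ^ 2 := by
      have : f r ≠ 0 := (map_ne_zero f).mpr hr
      positivity
    have hfs : 0 < f s ^ 2 := by
      have : f s ≠ 0 := (map_ne_zero f).mpr hs
      positivity
    have hrs : 0 < f r ^ 2 * f s ^ 2 := mul_pos hfr hfs
    rw [Units.val_mul, map_mul, map_mul]
    rcases hur with hur | hur <;> rcases hws with hws | hws <;>
      rw [hur, hws] at hf <;> simp only [map_mul, map_pow, map_ofNat] at hf <;>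
      by_contra hneg <;> nlinarith [mul_nonneg (neg_nonneg.mpr (not_lt.mp hneg)) hrs.le]
  obtain ⟨η, hη⟩ := huw
  have hη' : algebraMap (𝓞 K) K (u : 𝓞 K) * algebraMap (𝓞 K) K (w : 𝓞 K) =
      algebraMap (𝓞 K) K (η : 𝓞 K) ^ 2 := by
    rw [← map_mul, ← Units.val_mul, hη, Units.val_mul, map_mul]; ring
  have hη0 : algebraMap (𝓞 K) K (η : 𝓞 K) ≠ 0 := by
    simp
  -- a b is a square or twice a square
  have hab : (∃ t : K, t ≠ 0 ∧ a * b = t ^ 2) ∨ (∃ t : K, t ≠ 0 ∧ a * b = 2 * t ^ 2) := by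
    have ht : algebraMap (𝓞 K) K (η : 𝓞 K) * r * s ≠ 0 := mul_ne_zero (mul_ne_zero hη0 hr) hs
    rcases hur with hur | hur <;> rcases hws with hws | hws
    · exact Or.inl ⟨_, ht, by rw [hur, hws]; linear_combination (r ^ 2 * s ^ 2) * hη'⟩
    · exact Or.inr ⟨_, ht, by rw [hur, hws]; linear_combination (2 * r ^ 2 * s ^ 2) * hη'⟩
    · exact Or.inr ⟨_, ht, by rw [hur, hws]; linear_combination (2 * r ^ 2 * s ^ 2) * hη'⟩
    · exact Or.inl ⟨2 * (algebraMap (𝓞 K) K (η : 𝓞 K) * r * s), mul_ne_zero two_ne_zero ht, by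
        rw [hur, hws]; linear_combination (4 * r ^ 2 * s ^ 2) * hη'⟩
  -- the second case is impossible at q
  have hab' : ∃ t : K, t ≠ 0 ∧ a * b = t ^ 2 := by
    rcases hab with hab | ⟨t, ht, hab⟩
    · exact hab
    · exfalso
      set v := placeOf q hq with hvdef
      obtain ⟨g, hg1, hg⟩ := two_sq_at_q (Valued.v : Valuation (v.adicCompletion K) _)
        (algebraMap K (v.adicCompletion K) (algebraMap (𝓞 K) K q))
        (algebraMap K (v.adicCompletion K) a) (algebraMap K (v.adicCompletion K) b)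
        (algebraMap K (v.adicCompletion K) t)
        ((map_ne_zero _).mpr ha) ((map_ne_zero _).mpr hb) ((map_ne_zero _).mpr ht)
        (by rw [← map_mul, hab, map_mul, map_pow, map_ofNat])
        (by
          rw [← map_ofNat (algebraMap K (v.adicCompletion K)) 2, val_completion, ← h20]
          apply val_eq_one
          rw [hvdef, mem_placeOf]
          exact hq2')
        (by
          rw [val_completion, hvdef, val_self]
          exact not_isSquare_exp_neg_one)
        (by rw [val_completion]; exact hqa) (by rw [val_completion]; exact hqb) (h.1 v)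
      obtain ⟨m, hm⟩ := exists_int_sub_lt v g hg1 1 one_pos
      apply hq2 m
      rw [← mem_placeOf hq, ← v.valuation_lt_one_iff_mem (K := K), ← val_completion]
      have hmg : Valued.v (algebraMap K (v.adicCompletion K) (algebraMap (𝓞 K) K m)) ≤ 1 := by
        rw [val_completion]; exact v.valuation_le_one m
      have hexp : algebraMap K (v.adicCompletion K) (algebraMap (𝓞 K) K (2 - m ^ 2)) =
          (2 - g ^ 2) + (g - algebraMap K (v.adicCompletion K) (algebraMap (𝓞 K) K m)) *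
            (g + algebraMap K (v.adicCompletion K) (algebraMap (𝓞 K) K m)) := by
        simp only [map_sub, map_pow, map_ofNat]; ring
      rw [hexp]
      refine Valuation.map_add_lt _ hg ?_
      rw [map_mul]
      calc _ ≤ Valued.v (g - algebraMap K (v.adicCompletion K) (algebraMap (𝓞 K) K m)) * 1 := by
            gcongr
            exact Valuation.map_add_le _ hg1 hmg
        _ < 1 := by rw [mul_one]; exact hm
  obtain ⟨t, ht, hab⟩ := hab'
  -- so b = a (t / a)^2, look at the place 2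
  have hba : b = a * (t / a) ^ 2 := by
    field_simp
    linear_combination hab
  set v := placeOf 2 h2 with hvdef
  have hv2 : (Valued.v : Valuation (v.adicCompletion K) _) 2 = exp (-1 : ℤ) := by
    rw [← map_ofNat (algebraMap K (v.adicCompletion K)) 2, val_completion, ← h20]
    exact val_self h2
  have hvq : (Valued.v : Valuation (v.adicCompletion K) _)
      (algebraMap K (v.adicCompletion K) (algebraMap (𝓞 K) K q)) = 1 := by
    rw [val_completion]
    apply val_eq_one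
    rw [hvdef, mem_placeOf]
    exact h2q
  have hpt : ∀ d : K, d ≠ 0 → ∀ r : K, r ≠ 0 → a = d * r ^ 2 →
      HasPoint (algebraMap K (v.adicCompletion K) (algebraMap (𝓞 K) K q))
        (algebraMap K (v.adicCompletion K) d) (algebraMap K (v.adicCompletion K) d) := by
    intro d hd r hr har
    have h1 := h.1 v
    refine hasPoint_sq _ _ _ (algebraMap K (v.adicCompletion K) r)
      (algebraMap K (v.adicCompletion K) (r * (t / a))) ((map_ne_zero _).mpr hr)
      ((map_ne_zero _).mpr (mul_ne_zero hr (div_ne_zero ht ha))) ?_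
    rw [← map_pow, ← map_pow, ← map_mul, ← map_mul, ← har]
    have : d * (r * (t / a)) ^ 2 = b := by
      rw [hba]; nth_rewrite 2 [har]; ring
    rw [this]
    exact h1
  rcases hur with hur | hur
  · have hu0 : algebraMap (𝓞 K) K (u : 𝓞 K) ≠ 0 := by
      simp
    refine ⟨u, r, r * (t / a), hr, mul_ne_zero hr (div_ne_zero ht ha), hur, ?_,
      hpt _ hu0 r hr hur⟩
    rw [mul_pow, ← mul_assoc, ← hur]
    exact hba
  · exfalso
    have hu0 : algebraMap (𝓞 K) K (u : 𝓞 K) ≠ 0 := by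
      simp
    have hp := hpt _ (mul_ne_zero two_ne_zero hu0) r hr hur
    refine no_point_odd (Valued.v : Valuation (v.adicCompletion K) _) _ _
      ((map_ne_zero _).mpr (mul_ne_zero two_ne_zero hu0)) ?_ hvq hp
    rw [map_mul, map_mul, map_ofNat, hv2, val_completion, val_unit, mul_one]
    exact not_isSquare_exp_neg_one

/-- Torsion pairs are closed under products. -/
theorem TorsionPair.mul {F : Type*} [Field F] (h20 : (2 : F) ≠ 0) {q a b a' b' : F} (hq : q ≠ 0)
    (h : TorsionPair q a b) (h' : TorsionPair q a' b') : TorsionPair q (a * a') (b * b') := by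
  obtain ⟨r, s, hr, hs, h⟩ := h
  obtain ⟨r', s', hr', hs', h'⟩ := h'
  have h1 : r * r' ≠ 0 := mul_ne_zero hr hr'
  have h2 : s * s' ≠ 0 := mul_ne_zero hs hs'
  rcases h with ⟨rfl, rfl⟩ | ⟨rfl, rfl⟩ | ⟨rfl, rfl⟩ | ⟨rfl, rfl⟩ <;>
    rcases h' with ⟨rfl, rfl⟩ | ⟨rfl, rfl⟩ | ⟨rfl, rfl⟩ | ⟨rfl, rfl⟩
  · exact ⟨r * r', s * s', h1, h2, Or.inl ⟨by ring, by ring⟩⟩
  · exact ⟨r * r', s * s', h1, h2, Or.inr (Or.inl ⟨by ring, by ring⟩)⟩
  · exact ⟨r * r', s * s', h1, h2, Or.inr (Or.inr (Or.inl ⟨by ring, by ring⟩))⟩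
  · exact ⟨r * r', s * s', h1, h2, Or.inr (Or.inr (Or.inr ⟨by ring, by ring⟩))⟩
  · exact ⟨r * r', s * s', h1, h2, Or.inr (Or.inl ⟨by ring, by ring⟩)⟩
  · exact ⟨r * r', q * (s * s'), h1, mul_ne_zero hq h2, Or.inl ⟨by ring, by ring⟩⟩
  · exact ⟨r * r', s * s', h1, h2, Or.inr (Or.inr (Or.inr ⟨by ring, by ring⟩))⟩
  · exact ⟨r * r', q * (s * s'), h1, mul_ne_zero hq h2, Or.inr (Or.inr (Or.inl
      ⟨by ring, by ring⟩))⟩
  · exact ⟨r * r', s * s', h1, h2, Or.inr (Or.inr (Or.inl ⟨by ring, by ring⟩))⟩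
  · exact ⟨r * r', s * s', h1, h2, Or.inr (Or.inr (Or.inr ⟨by ring, by ring⟩))⟩
  · exact ⟨q * (r * r'), 2 * (s * s'), mul_ne_zero hq h1, mul_ne_zero h20 h2,
      Or.inl ⟨by ring, by ring⟩⟩
  · exact ⟨q * (r * r'), 2 * (s * s'), mul_ne_zero hq h1, mul_ne_zero h20 h2,
      Or.inr (Or.inl ⟨by ring, by ring⟩)⟩
  · exact ⟨r * r', s * s', h1, h2, Or.inr (Or.inr (Or.inr ⟨by ring, by ring⟩))⟩
  · exact ⟨r * r', q * (s * s'), h1, mul_ne_zero hq h2, Or.inr (Or.inr (Or.inl
      ⟨by ring, by ring⟩))⟩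
  · exact ⟨q * (r * r'), 2 * (s * s'), mul_ne_zero hq h1, mul_ne_zero h20 h2,
      Or.inr (Or.inl ⟨by ring, by ring⟩)⟩
  · exact ⟨q * (r * r'), 2 * q * (s * s'), mul_ne_zero hq h1,
      mul_ne_zero (mul_ne_zero h20 hq) h2, Or.inl ⟨by ring, by ring⟩⟩

/-- Squares give torsion pairs. -/
theorem TorsionPair.sq {F : Type*} [Field F] {q r s : F} (hr : r ≠ 0) (hs : s ≠ 0) :
    TorsionPair q (r ^ 2) (s ^ 2) := ⟨r, s, hr, hs, Or.inl ⟨rfl, rfl⟩⟩

/-- Torsion pairs are nonzero. -/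
theorem TorsionPair.ne_zero {F : Type*} [Field F] (h20 : (2 : F) ≠ 0) {q a b : F} (hq : q ≠ 0)
    (h : TorsionPair q a b) : a ≠ 0 ∧ b ≠ 0 := by
  obtain ⟨r, s, hr, hs, h⟩ := h
  rcases h with ⟨rfl, rfl⟩ | ⟨rfl, rfl⟩ | ⟨rfl, rfl⟩ | ⟨rfl, rfl⟩
  · exact ⟨pow_ne_zero 2 hr, pow_ne_zero 2 hs⟩
  · exact ⟨neg_ne_zero.mpr (pow_ne_zero 2 hr),
      mul_ne_zero (neg_ne_zero.mpr hq) (pow_ne_zero 2 hs)⟩
  · exact ⟨mul_ne_zero hq (pow_ne_zero 2 hr), mul_ne_zero h20 (pow_ne_zero 2 hs)⟩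
  · refine ⟨mul_ne_zero (neg_ne_zero.mpr hq) (pow_ne_zero 2 hr), ?_⟩
    rw [show -2 * q * s ^ 2 = -(2 * q * s ^ 2) by ring]
    exact neg_ne_zero.mpr (mul_ne_zero (mul_ne_zero h20 hq) (pow_ne_zero 2 hs))

/-- A point on C_(a',b') gives a point on C_(a,b) if the classes differ by torsion. -/
theorem HasPoint.of_torsionPair {F : Type*} [Field F] (h20 : (2 : F) ≠ 0) {q a b a' b' : F}
    (hq : q ≠ 0) (ha' : a' ≠ 0) (hb' : b' ≠ 0)
    (h : TorsionPair q (a * a') (b * b')) (h' : HasPoint q a' b') : HasPoint q a b := by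
  obtain ⟨r, s, hr, hs, h⟩ := h
  rcases h with ⟨h1, h2⟩ | ⟨h1, h2⟩ | ⟨h1, h2⟩ | ⟨h1, h2⟩
  · refine hasPoint_sq q a b (a' / r) (b' / s) (div_ne_zero ha' hr) (div_ne_zero hb' hs) ?_
    have e1 : a * (a' / r) ^ 2 = a' := by
      field_simp
      linear_combination h1
    have e2 : b * (b' / s) ^ 2 = b' := by
      field_simp
      linear_combination h2
    rw [e1, e2]; exact h'
  · refine hasPoint_sq q a b (a' / r) (q * b' / (q * s) * q) (div_ne_zero ha' hr)
      (mul_ne_zero (div_ne_zero (mul_ne_zero hq hb') (mul_ne_zero hq hs)) hq) ?_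
    have e1 : a * (a' / r) ^ 2 = -a' := by
      field_simp
      linear_combination h1
    have e2 : b * (q * b' / (q * s) * q) ^ 2 = -q * b' * q ^ 2 := by
      field_simp
      linear_combination h2
    rw [e1, e2]
    have h3 := hasPoint_translate_zero q a' b' hq ha' h'
    refine hasPoint_sq q (-a') (-q * b' * q ^ 2) 1 (1 / q) one_ne_zero
      (one_div_ne_zero hq) ?_
    have e3 : -a' * (1 : F) ^ 2 = -a' := by ring
    have e4 : -q * b' * q ^ 2 * (1 / q) ^ 2 = -q * b' := by field_simp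
    rw [e3, e4]; exact h3
  · refine hasPoint_sq q a b (q * a' / (q * r) * q) (2 * b' / (2 * s) * 2)
      (mul_ne_zero (div_ne_zero (mul_ne_zero hq ha') (mul_ne_zero hq hr)) hq)
      (mul_ne_zero (div_ne_zero (mul_ne_zero h20 hb') (mul_ne_zero h20 hs)) h20) ?_
    have e1 : a * (q * a' / (q * r) * q) ^ 2 = q * a' * q ^ 2 := by
      field_simp
      linear_combination h1
    have e2 : b * (2 * b' / (2 * s) * 2) ^ 2 = 2 * b' * 2 ^ 2 := by
      field_simp
      linear_combination h2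
    rw [e1, e2]
    have h3 := hasPoint_translate_q q a' b' hq hb' h'
    refine hasPoint_sq q (q * a' * q ^ 2) (2 * b' * 2 ^ 2) (1 / q) (1 / 2)
      (one_div_ne_zero hq) (one_div_ne_zero h20) ?_
    have e3 : q * a' * q ^ 2 * (1 / q) ^ 2 = q * a' := by field_simp
    have e4 : 2 * b' * 2 ^ 2 * (1 / 2) ^ 2 = 2 * b' := by field_simp
    rw [e3, e4]; exact h3
  · have h3 := hasPoint_translate_q q (-a') (-q * b') hq
      (mul_ne_zero (neg_ne_zero.mpr hq) hb') (hasPoint_translate_zero q a' b' hq ha' h')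
    refine hasPoint_sq q a b (a' * q / r) (2 * q * b' / s)
      (div_ne_zero (mul_ne_zero ha' hq) hr)
      (div_ne_zero (mul_ne_zero (mul_ne_zero h20 hq) hb') hs) ?_
    have e1 : a * (a' * q / r) ^ 2 = -(q * a') * q ^ 2 := by
      field_simp
      linear_combination h1
    have e2 : b * (2 * q * b' / s) ^ 2 = -(2 * q * b') * (2 * q) ^ 2 := by
      field_simp
      linear_combination h2
    rw [e1, e2]
    refine hasPoint_sq q _ _ (1 / q) (1 / (2 * q))
      (one_div_ne_zero hq) (one_div_ne_zero (mul_ne_zero h20 hq)) ?_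
    have e3 : -(q * a') * q ^ 2 * (1 / q) ^ 2 = q * -a' := by field_simp
    have e4 : -(2 * q * b') * (2 * q) ^ 2 * (1 / (2 * q)) ^ 2 = 2 * (-q * b') := by
      field_simp
    rw [e3, e4]; exact h3

/-- The reduction: up to torsion pairs every Selmer pair is (u, u) with u a unit. -/
theorem selmer_reduce (hclass : Odd (NumberField.classNumber K))
    (hpos : ∀ u : (𝓞 K)ˣ, (∀ f : K →+* ℝ, 0 < f (algebraMap (𝓞 K) K (u : 𝓞 K))) → IsSquare u)
    (h2 : Prime (2 : 𝓞 K))
    (q : 𝓞 K) (hq : Prime q) (hqpos : ∀ f : K →+* ℝ, 0 < f (algebraMap (𝓞 K) K q))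
    (hq2 : ∀ m : 𝓞 K, ¬ q ∣ 2 - m ^ 2)
    (a b : K) (ha : a ≠ 0) (hb : b ≠ 0) (h : SelmerPair K (algebraMap (𝓞 K) K q) a b) :
    ∃ u : (𝓞 K)ˣ, TorsionPair (algebraMap (𝓞 K) K q) (a * algebraMap (𝓞 K) K (u : 𝓞 K))
        (b * algebraMap (𝓞 K) K (u : 𝓞 K)) ∧
      HasPoint (algebraMap K ((placeOf 2 h2).adicCompletion K) (algebraMap (𝓞 K) K q))
        (algebraMap K ((placeOf 2 h2).adicCompletion K) (algebraMap (𝓞 K) K (u : 𝓞 K)))
        (algebraMap K ((placeOf 2 h2).adicCompletion K) (algebraMap (𝓞 K) K (u : 𝓞 K))) := by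
  have hq0 : algebraMap (𝓞 K) K q ≠ 0 := by
    have := hq.ne_zero
    simpa using this
  have hqa := isSquare_val_or hq ha
  have hqb := isSquare_val_or hq hb
  have hneg : ∀ x : K, (placeOf q hq).valuation K (-x) = (placeOf q hq).valuation K x :=
    fun x => Valuation.map_neg _ x
  have hq2' : ¬ q ∣ 2 := by
    have := hq2 0
    simpa using this
  have hv2 : (placeOf q hq).valuation K (2 : K) = 1 := by
    rw [← map_ofNat (algebraMap (𝓞 K) K) 2]
    apply val_eq_one
    rw [mem_placeOf]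
    exact hq2'
  have main := fun a b ha hb => even_reduce hclass hpos h2 q hq hqpos hq2 a b ha hb
  have hu0 : ∀ u : (𝓞 K)ˣ, algebraMap (𝓞 K) K (u : 𝓞 K) ≠ 0 := fun u => by simp
  rcases hqa with hqa | hqa <;> rcases hqb with hqb | hqb
  · obtain ⟨u, r, s, hr, hs, h1, h3, hp⟩ := main a b ha hb hqa hqb h
    refine ⟨u, ⟨algebraMap (𝓞 K) K (u : 𝓞 K) * r, algebraMap (𝓞 K) K (u : 𝓞 K) * s,
      mul_ne_zero (hu0 u) hr, mul_ne_zero (hu0 u) hs, Or.inl ⟨?_, ?_⟩⟩, hp⟩
    · linear_combination (algebraMap (𝓞 K) K (u : 𝓞 K)) * h1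
    · linear_combination (algebraMap (𝓞 K) K (u : 𝓞 K)) * h3
  · obtain ⟨u, r, s, hr, hs, h1, h3, hp⟩ := main (-a) (-algebraMap (𝓞 K) K q * b)
      (neg_ne_zero.mpr ha)
      (mul_ne_zero (neg_ne_zero.mpr hq0) hb) (by rw [hneg]; exact hqa)
      (by rw [neg_mul, hneg]; exact hqb) (h.translate_zero hq0 ha)
    refine ⟨u, ⟨algebraMap (𝓞 K) K (u : 𝓞 K) * r,
      algebraMap (𝓞 K) K (u : 𝓞 K) * s / algebraMap (𝓞 K) K q,
      mul_ne_zero (hu0 u) hr, div_ne_zero (mul_ne_zero (hu0 u) hs) hq0,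
      Or.inr (Or.inl ⟨?_, ?_⟩)⟩, hp⟩
    · linear_combination (-algebraMap (𝓞 K) K (u : 𝓞 K)) * h1
    · field_simp
      linear_combination -h3
  · obtain ⟨u, r, s, hr, hs, h1, h3, hp⟩ := main (algebraMap (𝓞 K) K q * a) (2 * b)
      (mul_ne_zero hq0 ha) (mul_ne_zero two_ne_zero hb) hqa
      (by rw [map_mul, hv2, one_mul]; exact hqb) (h.translate_q hq0 hb)
    refine ⟨u, ⟨algebraMap (𝓞 K) K (u : 𝓞 K) * r / algebraMap (𝓞 K) K q,
      algebraMap (𝓞 K) K (u : 𝓞 K) * s / 2,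
      div_ne_zero (mul_ne_zero (hu0 u) hr) hq0, div_ne_zero (mul_ne_zero (hu0 u) hs) two_ne_zero,
      Or.inr (Or.inr (Or.inl ⟨?_, ?_⟩))⟩, hp⟩
    · field_simp
      linear_combination h1
    · linear_combination (algebraMap (𝓞 K) K (u : 𝓞 K)) * h3 / 2
  · obtain ⟨u, r, s, hr, hs, h1, h3, hp⟩ := main (algebraMap (𝓞 K) K q * (-a))
      (2 * (-algebraMap (𝓞 K) K q * b))
      (mul_ne_zero hq0 (neg_ne_zero.mpr ha))
      (mul_ne_zero two_ne_zero (mul_ne_zero (neg_ne_zero.mpr hq0) hb))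
      (by rw [mul_neg, hneg]; exact hqa)
      (by rw [map_mul, hv2, one_mul, neg_mul, hneg]; exact hqb)
      ((h.translate_zero hq0 ha).translate_q hq0 (mul_ne_zero (neg_ne_zero.mpr hq0) hb))
    refine ⟨u, ⟨algebraMap (𝓞 K) K (u : 𝓞 K) * r / algebraMap (𝓞 K) K q,
      algebraMap (𝓞 K) K (u : 𝓞 K) * s / (2 * algebraMap (𝓞 K) K q),
      div_ne_zero (mul_ne_zero (hu0 u) hr) hq0,
      div_ne_zero (mul_ne_zero (hu0 u) hs) (mul_ne_zero two_ne_zero hq0),
      Or.inr (Or.inr (Or.inr ⟨?_, ?_⟩))⟩, hp⟩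
    · field_simp
      linear_combination -h1
    · field_simp
      linear_combination -h3

end Pool.Agent.MP009fd8
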